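import Pool.Agent.HRJ.Defs
import Pool.Agent.PBL.B3c

/-!
# Project TWC (MP_33e5ad_gt, Q2): bodies homothetic to `Π_j² K` for all `2 ≤ j ≤ d/2 - 1`: definitions

Paper proof: /team-store/twc_proof.md.  `d = finrank ℝ V`, `k = d - j`.  Two-cycles of measures `ρ, ρ'`.  All notions of
project HRJ (`Pool/Agent/HRJ/Defs.lean`) are used: degrees `2 h`, `ff ρ (2 h)` the component of degree `2 h` of `ρ`,
`tT d h` (`T_h`), `rR d h` (`R_h`), `nn p m`, `aa d p h m`, `th ρ i`, `Sn ρ n g`, `DE E g`.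
-/

set_option autoImplicit false

namespace Pool.Agent.TWC

open MeasureTheory ProbabilityTheory Set Filter Topology Metric
open Pool.Agent.HP89 Pool.Agent.FI75 Pool.Agent.PBL Pool.Agent.HRJ
open scoped RealInnerProductSpace ENNReal

section
variable {V : Type*} [NormedAddCommGroup V] [InnerProductSpace ℝ V] [FiniteDimensional ℝ V]
  [MeasurableSpace V] [BorelSpace V]

/-- two-cycles -/
structure Tx (j : ℕ) (ρ ρ' : Measure V) : Prop where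
  us : US ρ
  us' : US ρ'
  hj : 2 ≤ j
  hjd : 2 * j + 2 ≤ Module.finrank ℝ V
  pos : 0 < en j ρ
  pos' : 0 < en j ρ'
  fix : ∀ u : V, ‖u‖ = 1 → hf (Nop j ρ) u = hf ρ' u
  fix' : ∀ u : V, ‖u‖ = 1 → hf (Nop j ρ') u = hf ρ u
  cyc : ∀ τ : Measure V, US τ → mW (j + 1) ρ τ = mW (j + 1) ρ' τ

theorem Tx.symm {j : ℕ} {ρ ρ' : Measure V} (h : Tx j ρ ρ') : Tx j ρ' ρ :=
  ⟨h.us', h.us, h.hj, h.hjd, h.pos', h.pos, h.fix', h.fix, fun τ hτ => (h.cyc τ hτ).symm⟩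

/-- `⟨f_l, f'_l⟩` -/
noncomputable def xy (ρ ρ' : Measure V) (l : ℕ) : ℝ := ∫ u, ff ρ l u ∂ρ'

/-- the test functions: degrees `2 h`, `h ≤ N`, with the coefficients `a h` (of `ρ`) and `b h` (of `ρ'`) -/
noncomputable def gg (ρ ρ' : Measure V) (a b : ℕ → ℝ) (N : ℕ) (u : V) : ℝ :=
  ∑ h ∈ Finset.range (N + 1), (a h * ff ρ (2 * h) u + b h * ff ρ' (2 * h) u)

/-- their images under the normalised cosine transform -/
noncomputable def ps (ρ ρ' : Measure V) (a b : ℕ → ℝ) (N : ℕ) (u : V) : ℝ :=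
  ∑ h ∈ Finset.range (N + 1), tT (Module.finrank ℝ V) h * (a h * ff ρ (2 * h) u + b h * ff ρ' (2 * h) u)

/-- the square norm of `α f_l + β f'_l` -/
noncomputable def qf (ρ ρ' : Measure V) (α β : ℝ) (l : ℕ) : ℝ :=
  α ^ 2 * xx ρ l + 2 * (α * β) * xy ρ ρ' l + β ^ 2 * xx ρ' l

/-- `|T_h| (1 - |R_h|)` -/
noncomputable def lm (d h : ℕ) : ℝ := |tT d h| * (1 - |rR d h|)

/-- the weighted square norm of the test function -/
noncomputable def GA (ρ ρ' : Measure V) (a b : ℕ → ℝ) (N : ℕ) : ℝ :=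
  ∑ h ∈ Finset.Icc 1 N, lm (Module.finrank ℝ V) h * qf ρ ρ' (a h) (b h) (2 * h)

/-- the sum in the trace inequality -/
noncomputable def SM (d p : ℕ) (s : Finset ℕ) (m : ℕ) : ℝ :=
  nn p m * ∑ h ∈ s, aa d p h m * (|tT d h| / (1 - |rR d h|))

/-- `1` for `h ≥ 2` -/
noncomputable def c1 (h : ℕ) : ℝ := if h ≤ 1 then 0 else 1

/-- `(-1)^h` for `h ≥ 2` -/
noncomputable def c2 (h : ℕ) : ℝ := if h ≤ 1 then 0 else (-1) ^ h

/-- `1` for `h = 1` -/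
noncomputable def e1 (h : ℕ) : ℝ := if h = 1 then 1 else 0

/-- twice the part of degree `≥ 4` of `A` -/
noncomputable def WN (ρ ρ' : Measure V) (N : ℕ) : ℝ :=
  ∑ h ∈ Finset.Icc 2 N, lm (Module.finrank ℝ V) h * qf ρ ρ' 1 ((-1) ^ h) (2 * h)

/-- `∑ λ_h |f_h|²` -/
noncomputable def AR (ρ : Measure V) (N : ℕ) : ℝ :=
  ∑ h ∈ Finset.Icc 1 N, lm (Module.finrank ℝ V) h * xx ρ (2 * h)

/-- the terms of `A` -/
noncomputable def al (ρ ρ' : Measure V) (h : ℕ) : ℝ :=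
  lm (Module.finrank ℝ V) h * qf ρ ρ' 1 ((-1) ^ h) (2 * h) / 2

/-- the terms of `B` -/
noncomputable def be (ρ ρ' : Measure V) (h : ℕ) : ℝ :=
  |tT (Module.finrank ℝ V) h| * (1 + |rR (Module.finrank ℝ V) h|) * qf ρ ρ' 1 (-(-1) ^ h) (2 * h) / 2

end

/-! ### Numbers -/

/-- `κ = 2 (k + 1) / ((k - 1) (k + 2))` -/
noncomputable def kap (k : ℕ) : ℝ := 2 * ((k : ℝ) + 1) / (((k : ℝ) - 1) * ((k : ℝ) + 2))

/-- `n_2 a_{2,2}` in dimension `k` -/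
noncomputable def Dk (d k : ℕ) : ℝ :=
  ((k : ℝ) + 1) / ((k : ℝ) - 1) * ((d : ℝ) * ((d : ℝ) + 2) / ((k : ℝ) * ((k : ℝ) + 2)))

/-- `n_2 a_{2,2} T_2` in dimension `p` -/
noncomputable def D2 (d p : ℕ) : ℝ := Dk d p / ((d : ℝ) + 1)

/-- the value for the degree `4` -/
noncomputable def v4 (d p : ℕ) : ℝ :=
  3 * v2 d p / ((p : ℝ) + 1) * (r2 d p * ((d : ℝ) + 4) / (2 * (p : ℝ) - d + 4))

/-- the bound of the trace constant of the degrees `≥ 4` -/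
noncomputable def Tq (d p : ℕ) : ℝ :=
  max (v2 d p * r2 d p - D2 d p) (v4 d p) / (1 - 3 / ((d : ℝ) ^ 2 - 1))

/-- the bound of the trace constant of all degrees `≥ 2` -/
noncomputable def Tk (d p : ℕ) : ℝ := v2 d p * r2 d p * (((d : ℝ) - 1) / ((d : ℝ) - 2))

/-- the constant of the degree two: `e = ce / θ²` -/
noncomputable def ce (d k : ℕ) : ℝ := Dk d k / ((d : ℝ) + 1) * (v2 d k * r2 d k)

/-- the sum of the trace constants -/
noncomputable def Sq (d j : ℕ) : ℝ := ∑ i ∈ Finset.Icc 2 j, Tq d (d - i + 1)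

/-- lower bound of `E |P_E z|²` -/
noncomputable def TT (d k : ℕ) : ℝ := (k : ℝ) / d - kap k

/-- lower bound of `θ²` -/
noncomputable def Q5 (d k : ℕ) : ℝ :=
  (d : ℝ) / k * TT d k ^ 2 /
    ((k : ℝ) / ((k : ℝ) + 2) * (TT d k + kap k * (2 + kap k)) / (1 + kap k) ^ 2 + 2 / ((k : ℝ) + 2))

/-- lower bound of `θ` -/
noncomputable def b3 (d j : ℕ) : ℝ := mG (d - 2 * j) * mG d / mG (d - j) ^ 2

/-- algebraic upper bounds -/
noncomputable def v4a (d p : ℕ) : ℝ :=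
  3 * vt d p / ((p : ℝ) + 1) * (rt2 d p * ((d : ℝ) + 4) / (2 * (p : ℝ) - d + 4))

noncomputable def Ta (d p : ℕ) : ℝ :=
  max (vt d p * rt2 d p - D2 d p) (v4a d p) / (1 - 3 / ((d : ℝ) ^ 2 - 1))

noncomputable def ca (d k : ℕ) : ℝ := Dk d k / ((d : ℝ) + 1) * (vt d k * rt2 d k)

noncomputable def Sa (d j : ℕ) : ℝ := ∑ i ∈ Finset.Icc 2 j, Ta d (d - i + 1)

/-- lower bound of `b3 ^ 2` -/
noncomputable def Q3 (d j : ℕ) : ℝ :=
  (d : ℝ) * (2 * ((d : ℝ) - 2 * j) - 1) / (((d : ℝ) - j) * (2 * ((d : ℝ) - j) - 1))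

end Pool.Agent.TWC
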