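import Pool.Agent.HRJ.C3a
import Pool.Agent.TWC.Defs

/-!
# TWC-A1: the test functions

Measurability and bounds of the test functions `gg ρ ρ' a b N` and of their normalised cosine transforms `ps ρ ρ' a b N`, and
the formula for the cosine transform.
-/

set_option autoImplicit false

namespace Pool.Agent.TWC

open MeasureTheory ProbabilityTheory Set Filter Topology Metric
open Pool.Agent.HP89 Pool.Agent.FI75 Pool.Agent.PBL Pool.Agent.HRJ
open scoped RealInnerProductSpace ENNReal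

variable {V : Type*} [NormedAddCommGroup V] [InnerProductSpace ℝ V] [FiniteDimensional ℝ V]
  [MeasurableSpace V] [BorelSpace V]

variable {ρ ρ' : Measure V}

private theorem a1_term (hρ : US ρ) (hρ' : US ρ') (hV : 3 ≤ Module.finrank ℝ V) (a b : ℕ → ℝ) (h : ℕ) (u : V) :
    |a h * ff ρ (2 * h) u + b h * ff ρ' (2 * h) u| ≤ |a h| * nN (Module.finrank ℝ V) (2 * h) +
      |b h| * nN (Module.finrank ℝ V) (2 * h) := by
  refine (abs_add_le _ _).trans ?_
  rw [abs_mul, abs_mul]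
  exact add_le_add (mul_le_mul_of_nonneg_left (ff_bdd hρ hV _ u) (abs_nonneg _))
    (mul_le_mul_of_nonneg_left (ff_bdd hρ' hV _ u) (abs_nonneg _))

private theorem a1_int (hρ : US ρ) (hV : 3 ≤ Module.finrank ℝ V) (l : ℕ) {v : V} (hv1 : ‖v‖ = 1) :
    Integrable (fun a => |⟪a, v⟫| * ff ρ l a) (ms (⊤ : Submodule ℝ V)) := by
  have := ms_prob (⊤ : Submodule ℝ V)
  have hm : Measurable (fun a : V => |⟪a, v⟫| * ff ρ l a) := by
    refine Measurable.mul ?_ (ff_meas hρ l)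
    exact (continuous_id.inner continuous_const).abs.measurable
  refine Integrable.of_bound hm.aestronglyMeasurable (nN (Module.finrank ℝ V) l) ?_
  filter_upwards [ms_unit (⊤ : Submodule ℝ V) (by rw [finrank_top]; omega)] with a ha
  rw [norm_mul, Real.norm_eq_abs, Real.norm_eq_abs, abs_abs]
  have h1 : |(⟪a, v⟫ : ℝ)| ≤ 1 := by
    have := abs_real_inner_le_norm a v
    rwa [ha.1, hv1, mul_one] at this
  calc |(⟪a, v⟫ : ℝ)| * |ff ρ l a| ≤ 1 * |ff ρ l a| := mul_le_mul_of_nonneg_right h1 (abs_nonneg _)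
    _ = |ff ρ l a| := one_mul _
    _ ≤ _ := ff_bdd hρ hV l a

theorem gg_swap (ρ ρ' : Measure V) (a b : ℕ → ℝ) (N : ℕ) : gg ρ ρ' a b N = gg ρ' ρ b a N := by
  funext u
  unfold gg
  exact Finset.sum_congr rfl fun h _ => add_comm _ _

theorem gg_meas (hρ : US ρ) (hρ' : US ρ') (a b : ℕ → ℝ) (N : ℕ) : Measurable (gg ρ ρ' a b N) := by
  unfold gg
  exact Finset.measurable_fun_sum _ fun h _ => ((ff_meas hρ _).const_mul _).add ((ff_meas hρ' _).const_mul _)

theorem gg_bdd (hρ : US ρ) (hρ' : US ρ') (hV : 3 ≤ Module.finrank ℝ V) (a b : ℕ → ℝ) (N : ℕ) :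
    ∃ C : ℝ, ∀ u, |gg ρ ρ' a b N u| ≤ C := by
  refine ⟨∑ h ∈ Finset.range (N + 1), (|a h| * nN (Module.finrank ℝ V) (2 * h) +
    |b h| * nN (Module.finrank ℝ V) (2 * h)), fun u => ?_⟩
  unfold gg
  refine (Finset.abs_sum_le_sum_abs _ _).trans ?_
  exact Finset.sum_le_sum fun h _ => a1_term hρ hρ' hV a b h u

theorem ps_meas (hρ : US ρ) (hρ' : US ρ') (a b : ℕ → ℝ) (N : ℕ) : Measurable (ps ρ ρ' a b N) := by
  unfold ps
  exact Finset.measurable_fun_sum _ fun h _ =>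
    (((ff_meas hρ _).const_mul _).add ((ff_meas hρ' _).const_mul _)).const_mul _

theorem ps_bdd (hρ : US ρ) (hρ' : US ρ') (hV : 3 ≤ Module.finrank ℝ V) (a b : ℕ → ℝ) (N : ℕ) :
    ∃ C : ℝ, ∀ u, |ps ρ ρ' a b N u| ≤ C := by
  refine ⟨∑ h ∈ Finset.range (N + 1), |tT (Module.finrank ℝ V) h| * (|a h| * nN (Module.finrank ℝ V) (2 * h) +
    |b h| * nN (Module.finrank ℝ V) (2 * h)), fun u => ?_⟩
  unfold ps
  refine (Finset.abs_sum_le_sum_abs _ _).trans ?_
  refine Finset.sum_le_sum fun h _ => ?_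
  rw [abs_mul]
  exact mul_le_mul_of_nonneg_left (a1_term hρ hρ' hV a b h u) (abs_nonneg _)

theorem ps_gg (hρ : US ρ) (hρ' : US ρ') (hV : 3 ≤ Module.finrank ℝ V) (a b : ℕ → ℝ) (N : ℕ) {v : V}
    (hv1 : ‖v‖ = 1) :
    ∫ x, |⟪x, v⟫| * gg ρ ρ' a b N x ∂(ms (⊤ : Submodule ℝ V)) = mm (Module.finrank ℝ V) * ps ρ ρ' a b N v := by
  have h1 : ∀ x : V, |⟪x, v⟫| * gg ρ ρ' a b N x = ∑ h ∈ Finset.range (N + 1),
      (a h * (|⟪x, v⟫| * ff ρ (2 * h) x) + b h * (|⟪x, v⟫| * ff ρ' (2 * h) x)) := by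
    intro x
    unfold gg
    rw [Finset.mul_sum]
    refine Finset.sum_congr rfl fun h _ => ?_
    ring
  have hi : ∀ h : ℕ, Integrable (fun x => a h * (|⟪x, v⟫| * ff ρ (2 * h) x)) (ms (⊤ : Submodule ℝ V)) :=
    fun h => (a1_int hρ hV _ hv1).const_mul _
  have hi' : ∀ h : ℕ, Integrable (fun x => b h * (|⟪x, v⟫| * ff ρ' (2 * h) x)) (ms (⊤ : Submodule ℝ V)) :=
    fun h => (a1_int hρ' hV _ hv1).const_mul _
  simp only [h1]
  have h2 : ∀ h ∈ Finset.range (N + 1), Integrable (fun x => a h * (|⟪x, v⟫| * ff ρ (2 * h) x) +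
      b h * (|⟪x, v⟫| * ff ρ' (2 * h) x)) (ms (⊤ : Submodule ℝ V)) := fun h _ => (hi h).add (hi' h)
  rw [integral_finsetSum _ h2]
  unfold ps
  rw [Finset.mul_sum]
  refine Finset.sum_congr rfl fun h _ => ?_
  rw [integral_add (hi h) (hi' h), integral_const_mul, integral_const_mul, ff_abs hρ hV hv1 h,
    ff_abs hρ' hV hv1 h]
  ring

end Pool.Agent.TWC
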