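import Pool.Agent.HRJ.C3
import Pool.Agent.TWC.A1

/-!
# TWC-A2: expansion of the restriction of `ps` to the unit sphere of a subspace

PROOF PLAN.  Copy `HRJ/C3.lean` (all private lemmas `c3_*` unchanged, they are about one measure and one degree): `c3_ff` gives `ff ρ (2h) v = ∑_{m ≤ M} pc E m (ff ρ (2h)) v` for
`h ≤ M`, the same for `ρ'`; then `pc` is linear (`integral_finsetSum`, `integral_add`, `integral_const_mul`) and the sums are exchanged (`Finset.sum_comm`).
-/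

set_option autoImplicit false

namespace Pool.Agent.TWC

open MeasureTheory ProbabilityTheory Set Filter Topology Metric
open Pool.Agent.HP89 Pool.Agent.FI75 Pool.Agent.PBL Pool.Agent.HRJ
open scoped RealInnerProductSpace ENNReal

variable {V : Type*} [NormedAddCommGroup V] [InnerProductSpace ℝ V] [FiniteDimensional ℝ V]
  [MeasurableSpace V] [BorelSpace V]

variable {ρ ρ' : Measure V}

omit [FiniteDimensional ℝ V] [MeasurableSpace V] [BorelSpace V] in
private theorem a2_nrm {w : V} (hw : ‖w‖ = 1) : nrm w = w := by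
  rw [nrm, hw, inv_one, one_smul]

private theorem a2_gK {p : ℕ} (hp : 3 ≤ p) (l : ℕ) {t : ℝ} (ht : |t| ≤ 1) : |gK p l t| ≤ nN p l := by
  rw [gK, abs_mul, abs_of_pos (nN_pos hp l)]
  calc nN p l * |gP p l t| ≤ nN p l * 1 := mul_le_mul_of_nonneg_left (gP_abs_le hp l ht) (nN_pos hp l).le
    _ = nN p l := mul_one _

omit [FiniteDimensional ℝ V] [MeasurableSpace V] [BorelSpace V] in
private theorem a2_inner {x y : V} (hx : ‖x‖ = 1) (hy : ‖y‖ = 1) : |⟪x, y⟫| ≤ 1 := by
  have := abs_real_inner_le_norm x y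
  rwa [hx, hy, mul_one] at this

/-- the expansion of the kernel -/
private theorem a2_ker {E : Submodule ℝ V} (hE : 3 ≤ Module.finrank ℝ E) (d M h : ℕ) (hM : h ≤ M) {v : V}
    (hv : v ∈ E) (hv1 : ‖v‖ = 1) (y : V) :
    ∑ m ∈ Finset.range (M + 1), ∫ w, gK (Module.finrank ℝ E) (2 * m) ⟪v, w⟫ * gK d (2 * h) ⟪w, y⟫ ∂(ms E) =
      gK d (2 * h) ⟪v, y⟫ := by
  obtain ⟨r, hr, hrt⟩ := gP_poly d h
  set p := Module.finrank ℝ E with hp
  set c : ℝ := ‖E.starProjection y‖ with hc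
  obtain ⟨z, hz, hz1, hyz⟩ : ∃ z : V, z ∈ E ∧ ‖z‖ = 1 ∧ E.starProjection y = c • z := by
    by_cases h0 : c = 0
    · refine ⟨v, hv, hv1, ?_⟩
      rw [h0, zero_smul]
      exact norm_eq_zero.1 (hc.symm.trans h0)
    · refine ⟨c⁻¹ • E.starProjection y, E.smul_mem _ (Submodule.starProjection_apply_mem E y), ?_, ?_⟩
      · rw [norm_smul, ← hc, norm_inv, Real.norm_eq_abs, abs_of_nonneg (norm_nonneg _ : 0 ≤ c)]
        exact inv_mul_cancel₀ h0
      · rw [smul_smul, mul_inv_cancel₀ h0, one_smul]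
  have hin : ∀ w ∈ E, ⟪w, y⟫ = c * ⟪w, z⟫ := by
    intro w hw
    have h1 : ⟪w, y⟫ = ⟪E.starProjection w, y⟫ := by
      rw [Submodule.starProjection_eq_self_iff.2 hw]
    rw [h1, Submodule.inner_starProjection_left_eq_right, hyz, inner_smul_right]
  set r' : Polynomial ℝ := r.comp (Polynomial.C (c ^ 2) * Polynomial.X) with hr'
  have hr'd : r'.natDegree ≤ M := by
    refine (Polynomial.natDegree_comp_le).trans ?_
    refine (Nat.mul_le_mul_left _ (Polynomial.natDegree_C_mul_le _ _)).trans ?_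
    rw [Polynomial.natDegree_X, mul_one]
    exact hr.trans hM
  have hr'e : ∀ s : ℝ, gP d (2 * h) (c * s) = r'.eval (s ^ 2) := by
    intro s
    rw [hrt, hr', Polynomial.eval_comp, Polynomial.eval_mul, Polynomial.eval_C, Polynomial.eval_X, mul_pow]
  set f : ℝ → ℝ := fun s => r'.eval (s ^ 2) with hf
  have hfc : Continuous f := r'.continuous.comp (continuous_pow 2)
  obtain ⟨C, hC⟩ : ∃ C : ℝ, ∀ t : ℝ, |t| ≤ 1 → |f t| ≤ C := by
    obtain ⟨C, hC⟩ := (isCompact_Icc (a := (-1 : ℝ)) (b := 1)).exists_bound_of_continuousOn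
      (hfc.continuousOn (s := Icc (-1 : ℝ) 1))
    exact ⟨C, fun t ht => hC t (abs_le.1 ht)⟩
  have key : ∀ m : ℕ, ∫ w, gK p (2 * m) ⟪v, w⟫ * gK d (2 * h) ⟪w, y⟫ ∂(ms E) =
      nN d (2 * h) * (mu p (2 * m) f * gK p (2 * m) ⟪v, z⟫) := by
    intro m
    have h1 : ∫ w, gK p (2 * m) ⟪v, w⟫ * gK d (2 * h) ⟪w, y⟫ ∂(ms E) =
        ∫ w, (nN p (2 * m) * nN d (2 * h)) * (f ⟪w, z⟫ * gP p (2 * m) ⟪v, w⟫) ∂(ms E) := by
      refine integral_congr_ae ?_
      filter_upwards [ms_unit E (by omega)] with w hw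
      show gK p (2 * m) ⟪v, w⟫ * gK d (2 * h) ⟪w, y⟫ = _
      rw [hin w hw.2, gK, gK, hr'e]
      simp only [hf]
      ring
    rw [h1, integral_const_mul, fh hE hv hv1 hz hz1 hfc.measurable hC (2 * m), ← hp, gK]
    ring
  rw [Finset.sum_congr rfl fun m _ => key m, ← Finset.mul_sum, ← poly_expand hE hr'd, hin v hv, gK, hr'e]

private theorem a2_fubini (hρ : US ρ) {E : Submodule ℝ V} (hE : 3 ≤ Module.finrank ℝ E)
    (hV : 3 ≤ Module.finrank ℝ V) (l m : ℕ) {v : V} (hv1 : ‖v‖ = 1) :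
    Integrable (Function.uncurry fun w y => gK (Module.finrank ℝ E) m ⟪v, w⟫ *
      gK (Module.finrank ℝ V) l ⟪nrm w, y⟫) ((ms E).prod ρ) := by
  have := ms_prob E
  have := hρ.prob
  have hm : Measurable (Function.uncurry fun w y : V => gK (Module.finrank ℝ E) m ⟪v, w⟫ *
      gK (Module.finrank ℝ V) l ⟪nrm w, y⟫) := by
    have h1 : Measurable (gK (Module.finrank ℝ E) m) := by
      unfold gK
      exact (continuous_gP _ _).measurable.const_mul _
    have h2 : Measurable (gK (Module.finrank ℝ V) l) := by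
      unfold gK
      exact (continuous_gP _ _).measurable.const_mul _
    refine Measurable.mul ?_ ?_
    · exact h1.comp (measurable_const.inner measurable_fst)
    · exact h2.comp ((measurable_nrm.comp measurable_fst).inner measurable_snd)
  refine Integrable.of_bound hm.aestronglyMeasurable
    (nN (Module.finrank ℝ E) m * nN (Module.finrank ℝ V) l) ?_
  have h1 : ∀ᵐ q ∂((ms E).prod ρ), ‖q.1‖ = 1 ∧ q.1 ∈ E :=
    Measure.quasiMeasurePreserving_fst.ae (ms_unit E (by omega))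
  have h2 : ∀ᵐ q ∂((ms E).prod ρ), ‖q.2‖ = 1 := Measure.quasiMeasurePreserving_snd.ae hρ.unit
  filter_upwards [h1, h2] with q hq1 hq2
  simp only [Function.uncurry]
  rw [Real.norm_eq_abs, abs_mul]
  refine mul_le_mul (a2_gK hE m (a2_inner hv1 hq1.1)) (a2_gK hV l ?_) (abs_nonneg _) (nN_pos hE m).le
  rw [a2_nrm hq1.1]
  exact a2_inner hq1.1 hq2

private theorem a2_ff (hρ : US ρ) {E : Submodule ℝ V} (hE : 3 ≤ Module.finrank ℝ E)
    (hV : 3 ≤ Module.finrank ℝ V) (M h : ℕ) (hM : h ≤ M) {v : V} (hv : v ∈ E) (hv1 : ‖v‖ = 1) :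
    ff ρ (2 * h) v = ∑ m ∈ Finset.range (M + 1), pc E m (ff ρ (2 * h)) v := by
  have := ms_prob E
  have := hρ.prob
  have h1 : ∀ m : ℕ, pc E m (ff ρ (2 * h)) v = ∫ y, ∫ w, gK (Module.finrank ℝ E) (2 * m) ⟪v, w⟫ *
      gK (Module.finrank ℝ V) (2 * h) ⟪nrm w, y⟫ ∂(ms E) ∂ρ := by
    intro m
    rw [← integral_integral_swap (a2_fubini hρ hE hV (2 * h) (2 * m) hv1)]
    unfold pc ff
    refine integral_congr_ae (Eventually.of_forall fun w => ?_)
    simp only
    rw [integral_const_mul]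
  have h2 : ∀ (m : ℕ) (y : V), ∫ w, gK (Module.finrank ℝ E) (2 * m) ⟪v, w⟫ *
      gK (Module.finrank ℝ V) (2 * h) ⟪nrm w, y⟫ ∂(ms E) =
      ∫ w, gK (Module.finrank ℝ E) (2 * m) ⟪v, w⟫ * gK (Module.finrank ℝ V) (2 * h) ⟪w, y⟫ ∂(ms E) := by
    intro m y
    refine integral_congr_ae ?_
    filter_upwards [ms_unit E (by omega)] with w hw
    rw [a2_nrm hw.1]
  have h3 : ∀ m : ℕ, Integrable (fun y => ∫ w, gK (Module.finrank ℝ E) (2 * m) ⟪v, w⟫ *
      gK (Module.finrank ℝ V) (2 * h) ⟪nrm w, y⟫ ∂(ms E)) ρ := fun m =>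
    (a2_fubini hρ hE hV (2 * h) (2 * m) hv1).integral_prod_right
  rw [Finset.sum_congr rfl fun m _ => h1 m, ← integral_finsetSum _ fun m _ => h3 m]
  unfold ff
  refine integral_congr_ae (Eventually.of_forall fun y => ?_)
  simp only
  rw [Finset.sum_congr rfl fun m _ => h2 m y, a2_ker hE (Module.finrank ℝ V) M h hM hv hv1 y, a2_nrm hv1]

theorem ps_expand (hρ : US ρ) (hρ' : US ρ') {E : Submodule ℝ V} (hE : 3 ≤ Module.finrank ℝ E) (a b : ℕ → ℝ) (N : ℕ)
    {v : V} (hv : v ∈ E) (hv1 : ‖v‖ = 1) :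
    ps ρ ρ' a b N v = ∑ m ∈ Finset.range (N + 1), pc E m (ps ρ ρ' a b N) v := by
  have hV : 3 ≤ Module.finrank ℝ V := hE.trans (Submodule.finrank_le E)
  have := ms_prob E
  have hint : ∀ (σ : Measure V) (_ : US σ) (l m : ℕ),
      Integrable (fun w => gK (Module.finrank ℝ E) (2 * m) ⟪v, w⟫ * ff σ l w) (ms E) := by
    intro σ hσ l m
    have h1 : Measurable (gK (Module.finrank ℝ E) (2 * m)) := by
      unfold gK
      exact (continuous_gP _ _).measurable.const_mul _
    refine Integrable.of_bound ((h1.comp (measurable_const.inner measurable_id)).mul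
      (ff_meas hσ l)).aestronglyMeasurable (nN (Module.finrank ℝ E) (2 * m) * nN (Module.finrank ℝ V) l) ?_
    filter_upwards [ms_unit E (by omega)] with w hw
    rw [Real.norm_eq_abs, abs_mul]
    exact mul_le_mul (a2_gK hE (2 * m) (a2_inner hv1 hw.1)) (ff_bdd hσ hV l w) (abs_nonneg _)
      (nN_pos hE (2 * m)).le
  have hpc : ∀ m : ℕ, pc E m (ps ρ ρ' a b N) v = ∑ h ∈ Finset.range (N + 1),
      tT (Module.finrank ℝ V) h * (a h * pc E m (ff ρ (2 * h)) v + b h * pc E m (ff ρ' (2 * h)) v) := by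
    intro m
    have h1 : pc E m (ps ρ ρ' a b N) v = ∫ w, ∑ h ∈ Finset.range (N + 1),
        (tT (Module.finrank ℝ V) h * a h * (gK (Module.finrank ℝ E) (2 * m) ⟪v, w⟫ * ff ρ (2 * h) w) +
          tT (Module.finrank ℝ V) h * b h * (gK (Module.finrank ℝ E) (2 * m) ⟪v, w⟫ * ff ρ' (2 * h) w))
          ∂(ms E) := by
      unfold pc ps
      refine integral_congr_ae (Eventually.of_forall fun w => ?_)
      simp only
      rw [Finset.mul_sum]
      exact Finset.sum_congr rfl fun r _ => by ring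
    have h2 : ∀ r ∈ Finset.range (N + 1), Integrable (fun w =>
        tT (Module.finrank ℝ V) r * a r * (gK (Module.finrank ℝ E) (2 * m) ⟪v, w⟫ * ff ρ (2 * r) w) +
          tT (Module.finrank ℝ V) r * b r * (gK (Module.finrank ℝ E) (2 * m) ⟪v, w⟫ * ff ρ' (2 * r) w))
        (ms E) := fun r _ => ((hint ρ hρ (2 * r) m).const_mul _).add ((hint ρ' hρ' (2 * r) m).const_mul _)
    rw [h1, integral_finsetSum _ h2]
    refine Finset.sum_congr rfl fun r _ => ?_
    rw [integral_add ((hint ρ hρ (2 * r) m).const_mul _) ((hint ρ' hρ' (2 * r) m).const_mul _),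
      integral_const_mul, integral_const_mul]
    unfold pc
    ring
  rw [Finset.sum_congr rfl fun m _ => hpc m, Finset.sum_comm]
  unfold ps
  refine Finset.sum_congr rfl fun h hh => ?_
  rw [Finset.mem_range] at hh
  rw [← Finset.mul_sum, Finset.sum_add_distrib, ← Finset.mul_sum, ← Finset.mul_sum,
    ← a2_ff hρ hE hV N h (by omega) hv hv1, ← a2_ff hρ' hE hV N h (by omega) hv hv1]

end Pool.Agent.TWC
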