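import Pool.Agent.HRJ.C1a
import Pool.Agent.TWC.Defs

/-!
# TWC-A3: the cross term `xy`

PROOF PLAN.  `ff_cross`: `∫ ff ρ l u * ff ρ' l u dσ = ∫ ff ρ l dρ'`: unfold `ff ρ' l u = ∫ gK ⟪nrm u, y⟫ dρ'(y)`, Fubini (bounded by `nN d l ^ 2`, `nN d l = sup |gK|` on `[-1,1]`), and `ff_rep`
(`∫ gK d l ⟪z, u⟫ * ff ρ l u dσ(u) = ff ρ l z` for unit `z`; `nrm u = u` for `σ`-almost all `u`, `ms_unit`); see the proof of `ff_sq` in `HRJ/C1a.lean`.  `xy_comm`: `ff_cross` is symmetric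
(`mul_comm`).  `qf_int`: expand the square (`ff_sq` for both, `ff_cross`).  `qf_nonneg`: `qf_int`.  `qf_zero`: from `qf 1 1 l = 0`, `qf 1 (-1) l = 0` and `xx_nonneg`: the sum is `2 (xx ρ l + xx ρ' l)`.
-/

set_option autoImplicit false

namespace Pool.Agent.TWC

open MeasureTheory ProbabilityTheory Set Filter Topology Metric
open Pool.Agent.HP89 Pool.Agent.FI75 Pool.Agent.PBL Pool.Agent.HRJ
open scoped RealInnerProductSpace ENNReal

variable {V : Type*} [NormedAddCommGroup V] [InnerProductSpace ℝ V] [FiniteDimensional ℝ V]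
  [MeasurableSpace V] [BorelSpace V]

variable {ρ ρ' : Measure V}

private theorem a3_cont_gK (p l : ℕ) : Continuous (gK p l) := by
  unfold gK
  exact continuous_const.mul (continuous_gP p l)

private theorem a3_gK_le {p : ℕ} (hp : 3 ≤ p) (l : ℕ) {t : ℝ} (ht : |t| ≤ 1) :
    |gK p l t| ≤ nN p l := by
  unfold gK
  rw [abs_mul, abs_of_pos (nN_pos hp l)]
  calc nN p l * |gP p l t| ≤ nN p l * 1 :=
        mul_le_mul_of_nonneg_left (gP_abs_le hp l ht) (nN_pos hp l).le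
    _ = nN p l := mul_one _

omit [FiniteDimensional ℝ V] [MeasurableSpace V] [BorelSpace V] in
private theorem a3_nrm {u : V} (hu : ‖u‖ = 1) : nrm u = u := by
  unfold nrm
  rw [hu, inv_one, one_smul]

omit [FiniteDimensional ℝ V] [MeasurableSpace V] [BorelSpace V] in
private theorem a3_inner_le {u y : V} (hu : ‖u‖ ≤ 1) (hy : ‖y‖ ≤ 1) : |⟪u, y⟫| ≤ 1 := by
  calc |⟪u, y⟫| ≤ ‖u‖ * ‖y‖ := abs_real_inner_le_norm u y
    _ ≤ 1 * 1 := mul_le_mul hu hy (norm_nonneg _) zero_le_one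
    _ = 1 := one_mul 1

private theorem a3_unit (hV : 3 ≤ Module.finrank ℝ V) :
    ∀ᵐ u ∂(ms (⊤ : Submodule ℝ V)), ‖u‖ = 1 := by
  have h := ms_unit (⊤ : Submodule ℝ V) (by rw [finrank_top]; omega)
  filter_upwards [h] with u hu using hu.1

theorem ff_cross (hρ : US ρ) (hρ' : US ρ') (hV : 3 ≤ Module.finrank ℝ V) (l : ℕ) :
    ∫ u, ff ρ l u * ff ρ' l u ∂(ms (⊤ : Submodule ℝ V)) = xy ρ ρ' l := by
  have := hρ.prob
  have := hρ'.prob
  have := ms_prob (⊤ : Submodule ℝ V)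
  have h1 : xy ρ ρ' l = ∫ z, ∫ u, gK (Module.finrank ℝ V) l ⟪z, u⟫ * ff ρ l u
      ∂(ms (⊤ : Submodule ℝ V)) ∂ρ' := by
    unfold xy
    apply integral_congr_ae
    filter_upwards [hρ'.unit] with z hz
    rw [ff_rep hρ hV hz l]
  have hint : Integrable (Function.uncurry fun z u : V =>
      gK (Module.finrank ℝ V) l ⟪z, u⟫ * ff ρ l u) (ρ'.prod (ms (⊤ : Submodule ℝ V))) := by
    have hm : Measurable (Function.uncurry fun z u : V =>
        gK (Module.finrank ℝ V) l ⟪z, u⟫ * ff ρ l u) := by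
      refine Measurable.mul ?_ ((ff_meas hρ l).comp measurable_snd)
      exact (a3_cont_gK _ _).measurable.comp (measurable_fst.inner measurable_snd)
    refine Integrable.of_bound hm.aestronglyMeasurable
      (nN (Module.finrank ℝ V) l * nN (Module.finrank ℝ V) l) ?_
    have h1 : ∀ᵐ q ∂(ρ'.prod (ms (⊤ : Submodule ℝ V))), ‖q.1‖ = 1 :=
      Measure.quasiMeasurePreserving_fst.ae hρ'.unit
    have h2 : ∀ᵐ q ∂(ρ'.prod (ms (⊤ : Submodule ℝ V))), ‖q.2‖ = 1 :=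
      Measure.quasiMeasurePreserving_snd.ae (a3_unit hV)
    filter_upwards [h1, h2] with q hq1 hq2
    show ‖gK (Module.finrank ℝ V) l ⟪q.1, q.2⟫ * ff ρ l q.2‖ ≤ _
    rw [norm_mul, Real.norm_eq_abs, Real.norm_eq_abs]
    exact mul_le_mul (a3_gK_le hV l (a3_inner_le hq1.le hq2.le)) (ff_bdd hρ hV l _)
      (abs_nonneg _) (nN_pos hV l).le
  rw [h1, integral_integral_swap hint]
  apply integral_congr_ae
  filter_upwards [a3_unit hV] with u hu
  show ff ρ l u * ff ρ' l u = ∫ z, gK (Module.finrank ℝ V) l ⟪z, u⟫ * ff ρ l u ∂ρ'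
  rw [integral_mul_const, mul_comm]
  congr 1
  conv_lhs => rw [ff, a3_nrm hu]
  congr 1
  funext y
  rw [real_inner_comm]

theorem xy_comm (hρ : US ρ) (hρ' : US ρ') (hV : 3 ≤ Module.finrank ℝ V) (l : ℕ) : xy ρ ρ' l = xy ρ' ρ l := by
  rw [← ff_cross hρ hρ' hV l, ← ff_cross hρ' hρ hV l]
  congr 1
  funext u
  rw [mul_comm]

private theorem a3_int {τ τ' : Measure V} (hρ : US τ) (hρ' : US τ') (hV : 3 ≤ Module.finrank ℝ V) (l : ℕ) :
    Integrable (fun u => ff τ l u * ff τ' l u) (ms (⊤ : Submodule ℝ V)) := by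
  have := ms_prob (⊤ : Submodule ℝ V)
  refine Integrable.of_bound ((ff_meas hρ l).mul (ff_meas hρ' l)).aestronglyMeasurable
    (nN (Module.finrank ℝ V) l * nN (Module.finrank ℝ V) l) (Eventually.of_forall fun u => ?_)
  rw [norm_mul, Real.norm_eq_abs, Real.norm_eq_abs]
  exact mul_le_mul (ff_bdd hρ hV l _) (ff_bdd hρ' hV l _) (abs_nonneg _) (nN_pos hV l).le

theorem qf_int (hρ : US ρ) (hρ' : US ρ') (hV : 3 ≤ Module.finrank ℝ V) (α β : ℝ) (l : ℕ) :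
    ∫ u, (α * ff ρ l u + β * ff ρ' l u) * (α * ff ρ l u + β * ff ρ' l u) ∂(ms (⊤ : Submodule ℝ V)) =
      qf ρ ρ' α β l := by
  have e : (fun u => (α * ff ρ l u + β * ff ρ' l u) * (α * ff ρ l u + β * ff ρ' l u)) =
      fun u => α ^ 2 * (ff ρ l u * ff ρ l u) + 2 * (α * β) * (ff ρ l u * ff ρ' l u) +
        β ^ 2 * (ff ρ' l u * ff ρ' l u) := by
    funext u
    ring
  have i1 := (a3_int hρ hρ hV l).const_mul (α ^ 2)
  have i2 := (a3_int hρ hρ' hV l).const_mul (2 * (α * β))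
  have i3 := (a3_int hρ' hρ' hV l).const_mul (β ^ 2)
  have i4 : Integrable (fun u => α ^ 2 * (ff ρ l u * ff ρ l u) + 2 * (α * β) * (ff ρ l u * ff ρ' l u))
      (ms (⊤ : Submodule ℝ V)) := i1.add i2
  rw [e, integral_add i4 i3, integral_add i1 i2,
    integral_const_mul, integral_const_mul, integral_const_mul, ff_sq hρ hV l, ff_sq hρ' hV l,
    ff_cross hρ hρ' hV l]
  rfl

theorem qf_nonneg (hρ : US ρ) (hρ' : US ρ') (hV : 3 ≤ Module.finrank ℝ V) (α β : ℝ) (l : ℕ) : 0 ≤ qf ρ ρ' α β l := by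
  rw [← qf_int hρ hρ' hV α β l]
  exact integral_nonneg fun u => mul_self_nonneg _

theorem qf_swap (hρ : US ρ) (hρ' : US ρ') (hV : 3 ≤ Module.finrank ℝ V) (α β : ℝ) (l : ℕ) :
    qf ρ ρ' α β l = qf ρ' ρ β α l := by
  unfold qf
  rw [xy_comm hρ hρ' hV l]
  ring

theorem qf_add (ρ ρ' : Measure V) (l : ℕ) : qf ρ ρ' 1 1 l + qf ρ ρ' 1 (-1) l = 2 * (xx ρ l + xx ρ' l) := by
  unfold qf
  ring

theorem xx_zero (hρ : US ρ) (hρ' : US ρ') (hV : 3 ≤ Module.finrank ℝ V) {l : ℕ} (h1 : qf ρ ρ' 1 1 l = 0)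
    (h2 : qf ρ ρ' 1 (-1) l = 0) : xx ρ l = 0 ∧ xx ρ' l = 0 := by
  have h3 := qf_add ρ ρ' l
  have h4 := xx_nonneg hρ hV l
  have h5 := xx_nonneg hρ' hV l
  rw [h1, h2] at h3
  constructor <;> linarith

end Pool.Agent.TWC
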