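import Pool.Agent.HRJ.A4
import Pool.Agent.TWC.Defs

/-!
# TWC-A5: signs and sizes of the multipliers

PROOF PLAN.  `|rR d h| = ∏_{i<h} (2i+1)/(2i+d-1)`: all factors are `< 1` (`d ≥ 3`), for `h ≥ 1` the product is `≤ 1/(d-1)`, for `h ≥ 2` it is `≤ 3/(d²-1)` (first two factors).  Signs: `rR_four`, `rR_two`, `tT_four`,
`tT_two` of HRJ-A4 (`h` even, `h = 2 (r+1)`: `T < 0 < R`; `h = 2r+1`: `T > 0 > R`).  `lm_sub`: `T_h (R_h (xx + xx') - 2 xy) = al h - be h` for every `h`: for `h = 0` both sides vanish (`xx 0 = xy 0 = 1` is not needed: `lm d 0 = 0`,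
and `qf 1 (-1) 0` is the only other term, so here `h ≥ 1`); for `h` even `|T| = -T`, `|R| = R`, `(-1)^h = 1`; for `h` odd `|T| = T`, `|R| = -R`, `(-1)^h = -1`; `ring`.
-/

set_option autoImplicit false

namespace Pool.Agent.TWC

open MeasureTheory ProbabilityTheory Set Filter Topology Metric
open Pool.Agent.HP89 Pool.Agent.FI75 Pool.Agent.PBL Pool.Agent.HRJ
open scoped RealInnerProductSpace ENNReal

private noncomputable def a5P (d h : ℕ) : ℝ :=
  ∏ i ∈ Finset.range h, (2 * (i : ℝ) + 1) / (2 * (i : ℝ) + d - 1)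

private theorem a5_cast {d : ℕ} (hd : 3 ≤ d) : (3 : ℝ) ≤ d := by exact_mod_cast hd

private theorem a5P_pos {d : ℕ} (hd : 3 ≤ d) (h : ℕ) : 0 < a5P d h := by
  have h3 := a5_cast hd
  refine Finset.prod_pos (fun i _ => ?_)
  have h0 : (0 : ℝ) ≤ i := Nat.cast_nonneg i
  exact div_pos (by linarith) (by linarith)

private theorem a5P_anti {d : ℕ} (hd : 3 ≤ d) {h n : ℕ} (hn : h ≤ n) : a5P d n ≤ a5P d h := by
  induction n, hn using Nat.le_induction with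
  | base => exact le_rfl
  | succ n _ ih =>
    refine le_trans ?_ ih
    have h3 := a5_cast hd
    have h0 : (0 : ℝ) ≤ n := Nat.cast_nonneg n
    have h1 : a5P d (n + 1) = a5P d n * ((2 * (n : ℝ) + 1) / (2 * (n : ℝ) + d - 1)) := by
      unfold a5P
      rw [Finset.prod_range_succ]
    rw [h1]
    refine mul_le_of_le_one_right (a5P_pos hd n).le ?_
    rw [div_le_one (by linarith)]
    linarith

private theorem a5_abs {d : ℕ} (hd : 3 ≤ d) (h : ℕ) : |rR d h| = a5P d h := by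
  unfold rR
  rw [abs_mul, abs_pow, abs_neg, abs_one, one_pow, one_mul]
  exact abs_of_pos (a5P_pos hd h)

theorem rR_abs_one {d : ℕ} (hd : 3 ≤ d) {h : ℕ} (hh : 1 ≤ h) : |rR d h| ≤ 1 / ((d : ℝ) - 1) := by
  rw [a5_abs hd]
  refine (a5P_anti hd hh).trans (le_of_eq ?_)
  unfold a5P
  rw [Finset.prod_range_one]
  norm_num

theorem rR_abs_two {d : ℕ} (hd : 3 ≤ d) {h : ℕ} (hh : 2 ≤ h) : |rR d h| ≤ 3 / ((d : ℝ) ^ 2 - 1) := by
  rw [a5_abs hd]
  refine (a5P_anti hd hh).trans (le_of_eq ?_)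
  have h3 := a5_cast hd
  have h4 : (d : ℝ) - 1 ≠ 0 := by
    intro h
    linarith
  have h5 : (d : ℝ) + 1 ≠ 0 := by
    intro h
    linarith
  unfold a5P
  rw [Finset.prod_range_succ, Finset.prod_range_one]
  have e1 : (d : ℝ) ^ 2 - 1 = ((d : ℝ) - 1) * ((d : ℝ) + 1) := by ring
  have e2 : 2 * ((1 : ℕ) : ℝ) + (d : ℝ) - 1 = (d : ℝ) + 1 := by push_cast; ring
  have e3 : 2 * ((0 : ℕ) : ℝ) + (d : ℝ) - 1 = (d : ℝ) - 1 := by push_cast; ring
  rw [e1, e2, e3]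
  push_cast
  field_simp
  norm_num

theorem rR_abs_lt {d : ℕ} (hd : 3 ≤ d) {h : ℕ} (hh : 1 ≤ h) : |rR d h| < 1 := by
  have h3 := a5_cast hd
  refine lt_of_le_of_lt (rR_abs_one hd hh) ?_
  rw [div_lt_one (by linarith)]
  linarith

private theorem a5_even {h : ℕ} (hh : 1 ≤ h) (he : Even h) : ∃ r, h = 2 * (r + 1) := by
  obtain ⟨r, hr⟩ := he
  exact ⟨r - 1, by omega⟩

private theorem a5_odd {h : ℕ} (he : ¬ Even h) : ∃ r, h = 2 * r + 1 := by
  rw [Nat.not_even_iff_odd] at he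
  obtain ⟨r, hr⟩ := he
  exact ⟨r, hr⟩

theorem tT_abs_pos {d : ℕ} (hd : 3 ≤ d) (h : ℕ) : 0 < |tT d h| := by
  rcases Nat.eq_zero_or_pos h with h0 | h0
  · subst h0
    rw [tT_zero, abs_one]
    exact one_pos
  · by_cases he : Even h
    · obtain ⟨r, hr⟩ := a5_even h0 he
      rw [hr]
      exact abs_pos.mpr (tT_four hd r).ne
    · obtain ⟨r, hr⟩ := a5_odd he
      rw [hr]
      exact abs_pos.mpr (tT_two hd r).ne'

theorem lm_pos {d : ℕ} (hd : 3 ≤ d) {h : ℕ} (hh : 1 ≤ h) : 0 < lm d h := by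
  unfold lm
  have h1 := rR_abs_lt hd hh
  exact mul_pos (tT_abs_pos hd h) (by linarith)

theorem lm_zero (d : ℕ) : lm d 0 = 0 := by
  unfold lm
  rw [rR_zero, abs_one, sub_self, mul_zero]

theorem tT_one (d : ℕ) : tT d 1 = 1 / ((d : ℝ) + 1) := by
  unfold tT
  rw [Finset.prod_range_one]
  push_cast
  ring

theorem lm_one {d : ℕ} (hd : 3 ≤ d) : lm d 1 = 1 / ((d : ℝ) + 1) * (((d : ℝ) - 2) / ((d : ℝ) - 1)) := by
  have h3 := a5_cast hd
  have h4 : (d : ℝ) - 1 ≠ 0 := by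
    intro h
    linarith
  have h5 : a5P d 1 = 1 / ((d : ℝ) - 1) := by
    unfold a5P
    rw [Finset.prod_range_one]
    norm_num
  unfold lm
  rw [a5_abs hd, h5, tT_one, abs_of_pos (div_pos one_pos (by linarith))]
  congr 1
  rw [eq_div_iff h4, sub_mul, div_mul_cancel₀ _ h4]
  ring

theorem lm_sub {d : ℕ} (hd : 3 ≤ d) {h : ℕ} (hh : 1 ≤ h) (x y z : ℝ) :
    tT d h * (rR d h * (x + z) - 2 * y) =
      lm d h * (1 ^ 2 * x + 2 * (1 * (-1) ^ h) * y + ((-1) ^ h) ^ 2 * z) / 2 -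
        |tT d h| * (1 + |rR d h|) * (1 ^ 2 * x + 2 * (1 * (-(-1) ^ h)) * y + (-(-1) ^ h) ^ 2 * z) / 2 := by
  unfold lm
  by_cases he : Even h
  · obtain ⟨r, hr⟩ := a5_even hh he
    have h1 := tT_four hd r
    have h2 := rR_four hd r
    rw [← hr] at h1 h2
    rw [abs_of_neg h1, abs_of_pos h2, he.neg_one_pow]
    ring
  · obtain ⟨r, hr⟩ := a5_odd he
    have h1 := tT_two hd r
    have h2 := rR_two hd r
    rw [← hr] at h1 h2
    rw [abs_of_pos h1, abs_of_neg h2, (Nat.not_even_iff_odd.mp he).neg_one_pow]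
    ring

end Pool.Agent.TWC
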