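import Pool.Agent.HRJ.C6
import Pool.Agent.TWC.A2
import Pool.Agent.TWC.A3
import Pool.Agent.TWC.A5

/-!
# TWC-A4: the trace inequality for two measures

PROOF PLAN.  As `HRJ/C6.lean` with `g = gg ρ ρ' a b N`, `ψ = ps ρ ρ' a b N`, `M = N`, `D = DE E g = ∑_{1≤m≤N} nn p m * pq_m = ∫ ψ η` (`DE_eq` with `ps_gg`, `ps_expand`; `et_pair`).
`D = ∑_{h ≤ N} T_h ∫ (a_h ff ρ (2h) + b_h ff ρ' (2h)) η d(ms E) = ∑_h T_h ∫ (a_h ff ρ (2h) + b_h ff ρ' (2h)) Z_h dσ` (`zz_pair` for both measures), `Z_h = ZZ E η h`.  Cauchy-Schwarz on the sphere (`c6_cs`, copy) and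
`qf_int`, `zz_sq`: `(∫ (a_h ff + b_h ff') Z_h)² ≤ qf ρ ρ' a_h b_h (2h) * z_h`, `z_h = ∑_m aa d p h m (nn p m ^ 2 pq_m)`.  For `h = 0` all `aa d p 0 m = 0` (`m ≥ 1`), so the term is zero; for `h ∉ s` (`1 ≤ h ≤ N`) the coefficients
are zero.  Finite Cauchy-Schwarz (`Finset.sum_sq_le_sum_mul_sum_of_sq_le_mul`) over `h ∈ s` with `T_h² = lm d h * (|T_h|/(1-|R_h|))` (`rR_abs_lt`, `lm_pos` of TWC-A5): `D² ≤ GA * ∑_{h∈s} |T_h|/(1-|R_h|) z_h`, and the second factor is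
`∑_m nn p m pq_m SM d p s m ≤ Θ D`.  The sum over `h ∈ s` of `lm qf` is at most (equal to) `GA` (the other terms are `qf 0 0 = 0`).  The case `D = 0`: `0 ≤ Θ GA` (`SM ≥ 0` for `m = 1`).
-/

set_option autoImplicit false

namespace Pool.Agent.TWC

open MeasureTheory ProbabilityTheory Set Filter Topology Metric
open Pool.Agent.HP89 Pool.Agent.FI75 Pool.Agent.PBL Pool.Agent.HRJ
open scoped RealInnerProductSpace ENNReal

variable {V : Type*} [NormedAddCommGroup V] [InnerProductSpace ℝ V] [FiniteDimensional ℝ V]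
  [MeasurableSpace V] [BorelSpace V]

variable {ρ ρ' : Measure V}

theorem GA_nonneg (hρ : US ρ) (hρ' : US ρ') (hV : 3 ≤ Module.finrank ℝ V) (a b : ℕ → ℝ) (N : ℕ) :
    0 ≤ GA ρ ρ' a b N := by
  unfold GA
  refine Finset.sum_nonneg fun h hh => mul_nonneg (lm_pos hV (Finset.mem_Icc.mp hh).1).le ?_
  exact qf_nonneg hρ hρ' hV _ _ _

private theorem a4_cs {μ : Measure V} {f g : V → ℝ} (hff : Integrable (fun u => f u * f u) μ)
    (hgg : Integrable (fun u => g u * g u) μ) (hfg : Integrable (fun u => f u * g u) μ) :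
    (∫ u, f u * g u ∂μ) ^ 2 ≤ (∫ u, f u * f u ∂μ) * ∫ u, g u * g u ∂μ := by
  have h : ∀ t : ℝ, 0 ≤ (∫ u, f u * f u ∂μ) * (t * t) + (2 * ∫ u, f u * g u ∂μ) * t + ∫ u, g u * g u ∂μ := by
    intro t
    have h0 : 0 ≤ ∫ u, (f u * t + g u) * (f u * t + g u) ∂μ := integral_nonneg fun u => mul_self_nonneg _
    have h1 : ∫ u, (f u * t + g u) * (f u * t + g u) ∂μ =
        (∫ u, f u * f u ∂μ) * (t * t) + (2 * ∫ u, f u * g u ∂μ) * t + ∫ u, g u * g u ∂μ := by
      have e : (fun u => (f u * t + g u) * (f u * t + g u)) =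
          fun u => (t * t) * (f u * f u) + (2 * t) * (f u * g u) + g u * g u := by
        funext u; ring
      have i1 : Integrable (fun u => (t * t) * (f u * f u)) μ := hff.const_mul _
      have i2 : Integrable (fun u => (2 * t) * (f u * g u)) μ := hfg.const_mul _
      have i3 : Integrable (fun u => (t * t) * (f u * f u) + (2 * t) * (f u * g u)) μ := i1.add i2
      rw [e, integral_add i3 hgg, integral_add i1 i2, integral_const_mul, integral_const_mul]
      ring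
    rwa [h1] at h0
  have h2 := discrim_le_zero h
  unfold discrim at h2
  nlinarith

private theorem a4_int {μ : Measure V} [IsFiniteMeasure μ] {f : V → ℝ} (hf : Measurable f) {C : ℝ}
    (h : ∀ᵐ u ∂μ, |f u| ≤ C) : Integrable f μ :=
  Integrable.of_bound hf.aestronglyMeasurable C (by simpa [Real.norm_eq_abs] using h)

private theorem a4_mul {a b A B : ℝ} (ha : |a| ≤ A) (hb : |b| ≤ B) : |a * b| ≤ A * B := by
  rw [abs_mul]
  exact mul_le_mul ha hb (abs_nonneg _) ((abs_nonneg _).trans ha)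

private theorem a4_lin_bdd (hρ : US ρ) (hρ' : US ρ') (hV : 3 ≤ Module.finrank ℝ V) (α β : ℝ) (l : ℕ) (u : V) :
    |α * ff ρ l u + β * ff ρ' l u| ≤
      |α| * nN (Module.finrank ℝ V) l + |β| * nN (Module.finrank ℝ V) l := by
  refine (abs_add_le _ _).trans ?_
  rw [abs_mul, abs_mul]
  exact add_le_add (mul_le_mul_of_nonneg_left (ff_bdd hρ hV l u) (abs_nonneg _))
    (mul_le_mul_of_nonneg_left (ff_bdd hρ' hV l u) (abs_nonneg _))

private theorem a4_y (hρ : US ρ) (hρ' : US ρ') {E : Submodule ℝ V} (hE : 3 ≤ Module.finrank ℝ E)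
    (hV : 3 ≤ Module.finrank ℝ V) (hEV : Module.finrank ℝ E < Module.finrank ℝ V) {ψ : V → ℝ} {C : ℝ}
    (hψ : Measurable ψ) (hC : ∀ v, |ψ v| ≤ C) (α β : ℝ) (M h : ℕ) :
    (∫ u, (α * ff ρ (2 * h) u + β * ff ρ' (2 * h) u) * ZZ E (et E M ψ) h u ∂(ms (⊤ : Submodule ℝ V))) ^ 2 ≤
      qf ρ ρ' α β (2 * h) * ∑ m ∈ Finset.Icc 1 M, aa (Module.finrank ℝ V) (Module.finrank ℝ E) h m *
        (nn (Module.finrank ℝ E) m ^ 2 * pq E m ψ) := by
  have := ms_prob (⊤ : Submodule ℝ V)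
  obtain ⟨C1, hC1⟩ := et_bdd hE hψ hC M
  have hm1 : Measurable (et E M ψ) := et_meas hψ M
  obtain ⟨C2, hC2⟩ := ZZ_bdd hE hm1 hC1 h
  have hm2 : Measurable (ZZ E (et E M ψ) h) := ZZ_meas hm1 h
  have hm3 : Measurable (fun u => α * ff ρ (2 * h) u + β * ff ρ' (2 * h) u) :=
    ((ff_meas hρ _).const_mul _).add ((ff_meas hρ' _).const_mul _)
  have hu : ∀ᵐ u ∂(ms (⊤ : Submodule ℝ V)), ‖u‖ = 1 := by
    have h1 : 1 ≤ Module.finrank ℝ (⊤ : Submodule ℝ V) := by
      rw [finrank_top]; omega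
    filter_upwards [ms_unit (⊤ : Submodule ℝ V) h1] with u hu using hu.1
  have hb : ∀ᵐ u ∂(ms (⊤ : Submodule ℝ V)), |ZZ E (et E M ψ) h u| ≤ C2 := by
    filter_upwards [hu] with u hu using hC2 u hu.le
  have hf : ∀ u, |α * ff ρ (2 * h) u + β * ff ρ' (2 * h) u| ≤
      |α| * nN (Module.finrank ℝ V) (2 * h) + |β| * nN (Module.finrank ℝ V) (2 * h) :=
    fun u => a4_lin_bdd hρ hρ' hV α β _ u
  have key := a4_cs (μ := ms (⊤ : Submodule ℝ V)) (f := fun u => α * ff ρ (2 * h) u + β * ff ρ' (2 * h) u)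
    (g := ZZ E (et E M ψ) h)
    (a4_int (hm3.mul hm3) (Filter.Eventually.of_forall fun u => a4_mul (hf u) (hf u)))
    (a4_int (hm2.mul hm2) (by filter_upwards [hb] with u hu using a4_mul hu hu))
    (a4_int (hm3.mul hm2) (by filter_upwards [hb] with u hu using a4_mul (hf u) hu))
  rw [qf_int hρ hρ' hV, zz_sq hE hEV hψ hC M h] at key
  exact key

private theorem a4_SM {d p : ℕ} (hp : 3 ≤ p) (hpd : p < d) {s : Finset ℕ} (hs : ∀ h ∈ s, 1 ≤ h) {m : ℕ} (hm : 1 ≤ m) :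
    0 ≤ SM d p s m := by
  have hd : 3 ≤ d := by omega
  unfold SM
  refine mul_nonneg (nn_pos hp hm).le (Finset.sum_nonneg fun h hh => mul_nonneg (aa_nonneg hp hpd _ _) ?_)
  have h2 := rR_abs_lt hd (hs h hh)
  exact div_nonneg (abs_nonneg _) (by linarith)

theorem trace2 (hρ : US ρ) (hρ' : US ρ') {E : Submodule ℝ V} (hE : 3 ≤ Module.finrank ℝ E)
    (hEV : Module.finrank ℝ E < Module.finrank ℝ V) (a b : ℕ → ℝ) (N : ℕ) {s : Finset ℕ} (hs : s ⊆ Finset.Icc 1 N)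
    (h0 : ∀ h ∈ Finset.Icc 1 N, h ∉ s → a h = 0 ∧ b h = 0) {Θ : ℝ}
    (hΘ : ∀ m, 1 ≤ m → SM (Module.finrank ℝ V) (Module.finrank ℝ E) s m ≤ Θ) :
    DE E (gg ρ ρ' a b N) ≤ Θ * GA ρ ρ' a b N := by
  set d := Module.finrank ℝ V with hd
  set p := Module.finrank ℝ E with hp
  have hV : 3 ≤ Module.finrank ℝ V := by omega
  have hs1 : ∀ h ∈ s, 1 ≤ h := fun h hh => (Finset.mem_Icc.mp (hs hh)).1
  set ψ := ps ρ ρ' a b N with hψd
  have hψ : Measurable ψ := ps_meas hρ hρ' a b N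
  obtain ⟨C, hC⟩ := ps_bdd hρ hρ' hV a b N
  obtain ⟨Cg, hCg⟩ := gg_bdd hρ hρ' hV a b N
  have hnn : ∀ m ∈ Finset.Icc 1 N, 0 ≤ nn p m * pq E m ψ := fun m hm =>
    mul_nonneg (nn_pos hE (Finset.mem_Icc.mp hm).1).le (pq_nonneg hE hψ hC m)
  have hD : DE E (gg ρ ρ' a b N) = ∑ m ∈ Finset.Icc 1 N, nn p m * pq E m ψ :=
    DE_eq hE (gg_meas hρ hρ' a b N) hCg hψ hC (fun v _ hv1 => ps_gg hρ hρ' hV a b N hv1)
      (fun v hv hv1 => ps_expand hρ hρ' hE a b N hv hv1)
  set D := ∑ m ∈ Finset.Icc 1 N, nn p m * pq E m ψ with hDdef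
  have hD0 : 0 ≤ D := Finset.sum_nonneg hnn
  have hAN : 0 ≤ GA ρ ρ' a b N := GA_nonneg hρ hρ' hV a b N
  have hΘ0 : 0 ≤ Θ := (a4_SM (d := d) (p := p) hE hEV hs1 le_rfl).trans (hΘ 1 le_rfl)
  have hη : Measurable (et E N ψ) := et_meas hψ _
  obtain ⟨C1, hC1⟩ := et_bdd hE hψ hC N
  have := ms_prob E
  have := ms_prob (⊤ : Submodule ℝ V)
  have hub : ∀ᵐ w ∂(ms E), |et E N ψ w| ≤ C1 := by
    filter_upwards [ms_unit E (by omega)] with w hw using hC1 w hw.1.le
  have huT : ∀ᵐ u ∂(ms (⊤ : Submodule ℝ V)), ‖u‖ = 1 := by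
    have h1 : 1 ≤ Module.finrank ℝ (⊤ : Submodule ℝ V) := by
      rw [finrank_top]; omega
    filter_upwards [ms_unit (⊤ : Submodule ℝ V) h1] with u hu using hu.1
  have hlam : ∀ h ∈ s, 0 < lm d h := fun h hh => lm_pos hV (hs1 h hh)
  have hR : ∀ h ∈ s, 0 < 1 - |rR d h| := fun h hh => by
    have := rR_abs_lt hV (hs1 h hh)
    linarith
  -- the terms
  set Y : ℕ → ℝ := fun h => ∫ u, (a h * ff ρ (2 * h) u + b h * ff ρ' (2 * h) u) * ZZ E (et E N ψ) h u
    ∂(ms (⊤ : Submodule ℝ V)) with hYd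
  have hY : ∀ h, Y h ^ 2 ≤ qf ρ ρ' (a h) (b h) (2 * h) * ∑ m ∈ Finset.Icc 1 N, aa d p h m *
        (nn p m ^ 2 * pq E m ψ) := fun h => a4_y hρ hρ' hE hV hEV hψ hC (a h) (b h) N h
  have hYs : ∀ h ∈ Finset.range (N + 1), h ∉ s → Y h = 0 := by
    intro h hh hhs
    rcases Nat.eq_zero_or_pos h with h1 | h1
    · subst h1
      have h2 := hY 0
      have h3 : ∑ m ∈ Finset.Icc 1 N, aa d p 0 m * (nn p m ^ 2 * pq E m ψ) = 0 := by
        refine Finset.sum_eq_zero fun m hm => ?_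
        have h4 : aa d p 0 m = 0 := by
          unfold aa
          rw [if_neg]
          have := (Finset.mem_Icc.mp hm).1
          omega
        rw [h4, zero_mul]
      rw [h3, mul_zero] at h2
      exact pow_eq_zero_iff (two_ne_zero) |>.1 (le_antisymm h2 (sq_nonneg _))
    · obtain ⟨h2, h3⟩ := h0 h (Finset.mem_Icc.mpr ⟨h1, by have := Finset.mem_range.mp hh; omega⟩) hhs
      simp only [hYd, h2, h3, zero_mul, add_zero, integral_zero]
  -- the pairing
  have hpair : D = ∑ h ∈ s, tT d h * Y h := by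
    have h1 : D = ∫ w, ψ w * et E N ψ w ∂(ms E) := (et_pair hE hψ hC N).symm
    have h2 : ∀ w, ψ w * et E N ψ w = ∑ h ∈ Finset.range (N + 1), tT d h *
        (a h * (ff ρ (2 * h) w * et E N ψ w) + b h * (ff ρ' (2 * h) w * et E N ψ w)) := by
      intro w
      have e : ψ w = ∑ h ∈ Finset.range (N + 1), tT d h * (a h * ff ρ (2 * h) w + b h * ff ρ' (2 * h) w) := rfl
      rw [e, Finset.sum_mul]
      exact Finset.sum_congr rfl fun r _ => by ring
    have i1 : ∀ h, Integrable (fun w => ff ρ (2 * h) w * et E N ψ w) (ms E) := by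
      intro h
      refine a4_int ((ff_meas hρ _).mul hη) (C := nN d (2 * h) * C1) ?_
      filter_upwards [hub] with w hw using a4_mul (ff_bdd hρ hV _ w) hw
    have i2 : ∀ h, Integrable (fun w => ff ρ' (2 * h) w * et E N ψ w) (ms E) := by
      intro h
      refine a4_int ((ff_meas hρ' _).mul hη) (C := nN d (2 * h) * C1) ?_
      filter_upwards [hub] with w hw using a4_mul (ff_bdd hρ' hV _ w) hw
    have h3 : D = ∑ h ∈ Finset.range (N + 1), tT d h * Y h := by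
      rw [h1]
      simp only [h2]
      rw [integral_finsetSum]
      · refine Finset.sum_congr rfl fun h _ => ?_
        rw [integral_const_mul, integral_add ((i1 h).const_mul _) ((i2 h).const_mul _), integral_const_mul,
          integral_const_mul, zz_pair hE hρ hη hC1, zz_pair hE hρ' hη hC1]
        congr 1
        obtain ⟨C2, hC2⟩ := ZZ_bdd hE hη hC1 h
        have hm2 : Measurable (ZZ E (et E N ψ) h) := ZZ_meas hη h
        have hb : ∀ᵐ u ∂(ms (⊤ : Submodule ℝ V)), |ZZ E (et E N ψ) h u| ≤ C2 := by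
          filter_upwards [huT] with u hu using hC2 u hu.le
        have j1 : Integrable (fun u => ff ρ (2 * h) u * ZZ E (et E N ψ) h u) (ms (⊤ : Submodule ℝ V)) := by
          refine a4_int ((ff_meas hρ _).mul hm2) (C := nN d (2 * h) * C2) ?_
          filter_upwards [hb] with w hw using a4_mul (ff_bdd hρ hV _ w) hw
        have j2 : Integrable (fun u => ff ρ' (2 * h) u * ZZ E (et E N ψ) h u) (ms (⊤ : Submodule ℝ V)) := by
          refine a4_int ((ff_meas hρ' _).mul hm2) (C := nN d (2 * h) * C2) ?_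
          filter_upwards [hb] with w hw using a4_mul (ff_bdd hρ' hV _ w) hw
        rw [hYd, ← integral_const_mul, ← integral_const_mul, ← integral_add (j1.const_mul _) (j2.const_mul _)]
        refine integral_congr_ae (Filter.Eventually.of_forall fun u => ?_)
        simp only
        ring
      · intro h _
        exact (((i1 h).const_mul _).add ((i2 h).const_mul _)).const_mul _
    rw [h3]
    symm
    refine Finset.sum_subset (fun h hh => ?_) (fun h hh hhs => by rw [hYs h hh hhs, mul_zero])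
    have := Finset.mem_Icc.mp (hs hh)
    exact Finset.mem_range.mpr (by omega)
  -- the weights
  have hGA : GA ρ ρ' a b N = ∑ h ∈ s, lm d h * qf ρ ρ' (a h) (b h) (2 * h) := by
    unfold GA
    symm
    refine Finset.sum_subset hs fun h hh hhs => ?_
    obtain ⟨h2, h3⟩ := h0 h hh hhs
    rw [h2, h3]
    unfold qf
    ring
  -- Cauchy-Schwarz
  have hsq : D ^ 2 ≤ (∑ h ∈ s, lm d h * qf ρ ρ' (a h) (b h) (2 * h)) *
      ∑ h ∈ s, (|tT d h| / (1 - |rR d h|)) *
        ∑ m ∈ Finset.Icc 1 N, aa d p h m * (nn p m ^ 2 * pq E m ψ) := by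
    rw [hpair]
    have hz : ∀ h, 0 ≤ ∑ m ∈ Finset.Icc 1 N, aa d p h m * (nn p m ^ 2 * pq E m ψ) :=
      fun h => Finset.sum_nonneg fun m _ => mul_nonneg (aa_nonneg hE hEV _ _)
        (mul_nonneg (sq_nonneg _) (pq_nonneg hE hψ hC m))
    refine Finset.sum_sq_le_sum_mul_sum_of_sq_le_mul _
      (fun h hh => mul_nonneg (hlam h hh).le (qf_nonneg hρ hρ' hV _ _ _))
      (fun h hh => mul_nonneg (div_nonneg (abs_nonneg _) (hR h hh).le) (hz h)) (fun h hh => ?_)
    have hy := hY h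
    rw [mul_pow]
    have e2 : lm d h * qf ρ ρ' (a h) (b h) (2 * h) * (|tT d h| / (1 - |rR d h|) *
        ∑ m ∈ Finset.Icc 1 N, aa d p h m * (nn p m ^ 2 * pq E m ψ)) =
        tT d h ^ 2 * (qf ρ ρ' (a h) (b h) (2 * h) *
          ∑ m ∈ Finset.Icc 1 N, aa d p h m * (nn p m ^ 2 * pq E m ψ)) := by
      unfold lm
      have h5 := (hR h hh).ne'
      rw [← sq_abs (tT d h)]
      field_simp
    rw [e2]
    exact mul_le_mul_of_nonneg_left hy (sq_nonneg _)
  have hex : ∑ h ∈ s, (|tT d h| / (1 - |rR d h|)) *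
        ∑ m ∈ Finset.Icc 1 N, aa d p h m * (nn p m ^ 2 * pq E m ψ) =
      ∑ m ∈ Finset.Icc 1 N, (nn p m * pq E m ψ) * SM d p s m := by
    simp only [Finset.mul_sum]
    rw [Finset.sum_comm]
    refine Finset.sum_congr rfl fun m _ => ?_
    unfold SM
    rw [Finset.mul_sum, Finset.mul_sum]
    exact Finset.sum_congr rfl fun r _ => by ring
  have hle : ∑ m ∈ Finset.Icc 1 N, (nn p m * pq E m ψ) * SM d p s m ≤ Θ * D := by
    rw [hDdef, Finset.mul_sum]
    refine Finset.sum_le_sum fun m hm => ?_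
    rw [mul_comm]
    exact mul_le_mul_of_nonneg_right (hΘ m (Finset.mem_Icc.mp hm).1) (hnn m hm)
  have hfin : D ^ 2 ≤ GA ρ ρ' a b N * (Θ * D) := by
    refine hsq.trans ?_
    rw [hex, ← hGA]
    exact mul_le_mul_of_nonneg_left hle hAN
  rw [hD]
  rcases hD0.eq_or_lt with h0 | h0
  · rw [← h0]
    exact mul_nonneg hΘ0 hAN
  · have : D * D ≤ (Θ * GA ρ ρ' a b N) * D := by nlinarith [hfin]
    exact le_of_mul_le_mul_right this h0

end Pool.Agent.TWC
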