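import Pool.Agent.HRJ.D7
import Pool.Agent.TWC.B2
import Pool.Agent.TWC.A1
import Pool.Agent.TWC.A3

/-!
# TWC-B1b: `S_j` of the test functions

PROOF PLAN.  As `hSj` in the proof of `HRJ.Sn_diff` (`HRJ/D7.lean`; copy the private lemmas `sN_eq`, `fub`, `g_hf`): `sN ρ j g = ∫ g(a) iw j ρ (‖rv X a‖) dσ(a)` and `iw j ρ (‖rv X a‖) = en j ρ * hf ρ' a / mm (d - j)` (`key2`
of TWC-B2), so `Sn ρ j g = (∫ g hf ρ' dσ)/mm d`; `∫ g hf ρ' dσ = ∫ (∫ |⟪x, a⟫| g(a) dσ(a)) dρ'(x) = mm d ∑_h T_h (a_h ∫ ff ρ (2h) dρ' + b_h ∫ ff ρ' (2h) dρ')` (`ps_gg`), `∫ ff ρ (2h) dρ' = xy ρ ρ' (2h)` and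
`∫ ff ρ' (2h) dρ' = xx ρ' (2h)` by definition.
-/

set_option autoImplicit false

namespace Pool.Agent.TWC

open MeasureTheory ProbabilityTheory Set Filter Topology Metric
open Pool.Agent.HP89 Pool.Agent.FI75 Pool.Agent.PBL Pool.Agent.HRJ
open scoped RealInnerProductSpace ENNReal

variable {V : Type*} [NormedAddCommGroup V] [InnerProductSpace ℝ V] [FiniteDimensional ℝ V]
  [MeasurableSpace V] [BorelSpace V]

variable {ρ ρ' : Measure V} {j : ℕ}

private theorem nrv {n : ℕ} (X : Fin n → V) (a : V) : ‖rv X a‖ ≤ ‖a‖ := norm_res_le _ _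

private theorem wvp {n : ℕ} (x : Fin n → V) : wv x ≤ ∏ m, ‖x m‖ := by
  have h := wn_le_prod (List.ofFn x)
  rw [List.map_ofFn, List.prod_ofFn] at h
  exact h

private theorem ms_int (hV : 1 ≤ Module.finrank ℝ V) : Integrable (fun a : V => ‖a‖) (ms (⊤ : Submodule ℝ V)) := by
  have := ms_prob (⊤ : Submodule ℝ V)
  have h1 : (fun _ : V => (1 : ℝ)) =ᵐ[ms (⊤ : Submodule ℝ V)] (fun a : V => ‖a‖) := by
    have hE : 1 ≤ Module.finrank ℝ (⊤ : Submodule ℝ V) := by rw [finrank_top]; exact hV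
    filter_upwards [ms_unit (⊤ : Submodule ℝ V) hE] with a ha
    exact ha.1.symm
  exact (integrable_const (1 : ℝ)).congr h1

private theorem fub {α : Type*} [MeasurableSpace α] {μ : Measure α} [SFinite μ] (hV : 1 ≤ Module.finrank ℝ V)
    {g : V → ℝ} (hg : Measurable g) {C : ℝ} (hC : ∀ a, |g a| ≤ C) {K : α → V → ℝ}
    (hK : Measurable (Function.uncurry K)) {B : α → ℝ} (hB : Integrable B μ)
    (hKB : ∀ x a, |K x a| ≤ B x * ‖a‖) :
    ∫ x, ∫ a, K x a * g a ∂(ms (⊤ : Submodule ℝ V)) ∂μ =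
      ∫ a, g a * ∫ x, K x a ∂μ ∂(ms (⊤ : Submodule ℝ V)) := by
  have := ms_prob (⊤ : Submodule ℝ V)
  have hC0 : 0 ≤ C := (abs_nonneg _).trans (hC 0)
  rw [integral_integral_swap]
  · refine integral_congr_ae (Eventually.of_forall fun a => ?_)
    simp only
    rw [integral_mul_const, mul_comm]
  · have h1 : Integrable (fun p : α × V => B p.1 * (C * ‖p.2‖)) (μ.prod (ms (⊤ : Submodule ℝ V))) :=
      hB.mul_prod ((ms_int hV).const_mul C)
    refine h1.mono' ?_ (Eventually.of_forall fun p => ?_)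
    · exact (hK.mul (hg.comp measurable_snd)).aestronglyMeasurable
    · simp only [Function.uncurry, norm_mul, Real.norm_eq_abs]
      calc |K p.1 p.2| * |g p.2| ≤ (B p.1 * ‖p.2‖) * C :=
            mul_le_mul (hKB _ _) (hC _) (abs_nonneg _) ((abs_nonneg _).trans (hKB _ _))
        _ = B p.1 * (C * ‖p.2‖) := by ring

private theorem sN_eq (hρ : US ρ) (hV : 1 ≤ Module.finrank ℝ V) (n : ℕ)
    {g : V → ℝ} (hg : Measurable g) {C : ℝ} (hC : ∀ a, |g a| ≤ C) :
    sN ρ n g = ∫ a, g a * iw n ρ (fun X => ‖rv X a‖) ∂(ms (⊤ : Submodule ℝ V)) := by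
  have := hρ.prob
  unfold sN iw
  have h1 := fub (μ := pp n ρ) hV hg hC (K := fun X a => wv X * ‖rv X a‖)
    (B := fun X => ∏ i, ‖X i‖) ?_ ?_ ?_
  · rw [← h1]
    refine integral_congr_ae (Eventually.of_forall fun X => ?_)
    simp only
    rw [← integral_const_mul]
    refine integral_congr_ae (Eventually.of_forall fun a => ?_)
    simp only
    ring
  · exact ((measurable_wv n).comp measurable_fst).mul (measurable_rv n).norm
  · refine Integrable.fintype_prod (f := fun (_ : Fin n) (x : V) => ‖x‖) (fun i => ?_)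
    exact (integrable_const (1 : ℝ)).congr (by filter_upwards [hρ.unit] with x hx using hx.symm)
  · intro X a
    have hw : 0 ≤ wv X := wn_nonneg _
    rw [abs_mul, abs_of_nonneg hw, abs_of_nonneg (norm_nonneg _)]
    exact mul_le_mul (wvp X) (nrv X a) (norm_nonneg _) (Finset.prod_nonneg fun i _ => norm_nonneg _)

private theorem rint (hρ : US ρ) : Integrable (fun x : V => ‖x‖) ρ := by
  have := hρ.prob
  exact (integrable_const (1 : ℝ)).congr (by filter_upwards [hρ.unit] with x hx using hx.symm)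

private theorem ff_int (hρ : US ρ) (hρ' : US ρ') (hV : 3 ≤ Module.finrank ℝ V) (l : ℕ) :
    Integrable (ff ρ l) ρ' := by
  have := hρ'.prob
  exact (integrable_const (nN (Module.finrank ℝ V) l)).mono'
    (ff_meas hρ _).aestronglyMeasurable (Eventually.of_forall fun a => ff_bdd hρ hV _ a)

/-- the integral of the test function against the support function -/
private theorem g_hf (hρ : US ρ) (hρ' : US ρ') (hV : 3 ≤ Module.finrank ℝ V) (a b : ℕ → ℝ) (N : ℕ) :
    ∫ x, gg ρ ρ' a b N x * hf ρ' x ∂(ms (⊤ : Submodule ℝ V)) =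
      mm (Module.finrank ℝ V) * ∑ h ∈ Finset.range (N + 1),
        tT (Module.finrank ℝ V) h * (a h * xy ρ ρ' (2 * h) + b h * xx ρ' (2 * h)) := by
  have := hρ'.prob
  have := ms_prob (⊤ : Submodule ℝ V)
  obtain ⟨C, hC⟩ := gg_bdd hρ hρ' hV a b N
  have h1 := fub (μ := ρ') (by omega) (gg_meas hρ hρ' a b N) hC (K := fun x y => |⟪x, y⟫|)
    (B := fun x => ‖x‖) ?_ (rint hρ') ?_
  · unfold hf
    rw [← h1]
    have h2 : (fun x : V => ∫ y, |⟪x, y⟫| * gg ρ ρ' a b N y ∂(ms (⊤ : Submodule ℝ V))) =ᵐ[ρ']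
        (fun x : V => mm (Module.finrank ℝ V) * ps ρ ρ' a b N x) := by
      filter_upwards [hρ'.unit] with x hx
      rw [← ps_gg hρ hρ' hV a b N hx]
      refine integral_congr_ae (Eventually.of_forall fun y => ?_)
      simp only
      rw [real_inner_comm]
    rw [integral_congr_ae h2, integral_const_mul]
    congr 1
    unfold ps
    have hi : ∀ h : ℕ, Integrable (fun x => a h * ff ρ (2 * h) x) ρ' := fun h => (ff_int hρ hρ' hV _).const_mul _
    have hi' : ∀ h : ℕ, Integrable (fun x => b h * ff ρ' (2 * h) x) ρ' := fun h => (ff_int hρ' hρ' hV _).const_mul _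
    have h3 : ∀ h ∈ Finset.range (N + 1), Integrable (fun x => tT (Module.finrank ℝ V) h *
        (a h * ff ρ (2 * h) x + b h * ff ρ' (2 * h) x)) ρ' := fun h _ => ((hi h).add (hi' h)).const_mul _
    rw [integral_finsetSum _ h3]
    refine Finset.sum_congr rfl fun h _ => ?_
    rw [integral_const_mul, integral_add (hi h) (hi' h), integral_const_mul, integral_const_mul]
    rfl
  · exact (measurable_fst.inner measurable_snd).abs
  · intro x a
    rw [abs_abs]
    exact abs_real_inner_le_norm x a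

theorem sn_j (h : Tx j ρ ρ') (a b : ℕ → ℝ) (N : ℕ) :
    Sn ρ j (gg ρ ρ' a b N) = ∑ h ∈ Finset.range (N + 1), tT (Module.finrank ℝ V) h *
      (a h * xy ρ ρ' (2 * h) + b h * xx ρ' (2 * h)) := by
  have hρ := h.us
  have hρ' := h.us'
  have := hρ.prob
  have := ms_prob (⊤ : Submodule ℝ V)
  have hj := h.hj
  have hjd := h.hjd
  have hV : 3 ≤ Module.finrank ℝ V := by omega
  have hV1 : 1 ≤ Module.finrank ℝ V := by omega
  obtain ⟨C, hC⟩ := gg_bdd hρ hρ' hV a b N
  have hm := gg_meas hρ hρ' a b N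
  have hmG : ∀ k : ℕ, 1 ≤ k → 0 < mG k := fun k hk => mG_pos hk
  unfold Sn
  rw [sN_eq hρ hV1 j hm hC]
  have hmk : 0 < mm (Module.finrank ℝ V - j) := mm_pos (by omega)
  have hmd : 0 < mm (Module.finrank ℝ V) := mm_pos (by omega)
  have h1 : (fun x => gg ρ ρ' a b N x * iw j ρ (fun X => ‖rv X x‖)) =ᵐ[ms (⊤ : Submodule ℝ V)]
      (fun x => en j ρ / mm (Module.finrank ℝ V - j) * (gg ρ ρ' a b N x * hf ρ' x)) := by
    have hE : 1 ≤ Module.finrank ℝ (⊤ : Submodule ℝ V) := by rw [finrank_top]; exact hV1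
    filter_upwards [ms_unit (⊤ : Submodule ℝ V) hE] with x hx
    have hk := key2 h hx.1
    have : iw j ρ (fun X => ‖rv X x‖) = en j ρ * hf ρ' x / mm (Module.finrank ℝ V - j) := by
      rw [hk]; field_simp
    rw [this]
    ring
  rw [integral_congr_ae h1, integral_const_mul, g_hf hρ hρ' hV a b N]
  have hcc : mm (Module.finrank ℝ V - j) * cc (Module.finrank ℝ V) j = mm (Module.finrank ℝ V) := by
    unfold mm cc
    have h2 := (hmG (Module.finrank ℝ V - j) (by omega)).ne'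
    have h3 := (hmG (Module.finrank ℝ V) (by omega)).ne'
    field_simp
  have he := h.pos.ne'
  have hc : cc (Module.finrank ℝ V) j ≠ 0 := by
    unfold cc
    exact div_ne_zero (hmG _ (by omega)).ne' (hmG _ (by omega)).ne'
  rw [← hcc]
  field_simp

end Pool.Agent.TWC
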