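import Pool.Agent.HRJ.B1
import Pool.Agent.PBL.C5
import Pool.Agent.PBL.D0b
import Pool.Agent.TWC.Defs

/-!
# TWC-B3a: the mean of `‖P_E x‖` over the unit sphere of `E'`

PROOF PLAN.  `F0 = E ⊓ E'` has `finrank ≥ p + k - d =: n ≥ 1` (`Submodule.finrank_sup_add_finrank_inf_eq`, `finrank (E ⊔ E') ≤ d`); choose a submodule `F ≤ F0` with `finrank F = n` exactly (for instance the span of `n` vectors of
a basis of `F0`; `Submodule.exists_...` or induction).  `‖P_E x‖ ≥ ‖P_F x‖` as `F ≤ E` (`P_F = P_F P_E`).  `sub_mean`: for `F ≤ E'`, `mG k * av E' (‖P_F x‖) = mG (finrank F)`: `∫ ‖P_F g‖ dγ = mG (finrank F)`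
(`HRJ.B1`: `ms_norm` and its proof; FI75: `mG n` is the mean norm), and `P_F g = P_F (P_E' g) = ‖P_E' g‖ • P_F (nrm (P_E' g))`, so by `rad_real` (PBL-C0, with `f t = t`) `mG (finrank F) = mG k * av E' (‖P_F x‖)`.
-/

set_option autoImplicit false

namespace Pool.Agent.TWC

open MeasureTheory ProbabilityTheory Set Filter Topology Metric
open Pool.Agent.HP89 Pool.Agent.FI75 Pool.Agent.PBL Pool.Agent.HRJ
open scoped RealInnerProductSpace ENNReal

variable {V : Type*} [NormedAddCommGroup V] [InnerProductSpace ℝ V] [FiniteDimensional ℝ V]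
  [MeasurableSpace V] [BorelSpace V]

omit [FiniteDimensional ℝ V] [MeasurableSpace V] [BorelSpace V] in
private theorem norm_nrm_le (x : V) : ‖nrm x‖ ≤ 1 := by
  rw [nrm, norm_smul, norm_inv, norm_norm]
  exact inv_mul_le_one

omit [MeasurableSpace V] [BorelSpace V] in
private theorem B3a_proj {F E' : Submodule ℝ V} (hF : F ≤ E') (g : V) :
    F.starProjection (E'.starProjection g) = F.starProjection g := by
  symm
  apply Submodule.eq_starProjection_of_mem_of_inner_eq_zero
  · exact Submodule.starProjection_apply_mem _ _
  · intro w hw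
    have h1 : ⟪g - E'.starProjection g, w⟫ = 0 := Submodule.starProjection_inner_eq_zero (K := E') g w (hF hw)
    have h2 : ⟪E'.starProjection g - F.starProjection (E'.starProjection g), w⟫ = 0 :=
      Submodule.starProjection_inner_eq_zero (K := F) (E'.starProjection g) w hw
    have h4 : g - F.starProjection (E'.starProjection g) =
        (g - E'.starProjection g) + (E'.starProjection g - F.starProjection (E'.starProjection g)) := by abel
    rw [h4, inner_add_left, h1, h2, add_zero]

omit [MeasurableSpace V] [BorelSpace V] in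
private theorem B3a_exists (F0 : Submodule ℝ V) {n : ℕ} (hn : n ≤ Module.finrank ℝ F0) :
    ∃ F : Submodule ℝ V, F ≤ F0 ∧ Module.finrank ℝ F = n := by
  set b := Module.finBasis ℝ F0 with hb
  have hli : LinearIndependent ℝ (fun i : Fin (Module.finrank ℝ F0) => ((b i : F0) : V)) :=
    b.linearIndependent.map' F0.subtype (Submodule.ker_subtype F0)
  have hli2 : LinearIndependent ℝ (fun i : Fin n => ((b (Fin.castLE hn i) : F0) : V)) :=
    hli.comp (Fin.castLE hn) (Fin.castLE_injective hn)
  refine ⟨Submodule.span ℝ (Set.range (fun i : Fin n => ((b (Fin.castLE hn i) : F0) : V))), ?_, ?_⟩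
  · rw [Submodule.span_le]
    rintro _ ⟨i, rfl⟩
    exact (b (Fin.castLE hn i)).2
  · rw [finrank_span_eq_card hli2, Fintype.card_fin]

theorem sub_mean {F E' : Submodule ℝ V} (hF : F ≤ E') (hE : 1 ≤ Module.finrank ℝ E') :
    mG (Module.finrank ℝ E') * av E' (fun x => ‖F.starProjection x‖) = mG (Module.finrank ℝ F) := by
  classical
  have hmn : Measurable (fun x : V => ‖F.starProjection x‖) := by fun_prop
  have hφ : Measurable (fun x : V => if ‖x‖ ≤ 1 then ‖F.starProjection x‖ else 0) :=
    Measurable.ite (measurableSet_le measurable_norm measurable_const) hmn measurable_const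
  have hC : ∀ x : V, |if ‖x‖ ≤ 1 then ‖F.starProjection x‖ else 0| ≤ 1 := by
    intro x
    split_ifs with hx
    · rw [abs_of_nonneg (norm_nonneg _)]
      exact (F.norm_starProjection_apply_le x).trans hx
    · rw [abs_zero]
      exact zero_le_one
  have hint : Integrable (fun g : V => (fun t : ℝ => t) ‖E'.starProjection g‖)
      (stdGaussian V) := by
    refine Integrable.mono' (integrable_norm_gaussian (V := V)) ?_ ?_
    · exact (E'.starProjection.continuous.norm).aestronglyMeasurable
    · refine Filter.Eventually.of_forall fun g => ?_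
      rw [norm_norm]
      exact Submodule.norm_starProjection_apply_le _ g
  have h1 := rad_real E' hE (f := fun t : ℝ => t) measurable_id hint hφ hC
  have h2 : av E' (fun x => if ‖x‖ ≤ 1 then ‖F.starProjection x‖ else 0) =
      av E' (fun x => ‖F.starProjection x‖) := by
    unfold av
    refine integral_congr_ae (Filter.Eventually.of_forall fun g => ?_)
    simp only
    rw [if_pos (norm_nrm_le _)]
  have h3 : ∀ g : V, (fun t : ℝ => t) ‖E'.starProjection g‖ *
      (if ‖nrm (E'.starProjection g)‖ ≤ 1 then ‖F.starProjection (nrm (E'.starProjection g))‖ else 0) =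
      ‖F.starProjection g‖ := by
    intro g
    have h5 : F.starProjection (E'.starProjection g) = F.starProjection g := by
      exact B3a_proj hF g
    rw [if_pos (norm_nrm_le _)]
    simp only
    by_cases h0 : E'.starProjection g = 0
    · rw [h0, norm_zero, zero_mul, ← h5, h0, map_zero, norm_zero]
    · have hn : ‖E'.starProjection g‖ ≠ 0 := norm_ne_zero_iff.2 h0
      rw [nrm, map_smul, norm_smul, norm_inv, norm_norm, h5]
      field_simp
  simp only [h3] at h1
  rw [integral_norm_proj, integral_norm_proj] at h1
  rw [h1, h2]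

theorem inter_mean {E E' : Submodule ℝ V} {n : ℕ} (hn : 1 ≤ n)
    (h : Module.finrank ℝ E + Module.finrank ℝ E' = Module.finrank ℝ V + n) :
    mG n / mG (Module.finrank ℝ E') ≤ av E' (fun x => ‖E.starProjection x‖) := by
  have hEV : Module.finrank ℝ E ≤ Module.finrank ℝ V := Submodule.finrank_le E
  have hE' : 1 ≤ Module.finrank ℝ E' := by omega
  have hsup : Module.finrank ℝ (E ⊔ E' : Submodule ℝ V) ≤ Module.finrank ℝ V := Submodule.finrank_le _
  have hsi := Submodule.finrank_sup_add_finrank_inf_eq E E'
  have hn0 : n ≤ Module.finrank ℝ (E ⊓ E' : Submodule ℝ V) := by omega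
  obtain ⟨F, hF, hFn⟩ := B3a_exists (E ⊓ E') hn0
  have h1 := sub_mean (hF.trans inf_le_right) hE'
  rw [hFn] at h1
  have hm : 0 < mG (Module.finrank ℝ E') := mG_pos hE'
  have h2 : mG n / mG (Module.finrank ℝ E') = av E' (fun x => ‖F.starProjection x‖) := by
    rw [← h1]
    field_simp
  rw [h2]
  unfold av
  have hb : ∀ W : Submodule ℝ V, Integrable (fun g : V => ‖W.starProjection (nrm (E'.starProjection g))‖)
      (stdGaussian V) := by
    intro W
    refine Integrable.mono' (integrable_const (1 : ℝ)) ?_ ?_
    · have h3 : Measurable (fun g : V => W.starProjection (nrm (E'.starProjection g))) := by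
        have h4 : Measurable (fun x : V => W.starProjection x) := by fun_prop
        have h5 : Measurable (fun x : V => E'.starProjection x) := by fun_prop
        exact h4.comp (measurable_nrm.comp h5)
      exact h3.norm.aestronglyMeasurable
    · refine Filter.Eventually.of_forall fun g => ?_
      rw [norm_norm]
      exact (W.norm_starProjection_apply_le _).trans (norm_nrm_le _)
  refine integral_mono (hb F) (hb E) fun g => ?_
  simp only
  rw [← B3a_proj (hF.trans inf_le_left)]
  exact F.norm_starProjection_apply_le _

end Pool.Agent.TWC
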