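import Pool.Agent.HRJ.D5
import Pool.Agent.TWC.B2
import Pool.Agent.TWC.B3a

/-!
# TWC-B3: lower bound of `θ` and positivity

PROOF PLAN.  `gW_low`: let `E` have dimension `p ≥ j + 1`.  `√(2/π) gW ρ E / mG p = ∫ av E (|⟪x, .⟫|) dρ(x) = av E (hf ρ)` (`av_abs`, Fubini), and `hf ρ = hf (Nop j ρ')` on unit vectors (`fix'`), so `gW ρ E = gW (Nop j ρ') E`
(the same computation for the measure `Nop j ρ'`, `nop_us`); `en j ρ' * gW (Nop j ρ') E = iw j ρ' (av (oc X) ‖P_E .‖)` (`nop_int`), and `inter_mean` with `E' = oc X`, `finrank (oc X) = d - j` (`finrank_oc`), `n = p - j`; `iw_mono`, `iw_const`.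
`en_low`: `en (n+1) ρ = iw n ρ (gW ρ (oc X))` (`en_succ`), `n = j` and `n = j + 1` (`p = d - n ≥ j + 1` since `2 j + 2 ≤ d`).  `th_low3`: `th ρ j = en (j+1) ρ/(en j ρ cc d j)`, `cc d j = mG (d - j)/mG d`.
-/

set_option autoImplicit false

namespace Pool.Agent.TWC

open MeasureTheory ProbabilityTheory Set Filter Topology Metric
open Pool.Agent.HP89 Pool.Agent.FI75 Pool.Agent.PBL Pool.Agent.HRJ
open scoped RealInnerProductSpace ENNReal

variable {V : Type*} [NormedAddCommGroup V] [InnerProductSpace ℝ V] [FiniteDimensional ℝ V]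
  [MeasurableSpace V] [BorelSpace V]

variable {ρ ρ' : Measure V} {j : ℕ}

/-- the mean of the support function over the unit sphere of `E` -/
private theorem b3_gW_hf {τ : Measure V} (hτ : US τ) {E : Submodule ℝ V} (hE : 1 ≤ Module.finrank ℝ E) :
    √(2 / Real.pi) * gW τ E = mG (Module.finrank ℝ E) * av E (hf τ) := by
  have := hτ.prob
  have h1 : √(2 / Real.pi) * gW τ E =
      ∫ u, mG (Module.finrank ℝ E) * av E (fun x => |⟪x, u⟫|) ∂τ := by
    unfold gW
    rw [← integral_const_mul]
    congr 1
    funext u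
    rw [av_abs E hE u]
  rw [h1, integral_const_mul]
  congr 1
  unfold av hf
  rw [integral_integral_swap]
  · refine integral_congr_ae (Filter.Eventually.of_forall fun g => ?_)
    refine integral_congr_ae (Filter.Eventually.of_forall fun x => ?_)
    simp only
    rw [real_inner_comm]
  · refine Integrable.of_bound (C := 1) ?_ ?_
    · have hn : Measurable (fun p : V × V => nrm (E.starProjection p.2)) :=
        (measurable_nrm.comp E.starProjection.continuous.measurable).comp measurable_snd
      have hm0 : Measurable (fun p : V × V => ⟪nrm (E.starProjection p.2), p.1⟫) :=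
        hn.inner (𝕜 := ℝ) measurable_fst
      exact (continuous_abs.measurable.comp hm0).aestronglyMeasurable
    · have hu : ∀ᵐ p ∂(τ.prod (stdGaussian V)), ‖p.1‖ = 1 :=
        Measure.quasiMeasurePreserving_fst.ae hτ.unit
      filter_upwards [hu] with p hp
      simp only [Function.uncurry]
      rw [Real.norm_eq_abs, abs_abs]
      calc |⟪nrm (E.starProjection p.2), p.1⟫| ≤ ‖nrm (E.starProjection p.2)‖ * ‖p.1‖ :=
            abs_real_inner_le_norm _ _
        _ ≤ 1 * 1 := by
            rw [hp]
            exact mul_le_mul_of_nonneg_right (norm_nrm_le _) zero_le_one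
        _ = 1 := one_mul 1

omit [FiniteDimensional ℝ V] [MeasurableSpace V] [BorelSpace V] in
private theorem b3_nrm {x : V} (hx : x ≠ 0) : ‖nrm x‖ = 1 := by
  unfold nrm
  rw [norm_smul, norm_inv, norm_norm, inv_mul_cancel₀ (norm_ne_zero_iff.2 hx)]

theorem gW_low (h : Tx j ρ ρ') {E : Submodule ℝ V} (hE : j + 1 ≤ Module.finrank ℝ E) :
    mG (Module.finrank ℝ E - j) / mG (Module.finrank ℝ V - j) ≤ gW ρ E := by
  have hj := h.hj
  have hjd := h.hjd
  have hE1 : 1 ≤ Module.finrank ℝ E := by omega
  have hEV : Module.finrank ℝ E ≤ Module.finrank ℝ V := Submodule.finrank_le E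
  have hN : US (Nop j ρ') := nop_us h.us' h.pos' (by omega)
  have hs : 0 < √(2 / Real.pi) := Real.sqrt_pos.2 (div_pos two_pos Real.pi_pos)
  -- the two means agree
  have h1 : gW ρ E = gW (Nop j ρ') E := by
    have e1 := b3_gW_hf h.us hE1
    have e2 := b3_gW_hf hN hE1
    have e3 : av E (hf ρ) = av E (hf (Nop j ρ')) := by
      unfold av
      refine integral_congr_ae ?_
      filter_upwards [ae_proj_ne E hE1] with g hg
      exact (h.fix' _ (b3_nrm hg)).symm
    rw [e3, ← e2] at e1
    exact mul_left_cancel₀ hs.ne' e1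
  have hφ : Measurable (fun x : V => ‖E.starProjection x‖) :=
    E.starProjection.continuous.measurable.norm
  have h2 : en j ρ' * gW (Nop j ρ') E = iw j ρ' (fun X => av (oc X) (fun x => ‖E.starProjection x‖)) := by
    have := nop_int h.us' h.pos' hφ (C := 1) (fun x hx => by
      rw [abs_of_nonneg (norm_nonneg _)]
      exact (E.norm_starProjection_apply_le x).trans hx)
    exact this
  set c : ℝ := mG (Module.finrank ℝ E - j) / mG (Module.finrank ℝ V - j) with hc
  have hm : Measurable (fun X : Fin j → V => av (oc X) (fun x => ‖E.starProjection x‖)) :=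
    meas_av (β := Fin j → V) (f := fun X => X) measurable_id
      (Φ := fun _ x => ‖E.starProjection x‖) (hφ.comp measurable_snd)
  have hb : ∀ X : Fin j → V, |av (oc X) (fun x => ‖E.starProjection x‖)| ≤ 1 := by
    intro X
    have hle : |av (oc X) (fun x => ‖E.starProjection x‖)| ≤ ∫ _g : V, (1 : ℝ) ∂(stdGaussian V) := by
      unfold av
      refine (abs_integral_le_integral_abs).trans ?_
      refine integral_mono_of_nonneg (Filter.Eventually.of_forall fun g => abs_nonneg _)
        (integrable_const _) (Filter.Eventually.of_forall fun g => ?_)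
      simp only
      rw [abs_of_nonneg (norm_nonneg _)]
      exact (E.norm_starProjection_apply_le _).trans (norm_nrm_le _)
    simpa using hle
  have h3 : iw j ρ' (fun _ => c) ≤ iw j ρ' (fun X => av (oc X) (fun x => ‖E.starProjection x‖)) := by
    refine iw_mono h.us' measurable_const hm (C := max |c| 1) (fun X => le_max_left _ _)
      (fun X => (hb X).trans (le_max_right _ _)) ?_
    intro X hX _
    have hf1 := finrank_oc hX
    have hf2 : Module.finrank ℝ (oc X) = Module.finrank ℝ V - j := by omega
    have h4 := inter_mean (E := E) (E' := oc X) (n := Module.finrank ℝ E - j) (by omega) (by omega)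
    rw [hf2] at h4
    exact h4
  rw [iw_const, ← h2, mul_comm] at h3
  rw [h1]
  exact le_of_mul_le_mul_left h3 h.pos'

private theorem b3_step (h : Tx j ρ ρ') {n : ℕ} (hn : j + 1 + n ≤ Module.finrank ℝ V) :
    mG (Module.finrank ℝ V - n - j) / mG (Module.finrank ℝ V - j) * en n ρ ≤ en (n + 1) ρ := by
  have := h.us.prob
  have hj := h.hj
  have hjd := h.hjd
  rw [en_succ h.us, ← iw_const]
  set c : ℝ := mG (Module.finrank ℝ V - n - j) / mG (Module.finrank ℝ V - j) with hc
  have hb : ∀ X : Fin n → V, |gW ρ (oc X)| ≤ 1 := by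
    intro X
    have hle : |gW ρ (oc X)| ≤ ∫ _x : V, (1 : ℝ) ∂ρ := by
      unfold gW
      refine (abs_integral_le_integral_abs).trans ?_
      refine integral_mono_of_nonneg (Filter.Eventually.of_forall fun g => abs_nonneg _)
        (integrable_const _) ?_
      filter_upwards [h.us.unit] with x hx
      rw [abs_of_nonneg (norm_nonneg _), ← hx]
      exact (oc X).norm_starProjection_apply_le _
    simpa using hle
  refine iw_mono h.us measurable_const (meas_gW ρ) (C := max |c| 1) (fun X => le_max_left _ _)
    (fun X => (hb X).trans (le_max_right _ _)) ?_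
  intro X hX _
  have hf1 := finrank_oc hX
  have hf2 : Module.finrank ℝ (oc X) = Module.finrank ℝ V - n := by omega
  have h4 := gW_low h (E := oc X) (by omega)
  rw [hf2] at h4
  exact h4

theorem en_pos1 (h : Tx j ρ ρ') : 0 < en (j + 1) ρ := by
  have hj := h.hj
  have hjd := h.hjd
  have h1 := b3_step h (n := j) (by omega)
  refine lt_of_lt_of_le ?_ h1
  exact mul_pos (div_pos (mG_pos (by omega)) (mG_pos (by omega))) h.pos

theorem en_pos2 (h : Tx j ρ ρ') : 0 < en (j + 2) ρ := by
  have hj := h.hj
  have hjd := h.hjd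
  have h1 := b3_step h (n := j + 1) (by omega)
  refine lt_of_lt_of_le ?_ h1
  exact mul_pos (div_pos (mG_pos (by omega)) (mG_pos (by omega))) (en_pos1 h)

theorem th_low3 (h : Tx j ρ ρ') : b3 (Module.finrank ℝ V) j ≤ th ρ j := by
  have hj := h.hj
  have hjd := h.hjd
  have h1 := b3_step h (n := j) (by omega)
  have h2 : Module.finrank ℝ V - j - j = Module.finrank ℝ V - 2 * j := by omega
  rw [h2] at h1
  have hd : 0 < mG (Module.finrank ℝ V) := mG_pos (by omega)
  have hdj : 0 < mG (Module.finrank ℝ V - j) := mG_pos (by omega)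
  have hp := h.pos
  unfold b3 th cc
  rw [le_div_iff₀ (mul_pos hp (div_pos hdj hd))]
  refine le_trans (le_of_eq ?_) h1
  field_simp

end Pool.Agent.TWC
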