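import Pool.Agent.HRJ.D5
import Pool.Agent.PBL.S5d
import Pool.Agent.TWC.A1

/-!
# TWC-B5a: `S_n` of test functions of degree two

PROOF PLAN.  `g = gg ρ ρ' a b 1` with `a 0 = b 0 = 0` is `a 1 ff ρ 2 + b 1 ff ρ' 2`.  For fixed `X` with `wv X ≠ 0`, `E = oc X`, `p = finrank E = d - n`: `‖rv X x‖ = ‖E.starProjection x‖ = (1/mm p) ∫ |⟪x, w⟫| d(ms E)(w)` (`ms_abs`),
so `∫ ‖rv X x‖ ff ρ 2 x dσ = (1/mm p) ∫ (∫ |⟪x, w⟫| ff ρ 2 x dσ) d(ms E)(w) = (mm d/mm p) tT d 1 ∫ ff ρ 2 w d(ms E)` (Fubini, `ff_abs`), and `ff2_mean`: `∫ ff ρ 2 w d(ms E) = ((d+2)/2) (d sW ρ E/p - 1)` because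
`gK d 2 t = ((d+2)/2) (d t² - 1)` and `∫ ⟪w, y⟫² d(ms E)(w) = ‖E.starProjection y‖²/p` (`ms_mom_real` with `n = 2`, or `av_inner_mul`).  `mm d/mm p = cc d n` (`mm = √(2/π)/mG`).  Then integrate over `X` with the weight
`wv X` (`iw_congr`, `iw_add`, `iw_mul`, `iw_const`) and divide by `cc d n * en n τ`; `mW n τ ρ = (en n τ)⁻¹ iw n τ (sW ρ (oc X))`.
-/

set_option autoImplicit false

namespace Pool.Agent.TWC

open MeasureTheory ProbabilityTheory Set Filter Topology Metric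
open Pool.Agent.HP89 Pool.Agent.FI75 Pool.Agent.PBL Pool.Agent.HRJ
open scoped RealInnerProductSpace ENNReal

variable {V : Type*} [NormedAddCommGroup V] [InnerProductSpace ℝ V] [FiniteDimensional ℝ V]
  [MeasurableSpace V] [BorelSpace V]

variable {ρ ρ' τ : Measure V}

theorem gK_two {d : ℕ} (hd : 3 ≤ d) (t : ℝ) : gK d 2 t = ((d : ℝ) + 2) / 2 * (d * t ^ 2 - 1) := by
  have h3 : (3 : ℝ) ≤ (d : ℝ) := by exact_mod_cast hd
  have h1 : ((d : ℝ) - 2) ≠ 0 := by linarith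
  have h2 : ((d : ℝ) - 1) ≠ 0 := by linarith
  have h0 : (d : ℝ) ≠ 0 := by linarith
  have e1 : nN d 2 = ((d : ℝ) - 1) * (d + 2) / 2 := by
    have e0 : nN d 1 = (d : ℝ) := by
      simp only [nN]
      push_cast
      have h5 : (2 * (0 : ℝ) + d - 2) = (d : ℝ) - 2 := by ring
      rw [h5]
      field_simp
      ring
    have e2 : nN d 2 = nN d 1 * ((((1 : ℕ) : ℝ) + d - 2) * (2 * ((1 : ℕ) : ℝ) + d)) /
        ((((1 : ℕ) : ℝ) + 1) * (2 * ((1 : ℕ) : ℝ) + d - 2)) := rfl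
    rw [e2, e0]
    push_cast
    have h5 : (2 * (1 : ℝ) + d - 2) = (d : ℝ) := by ring
    rw [h5]
    field_simp
    ring
  have e3 : gP d 2 t = ((2 * ((0 : ℕ) : ℝ) + d) * t * t - (((0 : ℕ) : ℝ) + 1) * 1) / (((0 : ℕ) : ℝ) + d - 1) := rfl
  rw [gK, e1, e3]
  push_cast
  have h5 : ((0 : ℝ) + d - 1) = (d : ℝ) - 1 := by ring
  rw [h5]
  field_simp
  ring

omit [FiniteDimensional ℝ V] [MeasurableSpace V] [BorelSpace V] in
private theorem b5_nrm {u : V} (hu : ‖u‖ = 1) : nrm u = u := by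
  simp [nrm, hu]

omit [FiniteDimensional ℝ V] [MeasurableSpace V] [BorelSpace V] in
private theorem b5_inner {u y : V} (hu : ‖u‖ = 1) (hy : ‖y‖ = 1) : |⟪u, y⟫| ≤ 1 := by
  have := abs_real_inner_le_norm u y
  rwa [hu, hy, mul_one] at this

theorem ff2_mean (hρ : US ρ) (hV : 3 ≤ Module.finrank ℝ V) {E : Submodule ℝ V} (hE : 1 ≤ Module.finrank ℝ E) :
    ∫ w, ff ρ 2 w ∂(ms E) = ((Module.finrank ℝ V : ℝ) + 2) / 2 *
      ((Module.finrank ℝ V : ℝ) * sW ρ E / (Module.finrank ℝ E : ℝ) - 1) := by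
  have := hρ.prob
  have := ms_prob E
  set d := Module.finrank ℝ V with hd
  have hae : ∀ᵐ p ∂((ms E).prod ρ), ‖p.1‖ = 1 ∧ ‖p.2‖ = 1 := by
    have a1 := Measure.quasiMeasurePreserving_fst (μ := ms E) (ν := ρ) |>.ae (ms_unit E hE)
    have a2 := Measure.quasiMeasurePreserving_snd (μ := ms E) (ν := ρ) |>.ae hρ.unit
    filter_upwards [a1, a2] with p h1 h2
    exact ⟨h1.1, h2⟩
  have hq : Integrable (Function.uncurry fun (w y : V) => (⟪w, y⟫ : ℝ) ^ 2) ((ms E).prod ρ) := by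
    refine Integrable.of_bound (C := 1) ?_ ?_
    · refine Measurable.aestronglyMeasurable ?_
      have : Continuous (Function.uncurry fun (w y : V) => (⟪w, y⟫ : ℝ) ^ 2) := by
        exact (continuous_fst.inner continuous_snd).pow 2
      exact this.measurable
    · filter_upwards [hae] with p hp
      simp only [Function.uncurry]
      rw [Real.norm_eq_abs, abs_pow]
      exact pow_le_one₀ (abs_nonneg _) (b5_inner hp.1 hp.2)
  have hff : ∀ᵐ w ∂(ms E), ff ρ 2 w = ((d : ℝ) + 2) / 2 * (d * ∫ y, (⟪w, y⟫ : ℝ) ^ 2 ∂ρ - 1) := by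
    filter_upwards [ms_unit E hE, hq.prod_right_ae] with w hw hi
    unfold ff
    rw [b5_nrm hw.1]
    have hi' : Integrable (fun y => (⟪w, y⟫ : ℝ) ^ 2) ρ := hi
    rw [← hd]
    simp only [gK_two hV]
    rw [integral_const_mul, integral_sub (hi'.const_mul _) (integrable_const _), integral_const_mul]
    simp
  have hsw : ∫ w, ∫ y, (⟪w, y⟫ : ℝ) ^ 2 ∂ρ ∂(ms E) = sW ρ E / (Module.finrank ℝ E : ℝ) := by
    rw [integral_integral_swap hq]
    have h1 : ∀ y : V, ∫ w, (⟪w, y⟫ : ℝ) ^ 2 ∂(ms E) = ‖E.starProjection y‖ ^ 2 / (Module.finrank ℝ E : ℝ) := by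
      intro y
      have h2 := ms_mom_real E hE y 2
      rw [if_pos (by decide)] at h2
      have h3 : ∀ w : V, (⟪w, y⟫ : ℝ) ^ 2 = ⟪y, w⟫ ^ 2 := fun w => by rw [real_inner_comm]
      simp only [h3]
      rw [h2]
      simp only [kq]
      norm_num
      ring
    simp only [h1]
    rw [integral_div]
    rfl
  have hi1 : Integrable (fun w => ∫ y, (⟪w, y⟫ : ℝ) ^ 2 ∂ρ) (ms E) := hq.integral_prod_left
  rw [integral_congr_ae hff, integral_const_mul, integral_sub (hi1.const_mul _) (integrable_const _),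
    integral_const_mul, hsw, integral_const, probReal_univ, one_smul, mul_div_assoc]

private theorem b5_mean (hρ : US ρ) (hV : 3 ≤ Module.finrank ℝ V) {E : Submodule ℝ V} (hE : 1 ≤ Module.finrank ℝ E) :
    ∫ a, ‖E.starProjection a‖ * ff ρ 2 a ∂(ms (⊤ : Submodule ℝ V)) =
      mG (Module.finrank ℝ E) / mG (Module.finrank ℝ V) * (tT (Module.finrank ℝ V) 1 *
        ∫ w, ff ρ 2 w ∂(ms E)) := by
  have := hρ.prob
  have := ms_prob E
  have := ms_prob (⊤ : Submodule ℝ V)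
  have hT : 1 ≤ Module.finrank ℝ (⊤ : Submodule ℝ V) := by rw [finrank_top]; omega
  have hmp := mm_pos hE
  have hGE := mG_pos hE
  have hGV := mG_pos (show 1 ≤ Module.finrank ℝ V by omega)
  have hint : Integrable (Function.uncurry fun (a w : V) => |(⟪a, w⟫ : ℝ)| * ff ρ 2 a)
      ((ms (⊤ : Submodule ℝ V)).prod (ms E)) := by
    refine Integrable.of_bound (C := nN (Module.finrank ℝ V) 2) ?_ ?_
    · refine Measurable.aestronglyMeasurable ?_
      have h1 : Continuous (fun p : V × V => |(⟪p.1, p.2⟫ : ℝ)|) := (continuous_fst.inner continuous_snd).abs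
      exact h1.measurable.mul ((ff_meas hρ 2).comp measurable_fst)
    · have a1 := Measure.quasiMeasurePreserving_fst (μ := ms (⊤ : Submodule ℝ V)) (ν := ms E) |>.ae (ms_unit _ hT)
      have a2 := Measure.quasiMeasurePreserving_snd (μ := ms (⊤ : Submodule ℝ V)) (ν := ms E) |>.ae (ms_unit E hE)
      filter_upwards [a1, a2] with p h1 h2
      simp only [Function.uncurry]
      rw [norm_mul, Real.norm_eq_abs, Real.norm_eq_abs, abs_abs]
      calc |(⟪p.1, p.2⟫ : ℝ)| * |ff ρ 2 p.1| ≤ 1 * |ff ρ 2 p.1| :=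
            mul_le_mul_of_nonneg_right (b5_inner h1.1 h2.1) (abs_nonneg _)
        _ = |ff ρ 2 p.1| := one_mul _
        _ ≤ _ := ff_bdd hρ hV 2 p.1
  have h1 : mm (Module.finrank ℝ E) * ∫ a, ‖E.starProjection a‖ * ff ρ 2 a ∂(ms (⊤ : Submodule ℝ V)) =
      ∫ a, ∫ w, |(⟪a, w⟫ : ℝ)| * ff ρ 2 a ∂(ms E) ∂(ms (⊤ : Submodule ℝ V)) := by
    rw [← integral_const_mul]
    congr 1
    funext a
    rw [integral_mul_const, ms_abs E hE a]
    ring
  have h2 : ∫ w, ∫ a, |(⟪a, w⟫ : ℝ)| * ff ρ 2 a ∂(ms (⊤ : Submodule ℝ V)) ∂(ms E) =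
      ∫ w, mm (Module.finrank ℝ V) * tT (Module.finrank ℝ V) 1 * ff ρ 2 w ∂(ms E) := by
    refine integral_congr_ae ?_
    filter_upwards [ms_unit E hE] with w hw
    exact ff_abs hρ hV hw.1 1
  rw [integral_integral_swap hint, h2, integral_const_mul] at h1
  have h3 : mm (Module.finrank ℝ V) * mG (Module.finrank ℝ V) = mm (Module.finrank ℝ E) * mG (Module.finrank ℝ E) := by
    unfold mm
    rw [div_mul_cancel₀ _ hGV.ne', div_mul_cancel₀ _ hGE.ne']
  have h4 : mm (Module.finrank ℝ V) = mm (Module.finrank ℝ E) * (mG (Module.finrank ℝ E) / mG (Module.finrank ℝ V)) := by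
    rw [mul_div_assoc', ← h3, mul_div_cancel_right₀ _ hGV.ne']
  rw [h4] at h1
  apply mul_left_cancel₀ hmp.ne'
  rw [h1]
  ring

private theorem b5_one (hρ : US ρ) (hV : 3 ≤ Module.finrank ℝ V) {n : ℕ} (hn : n < Module.finrank ℝ V)
    {X : Fin n → V} (hX : wv X ≠ 0) :
    ∫ a, ‖rv X a‖ * ff ρ 2 a ∂(ms (⊤ : Submodule ℝ V)) =
      cc (Module.finrank ℝ V) n * (tT (Module.finrank ℝ V) 1 * (((Module.finrank ℝ V : ℝ) + 2) / 2 *
      ((Module.finrank ℝ V : ℝ) * sW ρ (oc X) / ((Module.finrank ℝ V : ℝ) - n) - 1))) := by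
  have h1 := finrank_oc hX
  have h2 : 1 ≤ Module.finrank ℝ (oc X) := by omega
  have h3 : Module.finrank ℝ (oc X) = Module.finrank ℝ V - n := by omega
  have h4 : (Module.finrank ℝ (oc X) : ℝ) = (Module.finrank ℝ V : ℝ) - n := by
    rw [← h1]
    push_cast
    ring
  simp only [rv_eq]
  rw [b5_mean hρ hV h2, ff2_mean hρ hV h2, h4, h3]
  rfl

private theorem b5_int (hρ : US ρ) (hV : 3 ≤ Module.finrank ℝ V) {n : ℕ} (X : Fin n → V) :
    Integrable (fun a => ‖rv X a‖ * ff ρ 2 a) (ms (⊤ : Submodule ℝ V)) := by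
  have := ms_prob (⊤ : Submodule ℝ V)
  have hT : 1 ≤ Module.finrank ℝ (⊤ : Submodule ℝ V) := by rw [finrank_top]; omega
  simp only [rv_eq]
  refine Integrable.of_bound (C := nN (Module.finrank ℝ V) 2) ?_ ?_
  · refine Measurable.aestronglyMeasurable ?_
    exact ((oc X).starProjection.continuous.norm.measurable).mul (ff_meas hρ 2)
  · filter_upwards [ms_unit (⊤ : Submodule ℝ V) hT] with a ha
    rw [norm_mul, norm_norm, Real.norm_eq_abs]
    have h1 : ‖(oc X).starProjection a‖ ≤ 1 := by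
      rw [← ha.1]; exact Submodule.norm_starProjection_apply_le _ _
    calc ‖(oc X).starProjection a‖ * |ff ρ 2 a| ≤ 1 * |ff ρ 2 a| :=
          mul_le_mul_of_nonneg_right h1 (abs_nonneg _)
      _ = |ff ρ 2 a| := one_mul _
      _ ≤ _ := ff_bdd hρ hV 2 a

omit [BorelSpace V] in
private theorem b5_sW (hρ : US ρ) (E : Submodule ℝ V) : |sW ρ E| ≤ 1 := by
  have := hρ.prob
  have h := norm_integral_le_of_norm_le_const (μ := ρ)
    (f := fun a => ‖E.starProjection a‖ ^ 2) (C := 1) (by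
      filter_upwards [hρ.unit] with a ha
      rw [norm_pow, norm_norm]
      have h1 : ‖E.starProjection a‖ ≤ 1 := by
        rw [← ha]; exact Submodule.norm_starProjection_apply_le _ _
      exact pow_le_one₀ (norm_nonneg _) h1)
  rwa [probReal_univ, mul_one, Real.norm_eq_abs] at h

theorem sn_two (hτ : US τ) (hρ : US ρ) (hρ' : US ρ') (hV : 3 ≤ Module.finrank ℝ V) {n : ℕ}
    (hn : n < Module.finrank ℝ V) (hpos : 0 < en n τ) {a b : ℕ → ℝ} (ha : a 0 = 0) (hb : b 0 = 0) :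
    Sn τ n (gg ρ ρ' a b 1) = tT (Module.finrank ℝ V) 1 * (((Module.finrank ℝ V : ℝ) + 2) / 2) *
      (a 1 * ((Module.finrank ℝ V : ℝ) * mW n τ ρ / ((Module.finrank ℝ V : ℝ) - n) - 1) +
        b 1 * ((Module.finrank ℝ V : ℝ) * mW n τ ρ' / ((Module.finrank ℝ V : ℝ) - n) - 1)) := by
  have := hρ.prob
  have := hρ'.prob
  set d := Module.finrank ℝ V with hd
  have hc : 0 < cc d n := cc_pos hn
  have hdn : (0 : ℝ) < (d : ℝ) - n := by
    have : (n : ℝ) < d := by exact_mod_cast hn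
    linarith
  obtain ⟨K, hK⟩ : ∃ K : ℝ, K = tT d 1 * (((d : ℝ) + 2) / 2) := ⟨_, rfl⟩
  have h1 : sN τ n (gg ρ ρ' a b 1) = iw n τ (fun X => (cc d n * K * a 1 * (d / ((d : ℝ) - n))) * sW ρ (oc X) +
      ((cc d n * K * b 1 * (d / ((d : ℝ) - n))) * sW ρ' (oc X) + - (cc d n * K * (a 1 + b 1)))) := by
    unfold sN
    refine iw_congr hτ fun X hX _ => ?_
    have e1 : ∀ x : V, ‖rv X x‖ * gg ρ ρ' a b 1 x =
        a 1 * (‖rv X x‖ * ff ρ 2 x) + b 1 * (‖rv X x‖ * ff ρ' 2 x) := by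
      intro x
      unfold gg
      rw [Finset.sum_range_succ, Finset.sum_range_one, ha, hb]
      ring
    simp only [e1]
    rw [integral_add ((b5_int hρ hV X).const_mul _) ((b5_int hρ' hV X).const_mul _), integral_const_mul,
      integral_const_mul, b5_one hρ hV hn hX, b5_one hρ' hV hn hX, hK]
    ring
  have hm : Measurable (fun X : Fin n → V => sW ρ (oc X)) := meas_sW ρ
  have hm' : Measurable (fun X : Fin n → V => sW ρ' (oc X)) := meas_sW ρ'
  obtain ⟨A, hA⟩ : ∃ A : ℝ, A = cc d n * K * a 1 * (d / ((d : ℝ) - n)) := ⟨_, rfl⟩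
  obtain ⟨B, hB⟩ : ∃ B : ℝ, B = cc d n * K * b 1 * (d / ((d : ℝ) - n)) := ⟨_, rfl⟩
  obtain ⟨D, hD⟩ : ∃ D : ℝ, D = - (cc d n * K * (a 1 + b 1)) := ⟨_, rfl⟩
  rw [← hA, ← hB, ← hD] at h1
  have bA : ∀ X : Fin n → V, |A * sW ρ (oc X)| ≤ |A| + (|B| + |D|) := fun X => by
    rw [abs_mul]
    have := mul_le_mul_of_nonneg_left (b5_sW hρ (oc X)) (abs_nonneg A)
    have h2 := abs_nonneg B
    have h3 := abs_nonneg D
    linarith
  have bB : ∀ X : Fin n → V, |B * sW ρ' (oc X)| ≤ |B| + |D| := fun X => by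
    rw [abs_mul]
    have := mul_le_mul_of_nonneg_left (b5_sW hρ' (oc X)) (abs_nonneg B)
    have h3 := abs_nonneg D
    linarith
  have bBD : ∀ X : Fin n → V, |B * sW ρ' (oc X) + D| ≤ |A| + (|B| + |D|) := fun X => by
    refine (abs_add_le _ _).trans ?_
    rw [abs_mul]
    have := mul_le_mul_of_nonneg_left (b5_sW hρ' (oc X)) (abs_nonneg B)
    have h2 := abs_nonneg A
    linarith
  have h2 : sN τ n (gg ρ ρ' a b 1) = A * iw n τ (fun X => sW ρ (oc X)) +
      (B * iw n τ (fun X => sW ρ' (oc X)) + D * en n τ) := by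
    rw [h1, iw_add hτ (hm.const_mul A) ((hm'.const_mul B).add_const D) bA bBD, iw_mul,
      iw_add hτ (hm'.const_mul B) measurable_const bB (fun X => by
        have h2 := abs_nonneg B
        linarith), iw_mul, iw_const]
  have hpos' := hpos.ne'
  have hc' := hc.ne'
  have hdn' := hdn.ne'
  unfold Sn
  rw [h2, hA, hB, hD]
  unfold mW
  rw [← hK, ← hd]
  field_simp
  ring

end Pool.Agent.TWC
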