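import Pool.Agent.HRJ.D5
import Pool.Agent.TWC.A4
import Pool.Agent.TWC.B1b
import Pool.Agent.TWC.B3
import Pool.Agent.TWC.B5a

/-!
# TWC-B5: the step `i = j + 1` in degree two

PROOF PLAN.  `v = gg ρ ρ' e1 (-e1) 1` (`e1 0 = 0`, `e1 1 = 1`), `t = qf ρ ρ' 1 (-1) 2`, `k = d - j`, `δ = 1 - th ρ (j+1)/th ρ j`, `δ' = 1 - th ρ' (j+1)/th ρ' j`.
(1) `Sn ρ' j v - Sn ρ j v = T_1 t`: `sn_j` for `(ρ, ρ')`: `Sn ρ j v = T_1 (xy - xx')`; for `(ρ', ρ)`: `v = gg ρ' ρ (-e1) e1 1` (`gg_swap`), `Sn ρ' j v = T_1 (-xy + xx)`.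
(2) `Sn ρ (j+1) v = Sn ρ' (j+1) v`: `sn_two` with `τ = ρ` and `τ = ρ'`, and `h.cyc ρ`, `h.cyc ρ'`.
(3) `DE E v ≤ Θ GA` (`trace2` with `N = 1`, `s = {1} = Icc 1 1`), `GA ρ ρ' e1 (-e1) 1 = lm d 1 * t` and `SM d k {1} m = nn k m * aa d k 1 m * (|T_1|/(1 - |R_1|))`: it is `0` for `m ≥ 2` (`aa d k 1 m = 0`) and `Dk d k * |T_1|/(1-|R_1|)`
for `m = 1` (`nn k 1 = (k+1)/(k-1)`, `aa d k 1 1 = aC d k 0 2 = d (d+2)/(k (k+2))`, `Real.Gamma_add_one`).  So `DE E v ≤ Dk d k * T_1² * t` for `finrank E = k` (`lm d 1 = |T_1| (1 - |R_1|)`).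
(4) `step` (HRJ-D5) with `n = j` for `ρ` and `ρ'` (`en_pos2`): `(Sn ρ (j+1) v - Sn ρ j v)² ≤ δ Dk T_1² t`, the same for `ρ'`, so `T_1 t ≤ |..| + |..|`, `T_1² t² ≤ 2 (δ + δ') Dk T_1² t`, `t ≤ 2 Dk (δ + δ')` (`T_1 > 0`; if `t = 0` trivial).  `0 ≤ δ ≤ 1`: `step`, `th > 0`.
-/

set_option autoImplicit false

namespace Pool.Agent.TWC

open MeasureTheory ProbabilityTheory Set Filter Topology Metric
open Pool.Agent.HP89 Pool.Agent.FI75 Pool.Agent.PBL Pool.Agent.HRJ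
open scoped RealInnerProductSpace ENNReal

variable {V : Type*} [NormedAddCommGroup V] [InnerProductSpace ℝ V] [FiniteDimensional ℝ V]
  [MeasurableSpace V] [BorelSpace V]

variable {ρ ρ' : Measure V} {j : ℕ}

theorem Dk_aa {d k : ℕ} (hk : 3 ≤ k) (hkd : k < d) : nn k 1 * aa d k 1 1 = Dk d k := by
  have hk0 : (0 : ℝ) < k := by
    have : 0 < k := by omega
    exact_mod_cast this
  have hd0 : (0 : ℝ) < d := by
    have : 0 < d := by omega
    exact_mod_cast this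
  have hkd0 : (0 : ℝ) < (d : ℝ) - k := by
    have : (k : ℝ) < d := by exact_mod_cast hkd
    linarith
  have hG1 : Real.Gamma (((d : ℝ) - k) / 2) ≠ 0 := (Real.Gamma_pos_of_pos (by linarith)).ne'
  have hG2 : Real.Gamma ((k : ℝ) / 2) ≠ 0 := (Real.Gamma_pos_of_pos (by linarith)).ne'
  have hG3 : Real.Gamma ((d : ℝ) / 2) ≠ 0 := (Real.Gamma_pos_of_pos (by linarith)).ne'
  have g1 : Real.Gamma ((d : ℝ) / 2 + 1) = (d : ℝ) / 2 * Real.Gamma ((d : ℝ) / 2) :=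
    Real.Gamma_add_one (by linarith)
  have g2 : Real.Gamma ((k : ℝ) / 2 + 1) = (k : ℝ) / 2 * Real.Gamma ((k : ℝ) / 2) :=
    Real.Gamma_add_one (by linarith)
  have g3 : Real.Gamma ((k : ℝ) / 2 + 1 + 1) = ((k : ℝ) / 2 + 1) * Real.Gamma ((k : ℝ) / 2 + 1) :=
    Real.Gamma_add_one (by linarith)
  have e1' : (((2 * 1 : ℕ) : ℝ) + ((0 : ℕ) : ℝ) + (d : ℝ) / 2 - 1) = (d : ℝ) / 2 + 1 := by
    push_cast; ring
  have e2' : (((2 * 1 : ℕ) : ℝ) + ((0 : ℕ) : ℝ) + (k : ℝ) / 2) = (k : ℝ) / 2 + 1 + 1 := by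
    push_cast; ring
  have e3' : (((2 * 1 : ℕ) : ℝ) + 2 * ((0 : ℕ) : ℝ) + (d : ℝ) / 2 - 1) = (d : ℝ) / 2 + 1 := by
    push_cast; ring
  have e4' : (((0 : ℕ) : ℝ) + ((d : ℝ) - k) / 2) = ((d : ℝ) - k) / 2 := by
    push_cast; ring
  have hk1 : (k : ℝ) - 1 ≠ 0 := by
    have : (3 : ℝ) ≤ k := by exact_mod_cast hk
    intro h
    linarith
  have haa : aa d k 1 1 = (d : ℝ) * ((d : ℝ) + 2) / ((k : ℝ) * ((k : ℝ) + 2)) := by
    unfold aa aC
    rw [if_pos (le_refl 1), Nat.sub_self, e1', e2', e3', e4', g3, g2, g1]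
    rw [Nat.factorial_zero]
    have h2 : (k : ℝ) / 2 + 1 ≠ 0 := by linarith
    have h3 : (k : ℝ) + 2 ≠ 0 := by linarith
    field_simp
    try ring
  have hnn : nn k 1 = ((k : ℝ) + 1) / ((k : ℝ) - 1) := by
    unfold nn
    congr 1
    push_cast
    ring
  rw [haa, hnn]
  rfl

private theorem b5_Dk_pos {d k : ℕ} (hk : 3 ≤ k) (hkd : k < d) : 0 < Dk d k := by
  have hk0 : (3 : ℝ) ≤ k := by exact_mod_cast hk
  have hd0 : (0 : ℝ) < d := by
    have : 0 < d := by omega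
    exact_mod_cast this
  unfold Dk
  have h1 : 0 < (k : ℝ) - 1 := by linarith
  have h2 : 0 < (k : ℝ) * ((k : ℝ) + 2) := by nlinarith
  have h3 : 0 < (d : ℝ) * ((d : ℝ) + 2) := by nlinarith
  exact mul_pos (div_pos (by linarith) h1) (div_pos h3 h2)

private theorem b5_T1 (d : ℕ) : 0 < tT d 1 := by
  unfold tT
  simp only [Finset.range_one, Finset.prod_singleton, pow_one]
  have h : (0 : ℝ) < (d : ℝ) + 1 := by positivity
  have h2 : (-1 : ℝ) * ((2 * ((0 : ℕ) : ℝ) - 1) / (2 * ((0 : ℕ) : ℝ) + (d : ℝ) + 1)) = 1 / ((d : ℝ) + 1) := by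
    push_cast
    rw [mul_zero, zero_add, zero_sub]
    rw [neg_div, neg_mul_neg, one_mul]
  rw [h2]
  positivity

private theorem b5_e0 : e1 0 = 0 := by
  unfold e1
  rw [if_neg (by norm_num)]

private theorem b5_e1 : e1 1 = 1 := by
  unfold e1
  rw [if_pos rfl]

private theorem b5_sn (h : Tx j ρ ρ') :
    Sn ρ' j (gg ρ ρ' e1 (-e1) 1) - Sn ρ j (gg ρ ρ' e1 (-e1) 1) =
      tT (Module.finrank ℝ V) 1 * qf ρ ρ' 1 (-1) 2 := by
  have hV : 3 ≤ Module.finrank ℝ V := by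
    have := h.hj
    have := h.hjd
    omega
  have h1 := sn_j h e1 (-e1) 1
  have h2 := sn_j h.symm (-e1) e1 1
  rw [← gg_swap ρ ρ' e1 (-e1) 1] at h2
  rw [h1, h2]
  rw [Finset.sum_range_succ, Finset.sum_range_one, Finset.sum_range_succ, Finset.sum_range_one]
  simp only [Pi.neg_apply, b5_e0, b5_e1]
  have hc := xy_comm h.us h.us' hV (2 * 1)
  unfold qf
  rw [mul_one] at hc ⊢
  rw [hc]
  ring

private theorem b5_sn1 (h : Tx j ρ ρ') :
    Sn ρ (j + 1) (gg ρ ρ' e1 (-e1) 1) = Sn ρ' (j + 1) (gg ρ ρ' e1 (-e1) 1) := by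
  have hj := h.hj
  have hjd := h.hjd
  have hV : 3 ≤ Module.finrank ℝ V := by omega
  have ha : e1 0 = 0 := b5_e0
  have hb : (-e1) 0 = 0 := by rw [Pi.neg_apply, b5_e0, neg_zero]
  rw [sn_two h.us h.us h.us' hV (by omega) (en_pos1 h) ha hb,
    sn_two h.us' h.us h.us' hV (by omega) (en_pos1 h.symm) ha hb, h.cyc ρ h.us, h.cyc ρ' h.us']

private theorem b5_DE (h : Tx j ρ ρ') (E : Submodule ℝ V) (hE : Module.finrank ℝ E + j = Module.finrank ℝ V) :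
    DE E (gg ρ ρ' e1 (-e1) 1) ≤ Dk (Module.finrank ℝ V) (Module.finrank ℝ V - j) *
      tT (Module.finrank ℝ V) 1 ^ 2 * qf ρ ρ' 1 (-1) 2 := by
  have hj := h.hj
  have hjd := h.hjd
  have hV : 3 ≤ Module.finrank ℝ V := by omega
  have hE3 : 3 ≤ Module.finrank ℝ E := by omega
  have hEV : Module.finrank ℝ E < Module.finrank ℝ V := by omega
  have hk : Module.finrank ℝ V - j = Module.finrank ℝ E := by omega
  have hR : 0 < 1 - |rR (Module.finrank ℝ V) 1| := by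
    have := rR_abs_lt hV (le_refl 1)
    linarith
  have hD : 0 < Dk (Module.finrank ℝ V) (Module.finrank ℝ E) := b5_Dk_pos hE3 hEV
  have key := trace2 (N := 1) (s := {1}) (a := e1) (b := -e1) h.us h.us' hE3 hEV
    (Θ := Dk (Module.finrank ℝ V) (Module.finrank ℝ E) *
      (|tT (Module.finrank ℝ V) 1| / (1 - |rR (Module.finrank ℝ V) 1|)))
    (by
      intro x hx
      rw [Finset.mem_singleton] at hx
      rw [hx]
      exact Finset.mem_Icc.mpr ⟨le_refl _, le_refl _⟩)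
    (by
      intro x hx hxs
      exfalso
      apply hxs
      rw [Finset.mem_singleton]
      have := Finset.mem_Icc.mp hx
      omega)
    (by
      intro m hm
      unfold SM
      rw [Finset.sum_singleton]
      rcases Nat.lt_or_ge 1 m with h2 | h2
      · have h3 : aa (Module.finrank ℝ V) (Module.finrank ℝ E) 1 m = 0 := by
          unfold aa
          rw [if_neg (by omega)]
        rw [h3, zero_mul, mul_zero]
        exact mul_nonneg hD.le (div_nonneg (abs_nonneg _) hR.le)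
      · have h3 : m = 1 := by omega
        rw [h3, ← mul_assoc, Dk_aa hE3 hEV])
  have hG : GA ρ ρ' e1 (-e1) 1 = lm (Module.finrank ℝ V) 1 * qf ρ ρ' 1 (-1) 2 := by
    unfold GA
    rw [Finset.Icc_self, Finset.sum_singleton, Pi.neg_apply, b5_e1]
  rw [hG] at key
  rw [hk]
  refine key.trans (le_of_eq ?_)
  unfold lm
  have hR' := hR.ne'
  have hT : |tT (Module.finrank ℝ V) 1| = tT (Module.finrank ℝ V) 1 := abs_of_pos (b5_T1 _)
  rw [hT]
  field_simp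

theorem t_le (h : Tx j ρ ρ') :
    th ρ (j + 1) ≤ th ρ j ∧ th ρ' (j + 1) ≤ th ρ' j ∧
    qf ρ ρ' 1 (-1) 2 ≤ 2 * Dk (Module.finrank ℝ V) (Module.finrank ℝ V - j) *
      ((1 - th ρ (j + 1) / th ρ j) + (1 - th ρ' (j + 1) / th ρ' j)) ∧
    qf ρ ρ' 1 (-1) 2 ≤ 4 * Dk (Module.finrank ℝ V) (Module.finrank ℝ V - j) := by
  have hj := h.hj
  have hjd := h.hjd
  have hV : 3 ≤ Module.finrank ℝ V := by omega
  obtain ⟨C, hC⟩ := gg_bdd h.us h.us' hV e1 (-e1) 1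
  have hm := gg_meas h.us h.us' e1 (-e1) 1
  obtain ⟨a1, a2⟩ := step h.us (n := j) (by omega) (en_pos2 h) hm hC (fun E hE => b5_DE h E hE)
  obtain ⟨b1, b2⟩ := step h.us' (n := j) (by omega) (en_pos2 h.symm) hm hC (fun E hE => b5_DE h E hE)
  have hs := b5_sn h
  have hs1 := b5_sn1 h
  have hD : 0 < Dk (Module.finrank ℝ V) (Module.finrank ℝ V - j) := b5_Dk_pos (by omega) (by omega)
  have hT := b5_T1 (Module.finrank ℝ V)
  have ht0 : 0 ≤ qf ρ ρ' 1 (-1) 2 := qf_nonneg h.us h.us' hV _ _ _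
  have hth : ∀ {σ σ' : Measure V} (_ : Tx j σ σ'), 0 < th σ j ∧ 0 < th σ (j + 1) := by
    intro σ σ' hx
    have hc0 : 0 < cc (Module.finrank ℝ V) j := cc_pos (by omega)
    have hc1 : 0 < cc (Module.finrank ℝ V) (j + 1) := cc_pos (by omega)
    unfold th
    exact ⟨div_pos (en_pos1 hx) (mul_pos hx.pos hc0), div_pos (en_pos2 hx) (mul_pos (en_pos1 hx) hc1)⟩
  obtain ⟨t1, t2⟩ := hth h
  obtain ⟨t3, t4⟩ := hth h.symm
  set D := Dk (Module.finrank ℝ V) (Module.finrank ℝ V - j)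
  set T := tT (Module.finrank ℝ V) 1
  set t := qf ρ ρ' 1 (-1) 2
  have d1 : th ρ (j + 1) / th ρ j ≤ 1 := (div_le_one t1).mpr a1
  have d2 : th ρ' (j + 1) / th ρ' j ≤ 1 := (div_le_one t3).mpr b1
  have d3 : 0 < th ρ (j + 1) / th ρ j := div_pos t2 t1
  have d4 : 0 < th ρ' (j + 1) / th ρ' j := div_pos t4 t3
  set δ := 1 - th ρ (j + 1) / th ρ j
  set δ' := 1 - th ρ' (j + 1) / th ρ' j
  have e1' : 0 ≤ δ := by show 0 ≤ 1 - th ρ (j + 1) / th ρ j; linarith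
  have e2' : 0 ≤ δ' := by show 0 ≤ 1 - th ρ' (j + 1) / th ρ' j; linarith
  have e3' : δ ≤ 1 := by show 1 - th ρ (j + 1) / th ρ j ≤ 1; linarith
  have e4' : δ' ≤ 1 := by show 1 - th ρ' (j + 1) / th ρ' j ≤ 1; linarith
  set x := Sn ρ (j + 1) (gg ρ ρ' e1 (-e1) 1)
  set x' := Sn ρ' (j + 1) (gg ρ ρ' e1 (-e1) 1)
  set y := Sn ρ j (gg ρ ρ' e1 (-e1) 1)
  set y' := Sn ρ' j (gg ρ ρ' e1 (-e1) 1)
  have hmain : T ^ 2 * t ^ 2 ≤ 2 * (δ + δ') * (D * T ^ 2 * t) := by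
    have k1 : T * t = (x - y) - (x' - y') := by rw [← hs, hs1]; ring
    have k2 : T ^ 2 * t ^ 2 = ((x - y) - (x' - y')) ^ 2 := by rw [← k1]; ring
    rw [k2]
    nlinarith [sq_nonneg ((x - y) + (x' - y'))]
  have hfin : t ≤ 2 * D * (δ + δ') := by
    rcases ht0.eq_or_lt with h0 | h0
    · rw [← h0]
      positivity
    · have k3 : 0 < T ^ 2 * t := by positivity
      have k4 : (T ^ 2 * t) * t ≤ (T ^ 2 * t) * (2 * D * (δ + δ')) := by
        calc (T ^ 2 * t) * t = T ^ 2 * t ^ 2 := by ring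
          _ ≤ 2 * (δ + δ') * (D * T ^ 2 * t) := hmain
          _ = (T ^ 2 * t) * (2 * D * (δ + δ')) := by ring
      exact le_of_mul_le_mul_left k4 k3
  refine ⟨a1, b1, hfin, hfin.trans ?_⟩
  nlinarith

end Pool.Agent.TWC
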