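import Pool.Agent.TWC.C3a

/-!
# TWC-C3b: lower bound of `θ` in terms of `T = mW j ρ ρ`

For `X ≥ 0`, `x > 0` one has `2 X ≥ 3 X²/x - X⁴/x³`, because `X⁴ - 3 x² X² + 2 x³ X = X (X - x)² (X + 2 x) ≥ 0`
(`C3b_pt`).  With `X = ‖P_E z‖`, `z ~ Nop j ρ'`, `E = oc X` and the second and fourth moments of C3a this gives
`2 gW ρ E ≥ a s - b s²`, `s = sW ρ E` (`C3b_E`); then the weighted mean `iw j ρ` over `X` is taken, the square `s²`
is estimated by the Poincare inequality `poin` of C1, and `th ρ j = en (j+1) ρ/(en j ρ cc d j)`.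
-/

set_option autoImplicit false

namespace Pool.Agent.TWC

open MeasureTheory ProbabilityTheory Set Filter Topology Metric
open Pool.Agent.HP89 Pool.Agent.FI75 Pool.Agent.PBL Pool.Agent.HRJ
open scoped RealInnerProductSpace ENNReal

variable {V : Type*} [NormedAddCommGroup V] [InnerProductSpace ℝ V] [FiniteDimensional ℝ V]
  [MeasurableSpace V] [BorelSpace V]

variable {ρ ρ' : Measure V} {j : ℕ}

private theorem C3b_pt {X x : ℝ} (hX : 0 ≤ X) (hx : 0 < x) :
    3 / x * X ^ 2 - (x ^ 3)⁻¹ * X ^ 4 ≤ 2 * X := by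
  have h1 : 0 ≤ (x ^ 3)⁻¹ * (X * (X - x) ^ 2 * (X + 2 * x)) := by positivity
  have h2 : 2 * X - (3 / x * X ^ 2 - (x ^ 3)⁻¹ * X ^ 4) =
      (x ^ 3)⁻¹ * (X * (X - x) ^ 2 * (X + 2 * x)) := by
    field_simp
    ring
  linarith

private theorem C3b_int {ν : Measure V} (hν : US ν) (E : Submodule ℝ V) (n : ℕ) :
    Integrable (fun z => ‖E.starProjection z‖ ^ n) ν := by
  have := hν.prob
  refine Integrable.of_bound (C := 1)
    ((E.starProjection.continuous.norm.pow n).measurable.aestronglyMeasurable) ?_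
  filter_upwards [hν.unit] with z hz
  rw [Real.norm_eq_abs, abs_of_nonneg (by positivity)]
  refine pow_le_one₀ (norm_nonneg _) ?_
  calc ‖E.starProjection z‖ ≤ ‖z‖ := E.norm_starProjection_apply_le z
    _ = 1 := hz

private theorem C3b_mom {ν : Measure V} (hν : US ν) (E : Submodule ℝ V) {x : ℝ} (hx : 0 < x) :
    3 / x * sW ν E - (x ^ 3)⁻¹ * ∫ z, ‖E.starProjection z‖ ^ 4 ∂ν ≤ 2 * gW ν E := by
  unfold sW gW
  rw [← integral_const_mul, ← integral_const_mul, ← integral_const_mul, ← integral_sub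
    ((C3b_int hν E 2).const_mul _) ((C3b_int hν E 4).const_mul _)]
  refine integral_mono (((C3b_int hν E 2).const_mul _).sub ((C3b_int hν E 4).const_mul _)) ?_
    fun z => C3b_pt (norm_nonneg _) hx
  have h := (C3b_int hν E 1).const_mul 2
  simpa only [pow_one] using h

private theorem C3b_gW_bd {ν : Measure V} (hν : US ν) (E : Submodule ℝ V) : |gW ν E| ≤ 1 := by
  have := hν.prob
  have h0 : 0 ≤ gW ν E := integral_nonneg fun z => norm_nonneg _
  rw [abs_of_nonneg h0]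
  have h1 : gW ν E ≤ ∫ _z : V, (1 : ℝ) ∂ν := by
    refine integral_mono_ae ?_ (integrable_const _) ?_
    · have h := C3b_int hν E 1
      simpa only [pow_one] using h
    · filter_upwards [hν.unit] with z hz
      calc ‖E.starProjection z‖ ≤ ‖z‖ := E.norm_starProjection_apply_le z
        _ = 1 := hz
  simpa using h1

private theorem C3b_E (h : Tx j ρ ρ') {x : ℝ} (hx : 0 < x) {E : Submodule ℝ V}
    (hE : Module.finrank ℝ E + j = Module.finrank ℝ V) :
    (3 / x - ((Module.finrank ℝ E : ℝ) / ((Module.finrank ℝ E : ℝ) + 2) *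
        (kap (Module.finrank ℝ E) / (1 + kap (Module.finrank ℝ E))) +
        2 / ((Module.finrank ℝ E : ℝ) + 2)) / x ^ 3) * sW ρ E +
      (-((Module.finrank ℝ E : ℝ) / ((Module.finrank ℝ E : ℝ) + 2) /
        (1 + kap (Module.finrank ℝ E)) / x ^ 3)) * sW ρ E ^ 2 ≤ 2 * gW ρ E := by
  have hd := h.hjd
  have hj := h.hj
  have hν : US (Nop j ρ') := nop_us h.us' h.pos' (by omega)
  have h1 := C3b_mom hν E hx
  rw [sW_eq h E, gW_eq h E (by omega)] at h1
  have h2 := F4_le h hE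
  have h3 : (x ^ 3)⁻¹ * ∫ z, ‖E.starProjection z‖ ^ 4 ∂(Nop j ρ') ≤ (x ^ 3)⁻¹ *
      (((Module.finrank ℝ E : ℝ) / ((Module.finrank ℝ E : ℝ) + 2)) *
        ((sW ρ E ^ 2 + kap (Module.finrank ℝ E) * sW ρ E) / (1 + kap (Module.finrank ℝ E))) +
      2 * sW ρ E / ((Module.finrank ℝ E : ℝ) + 2)) :=
    mul_le_mul_of_nonneg_left h2 (by positivity)
  refine le_trans (le_of_eq ?_) (le_trans (sub_le_sub_left h3 _) h1)
  ring

theorem th_low_x (h : Tx j ρ ρ') {x : ℝ} (hx : 0 < x) :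
    3 * mW j ρ ρ / x -
      (((Module.finrank ℝ V - j : ℕ) : ℝ) / (((Module.finrank ℝ V - j : ℕ) : ℝ) + 2) *
        ((mW j ρ ρ ^ 2 + kap (Module.finrank ℝ V - j) * mW j ρ ρ * (2 + kap (Module.finrank ℝ V - j))) /
          (1 + kap (Module.finrank ℝ V - j)) ^ 2) +
        2 * mW j ρ ρ / (((Module.finrank ℝ V - j : ℕ) : ℝ) + 2)) / x ^ 3 ≤
      2 * (th ρ j * cc (Module.finrank ℝ V) j) := by
  have hd := h.hjd
  have hj := h.hj
  have hpr := h.us.prob
  have hT : iw j ρ (fun X => sW ρ (oc X)) = en j ρ * mW j ρ ρ := by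
    unfold mW
    rw [← mul_assoc, mul_inv_cancel₀ h.pos.ne', one_mul]
  have hth : th ρ j * cc (Module.finrank ℝ V) j = en (j + 1) ρ / en j ρ := by
    unfold th
    have hc := cc_pos (d := Module.finrank ℝ V) (n := j) (by omega)
    have he := h.pos
    field_simp
  have hp := poin h.us h.us (n := j) (by omega) (en_pos2 h) (hk_cyc h)
  rw [hT] at hp
  rw [hth]
  have he := h.pos
  set k : ℕ := Module.finrank ℝ V - j with hk
  set e : ℝ := en j ρ with hedef
  set T : ℝ := mW j ρ ρ with hTdef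
  set κ : ℝ := kap k with hκ
  have hk1 : 4 ≤ k := by omega
  have hk2 : (4 : ℝ) ≤ (k : ℝ) := by exact_mod_cast hk1
  have hκ0 : 0 ≤ κ := by
    rw [hκ]
    unfold kap
    have : 0 < (k : ℝ) - 1 := by linarith
    positivity
  -- the mean of the pointwise inequality
  set a : ℝ := 3 / x - ((k : ℝ) / ((k : ℝ) + 2) * (κ / (1 + κ)) + 2 / ((k : ℝ) + 2)) / x ^ 3 with ha
  set b : ℝ := (k : ℝ) / ((k : ℝ) + 2) / (1 + κ) / x ^ 3 with hb
  have hb0 : 0 ≤ b := by positivity
  have hs : ∀ X : Fin j → V, |sW ρ (oc X)| ≤ 1 := fun X => by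
    have h1 := sW_bd h.us (oc X)
    rw [abs_of_nonneg h1.1]
    exact h1.2
  have hs2 : ∀ X : Fin j → V, |sW ρ (oc X) ^ 2| ≤ 1 := fun X => by
    rw [abs_pow]
    exact pow_le_one₀ (abs_nonneg _) (hs X)
  have hm := meas_sW (n := j) ρ
  have hC1 : ∀ X : Fin j → V, |a * sW ρ (oc X)| ≤ |a| + b + 2 := fun X => by
    rw [abs_mul]
    have := mul_le_mul_of_nonneg_left (hs X) (abs_nonneg a)
    linarith
  have hC2 : ∀ X : Fin j → V, |(-b) * sW ρ (oc X) ^ 2| ≤ |a| + b + 2 := fun X => by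
    rw [abs_mul, abs_neg, abs_of_nonneg hb0]
    have := mul_le_mul_of_nonneg_left (hs2 X) hb0
    have := abs_nonneg a
    linarith
  have hC3 : ∀ X : Fin j → V, |a * sW ρ (oc X) + (-b) * sW ρ (oc X) ^ 2| ≤ |a| + b + 2 := fun X => by
    refine (abs_add_le _ _).trans ?_
    rw [abs_mul, abs_mul, abs_neg, abs_of_nonneg hb0]
    have := mul_le_mul_of_nonneg_left (hs X) (abs_nonneg a)
    have := mul_le_mul_of_nonneg_left (hs2 X) hb0
    linarith
  have hC4 : ∀ X : Fin j → V, |2 * gW ρ (oc X)| ≤ |a| + b + 2 := fun X => by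
    rw [abs_mul, abs_two]
    have := C3b_gW_bd h.us (oc X)
    have := abs_nonneg a
    linarith
  have h1 : iw j ρ (fun X => a * sW ρ (oc X) + (-b) * sW ρ (oc X) ^ 2) ≤
      iw j ρ (fun X => 2 * gW ρ (oc X)) := by
    refine iw_mono h.us ((hm.const_mul a).add ((hm.pow_const 2).const_mul (-b)))
      ((meas_gW (n := j) ρ).const_mul 2) hC3 hC4 fun X hX _ => ?_
    have hf := finrank_oc hX
    have hfk : Module.finrank ℝ (oc X) = k := by omega
    have h2 := C3b_E h hx hf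
    rw [hfk] at h2
    exact h2
  rw [iw_add h.us (hm.const_mul a) ((hm.pow_const 2).const_mul (-b)) hC1 hC2, iw_mul, iw_mul, iw_mul,
    ← en_succ h.us, hT] at h1
  set Q : ℝ := iw j ρ (fun X => sW ρ (oc X) ^ 2) with hQ
  -- the Poincare inequality
  have h3 : Q ≤ e * ((T ^ 2 + κ * T) / (1 + κ)) := by
    have h4 : (1 + κ) * Q * e ≤ e * (e * (T ^ 2 + κ * T)) := by
      calc (1 + κ) * Q * e ≤ (e * T) ^ 2 + κ * (e * T) * e := hp
        _ = e * (e * (T ^ 2 + κ * T)) := by ring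
    have h5 : (1 + κ) * Q ≤ e * (T ^ 2 + κ * T) := by
      have h6 : e * ((1 + κ) * Q) ≤ e * (e * (T ^ 2 + κ * T)) := by linarith
      exact le_of_mul_le_mul_left h6 he
    rw [← mul_div_assoc, le_div_iff₀ (by positivity)]
    linarith
  have h7 : b * Q ≤ b * (e * ((T ^ 2 + κ * T) / (1 + κ))) := mul_le_mul_of_nonneg_left h3 hb0
  have h8 : e * (a * T - b * ((T ^ 2 + κ * T) / (1 + κ))) ≤ 2 * en (j + 1) ρ := by
    have : e * (a * T - b * ((T ^ 2 + κ * T) / (1 + κ))) =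
      a * (e * T) - b * (e * ((T ^ 2 + κ * T) / (1 + κ))) := by ring
    rw [this]
    linarith
  have h9 : a * T - b * ((T ^ 2 + κ * T) / (1 + κ)) ≤ 2 * (en (j + 1) ρ / e) := by
    rw [show 2 * (en (j + 1) ρ / e) = 2 * en (j + 1) ρ / e by ring, le_div_iff₀ he]
    linarith
  refine le_trans (le_of_eq ?_) h9
  rw [ha, hb]
  have h10 : (1 + κ) ≠ 0 := by positivity
  have h11 : ((k : ℝ) + 2) ≠ 0 := by positivity
  field_simp
  ring

end Pool.Agent.TWC
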