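import Pool.Agent.PBL.S6a
import Pool.Agent.HRJ.N6
import Pool.Agent.HRJ.N4a
import Pool.Agent.TWC.B5
import Pool.Agent.TWC.C3b

/-!
# TWC-C3: the second lower bound of `θ`

PROOF PLAN.  `k = d - j`, `κ = kap k`, `T = mW j ρ ρ`.  `T_low`: `mean_t`: `T = (d - j) ∫∫ ⟪x,y⟫² d(Nop j ρ)(y) dρ(x)`, and by `T_det` (`fix`) `Nop j ρ` may be replaced by `ρ'`; `xy ρ' ρ 2 = ∫∫ gK d 2 ⟪x,y⟫ = ((d+2)/2) (d ∫∫ ⟪x,y⟫² - 1)` (`gK_two`), so `T = (k/d) (1 + 2 xy/(d+2))`; `4 xy = qf 1 1 2 - qf 1 (-1) 2 ≥ -4 Dk d k`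
(`qf_nonneg`, `t_le`, `xy_comm`), and `(k/d) 2 Dk d k/(d+2) = kap k`.  `th_low5`: let `P = TT d k > 0`, `T ≥ P`.  `th_low_x` with `x² = D(T)`, `D(T) = a (T + κ (2+κ)) + b`, `a = (k/(k+2))/(1+κ)²`, `b = 2/(k+2)` (the bracket is `T D(T)`): `2 θ cc ≥ 3 T/x - T x²/x³ = 2 T/x`, so `(θ cc)² ≥ T²/D(T) ≥ P²/D(P)`
(`T²/(a T + b')` increases).  `1/cc d j = mG d/mG k`, `(mG d/mG k)² ≥ d/k` (`mG_gG`, `gG_up_n` with `x = k/2`, `n = j`).
-/

set_option autoImplicit false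

namespace Pool.Agent.TWC

open MeasureTheory ProbabilityTheory Set Filter Topology Metric
open Pool.Agent.HP89 Pool.Agent.FI75 Pool.Agent.PBL Pool.Agent.HRJ
open scoped RealInnerProductSpace ENNReal

variable {V : Type*} [NormedAddCommGroup V] [InnerProductSpace ℝ V] [FiniteDimensional ℝ V]
  [MeasurableSpace V] [BorelSpace V]

variable {ρ ρ' : Measure V} {j : ℕ}

private theorem c3_int {τ : Measure V} (hτ : US τ) (u : V) :
    Integrable (fun y : V => ⟪u, y⟫ ^ 2) τ := by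
  have := hτ.prob
  refine Integrable.of_bound (C := ‖u‖ ^ 2) ?_ ?_
  · refine Continuous.aestronglyMeasurable ?_
    fun_prop
  · filter_upwards [hτ.unit] with x hx
    rw [norm_pow]
    have h1 : ‖⟪u, x⟫‖ ≤ ‖u‖ := by
      have := norm_inner_le_norm (𝕜 := ℝ) u x
      rwa [hx, mul_one] at this
    exact pow_le_pow_left₀ (norm_nonneg _) h1 2

private theorem c3_int2 {τ σ : Measure V} (hτ : US τ) (hσ : US σ) :
    Integrable (fun u : V => ∫ y, ⟪u, y⟫ ^ 2 ∂σ) τ := by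
  have := hτ.prob
  have := hσ.prob
  refine Integrable.of_bound (C := 1) ?_ ?_
  · have hm : StronglyMeasurable (Function.uncurry (fun (u y : V) => ⟪u, y⟫ ^ 2)) := by
      refine Continuous.stronglyMeasurable ?_
      simp only [Function.uncurry_def]
      fun_prop
    exact hm.integral_prod_right.aestronglyMeasurable
  · filter_upwards [hτ.unit] with u hu
    have h1 : 0 ≤ ∫ y, ⟪u, y⟫ ^ 2 ∂σ := integral_nonneg fun y => sq_nonneg _
    rw [Real.norm_eq_abs, abs_of_nonneg h1]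
    have h2 : ∫ y, ⟪u, y⟫ ^ 2 ∂σ ≤ ∫ _y : V, (1 : ℝ) ∂σ := by
      refine integral_mono_ae (c3_int hσ u) (integrable_const _) ?_
      filter_upwards [hσ.unit] with y hy
      have h3 : |⟪u, y⟫| ≤ 1 := by
        have := abs_real_inner_le_norm u y
        rwa [hu, hy, one_mul] at this
      have h4 : ⟪u, y⟫ ^ 2 = |⟪u, y⟫| ^ 2 := (sq_abs _).symm
      show ⟪u, y⟫ ^ 2 ≤ 1
      rw [h4]
      exact pow_le_one₀ (abs_nonneg _) h3
    simpa using h2

private theorem c3_xy {τ σ : Measure V} (hτ : US τ) (hσ : US σ) (hV : 3 ≤ Module.finrank ℝ V) :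
    xy τ σ 2 = ((Module.finrank ℝ V : ℝ) + 2) / 2 *
      (Module.finrank ℝ V * (∫ u, ∫ y, ⟪u, y⟫ ^ 2 ∂τ ∂σ) - 1) := by
  have := hτ.prob
  have := hσ.prob
  unfold xy
  have h1 : ∀ᵐ u ∂σ, ff τ 2 u = ((Module.finrank ℝ V : ℝ) + 2) / 2 *
      (Module.finrank ℝ V * (∫ y, ⟪u, y⟫ ^ 2 ∂τ) - 1) := by
    filter_upwards [hσ.unit] with u hu
    unfold ff
    have h2 : nrm u = u := by
      unfold nrm
      rw [hu, inv_one, one_smul]
    simp only [h2, gK_two hV]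
    rw [integral_const_mul, integral_sub ((c3_int hτ u).const_mul _) (integrable_const _),
      integral_const_mul]
    simp
  rw [integral_congr_ae h1, integral_const_mul,
    integral_sub ((c3_int2 hσ hτ).const_mul _) (integrable_const _), integral_const_mul]
  simp

private theorem c3_T (h : Tx j ρ ρ') : mW j ρ ρ = ((Module.finrank ℝ V : ℝ) - j) *
    ∫ x, ∫ y, ⟪x, y⟫ ^ 2 ∂ρ' ∂ρ := by
  have h1 := h.hj
  have h2 := h.hjd
  have hjd : j < Module.finrank ℝ V := by omega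
  rw [mean_t h.us h.us h.pos hjd]
  congr 1
  refine integral_congr_ae (Eventually.of_forall fun x => ?_)
  have h3 := T_det (nop_us h.us h.pos hjd) h.us' h.fix x
  have e : ∀ μ : Measure V, ∫ y, ⟪x, y⟫ ^ 2 ∂μ = ∫ y, ⟪y, x⟫ ^ 2 ∂μ := by
    intro μ
    congr 1
    ext y
    rw [real_inner_comm]
  show ∫ y, ⟪x, y⟫ ^ 2 ∂(Nop j ρ) = ∫ y, ⟪x, y⟫ ^ 2 ∂ρ'
  rw [e, e, h3]

theorem T_low (h : Tx j ρ ρ') : TT (Module.finrank ℝ V) (Module.finrank ℝ V - j) ≤ mW j ρ ρ := by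
  have h1 := h.hj
  have h2 := h.hjd
  have hV : 3 ≤ Module.finrank ℝ V := by omega
  have hT := c3_T h
  have hx := c3_xy h.us' h.us hV
  have hq := qf_nonneg h.us h.us' hV 1 1 2
  have ht := (t_le h).2.2.2
  have hc := xy_comm h.us h.us' hV 2
  unfold qf at hq ht
  set d : ℕ := Module.finrank ℝ V with hd
  set S : ℝ := ∫ x, ∫ y, ⟪x, y⟫ ^ 2 ∂ρ' ∂ρ with hS
  have hjle : j ≤ d := by omega
  have hk : ((d - j : ℕ) : ℝ) = (d : ℝ) - j := by
    rw [Nat.cast_sub hjle]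
  have hk3 : (4 : ℝ) ≤ ((d - j : ℕ) : ℝ) := by
    have : 4 ≤ d - j := by omega
    exact_mod_cast this
  rw [hT, ← hk]
  unfold TT kap
  unfold Dk at ht
  set k : ℝ := ((d - j : ℕ) : ℝ) with hkk
  have hd0 : (0 : ℝ) < d := by
    have : 0 < d := by omega
    exact_mod_cast this
  have hk0 : 0 < k := by linarith
  have hk1 : 0 < k - 1 := by linarith
  have hk2 : 0 < k + 2 := by linarith
  have hd2 : (0 : ℝ) < (d : ℝ) + 2 := by linarith
  have h5 : -((k + 1) / (k - 1) * ((d : ℝ) * ((d : ℝ) + 2) / (k * (k + 2)))) ≤ xy ρ ρ' 2 := by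
    nlinarith
  rw [hc, hx] at h5
  have h6 : k / d - 2 * (k + 1) / ((k - 1) * (k + 2)) = k / d *
      (1 + 2 / ((d : ℝ) + 2) * (-((k + 1) / (k - 1) * ((d : ℝ) * ((d : ℝ) + 2) / (k * (k + 2)))))) := by
    field_simp
    ring
  have h7 : k * S = k / d * (1 + 2 / ((d : ℝ) + 2) * (((d : ℝ) + 2) / 2 * (d * S - 1))) := by
    field_simp
    ring
  rw [h6, h7]
  have h8 : 0 ≤ k / d := by positivity
  have h9 : 0 ≤ 2 / ((d : ℝ) + 2) := by positivity
  exact mul_le_mul_of_nonneg_left (by linarith [mul_le_mul_of_nonneg_left h5 h9]) h8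

private theorem c3_gpos {x : ℝ} (hx : 0 < x) : 0 < gG x := by
  unfold gG
  exact div_pos (Real.Gamma_pos_of_pos (by linarith)) (Real.Gamma_pos_of_pos hx)

private theorem c3_cc {d j : ℕ} (h : j < d) : (d : ℝ) / ((d - j : ℕ) : ℝ) * cc d j ^ 2 ≤ 1 := by
  have h1 : 1 ≤ d - j := by omega
  have h2 : 1 ≤ d := by omega
  unfold cc
  rw [mG_gG h1, mG_gG h2]
  have hk : (0 : ℝ) < ((d - j : ℕ) : ℝ) := by exact_mod_cast h1
  have hd : (0 : ℝ) < (d : ℝ) := by exact_mod_cast h2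
  have h3 := gG_up_n (x := ((d - j : ℕ) : ℝ) / 2) (by linarith) j
  have h4 : ((d - j : ℕ) : ℝ) / 2 + (j : ℝ) / 2 = (d : ℝ) / 2 := by
    rw [Nat.cast_sub h.le]
    ring
  rw [h4] at h3
  have hg1 := c3_gpos (x := ((d - j : ℕ) : ℝ) / 2) (by linarith)
  have hg2 := c3_gpos (x := (d : ℝ) / 2) (by linarith)
  set g1 := gG (((d - j : ℕ) : ℝ) / 2) with hg1'
  set g2 := gG ((d : ℝ) / 2) with hg2'
  set k : ℝ := ((d - j : ℕ) : ℝ) with hkk
  rw [div_le_div_iff₀ (by linarith) (by linarith)] at h3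
  have h5 : √2 ≠ 0 := by positivity
  rw [mul_div_mul_left _ _ h5, div_pow, div_mul_div_comm, div_le_one (by positivity)]
  nlinarith

theorem th_low5 (h : Tx j ρ ρ') (hT : 0 < TT (Module.finrank ℝ V) (Module.finrank ℝ V - j)) :
    Q5 (Module.finrank ℝ V) (Module.finrank ℝ V - j) ≤ th ρ j ^ 2 := by
  have h1 := h.hj
  have h2 := h.hjd
  have hTl := T_low h
  have hx := fun {x : ℝ} (hx : 0 < x) => th_low_x h hx
  have hcc := c3_cc (d := Module.finrank ℝ V) (j := j) (by omega)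
  unfold Q5
  set d : ℕ := Module.finrank ℝ V with hd
  set T : ℝ := mW j ρ ρ with hTT
  set P : ℝ := TT d (d - j) with hP
  have hk3 : (4 : ℝ) ≤ ((d - j : ℕ) : ℝ) := by
    have : 4 ≤ d - j := by omega
    exact_mod_cast this
  have hkap : 0 < kap (d - j) := by
    unfold kap
    have : (0 : ℝ) < ((d - j : ℕ) : ℝ) - 1 := by linarith
    have : (0 : ℝ) < ((d - j : ℕ) : ℝ) + 2 := by linarith
    have : (0 : ℝ) < ((d - j : ℕ) : ℝ) + 1 := by linarith
    positivity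
  set κ : ℝ := kap (d - j) with hκ
  set k : ℝ := ((d - j : ℕ) : ℝ) with hkk
  have hd0 : (0 : ℝ) < d := by
    have : 0 < d := by omega
    exact_mod_cast this
  have hk0 : 0 < k := by linarith
  have hT0 : 0 < T := lt_of_lt_of_le hT hTl
  have hcc0 : 0 ≤ cc d j ^ 2 := sq_nonneg _
  set D : ℝ → ℝ := fun t => k / (k + 2) * (t + κ * (2 + κ)) / (1 + κ) ^ 2 + 2 / (k + 2) with hD
  have hDpos : ∀ t, 0 < t → 0 < D t := by
    intro t ht
    simp only [hD]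
    positivity
  have hDT := hDpos T hT0
  have hDP := hDpos P hT
  set x : ℝ := √(D T) with hxd
  have hx0 : 0 < x := Real.sqrt_pos.2 hDT
  have hx2 : x ^ 2 = D T := Real.sq_sqrt hDT.le
  have h3 := hx hx0
  have h4 : k / (k + 2) * ((T ^ 2 + κ * T * (2 + κ)) / (1 + κ) ^ 2) + 2 * T / (k + 2) = T * D T := by
    simp only [hD]
    ring
  rw [h4, ← hx2] at h3
  have h5 : 3 * T / x - T * x ^ 2 / x ^ 3 = 2 * (T / x) := by
    field_simp
    ring
  rw [h5] at h3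
  have h6 : T / x ≤ th ρ j * cc d j := by linarith
  have h7 : 0 < T / x := by positivity
  have h8 : T ^ 2 / D T ≤ th ρ j ^ 2 * cc d j ^ 2 := by
    rw [← hx2, ← div_pow, ← mul_pow]
    exact pow_le_pow_left₀ h7.le h6 2
  have h9 : P ^ 2 / D P ≤ T ^ 2 / D T := by
    rw [div_le_div_iff₀ hDP hDT]
    have e1 : T ^ 2 * D P - P ^ 2 * D T = (T - P) * ((k / (k + 2) / (1 + κ) ^ 2) * (T * P) +
        (k / (k + 2) * (κ * (2 + κ)) / (1 + κ) ^ 2 + 2 / (k + 2)) * (T + P)) := by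
      simp only [hD]
      ring
    have e2 : 0 ≤ (T - P) * ((k / (k + 2) / (1 + κ) ^ 2) * (T * P) +
        (k / (k + 2) * (κ * (2 + κ)) / (1 + κ) ^ 2 + 2 / (k + 2)) * (T + P)) := by
      have : 0 ≤ T - P := by linarith
      positivity
    linarith
  have h10 : (d : ℝ) / k * (P ^ 2 / D P) ≤ (d : ℝ) / k * (th ρ j ^ 2 * cc d j ^ 2) :=
    mul_le_mul_of_nonneg_left (h9.trans h8) (by positivity)
  have h11 : (d : ℝ) / k * (th ρ j ^ 2 * cc d j ^ 2) ≤ th ρ j ^ 2 := by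
    have := mul_le_mul_of_nonneg_left hcc (sq_nonneg (th ρ j))
    calc (d : ℝ) / k * (th ρ j ^ 2 * cc d j ^ 2) = th ρ j ^ 2 * ((d : ℝ) / k * cc d j ^ 2) := by ring
      _ ≤ th ρ j ^ 2 * 1 := this
      _ = _ := mul_one _
  calc (d : ℝ) / k * P ^ 2 / (k / (k + 2) * (P + κ * (2 + κ)) / (1 + κ) ^ 2 + 2 / (k + 2))
      = (d : ℝ) / k * (P ^ 2 / D P) := by simp only [hD]; ring
    _ ≤ _ := h10.trans h11

end Pool.Agent.TWC
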