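import Pool.Agent.HRJ.N1
import Pool.Agent.HRJ.N3a
import Pool.Agent.HRJ.N4
import Pool.Agent.TWC.Defs

/-!
# TWC-N1: the total sum

PROOF PLAN.  The terms with `h < m` vanish (`aa`), `h = m + n`: `aa d p h m = aC d p n (2 m)`; `term_eq` (HRJ-N3a): `aC d p n (2m) |T_(m+n)| = aC d p 0 (2m) |T_m| tw .. n`; `tw_sum` (HRJ-N1; the parameters `a = 2m + d/2 - 1`, `b = m - 1/2`, `c = (d-p)/2`, `e = m + d/4` are positive and
`1 + a - b - c - e = p/2 - d/4 + 1/2 > 0`), `val_Cw`, `val_Ca` (HRJ-N4).  See the proof of `sum4` in `HRJ/N3.lean`.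
-/

set_option autoImplicit false

namespace Pool.Agent.TWC

open MeasureTheory ProbabilityTheory Set Filter Topology Metric
open Pool.Agent.HP89 Pool.Agent.FI75 Pool.Agent.PBL Pool.Agent.HRJ
open scoped RealInnerProductSpace ENNReal

theorem tot {d p : ℕ} (hp : 3 ≤ p) (hpd : p < d) (h2 : d + 2 ≤ 2 * p) {m : ℕ} (hm : 1 ≤ m) (N : ℕ) :
    nn p m * ∑ h ∈ Finset.Icc 1 N, aa d p h m * |tT d h| ≤ vv d p m * rr d p m := by
  have hmR : (1 : ℝ) ≤ m := by exact_mod_cast hm
  have hpdR : (p : ℝ) < d := by exact_mod_cast hpd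
  have hpR : (3 : ℝ) ≤ p := by exact_mod_cast hp
  have h2R : (d : ℝ) + 2 ≤ 2 * p := by exact_mod_cast h2
  have hnn : 0 ≤ nn p m := by
    unfold nn
    exact div_nonneg (mul_nonneg (by linarith) (by linarith)) (by linarith)
  have ht0 : 0 ≤ aC d p 0 (2 * m) * |tT d m| :=
    mul_nonneg (aC_pos hp hpd 0 (2 * m)).le (abs_nonneg _)
  set g : ℕ → ℝ := fun n => tw (2 * (m : ℝ) + (d : ℝ) / 2 - 1) ((m : ℝ) - 1 / 2) (((d : ℝ) - p) / 2)
    ((m : ℝ) + (d : ℝ) / 4) n with hg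
  have hg0 : ∀ n, 0 ≤ g n := fun n =>
    tw_nonneg (by linarith) (by linarith) (by linarith) (by linarith) (by linarith) n
  have e1 : ∑ h ∈ Finset.Icc 1 N, aa d p h m * |tT d h| =
      aC d p 0 (2 * m) * |tT d m| * ∑ h ∈ Finset.Icc 1 N, (if m ≤ h then g (h - m) else 0) := by
    rw [Finset.mul_sum]
    refine Finset.sum_congr rfl fun h _ => ?_
    unfold aa
    split_ifs with hr
    · have h4 := term_eq hp hpd hm (h - m)
      rw [Nat.add_sub_cancel' hr] at h4
      rw [h4]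
    · rw [zero_mul, mul_zero]
  have e2 : ∑ h ∈ Finset.Icc 1 N, (if m ≤ h then g (h - m) else 0) ≤
      ∑ n ∈ Finset.range (N + 1), g n := by
    rw [← Finset.sum_filter, ← Finset.sum_image (s := (Finset.Icc 1 N).filter (fun h => m ≤ h))
      (g := fun h => h - m) (f := g)]
    · refine Finset.sum_le_sum_of_subset_of_nonneg ?_ fun n _ _ => hg0 n
      intro n hn
      rw [Finset.mem_image] at hn
      obtain ⟨r, hr, rfl⟩ := hn
      rw [Finset.mem_filter, Finset.mem_Icc] at hr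
      rw [Finset.mem_range]
      omega
    · intro r hr r' hr' h
      simp only [Finset.coe_filter, Finset.mem_Icc, Set.mem_ofPred_eq] at hr hr'
      dsimp only at h
      omega
  have e3 : ∑ n ∈ Finset.range (N + 1), g n ≤
      Cw (2 * (m : ℝ) + (d : ℝ) / 2 - 1) ((m : ℝ) - 1 / 2) (((d : ℝ) - p) / 2) ((m : ℝ) + (d : ℝ) / 4) :=
    tw_sum (by linarith) (by linarith) (by linarith) (by linarith) (by linarith) (N + 1)
  have e4 := mul_le_mul_of_nonneg_left (mul_le_mul_of_nonneg_left (e2.trans e3) ht0) hnn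
  have e5 := val_Ca hp hpd hm
  rw [e1]
  refine e4.trans (le_of_eq ?_)
  rw [val_Cw hp hpd h2 hm, ← e5]
  ring

end Pool.Agent.TWC
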