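import Pool.Agent.HRJ.N5
import Pool.Agent.TWC.Defs

/-!
# TWC-N2: the values decrease in `m`

PROOF PLAN.  `f m = vv d p m * rr d p m`: `|rR p (m+1)| = |rR p m| (2m+1)/(2m+p-1)`, `rr d p (m+1) = rr d p m (m + d/4)/(m + p/2 - d/4)` (`Real.Gamma_add_one`), and `(2m+1)(4m+d) ≤ (2m+p-1)(4m+2p-d)` for `m ≥ 1`, `d + 2 ≤ 2 p` (`nlinarith`).  (Private lemmas of this kind are in `HRJ/N5.lean`.)
`f 1 = v2 r2` (`vv_one`, `rr_one`), `f 2 = v4` by the two recurrences at `m = 1`: `(3/(p+1)) ((1 + d/4)/(1 + p/2 - d/4)) = 3/(p+1) (d+4)/(2p-d+4)`.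
-/

set_option autoImplicit false

namespace Pool.Agent.TWC

open MeasureTheory ProbabilityTheory Set Filter Topology Metric
open Pool.Agent.HP89 Pool.Agent.FI75 Pool.Agent.PBL Pool.Agent.HRJ
open scoped RealInnerProductSpace ENNReal

private theorem N2_gG_pos {x : ℝ} (hx : 0 < x) : 0 < gG x := by
  unfold gG
  exact div_pos (Real.Gamma_pos_of_pos (by linarith)) (Real.Gamma_pos_of_pos hx)

private theorem N2_mm_pos {p : ℕ} (hp : 1 ≤ p) : 0 < mm p := by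
  rw [mm_gG hp]
  have h1 : (1 : ℝ) ≤ p := by exact_mod_cast hp
  exact div_pos one_pos (mul_pos (Real.sqrt_pos.2 Real.pi_pos) (N2_gG_pos (by linarith)))

private theorem N2_vv_nonneg {d p : ℕ} (hp : 3 ≤ p) (hpd : p < d) (m : ℕ) : 0 ≤ vv d p m := by
  unfold vv
  exact mul_nonneg (abs_nonneg _)
    (div_nonneg (N2_mm_pos (by omega)).le (N2_mm_pos (by omega)).le)

private theorem N2_rr_pos {d p : ℕ} (hp : 3 ≤ p) (hpd : p < d) (h2 : d + 2 ≤ 2 * p) (m : ℕ) :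
    0 < rr d p m := by
  have h1 : (3 : ℝ) ≤ p := by exact_mod_cast hp
  have h3 : (p : ℝ) < d := by exact_mod_cast hpd
  have h4 : (d : ℝ) + 2 ≤ 2 * p := by exact_mod_cast h2
  have hm : (0 : ℝ) ≤ m := Nat.cast_nonneg m
  unfold HRJ.rr
  exact div_pos (mul_pos (Real.Gamma_pos_of_pos (by linarith)) (Real.Gamma_pos_of_pos (by linarith)))
    (mul_pos (Real.Gamma_pos_of_pos (by linarith)) (Real.Gamma_pos_of_pos (by linarith)))

private theorem N2_vv_succ {d p : ℕ} (hp : 3 ≤ p) (m : ℕ) :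
    vv d p (m + 1) = vv d p m * ((2 * (m : ℝ) + 1) / (2 * (m : ℝ) + p - 1)) := by
  have h1 : (3 : ℝ) ≤ p := by exact_mod_cast hp
  have hm : (0 : ℝ) ≤ m := Nat.cast_nonneg m
  have hr : |rR p (m + 1)| = |rR p m| * ((2 * (m : ℝ) + 1) / (2 * (m : ℝ) + p - 1)) := by
    unfold rR
    rw [Finset.prod_range_succ, abs_mul, abs_mul, abs_mul, abs_pow, abs_neg, abs_one, one_pow,
      abs_pow, abs_neg, abs_one, one_pow, one_mul, one_mul,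
      abs_of_nonneg (div_nonneg (by linarith : (0 : ℝ) ≤ 2 * (m : ℝ) + 1)
        (by linarith : (0 : ℝ) ≤ 2 * (m : ℝ) + p - 1))]
  unfold vv
  rw [hr]
  ring

private theorem N2_rr_succ {d p : ℕ} (hp : 3 ≤ p) (hpd : p < d) (h2 : d + 2 ≤ 2 * p) (m : ℕ) :
    rr d p (m + 1) = rr d p m * ((4 * (m : ℝ) + d) / (4 * (m : ℝ) + 2 * p - d)) := by
  have h1 : (3 : ℝ) ≤ p := by exact_mod_cast hp
  have h3 : (p : ℝ) < d := by exact_mod_cast hpd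
  have h4 : (d : ℝ) + 2 ≤ 2 * p := by exact_mod_cast h2
  have hm : (0 : ℝ) ≤ m := Nat.cast_nonneg m
  unfold HRJ.rr
  have e1 : ((m + 1 : ℕ) : ℝ) + (d : ℝ) / 4 = ((m : ℝ) + (d : ℝ) / 4) + 1 := by push_cast; ring
  have e2 : ((m + 1 : ℕ) : ℝ) + (p : ℝ) / 2 - (d : ℝ) / 4 =
      ((m : ℝ) + (p : ℝ) / 2 - (d : ℝ) / 4) + 1 := by push_cast; ring
  have a1 : (m : ℝ) + (d : ℝ) / 4 ≠ 0 := by
    have : 0 < (m : ℝ) + (d : ℝ) / 4 := by linarith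
    exact this.ne'
  have a2 : (m : ℝ) + (p : ℝ) / 2 - (d : ℝ) / 4 ≠ 0 := by
    have : 0 < (m : ℝ) + (p : ℝ) / 2 - (d : ℝ) / 4 := by linarith
    exact this.ne'
  have a3 : 4 * (m : ℝ) + 2 * p - d ≠ 0 := by
    have : 0 < 4 * (m : ℝ) + 2 * p - d := by linarith
    exact this.ne'
  rw [e1, e2, Real.Gamma_add_one a1, Real.Gamma_add_one a2]
  have g1 : Real.Gamma (((d : ℝ) + 2) / 4) ≠ 0 := (Real.Gamma_pos_of_pos (by linarith)).ne'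
  have g2 : Real.Gamma ((m : ℝ) + (p : ℝ) / 2 - (d : ℝ) / 4) ≠ 0 :=
    (Real.Gamma_pos_of_pos (by linarith)).ne'
  have e3 : (4 * (m : ℝ) + d) / (4 * (m : ℝ) + 2 * p - d) =
      ((m : ℝ) + (d : ℝ) / 4) / ((m : ℝ) + (p : ℝ) / 2 - (d : ℝ) / 4) := by
    rw [div_eq_div_iff a3 a2]
    ring
  rw [e3]
  generalize (m : ℝ) + (d : ℝ) / 4 = x at *
  generalize (m : ℝ) + (p : ℝ) / 2 - (d : ℝ) / 4 = y at *
  field_simp

private theorem N2_step {d p : ℕ} (hp : 3 ≤ p) (hpd : p < d) (h2 : d + 2 ≤ 2 * p) (m : ℕ) :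
    vv d p (m + 1) * rr d p (m + 1) ≤ vv d p m * rr d p m := by
  have h1 : (3 : ℝ) ≤ p := by exact_mod_cast hp
  have h3 : (p : ℝ) < d := by exact_mod_cast hpd
  have h4 : (d : ℝ) + 2 ≤ 2 * p := by exact_mod_cast h2
  have hm : (0 : ℝ) ≤ m := Nat.cast_nonneg m
  rw [N2_vv_succ hp, N2_rr_succ hp hpd h2, mul_assoc]
  refine mul_le_mul_of_nonneg_left ?_ (N2_vv_nonneg hp hpd m)
  have hr := N2_rr_pos hp hpd h2 m
  have b1 : 0 < 2 * (m : ℝ) + p - 1 := by linarith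
  have b2 : 0 < 4 * (m : ℝ) + 2 * p - d := by linarith
  have c2 : (2 * (m : ℝ) + 1) / (2 * (m : ℝ) + p - 1) *
      ((4 * (m : ℝ) + d) / (4 * (m : ℝ) + 2 * p - d)) ≤ 1 := by
    rw [div_mul_div_comm, div_le_one (mul_pos b1 b2)]
    nlinarith [mul_nonneg (by linarith : (0 : ℝ) ≤ 4 * (m : ℝ) + p)
      (by linarith : (0 : ℝ) ≤ 2 * (p : ℝ) - d - 2)]
  calc (2 * (m : ℝ) + 1) / (2 * (m : ℝ) + p - 1) *
        (rr d p m * ((4 * (m : ℝ) + d) / (4 * (m : ℝ) + 2 * p - d)))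
      = rr d p m * ((2 * (m : ℝ) + 1) / (2 * (m : ℝ) + p - 1) *
          ((4 * (m : ℝ) + d) / (4 * (m : ℝ) + 2 * p - d))) := by ring
    _ ≤ rr d p m * 1 := mul_le_mul_of_nonneg_left c2 hr.le
    _ = rr d p m := mul_one _

private theorem N2_two {d p : ℕ} (hp : 3 ≤ p) (hpd : p < d) (h2 : d + 2 ≤ 2 * p) :
    vv d p 2 * rr d p 2 = v4 d p := by
  have f1 : vv d p 2 = vv d p 1 * ((2 * ((1 : ℕ) : ℝ) + 1) / (2 * ((1 : ℕ) : ℝ) + p - 1)) :=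
    N2_vv_succ hp 1
  have f2 : rr d p 2 = rr d p 1 * ((4 * ((1 : ℕ) : ℝ) + d) / (4 * ((1 : ℕ) : ℝ) + 2 * p - d)) :=
    N2_rr_succ hp hpd h2 1
  unfold v4
  rw [f1, f2, vv_one hp hpd, rr_one hp hpd h2]
  have e1 : 2 * ((1 : ℕ) : ℝ) + 1 = 3 := by norm_num
  have e2 : 2 * ((1 : ℕ) : ℝ) + p - 1 = (p : ℝ) + 1 := by push_cast; ring
  have e3 : 4 * ((1 : ℕ) : ℝ) + d = (d : ℝ) + 4 := by push_cast; ring
  have e4 : 4 * ((1 : ℕ) : ℝ) + 2 * p - d = 2 * (p : ℝ) - d + 4 := by push_cast; ring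
  rw [e1, e2, e3, e4]
  ring

private theorem N2_anti {d p : ℕ} (hp : 3 ≤ p) (hpd : p < d) (h2 : d + 2 ≤ 2 * p) {k m : ℕ}
    (hm : k ≤ m) : vv d p m * rr d p m ≤ vv d p k * rr d p k := by
  induction m, hm using Nat.le_induction with
  | base => exact le_rfl
  | succ m hm ih => exact (N2_step hp hpd h2 m).trans ih

theorem val_one {d p : ℕ} (hp : 3 ≤ p) (hpd : p < d) (h2 : d + 2 ≤ 2 * p) {m : ℕ} (hm : 1 ≤ m) :
    vv d p m * rr d p m ≤ v2 d p * r2 d p := by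
  have h := N2_anti hp hpd h2 hm
  rwa [vv_one hp hpd, rr_one hp hpd h2] at h

theorem val_two {d p : ℕ} (hp : 3 ≤ p) (hpd : p < d) (h2 : d + 2 ≤ 2 * p) {m : ℕ} (hm : 2 ≤ m) :
    vv d p m * rr d p m ≤ v4 d p := by
  rw [← N2_two hp hpd h2]
  exact N2_anti hp hpd h2 hm

theorem v4_nonneg {d p : ℕ} (hp : 3 ≤ p) (hpd : p < d) (h2 : d + 2 ≤ 2 * p) : 0 ≤ v4 d p := by
  rw [← N2_two hp hpd h2]
  exact mul_nonneg (N2_vv_nonneg hp hpd 2) (N2_rr_pos hp hpd h2 2).le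

end Pool.Agent.TWC
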