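import Pool.Agent.TWC.A5
import Pool.Agent.TWC.B5
import Pool.Agent.TWC.N1
import Pool.Agent.TWC.N2

/-!
# TWC-N3: bounds of the trace constants

PROOF PLAN.  `SM1_le`: `1/(1 - |R_h|) ≤ (d-1)/(d-2)` for `h ≥ 1` (`rR_abs_one`), `tot`, `val_one`.  `SM2_le`: `1/(1 - |R_h|) ≤ 1/(1 - 3/(d²-1))` for `h ≥ 2` (`rR_abs_two`); for `m ≥ 2`: `Icc 2 N ⊆ Icc 1 N`, `tot`, `val_two`; for `m = 1`, `N ≥ 1`: the sum over `Icc 2 N` is the sum over `Icc 1 N` minus the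
term `h = 1`, `nn p 1 aa d p 1 1 |T_1| = Dk d p/(d+1) = D2 d p` (`Dk_aa`, `tT_one`), `tot`, `val_one`; for `N ≤ 1` the sum is empty and `0 ≤ Tq` (`v4_nonneg`).  `ce_eq`: `lm_one`.
-/

set_option autoImplicit false

namespace Pool.Agent.TWC

open MeasureTheory ProbabilityTheory Set Filter Topology Metric
open Pool.Agent.HP89 Pool.Agent.FI75 Pool.Agent.PBL Pool.Agent.HRJ
open scoped RealInnerProductSpace ENNReal

private theorem n3_cast {d p : ℕ} (hp : 3 ≤ p) (hpd : p < d) : (4 : ℝ) ≤ d ∧ (3 : ℝ) ≤ p ∧ (p : ℝ) + 1 ≤ d := by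
  have h1 : 4 ≤ d := by omega
  have h2 : p + 1 ≤ d := hpd
  exact ⟨by exact_mod_cast h1, by exact_mod_cast hp, by exact_mod_cast h2⟩

private theorem n3_nn {p m : ℕ} (hp : 3 ≤ p) (hm : 1 ≤ m) : 0 ≤ nn p m := by
  have h1 : (3 : ℝ) ≤ p := by exact_mod_cast hp
  have h2 : (1 : ℝ) ≤ m := by exact_mod_cast hm
  unfold nn
  exact div_nonneg (mul_nonneg (by linarith) (by linarith)) (by linarith)

private theorem n3_aa {d p : ℕ} (hp : 3 ≤ p) (hpd : p < d) (h m : ℕ) : 0 ≤ aa d p h m := by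
  obtain ⟨h1, h2, h3⟩ := n3_cast hp hpd
  unfold aa
  split_ifs with hmh
  · unfold aC
    have h4 : (0 : ℝ) ≤ ((h - m : ℕ) : ℝ) := Nat.cast_nonneg _
    have h5 : (0 : ℝ) ≤ ((2 * m : ℕ) : ℝ) := Nat.cast_nonneg _
    have h6 : (0 : ℝ) < (((h - m).factorial : ℕ) : ℝ) := by exact_mod_cast Nat.factorial_pos _
    have g1 := Real.Gamma_pos_of_pos (show (0 : ℝ) < ((h - m : ℕ) : ℝ) + ((d : ℝ) - p) / 2 by linarith)
    have g2 := Real.Gamma_pos_of_pos (show (0 : ℝ) < ((d : ℝ) - p) / 2 by linarith)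
    have g3 := Real.Gamma_pos_of_pos (show (0 : ℝ) < (p : ℝ) / 2 by linarith)
    have g4 := Real.Gamma_pos_of_pos (show (0 : ℝ) < (d : ℝ) / 2 by linarith)
    have g5 := Real.Gamma_pos_of_pos
      (show (0 : ℝ) < ((2 * m : ℕ) : ℝ) + ((h - m : ℕ) : ℝ) + (d : ℝ) / 2 - 1 by linarith)
    have g6 := Real.Gamma_pos_of_pos
      (show (0 : ℝ) < ((2 * m : ℕ) : ℝ) + ((h - m : ℕ) : ℝ) + (p : ℝ) / 2 by linarith)
    have h7 : (0 : ℝ) < ((2 * m : ℕ) : ℝ) + 2 * ((h - m : ℕ) : ℝ) + (d : ℝ) / 2 - 1 := by linarith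
    positivity
  · exact le_rfl

private theorem n3_one {d h : ℕ} (hd : 4 ≤ d) (hh : 1 ≤ h) :
    |tT d h| / (1 - |rR d h|) ≤ |tT d h| * (((d : ℝ) - 1) / ((d : ℝ) - 2)) := by
  have h1 : (4 : ℝ) ≤ d := by exact_mod_cast hd
  have h2 := rR_abs_one (show 3 ≤ d by omega) hh
  have h3 : (0 : ℝ) < (d : ℝ) - 1 := by linarith
  have h4 : (0 : ℝ) < (d : ℝ) - 2 := by linarith
  have h5 : (0 : ℝ) < 1 - |rR d h| := by
    have := rR_abs_lt (show 3 ≤ d by omega) hh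
    linarith
  rw [div_eq_mul_inv]
  refine mul_le_mul_of_nonneg_left ?_ (abs_nonneg _)
  rw [inv_le_comm₀ h5 (div_pos h3 h4), inv_div]
  have h6 : ((d : ℝ) - 2) / ((d : ℝ) - 1) = 1 - 1 / ((d : ℝ) - 1) := by
    field_simp
    ring
  rw [h6]
  linarith

private theorem n3_den {d : ℕ} (hd : 4 ≤ d) : (0 : ℝ) < 1 - 3 / ((d : ℝ) ^ 2 - 1) := by
  have h1 : (4 : ℝ) ≤ d := by exact_mod_cast hd
  have h2 : (15 : ℝ) ≤ (d : ℝ) ^ 2 - 1 := by nlinarith
  have h3 : 3 / ((d : ℝ) ^ 2 - 1) < 1 := by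
    rw [div_lt_one (by linarith)]
    linarith
  linarith

private theorem n3_two {d h : ℕ} (hd : 4 ≤ d) (hh : 2 ≤ h) :
    |tT d h| / (1 - |rR d h|) ≤ |tT d h| / (1 - 3 / ((d : ℝ) ^ 2 - 1)) := by
  have h2 := rR_abs_two (show 3 ≤ d by omega) hh
  exact div_le_div_of_nonneg_left (abs_nonneg _) (n3_den hd) (by linarith)

theorem SM1_le {d p : ℕ} (hp : 3 ≤ p) (hpd : p < d) (h2 : d + 2 ≤ 2 * p) (N : ℕ) {m : ℕ} (hm : 1 ≤ m) :
    SM d p (Finset.Icc 1 N) m ≤ Tk d p := by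
  obtain ⟨c1, c2, c3⟩ := n3_cast hp hpd
  have hd : 4 ≤ d := by omega
  have hc : (0 : ℝ) ≤ ((d : ℝ) - 1) / ((d : ℝ) - 2) := div_nonneg (by linarith) (by linarith)
  have h3 := (tot hp hpd h2 hm N).trans (val_one hp hpd h2 hm)
  unfold SM Tk
  calc nn p m * ∑ h ∈ Finset.Icc 1 N, aa d p h m * (|tT d h| / (1 - |rR d h|))
      ≤ nn p m * ∑ h ∈ Finset.Icc 1 N, aa d p h m * |tT d h| * (((d : ℝ) - 1) / ((d : ℝ) - 2)) := by
        refine mul_le_mul_of_nonneg_left (Finset.sum_le_sum fun h hh => ?_) (n3_nn hp hm)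
        rw [mul_assoc]
        exact mul_le_mul_of_nonneg_left (n3_one hd (Finset.mem_Icc.1 hh).1) (n3_aa hp hpd h m)
    _ = (nn p m * ∑ h ∈ Finset.Icc 1 N, aa d p h m * |tT d h|) * (((d : ℝ) - 1) / ((d : ℝ) - 2)) := by
        rw [← Finset.sum_mul, mul_assoc]
    _ ≤ v2 d p * r2 d p * (((d : ℝ) - 1) / ((d : ℝ) - 2)) := mul_le_mul_of_nonneg_right h3 hc

theorem Tq_nonneg {d p : ℕ} (hp : 3 ≤ p) (hpd : p < d) (h2 : d + 2 ≤ 2 * p) : 0 ≤ Tq d p := by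
  unfold Tq
  exact div_nonneg ((v4_nonneg hp hpd h2).trans (le_max_right _ _)) (n3_den (by omega)).le

theorem SM2_le {d p : ℕ} (hp : 3 ≤ p) (hpd : p < d) (h2 : d + 2 ≤ 2 * p) (N : ℕ) {m : ℕ} (hm : 1 ≤ m) :
    SM d p (Finset.Icc 2 N) m ≤ Tq d p := by
  obtain ⟨c1, c2, c3⟩ := n3_cast hp hpd
  have hd : 4 ≤ d := by omega
  have hD := n3_den hd
  have key : nn p m * ∑ h ∈ Finset.Icc 2 N, aa d p h m * |tT d h| ≤
      max (v2 d p * r2 d p - D2 d p) (v4 d p) := by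
    rcases Nat.lt_or_ge 1 m with h1 | h1
    · refine le_trans ?_ (le_max_right _ _)
      refine le_trans ?_ ((tot hp hpd h2 hm N).trans (val_two hp hpd h2 h1))
      refine mul_le_mul_of_nonneg_left ?_ (n3_nn hp hm)
      refine Finset.sum_le_sum_of_subset_of_nonneg (Finset.Icc_subset_Icc_left (by omega)) fun h _ _ => ?_
      exact mul_nonneg (n3_aa hp hpd h m) (abs_nonneg _)
    · obtain rfl : m = 1 := by omega
      rcases Nat.eq_zero_or_pos N with h0 | h0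
      · subst h0
        rw [show Finset.Icc 2 0 = ∅ from rfl, Finset.sum_empty, mul_zero]
        exact (v4_nonneg hp hpd h2).trans (le_max_right _ _)
      · refine le_trans ?_ (le_max_left _ _)
        have h3 := (tot hp hpd h2 hm N).trans (val_one hp hpd h2 hm)
        have h4 : Finset.Icc 1 N = insert 1 (Finset.Icc 2 N) := by
          ext x
          simp only [Finset.mem_Icc, Finset.mem_insert]
          omega
        rw [h4, Finset.sum_insert (by simp), mul_add, ← mul_assoc, Dk_aa hp hpd, tT_one,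
          abs_of_pos (div_pos one_pos (by linarith))] at h3
        have h5 : Dk d p * (1 / ((d : ℝ) + 1)) = D2 d p := by
          unfold D2
          ring
        rw [h5] at h3
        linarith
  unfold SM Tq
  calc nn p m * ∑ h ∈ Finset.Icc 2 N, aa d p h m * (|tT d h| / (1 - |rR d h|))
      ≤ nn p m * ∑ h ∈ Finset.Icc 2 N, aa d p h m * |tT d h| / (1 - 3 / ((d : ℝ) ^ 2 - 1)) := by
        refine mul_le_mul_of_nonneg_left (Finset.sum_le_sum fun h hh => ?_) (n3_nn hp hm)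
        rw [mul_div_assoc]
        exact mul_le_mul_of_nonneg_left (n3_two hd (Finset.mem_Icc.1 hh).1) (n3_aa hp hpd h m)
    _ = (nn p m * ∑ h ∈ Finset.Icc 2 N, aa d p h m * |tT d h|) / (1 - 3 / ((d : ℝ) ^ 2 - 1)) := by
        rw [← Finset.sum_div, mul_div_assoc]
    _ ≤ max (v2 d p * r2 d p - D2 d p) (v4 d p) / (1 - 3 / ((d : ℝ) ^ 2 - 1)) :=
        div_le_div_of_nonneg_right key hD.le

theorem ce_eq {d k : ℕ} (hd : 3 ≤ d) : lm d 1 * Dk d k * Tk d k = ce d k := by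
  have h1 : (3 : ℝ) ≤ d := by exact_mod_cast hd
  have h2 : (d : ℝ) - 1 ≠ 0 := by
    intro h
    linarith
  have h3 : (d : ℝ) - 2 ≠ 0 := by
    intro h
    linarith
  have h4 : (d : ℝ) + 1 ≠ 0 := by
    intro h
    linarith
  rw [lm_one hd]
  unfold Tk ce
  have h5 : ((d : ℝ) - 2) / ((d : ℝ) - 1) * (((d : ℝ) - 1) / ((d : ℝ) - 2)) = 1 := by
    rw [div_mul_div_comm, mul_comm, div_self (mul_ne_zero h2 h3)]
  linear_combination (1 / ((d : ℝ) + 1) * Dk d k * (v2 d k * r2 d k)) * h5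

end Pool.Agent.TWC
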