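import Pool.Agent.HRJ.N4a
import Pool.Agent.HRJ.N6
import Pool.Agent.HRJ.N6a
import Pool.Agent.HRJ.N7
import Pool.Agent.TWC.Defs

/-!
# TWC-N4: algebraic bounds

`Tq_le`, `Sq_le`, `ce_le`: monotonicity in `v2`, `r2` and the bounds `v2_le`, `r2_le` of HRJ-N7.  `Q3_le`: `mG_gG` and
the half step monotonicity `gG_up_n` (from `(d-j)/2` to `d/2`) and `gG_down_n` (from `(d-2j)/2` to `(d-j)/2`).
-/

set_option autoImplicit false

namespace Pool.Agent.TWC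

open MeasureTheory ProbabilityTheory Set Filter Topology Metric
open Pool.Agent.HP89 Pool.Agent.FI75 Pool.Agent.PBL Pool.Agent.HRJ
open scoped RealInnerProductSpace ENNReal

private theorem TWCN4_castR {d p : ℕ} (hpd : p < d) : (p : ℝ) + 1 ≤ d := by exact_mod_cast hpd

private theorem TWCN4_vr {d p : ℕ} (hp : 3 ≤ p) (hpd : p < d) (h2 : d + 2 ≤ 2 * p) :
    0 < v2 d p ∧ v2 d p ≤ vt d p ∧ 1 ≤ r2 d p ∧ r2 d p ≤ rt2 d p :=
  ⟨v2_pos hp hpd, v2_le hp hpd, r2_ge_one hp hpd h2, r2_le hp hpd h2⟩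

private theorem TWCN4_mul {d p : ℕ} (hp : 3 ≤ p) (hpd : p < d) (h2 : d + 2 ≤ 2 * p) :
    v2 d p * r2 d p ≤ vt d p * rt2 d p := by
  obtain ⟨h1, h2, h3, h4⟩ := TWCN4_vr hp hpd h2
  exact mul_le_mul h2 h4 (by linarith) (by linarith)

private theorem TWCN4_den {d : ℕ} (hd : 4 ≤ d) : 0 < 1 - 3 / ((d : ℝ) ^ 2 - 1) := by
  have h4 : (4 : ℝ) ≤ d := by exact_mod_cast hd
  have h1 : 3 < (d : ℝ) ^ 2 - 1 := by nlinarith
  have h2 : 3 / ((d : ℝ) ^ 2 - 1) < 1 := by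
    rw [div_lt_one (by linarith)]
    exact h1
  linarith

theorem Tq_le {d p : ℕ} (hp : 3 ≤ p) (hpd : p < d) (h2 : d + 2 ≤ 2 * p) : Tq d p ≤ Ta d p := by
  have h2' : (d : ℝ) + 2 ≤ 2 * p := by exact_mod_cast h2
  have hp3 : (3 : ℝ) ≤ p := by exact_mod_cast hp
  have hd0 : (0 : ℝ) ≤ d := d.cast_nonneg
  obtain ⟨g1, g2, g3, g4⟩ := TWCN4_vr hp hpd h2
  unfold Tq Ta
  refine div_le_div_of_nonneg_right ?_ (TWCN4_den (by omega)).le
  refine max_le_max ?_ ?_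
  · linarith [TWCN4_mul hp hpd h2]
  · unfold v4 v4a
    have hc := TWCN4_castR hpd
    have hq : 0 < 2 * (p : ℝ) - d + 4 := by linarith
    have k1 : 3 * v2 d p / ((p : ℝ) + 1) ≤ 3 * vt d p / ((p : ℝ) + 1) :=
      div_le_div_of_nonneg_right (by linarith) (by linarith)
    have k2 : r2 d p * ((d : ℝ) + 4) / (2 * (p : ℝ) - d + 4) ≤ rt2 d p * ((d : ℝ) + 4) / (2 * (p : ℝ) - d + 4) :=
      div_le_div_of_nonneg_right (mul_le_mul_of_nonneg_right g4 (by linarith)) hq.le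
    have k3 : 0 ≤ r2 d p * ((d : ℝ) + 4) / (2 * (p : ℝ) - d + 4) :=
      div_nonneg (mul_nonneg (by linarith) (by linarith)) hq.le
    have k4 : 0 ≤ 3 * vt d p / ((p : ℝ) + 1) := div_nonneg (by linarith) (by linarith)
    exact mul_le_mul k1 k2 k3 k4

theorem Sq_le {d j : ℕ} (hj : 2 ≤ j) (hjd : 2 * j + 2 ≤ d) : Sq d j ≤ Sa d j := by
  unfold Sq Sa
  refine Finset.sum_le_sum fun i hi => ?_
  rw [Finset.mem_Icc] at hi
  exact Tq_le (by omega) (by omega) (by omega)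

theorem ce_le {d j : ℕ} (hj : 2 ≤ j) (hjd : 2 * j + 2 ≤ d) : 0 ≤ ce d (d - j) ∧ ce d (d - j) ≤ ca d (d - j) := by
  have e1 : 3 ≤ d - j := by omega
  have e2 : d - j < d := by omega
  have e3 : d + 2 ≤ 2 * (d - j) := by omega
  have hk3 : (3 : ℝ) ≤ ((d - j : ℕ) : ℝ) := by exact_mod_cast e1
  have hd0 : (0 : ℝ) ≤ d := d.cast_nonneg
  obtain ⟨g1, g2, g3, g4⟩ := TWCN4_vr e1 e2 e3
  have hD : 0 ≤ Dk d (d - j) / ((d : ℝ) + 1) := by
    unfold Dk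
    refine div_nonneg (mul_nonneg (div_nonneg (by linarith) (by linarith)) (div_nonneg ?_ ?_)) (by linarith)
    · exact mul_nonneg hd0 (by linarith)
    · exact mul_nonneg (by linarith) (by linarith)
  unfold ce ca
  exact ⟨mul_nonneg hD (mul_nonneg g1.le (by linarith)), mul_le_mul_of_nonneg_left (TWCN4_mul e1 e2 e3) hD⟩

private theorem TWCN4_up {x : ℝ} (hx : 0 < x) (n : ℕ) {y : ℝ} (hy : x + n / 2 = y) :
    y / x ≤ gG y ^ 2 / gG x ^ 2 := by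
  have h := gG_up_n hx n
  rw [hy] at h
  have hn : (0 : ℝ) ≤ n := n.cast_nonneg
  have hy4 : 0 < y := by linarith
  have g1 : 0 < gG x := gG_pos (by linarith)
  rw [div_le_div_iff₀ hx (by positivity)]
  rw [div_le_div_iff₀ hx hy4] at h
  linarith

private theorem TWCN4_down {x : ℝ} (hx : 1 / 4 < x) (n : ℕ) {y : ℝ} (hy : x + n / 2 = y) :
    (x - 1 / 4) / (y - 1 / 4) ≤ gG x ^ 2 / gG y ^ 2 := by
  have h := gG_down_n hx n
  rw [hy] at h
  have hn : (0 : ℝ) ≤ n := n.cast_nonneg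
  have hy4 : 0 < y - 1 / 4 := by linarith
  have hx4 : 0 < x - 1 / 4 := by linarith
  have g2 : 0 < gG y := gG_pos (by linarith)
  rw [div_le_div_iff₀ hy4 (by positivity)]
  rw [div_le_div_iff₀ hy4 hx4] at h
  linarith

theorem Q3_le {d j : ℕ} (hj : 2 ≤ j) (hjd : 2 * j + 2 ≤ d) : 0 < b3 d j ∧ Q3 d j ≤ b3 d j ^ 2 := by
  have hj2 : (2 : ℝ) ≤ j := by exact_mod_cast hj
  have hd2 : 2 * (j : ℝ) + 2 ≤ d := by exact_mod_cast hjd
  have c1 : ((d - 2 * j : ℕ) : ℝ) = (d : ℝ) - 2 * j := by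
    rw [Nat.cast_sub (by omega)]
    push_cast
    ring
  have c2 : ((d - j : ℕ) : ℝ) = (d : ℝ) - j := Nat.cast_sub (by omega)
  have m1 : mG (d - 2 * j) = √2 * gG (((d : ℝ) - 2 * j) / 2) := by
    rw [mG_gG (by omega), c1]
  have m2 : mG (d - j) = √2 * gG (((d : ℝ) - j) / 2) := by
    rw [mG_gG (by omega), c2]
  have m3 : mG d = √2 * gG ((d : ℝ) / 2) := mG_gG (by omega)
  have g1 : 0 < gG (((d : ℝ) - 2 * j) / 2) := gG_pos (by linarith)
  have g2 : 0 < gG (((d : ℝ) - j) / 2) := gG_pos (by linarith)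
  have g3 : 0 < gG ((d : ℝ) / 2) := gG_pos (by linarith)
  have s2 : (√2 : ℝ) ^ 2 = 2 := Real.sq_sqrt (by norm_num)
  have sp : (0 : ℝ) < √2 := by positivity
  have hb : b3 d j = gG (((d : ℝ) - 2 * j) / 2) * gG ((d : ℝ) / 2) / gG (((d : ℝ) - j) / 2) ^ 2 := by
    unfold b3
    rw [m1, m2, m3]
    field_simp
  refine ⟨by rw [hb]; positivity, ?_⟩
  have hu := TWCN4_up (x := ((d : ℝ) - j) / 2) (by linarith) j (y := (d : ℝ) / 2) (by ring)
  have hd := TWCN4_down (x := ((d : ℝ) - 2 * j) / 2) (by linarith) j (y := ((d : ℝ) - j) / 2) (by ring)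
  have hb2 : b3 d j ^ 2 = gG ((d : ℝ) / 2) ^ 2 / gG (((d : ℝ) - j) / 2) ^ 2 *
      (gG (((d : ℝ) - 2 * j) / 2) ^ 2 / gG (((d : ℝ) - j) / 2) ^ 2) := by
    rw [hb]
    field_simp
  have p1 : 0 < (d : ℝ) - j := by linarith
  have p2 : 0 < 2 * ((d : ℝ) - j) - 1 := by linarith
  have e1 : (d : ℝ) / 2 / (((d : ℝ) - j) / 2) = (d : ℝ) / ((d : ℝ) - j) := by
    field_simp
  have e2 : (((d : ℝ) - 2 * j) / 2 - 1 / 4) / (((d : ℝ) - j) / 2 - 1 / 4) =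
      (2 * ((d : ℝ) - 2 * j) - 1) / (2 * ((d : ℝ) - j) - 1) := by
    rw [div_eq_div_iff (by linarith) (by linarith)]
    ring
  rw [e1] at hu
  rw [e2] at hd
  have hQ : Q3 d j = (d : ℝ) / ((d : ℝ) - j) * ((2 * ((d : ℝ) - 2 * j) - 1) / (2 * ((d : ℝ) - j) - 1)) := by
    unfold Q3
    rw [div_mul_div_comm]
  rw [hQ, hb2]
  refine mul_le_mul hu hd ?_ (by positivity)
  exact div_nonneg (by linarith) p2.le

end Pool.Agent.TWC
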