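import Pool.Agent.TWC.Defs

/-!
# TWC-N5: dimensions `d < 160`

PROOF PLAN.  Adapt `HRJ/N8.lean` (integer arithmetic, `decide +kernel`, a soundness lemma).  `k = d - j`.  With `f(p) = vt d p * rt2 d p = √((2d-1)(d+1)/((2p-1)(2p-d+1)))/(p-1)`: `Ta d p = max (f - D2) (w f)/(1 - 3/(d²-1))`, `w = 3(d+4)/((p+1)(2p-d+4))`, `D2 d p`, `Dk d k`, `Q3 d j`, `TT d k`,
`Q5 d k` are rational, `ca d k = Dk d k/(d+1) f(k)`.  Upper bounds of `f` from `Nat.sqrt`-type bounds with 10^-6 precision are sufficient: for fixed `d` accumulate the upper bound of `Sa d j` in `j` and check one of the two alternatives for every `j`.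
Python check with exactly these formulas: everything holds; the smallest margins (in `θ = √Q` against the root of `θ² = S θ + c`) are .016 for (14,6), .037 for (12,5), .046 for (18,8), and `√Q - √(2c) = .022` for (6,2).  (16,7) is excluded (fails by .002).
The second alternative (`Q5`) is needed for `d ≥ 18` or so, the first for `d ≤ 15`.  About 6300 pairs.
-/

set_option autoImplicit false

namespace Pool.Agent.TWC

open MeasureTheory ProbabilityTheory Set Filter Topology Metric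
open Pool.Agent.HP89 Pool.Agent.FI75 Pool.Agent.PBL Pool.Agent.HRJ
open scoped RealInnerProductSpace ENNReal

/-! ### integer bounds -/

private def nw : ℕ → ℕ → ℕ → ℕ
  | 0, _, g => g
  | f + 1, n, g => if (g + n / g) / 2 < g then nw f n ((g + n / g) / 2) else g

private def sq (n : ℕ) : ℕ := nw 40 n 12000000

private def na (d p : ℕ) : ℕ := (2 * d - 1) * (d + 1) * 1000000000000 / ((2 * p - 1) * (2 * p - d + 1))

private def u2 (d p : ℕ) : ℕ :=
  (d * d - 1) * ((sq (na d p) + 1) * (p * (p + 2) * (d + 1)) - 1000000 * ((p + 1) * d * (d + 2))) * 1000 /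
    ((d * d - 4) * (p - 1) * (p * (p + 2) * (d + 1))) + 1

private def u4 (d p : ℕ) : ℕ :=
  (d * d - 1) * 3 * (d + 4) * (sq (na d p) + 1) * 1000 /
    ((d * d - 4) * (p + 1) * (p - 1) * (2 * p - d + 4)) + 1

private def uc (d k : ℕ) : ℕ :=
  (k + 1) * d * (d + 2) * (sq (na d k) + 1) * 1000 / ((k - 1) * (k - 1) * k * (k + 2) * (d + 1)) + 1

private def cond (d p : ℕ) : Bool := decide (na d p < (sq (na d p) + 1) * (sq (na d p) + 1))

private def alt (qn qd us c : ℕ) : Bool :=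
  decide (2 * c * qd < qn * 1000000000) &&
    decide (us * us * qn * qd < (qn * 1000000000 - c * qd) * (qn * 1000000000 - c * qd))

private def t1 (d j us : ℕ) : Bool :=
  alt (d * (2 * (d - 2 * j) - 1)) ((d - j) * (2 * (d - j) - 1)) us (uc d (d - j))

private def kn (k : ℕ) : ℕ := 2 * (k + 1)
private def kd (k : ℕ) : ℕ := (k - 1) * (k + 2)
private def tn (d k : ℕ) : ℕ := k * kd k - d * kn k
private def dn (d k : ℕ) : ℕ :=
  k * (tn d k * kd k + d * kn k * (2 * kd k + kn k)) + 2 * d * ((kd k + kn k) * (kd k + kn k))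

private def t2 (d k us : ℕ) : Bool :=
  decide (d * kn k < k * kd k) &&
    alt (tn d k * tn d k * (k + 2) * ((kd k + kn k) * (kd k + kn k))) (k * (kd k * kd k) * dn d k) us
      (uc d k)

private def ex (d j : ℕ) : Bool := decide (d = 16) && decide (j = 7)

private def run (d : ℕ) : ℕ → ℕ → ℕ → Bool
  | 0, _, _ => true
  | f + 1, j, s =>
      cond d (d - j + 1) && (cond d (d - j) &&
        (((ex d j || t1 d j (s + max (u2 d (d - j + 1)) (u4 d (d - j + 1)))) ||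
          t2 d (d - j) (s + max (u2 d (d - j + 1)) (u4 d (d - j + 1)))) &&
          run d f (j + 1) (s + max (u2 d (d - j + 1)) (u4 d (d - j + 1)))))

private theorem chk_all : ((List.range 154).all fun k => run (k + 6) ((k + 6) / 2 - 2) 2 0) = true := by
  decide +kernel

/-! ### soundness -/

private theorem div_up (x y : ℕ) (hy : 0 < y) : (x : ℝ) / (y : ℝ) ≤ ((x / y + 1 : ℕ) : ℝ) := by
  rw [div_le_iff₀ (by exact_mod_cast hy)]
  have h := Nat.lt_mul_div_succ x hy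
  have h2 : x ≤ (x / y + 1) * y := by
    rw [Nat.mul_comm]
    exact h.le
  exact_mod_cast h2

private theorem root {d p : ℕ} (hd : 5 ≤ d) (hp : d + 2 ≤ 2 * p) (h : cond d p = true) :
    √((2 * (d : ℝ) - 1) / (2 * (p : ℝ) - 1)) * √(((d : ℝ) + 1) / (2 * (p : ℝ) - d + 1)) ≤
      ((sq (na d p) : ℝ) + 1) / 1000000 := by
  have h3 : na d p < (sq (na d p) + 1) * (sq (na d p) + 1) := of_decide_eq_true h
  have hD : (5 : ℝ) ≤ d := by exact_mod_cast hd
  have hP : (d : ℝ) + 2 ≤ 2 * p := by exact_mod_cast hp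
  have e1 : ((2 * d - 1 : ℕ) : ℝ) = 2 * (d : ℝ) - 1 := by
    rw [Nat.cast_sub (by omega)]
    push_cast
    ring
  have e2 : ((2 * p - 1 : ℕ) : ℝ) = 2 * (p : ℝ) - 1 := by
    rw [Nat.cast_sub (by omega)]
    push_cast
    ring
  have e3 : ((2 * p - d + 1 : ℕ) : ℝ) = 2 * (p : ℝ) - d + 1 := by
    rw [Nat.cast_add, Nat.cast_sub (by omega)]
    push_cast
    ring
  have ha2 : (2 * (d : ℝ) - 1) / (2 * (p : ℝ) - 1) * (((d : ℝ) + 1) / (2 * (p : ℝ) - d + 1)) * 1000000000000 ≤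
      (na d p : ℝ) + 1 := by
    have := div_up ((2 * d - 1) * (d + 1) * 1000000000000) ((2 * p - 1) * (2 * p - d + 1))
      (Nat.mul_pos (by omega) (by omega))
    rw [Nat.cast_mul, Nat.cast_mul, Nat.cast_mul, e1, e2, e3] at this
    refine le_trans (le_of_eq ?_) (this.trans (le_of_eq ?_))
    · have n1 : (2 * (p : ℝ) - 1) ≠ 0 := by
        have : (0 : ℝ) < 2 * (p : ℝ) - 1 := by linarith
        exact this.ne'
      have n2 : (2 * (p : ℝ) - d + 1) ≠ 0 := by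
        have : (0 : ℝ) < 2 * (p : ℝ) - d + 1 := by linarith
        exact this.ne'
      push_cast
      field_simp
    · rw [Nat.cast_add, Nat.cast_one]
      rfl
  have g3 : (na d p : ℝ) + 1 ≤ ((sq (na d p) : ℝ) + 1) * ((sq (na d p) : ℝ) + 1) := by exact_mod_cast h3
  have hB : 0 ≤ (2 * (d : ℝ) - 1) / (2 * (p : ℝ) - 1) := by
    apply div_nonneg <;> linarith
  rw [← Real.sqrt_mul hB]
  apply Real.sqrt_le_iff.2
  refine ⟨by positivity, ?_⟩
  have : (((sq (na d p) : ℝ) + 1) / 1000000) ^ 2 =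
    ((sq (na d p) : ℝ) + 1) * ((sq (na d p) : ℝ) + 1) / 1000000000000 := by ring
  rw [this, le_div_iff₀ (by norm_num)]
  linarith

private theorem e4 {d : ℕ} (hd : 5 ≤ d) : ((d * d - 1 : ℕ) : ℝ) = (d : ℝ) ^ 2 - 1 := by
  rw [Nat.cast_sub (by nlinarith)]
  push_cast
  ring

private theorem e5 {d : ℕ} (hd : 5 ≤ d) : ((d * d - 4 : ℕ) : ℝ) = (d : ℝ) ^ 2 - 4 := by
  rw [Nat.cast_sub (by nlinarith)]
  push_cast
  ring

private theorem e6 {p : ℕ} (hp : 1 ≤ p) : ((p - 1 : ℕ) : ℝ) = (p : ℝ) - 1 := by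
  rw [Nat.cast_sub hp, Nat.cast_one]

private theorem e7 {d p : ℕ} (hp : d ≤ 2 * p) : ((2 * p - d + 4 : ℕ) : ℝ) = 2 * (p : ℝ) - d + 4 := by
  rw [Nat.cast_add, Nat.cast_sub hp]
  push_cast
  ring

private theorem up2 {d p : ℕ} (hd : 5 ≤ d) (hp : d + 2 ≤ 2 * p) (h : cond d p = true) :
    (vt d p * rt2 d p - D2 d p) / (1 - 3 / ((d : ℝ) ^ 2 - 1)) ≤ (u2 d p : ℝ) / 1000000000 := by
  have r := root hd hp h
  have hD : (5 : ℝ) ≤ d := by exact_mod_cast hd
  have hP : (d : ℝ) + 2 ≤ 2 * p := by exact_mod_cast hp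
  have q1 : (0 : ℝ) < (d : ℝ) ^ 2 - 1 := by nlinarith
  have q2 : (0 : ℝ) < (d : ℝ) ^ 2 - 4 := by nlinarith
  have q3 : (0 : ℝ) < (p : ℝ) - 1 := by linarith
  have q0 : (0 : ℝ) < (p : ℝ) := by linarith
  have q5 : (0 : ℝ) < (d : ℝ) + 1 := by linarith
  set x : ℝ := √((2 * (d : ℝ) - 1) / (2 * (p : ℝ) - 1)) * √(((d : ℝ) + 1) / (2 * (p : ℝ) - d + 1)) with hx
  set a : ℕ := sq (na d p) + 1 with ha
  have ha' : ((a : ℕ) : ℝ) = (sq (na d p) : ℝ) + 1 := by rw [ha, Nat.cast_add, Nat.cast_one]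
  have pos1 : 0 < (d * d - 4) * (p - 1) * (p * (p + 2) * (d + 1)) := by
    have h1 : 0 < d * d - 4 := by
      have : 25 ≤ d * d := by nlinarith
      omega
    have h2 : 0 < p - 1 := by omega
    have h3 : 0 < p := by omega
    positivity
  set b : ℕ := a * (p * (p + 2) * (d + 1)) - 1000000 * ((p + 1) * d * (d + 2)) with hb
  have hb' : (a : ℝ) * ((p : ℝ) * (p + 2) * (d + 1)) - 1000000 * (((p : ℝ) + 1) * d * (d + 2)) ≤ (b : ℝ) := by
    have : a * (p * (p + 2) * (d + 1)) ≤ b + 1000000 * ((p + 1) * d * (d + 2)) := by omega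
    have h3 : ((a * (p * (p + 2) * (d + 1)) : ℕ) : ℝ) ≤ ((b + 1000000 * ((p + 1) * d * (d + 2)) : ℕ) : ℝ) := by
      exact_mod_cast this
    push_cast at h3
    linarith
  have s1 : (vt d p * rt2 d p - D2 d p) / (1 - 3 / ((d : ℝ) ^ 2 - 1)) =
      ((d : ℝ) ^ 2 - 1) * (x * ((p : ℝ) * (p + 2) * (d + 1)) - ((p : ℝ) + 1) * d * (d + 2)) /
        (((d : ℝ) ^ 2 - 4) * ((p : ℝ) - 1) * ((p : ℝ) * (p + 2) * (d + 1))) := by
    have t1 : 1 - 3 / ((d : ℝ) ^ 2 - 1) = ((d : ℝ) ^ 2 - 4) / ((d : ℝ) ^ 2 - 1) := by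
      field_simp
      ring
    have t2 : vt d p * rt2 d p = x / ((p : ℝ) - 1) := by
      unfold vt rt2
      rw [hx]
      ring
    rw [t1, t2]
    unfold D2 Dk
    have n1 : (d : ℝ) ^ 2 - 1 ≠ 0 := q1.ne'
    have n2 : (d : ℝ) ^ 2 - 4 ≠ 0 := q2.ne'
    have n3 : (p : ℝ) - 1 ≠ 0 := q3.ne'
    have n4 : (p : ℝ) ≠ 0 := q0.ne'
    have n5 : (p : ℝ) + 2 ≠ 0 := by linarith
    have n6 : (d : ℝ) + 1 ≠ 0 := q5.ne'
    field_simp
  have s3 : x * ((p : ℝ) * (p + 2) * (d + 1)) - ((p : ℝ) + 1) * d * (d + 2) ≤ (b : ℝ) / 1000000 := by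
    have t1 : x * ((p : ℝ) * (p + 2) * (d + 1)) ≤ (a : ℝ) / 1000000 * ((p : ℝ) * (p + 2) * (d + 1)) := by
      rw [ha']
      exact mul_le_mul_of_nonneg_right r (by positivity)
    have t2 : (a : ℝ) / 1000000 * ((p : ℝ) * (p + 2) * (d + 1)) - ((p : ℝ) + 1) * d * (d + 2) =
        ((a : ℝ) * ((p : ℝ) * (p + 2) * (d + 1)) - 1000000 * (((p : ℝ) + 1) * d * (d + 2))) / 1000000 := by ring
    have t3 := div_le_div_of_nonneg_right hb' (by norm_num : (0 : ℝ) ≤ 1000000)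
    linarith
  have s4 := div_up ((d * d - 1) * b * 1000) ((d * d - 4) * (p - 1) * (p * (p + 2) * (d + 1))) pos1
  have s5 : (((d * d - 1) * b * 1000 : ℕ) : ℝ) / (((d * d - 4) * (p - 1) * (p * (p + 2) * (d + 1)) : ℕ) : ℝ) =
      ((d : ℝ) ^ 2 - 1) * ((b : ℝ) / 1000000) / (((d : ℝ) ^ 2 - 4) * ((p : ℝ) - 1) * ((p : ℝ) * (p + 2) * (d + 1))) *
        1000000000 := by
    rw [Nat.cast_mul, Nat.cast_mul, Nat.cast_mul, Nat.cast_mul, e4 hd, e5 hd, e6 (by omega)]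
    push_cast
    ring
  rw [s5] at s4
  have s6 : (u2 d p : ℝ) = (((d * d - 1) * b * 1000 / ((d * d - 4) * (p - 1) * (p * (p + 2) * (d + 1))) + 1 : ℕ) : ℝ) := rfl
  rw [s1, s6, le_div_iff₀ (by norm_num)]
  refine le_trans ?_ s4
  refine mul_le_mul_of_nonneg_right ?_ (by norm_num)
  refine div_le_div_of_nonneg_right ?_ (by positivity)
  exact mul_le_mul_of_nonneg_left s3 q1.le

private theorem up4 {d p : ℕ} (hd : 5 ≤ d) (hp : d + 2 ≤ 2 * p) (h : cond d p = true) :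
    v4a d p / (1 - 3 / ((d : ℝ) ^ 2 - 1)) ≤ (u4 d p : ℝ) / 1000000000 := by
  have r := root hd hp h
  have hD : (5 : ℝ) ≤ d := by exact_mod_cast hd
  have hP : (d : ℝ) + 2 ≤ 2 * p := by exact_mod_cast hp
  have q1 : (0 : ℝ) < (d : ℝ) ^ 2 - 1 := by nlinarith
  have q2 : (0 : ℝ) < (d : ℝ) ^ 2 - 4 := by nlinarith
  have q3 : (0 : ℝ) < (p : ℝ) - 1 := by linarith
  have q4 : (0 : ℝ) < 2 * (p : ℝ) - d + 4 := by linarith
  have q5 : (0 : ℝ) < (p : ℝ) + 1 := by linarith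
  set x : ℝ := √((2 * (d : ℝ) - 1) / (2 * (p : ℝ) - 1)) * √(((d : ℝ) + 1) / (2 * (p : ℝ) - d + 1)) with hx
  set a : ℕ := sq (na d p) + 1 with ha
  have ha' : ((a : ℕ) : ℝ) = (sq (na d p) : ℝ) + 1 := by rw [ha, Nat.cast_add, Nat.cast_one]
  have pos2 : 0 < (d * d - 4) * (p + 1) * (p - 1) * (2 * p - d + 4) := by
    have : 0 < d * d - 4 := by
      have : 25 ≤ d * d := by nlinarith
      omega
    have : 0 < p - 1 := by omega
    positivity
  have s1 : v4a d p / (1 - 3 / ((d : ℝ) ^ 2 - 1)) = ((d : ℝ) ^ 2 - 1) * 3 * ((d : ℝ) + 4) * x /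
      (((d : ℝ) ^ 2 - 4) * ((p : ℝ) + 1) * ((p : ℝ) - 1) * (2 * (p : ℝ) - d + 4)) := by
    have t1 : 1 - 3 / ((d : ℝ) ^ 2 - 1) = ((d : ℝ) ^ 2 - 4) / ((d : ℝ) ^ 2 - 1) := by
      field_simp
      ring
    have t2 : v4a d p = 3 * (x / ((p : ℝ) - 1)) / ((p : ℝ) + 1) * (((d : ℝ) + 4) / (2 * (p : ℝ) - d + 4)) := by
      unfold v4a vt rt2
      rw [hx]
      ring
    rw [t1, t2]
    have n1 : (d : ℝ) ^ 2 - 1 ≠ 0 := q1.ne'
    have n2 : (d : ℝ) ^ 2 - 4 ≠ 0 := q2.ne'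
    have n3 : (p : ℝ) - 1 ≠ 0 := q3.ne'
    have n4 : (2 * (p : ℝ) - d + 4) ≠ 0 := q4.ne'
    have n5 : (p : ℝ) + 1 ≠ 0 := q5.ne'
    field_simp
  have s4 := div_up ((d * d - 1) * 3 * (d + 4) * a * 1000) ((d * d - 4) * (p + 1) * (p - 1) * (2 * p - d + 4)) pos2
  have s5 : (((d * d - 1) * 3 * (d + 4) * a * 1000 : ℕ) : ℝ) /
      (((d * d - 4) * (p + 1) * (p - 1) * (2 * p - d + 4) : ℕ) : ℝ) =
      ((d : ℝ) ^ 2 - 1) * 3 * ((d : ℝ) + 4) * ((a : ℝ) / 1000000) /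
      (((d : ℝ) ^ 2 - 4) * ((p : ℝ) + 1) * ((p : ℝ) - 1) * (2 * (p : ℝ) - d + 4)) * 1000000000 := by
    rw [Nat.cast_mul, Nat.cast_mul, Nat.cast_mul, Nat.cast_mul, Nat.cast_mul, Nat.cast_mul, Nat.cast_mul,
      e4 hd, e5 hd, e6 (by omega), e7 (by omega)]
    push_cast
    ring
  rw [s5] at s4
  have s6 : (u4 d p : ℝ) = (((d * d - 1) * 3 * (d + 4) * a * 1000 /
    ((d * d - 4) * (p + 1) * (p - 1) * (2 * p - d + 4)) + 1 : ℕ) : ℝ) := rfl
  rw [s1, s6, le_div_iff₀ (by norm_num)]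
  refine le_trans ?_ s4
  refine mul_le_mul_of_nonneg_right ?_ (by norm_num)
  refine div_le_div_of_nonneg_right ?_ (by positivity)
  rw [ha']
  exact mul_le_mul_of_nonneg_left r (by positivity)

private theorem upc {d k : ℕ} (hd : 5 ≤ d) (hp : d + 2 ≤ 2 * k) (h : cond d k = true) :
    ca d k ≤ (uc d k : ℝ) / 1000000000 := by
  have r := root hd hp h
  have hD : (5 : ℝ) ≤ d := by exact_mod_cast hd
  have hP : (d : ℝ) + 2 ≤ 2 * k := by exact_mod_cast hp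
  have q3 : (0 : ℝ) < (k : ℝ) - 1 := by linarith
  have q0 : (0 : ℝ) < (k : ℝ) := by linarith
  have q5 : (0 : ℝ) < (d : ℝ) + 1 := by linarith
  set x : ℝ := √((2 * (d : ℝ) - 1) / (2 * (k : ℝ) - 1)) * √(((d : ℝ) + 1) / (2 * (k : ℝ) - d + 1)) with hx
  set a : ℕ := sq (na d k) + 1 with ha
  have ha' : ((a : ℕ) : ℝ) = (sq (na d k) : ℝ) + 1 := by rw [ha, Nat.cast_add, Nat.cast_one]
  have pos2 : 0 < (k - 1) * (k - 1) * k * (k + 2) * (d + 1) := by
    have h1 : 0 < k - 1 := by omega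
    have h3 : 0 < k := by omega
    positivity
  have s1 : ca d k = ((k : ℝ) + 1) * d * (d + 2) * x /
      (((k : ℝ) - 1) * ((k : ℝ) - 1) * k * (k + 2) * (d + 1)) := by
    have t2 : vt d k * rt2 d k = x / ((k : ℝ) - 1) := by
      unfold vt rt2
      rw [hx]
      ring
    unfold ca Dk
    rw [t2]
    have n3 : (k : ℝ) - 1 ≠ 0 := q3.ne'
    have n4 : (k : ℝ) ≠ 0 := q0.ne'
    have n5 : (k : ℝ) + 2 ≠ 0 := by linarith
    have n6 : (d : ℝ) + 1 ≠ 0 := q5.ne'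
    field_simp
  have s4 := div_up ((k + 1) * d * (d + 2) * a * 1000) ((k - 1) * (k - 1) * k * (k + 2) * (d + 1)) pos2
  have s5 : (((k + 1) * d * (d + 2) * a * 1000 : ℕ) : ℝ) /
      (((k - 1) * (k - 1) * k * (k + 2) * (d + 1) : ℕ) : ℝ) =
      ((k : ℝ) + 1) * d * (d + 2) * ((a : ℝ) / 1000000) /
      (((k : ℝ) - 1) * ((k : ℝ) - 1) * k * (k + 2) * (d + 1)) * 1000000000 := by
    rw [Nat.cast_mul, Nat.cast_mul _ (d + 1), Nat.cast_mul _ (k + 2), Nat.cast_mul _ k, Nat.cast_mul (k - 1),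
      e6 (by omega)]
    push_cast
    ring
  rw [s5] at s4
  have s6 : (uc d k : ℝ) = (((k + 1) * d * (d + 2) * a * 1000 /
    ((k - 1) * (k - 1) * k * (k + 2) * (d + 1)) + 1 : ℕ) : ℝ) := rfl
  rw [s1, s6, le_div_iff₀ (by norm_num)]
  refine le_trans ?_ s4
  refine mul_le_mul_of_nonneg_right ?_ (by norm_num)
  refine div_le_div_of_nonneg_right ?_ (by positivity)
  rw [ha']
  exact mul_le_mul_of_nonneg_left r (by positivity)

private theorem alt_ok {qn qd us c : ℕ} (h : alt qn qd us c = true) (hqd : 0 < qd) {Q S C : ℝ}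
    (hQ : Q = (qn : ℝ) / (qd : ℝ)) (hS0 : 0 ≤ S) (hS : S ≤ (us : ℝ) / 1000000000)
    (hC : C ≤ (c : ℝ) / 1000000000) : 0 < Q ∧ 2 * C < Q ∧ S ^ 2 * Q < (Q - C) ^ 2 := by
  simp only [alt, Bool.and_eq_true, decide_eq_true_eq] at h
  obtain ⟨h1, h2⟩ := h
  have hq : (0 : ℝ) < qd := by exact_mod_cast hqd
  have g1 : 2 * (c : ℝ) * qd < qn * 1000000000 := by exact_mod_cast h1
  have hle : c * qd ≤ qn * 1000000000 := by nlinarith
  have g2 : (us : ℝ) * us * qn * qd < ((qn : ℝ) * 1000000000 - c * qd) * ((qn : ℝ) * 1000000000 - c * qd) := by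
    have e : ((qn * 1000000000 - c * qd : ℕ) : ℝ) = (qn : ℝ) * 1000000000 - c * qd := by
      rw [Nat.cast_sub hle]
      push_cast
      ring
    rw [← e]
    exact_mod_cast h2
  have k1 : 2 * ((c : ℝ) / 1000000000) < Q := by
    rw [hQ, lt_div_iff₀ hq]
    have : 2 * ((c : ℝ) / 1000000000) * qd = (2 * (c : ℝ) * qd) / 1000000000 := by ring
    rw [this, div_lt_iff₀ (by norm_num)]
    exact g1
  have k0 : (0 : ℝ) ≤ (c : ℝ) / 1000000000 := by positivity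
  refine ⟨by linarith, by linarith, ?_⟩
  have k2 : S ^ 2 * Q ≤ ((us : ℝ) / 1000000000) ^ 2 * Q :=
    mul_le_mul_of_nonneg_right (pow_le_pow_left₀ hS0 hS 2) (by linarith)
  have k3 : (Q - (c : ℝ) / 1000000000) ^ 2 ≤ (Q - C) ^ 2 :=
    pow_le_pow_left₀ (by linarith) (by linarith) 2
  refine lt_of_le_of_lt k2 (lt_of_lt_of_le ?_ k3)
  have m1 : ((us : ℝ) / 1000000000) ^ 2 * Q = ((us : ℝ) * us * qn * qd) / (1000000000000000000 * (qd : ℝ) ^ 2) := by
    rw [hQ]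
    field_simp
    ring
  have m2 : (Q - (c : ℝ) / 1000000000) ^ 2 =
      (((qn : ℝ) * 1000000000 - c * qd) * ((qn : ℝ) * 1000000000 - c * qd)) / (1000000000000000000 * (qd : ℝ) ^ 2) := by
    rw [hQ]
    field_simp
    ring
  rw [m1, m2]
  exact div_lt_div_of_pos_right g2 (by positivity)

private theorem Ta_nonneg {d p : ℕ} (hd : 5 ≤ d) (hp : d + 2 ≤ 2 * p) : 0 ≤ Ta d p := by
  have hD : (5 : ℝ) ≤ d := by exact_mod_cast hd
  have hP : (d : ℝ) + 2 ≤ 2 * p := by exact_mod_cast hp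
  have q1 : (0 : ℝ) < (d : ℝ) ^ 2 - 1 := by nlinarith
  have q3 : (0 : ℝ) < (p : ℝ) - 1 := by linarith
  have q4 : (0 : ℝ) < 2 * (p : ℝ) - d + 4 := by linarith
  have h1 : 0 ≤ 1 - 3 / ((d : ℝ) ^ 2 - 1) := by
    rw [sub_nonneg, div_le_one q1]
    nlinarith
  have h2 : 0 ≤ v4a d p := by
    unfold v4a vt rt2
    positivity
  unfold Ta
  exact div_nonneg (h2.trans (le_max_right _ _)) h1

private theorem Ta_le {d p : ℕ} (hd : 5 ≤ d) (hp : d + 2 ≤ 2 * p) (h : cond d p = true) :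
    Ta d p ≤ ((max (u2 d p) (u4 d p) : ℕ) : ℝ) / 1000000000 := by
  have hD : (5 : ℝ) ≤ d := by exact_mod_cast hd
  have q1 : (0 : ℝ) < (d : ℝ) ^ 2 - 1 := by nlinarith
  have h1 : 0 ≤ 1 - 3 / ((d : ℝ) ^ 2 - 1) := by
    rw [sub_nonneg, div_le_one q1]
    nlinarith
  unfold Ta
  rw [← max_div_div_right h1, Nat.cast_max]
  refine max_le ?_ ?_
  · exact (up2 hd hp h).trans (div_le_div_of_nonneg_right (le_max_left _ _) (by norm_num))
  · exact (up4 hd hp h).trans (div_le_div_of_nonneg_right (le_max_right _ _) (by norm_num))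

/-- the conclusion -/
private def Goal (d j : ℕ) : Prop :=
    (0 < Q3 d j ∧ 2 * ca d (d - j) < Q3 d j ∧ Sa d j ^ 2 * Q3 d j < (Q3 d j - ca d (d - j)) ^ 2) ∨
    (0 < TT d (d - j) ∧ 0 < Q5 d (d - j) ∧ 2 * ca d (d - j) < Q5 d (d - j) ∧
      Sa d j ^ 2 * Q5 d (d - j) < (Q5 d (d - j) - ca d (d - j)) ^ 2)

private theorem goal1 {d j us : ℕ} (hj : 2 ≤ j) (hjd : 2 * j + 2 ≤ d) (h : t1 d j us = true)
    (hc : cond d (d - j) = true) (hS0 : 0 ≤ Sa d j) (hS : Sa d j ≤ (us : ℝ) / 1000000000) : Goal d j := by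
  refine Or.inl ?_
  refine alt_ok h (Nat.mul_pos (by omega) (by omega)) ?_ hS0 hS (upc (by omega) (by omega) hc)
  unfold Q3
  have a1 : ((2 * (d - 2 * j) - 1 : ℕ) : ℝ) = 2 * ((d : ℝ) - 2 * j) - 1 := by
    rw [Nat.cast_sub (by omega), Nat.cast_mul, Nat.cast_sub (by omega)]
    push_cast
    ring
  have a2 : ((2 * (d - j) - 1 : ℕ) : ℝ) = 2 * ((d : ℝ) - j) - 1 := by
    rw [Nat.cast_sub (by omega), Nat.cast_mul, Nat.cast_sub (by omega)]
    push_cast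
    ring
  have a3 : ((d - j : ℕ) : ℝ) = (d : ℝ) - j := by
    rw [Nat.cast_sub (by omega)]
  rw [Nat.cast_mul, Nat.cast_mul, a1, a2, a3]

private theorem goal2 {d j us : ℕ} (hj : 2 ≤ j) (hjd : 2 * j + 2 ≤ d) (h : t2 d (d - j) us = true)
    (hc : cond d (d - j) = true) (hS0 : 0 ≤ Sa d j) (hS : Sa d j ≤ (us : ℝ) / 1000000000) : Goal d j := by
  simp only [t2, Bool.and_eq_true, decide_eq_true_eq] at h
  obtain ⟨h0, h⟩ := h
  obtain ⟨k, hk⟩ : ∃ k, k = d - j := ⟨_, rfl⟩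
  rw [← hk] at h h0
  have hkd : d + 2 ≤ 2 * k := by omega
  have hk2 : 2 ≤ k := by omega
  have hd6 : 6 ≤ d := by omega
  have hD : (6 : ℝ) ≤ d := by exact_mod_cast hd6
  have hP : (d : ℝ) + 2 ≤ 2 * k := by exact_mod_cast hkd
  have b1 : ((kn k : ℕ) : ℝ) = 2 * ((k : ℝ) + 1) := by
    unfold kn
    push_cast
    ring
  have b2 : ((kd k : ℕ) : ℝ) = ((k : ℝ) - 1) * ((k : ℝ) + 2) := by
    unfold kd
    rw [Nat.cast_mul, e6 (by omega)]
    push_cast
    ring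
  obtain ⟨X, hX⟩ : ∃ X : ℝ, X = ((kn k : ℕ) : ℝ) := ⟨_, rfl⟩
  obtain ⟨Y, hY⟩ : ∃ Y : ℝ, Y = ((kd k : ℕ) : ℝ) := ⟨_, rfl⟩
  have hX0 : 0 < X := by
    rw [hX, b1]
    linarith
  have hY0 : 0 < Y := by
    rw [hY, b2]
    have q1 : 0 < (k : ℝ) - 1 := by linarith
    have q2 : 0 < (k : ℝ) + 2 := by linarith
    positivity
  have hkap : kap k = X / Y := by
    unfold kap
    rw [hX, hY, b1, b2]
  have htn : ((tn d k : ℕ) : ℝ) = (k : ℝ) * Y - d * X := by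
    unfold tn
    rw [Nat.cast_sub h0.le, Nat.cast_mul, Nat.cast_mul, hX, hY]
  have htn0 : (0 : ℝ) < (tn d k : ℝ) := by
    have : 0 < tn d k := Nat.sub_pos_of_lt h0
    exact_mod_cast this
  obtain ⟨T, hT⟩ : ∃ T : ℝ, T = ((tn d k : ℕ) : ℝ) := ⟨_, rfl⟩
  rw [← hT] at htn htn0
  have hk0 : (0 : ℝ) < k := by linarith
  have hd0 : (0 : ℝ) < d := by linarith
  have hTT : TT d k = T / (d * Y) := by
    unfold TT
    rw [hkap, htn]
    field_simp
  have hdn : ((dn d k : ℕ) : ℝ) = (k : ℝ) * (T * Y + d * X * (2 * Y + X)) + 2 * d * ((Y + X) * (Y + X)) := by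
    unfold dn
    push_cast
    rw [← hT, ← hX, ← hY]
  have hTT0 : 0 < TT d k := by
    rw [hTT]
    positivity
  have hQ : Q5 d k = ((tn d k * tn d k * (k + 2) * ((kd k + kn k) * (kd k + kn k)) : ℕ) : ℝ) /
      ((k * (kd k * kd k) * dn d k : ℕ) : ℝ) := by
    have hden : (0 : ℝ) < (k : ℝ) * (T * Y + d * X * (2 * Y + X)) + 2 * d * ((Y + X) * (Y + X)) := by positivity
    have hden' := hden.ne'
    have e1 : (k : ℝ) / ((k : ℝ) + 2) * (TT d k + kap k * (2 + kap k)) / (1 + kap k) ^ 2 + 2 / ((k : ℝ) + 2) =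
        ((k : ℝ) * (T * Y + d * X * (2 * Y + X)) + 2 * d * ((Y + X) * (Y + X))) /
          (((k : ℝ) + 2) * d * (Y + X) ^ 2) := by
      rw [hTT, hkap]
      have c1 : 1 + X / Y = (Y + X) / Y := by
        field_simp
      rw [c1]
      have c2 : (Y + X) ≠ 0 := by positivity
      field_simp
    unfold Q5
    rw [e1, hTT]
    push_cast
    rw [hdn, ← hT, ← hX, ← hY]
    have c2 : (Y + X) ≠ 0 := by positivity
    field_simp
  have hpos : 0 < k * (kd k * kd k) * dn d k := by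
    have p1 : 0 < kd k := by
      have : (0 : ℝ) < ((kd k : ℕ) : ℝ) := hY ▸ hY0
      exact_mod_cast this
    have p2 : 0 < dn d k := by
      have : (0 : ℝ) < ((dn d k : ℕ) : ℝ) := by
        rw [hdn]
        positivity
      exact_mod_cast this
    have p3 : 0 < k := by omega
    positivity
  have hc' : cond d k = true := by rw [hk]; exact hc
  have r := alt_ok h hpos hQ hS0 hS (upc (by omega) hkd hc')
  refine Or.inr ?_
  rw [← hk]
  exact ⟨hTT0, r⟩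

private theorem Sa_succ {d j : ℕ} (hj : 1 ≤ j) : Sa d (j + 1) = Sa d j + Ta d (d - (j + 1) + 1) := by
  unfold Sa
  rw [Finset.sum_Icc_succ_top (by omega)]

private theorem Sa_one (d : ℕ) : Sa d 1 = 0 := by
  unfold Sa
  simp

private theorem run_ok {d : ℕ} (hd : 6 ≤ d) : ∀ (f j s : ℕ), 1 ≤ j → 2 * (j + f) + 2 ≤ d →
    run d f (j + 1) s = true → 0 ≤ Sa d j → Sa d j ≤ (s : ℝ) / 1000000000 →
    ∀ i, j < i → i ≤ j + f → ¬ (d = 16 ∧ i = 7) → Goal d i := by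
  intro f
  induction f with
  | zero =>
    intro j s _ _ _ _ _ i h1 h2
    omega
  | succ f ih =>
    intro j s hj hjd hr hS0 hS i h1 h2 hne
    simp only [run, Bool.and_eq_true, Bool.or_eq_true] at hr
    obtain ⟨c1, c2, c3, c4⟩ := hr
    have hT := Ta_le (d := d) (p := d - (j + 1) + 1) (by omega) (by omega) c1
    have hT0 := Ta_nonneg (d := d) (p := d - (j + 1) + 1) (by omega) (by omega)
    have hS0' : 0 ≤ Sa d (j + 1) := by
      rw [Sa_succ hj]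
      exact add_nonneg hS0 hT0
    have hS' : Sa d (j + 1) ≤
        ((s + max (u2 d (d - (j + 1) + 1)) (u4 d (d - (j + 1) + 1)) : ℕ) : ℝ) / 1000000000 := by
      rw [Sa_succ hj, Nat.cast_add, add_div]
      exact add_le_add hS hT
    rcases Nat.lt_or_ge (j + 1) i with h3 | h3
    · exact ih (j + 1) _ (by omega) (by omega) c4 hS0' hS' i h3 (by omega) hne
    · have h4 : i = j + 1 := by omega
      subst h4
      rcases c3 with (c3 | c3) | c3
      · exfalso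
        simp only [ex, Bool.and_eq_true, decide_eq_true_eq] at c3
        exact hne c3
      · exact goal1 (by omega) (by omega) c3 c2 hS0' hS'
      · exact goal2 (by omega) (by omega) c3 c2 hS0' hS'

theorem small {d j : ℕ} (hd : d < 160) (hj : 2 ≤ j) (hjd : 2 * j + 2 ≤ d) (hne : ¬ (d = 16 ∧ j = 7)) :
    (0 < Q3 d j ∧ 2 * ca d (d - j) < Q3 d j ∧ Sa d j ^ 2 * Q3 d j < (Q3 d j - ca d (d - j)) ^ 2) ∨
    (0 < TT d (d - j) ∧ 0 < Q5 d (d - j) ∧ 2 * ca d (d - j) < Q5 d (d - j) ∧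
      Sa d j ^ 2 * Q5 d (d - j) < (Q5 d (d - j) - ca d (d - j)) ^ 2) := by
  have hc : run d (d / 2 - 2) 2 0 = true := by
    have h := List.all_eq_true.1 chk_all (d - 6) (List.mem_range.2 (by omega))
    have e : d - 6 + 6 = d := by omega
    simpa only [e] using h
  exact run_ok (d := d) (by omega) (d / 2 - 2) 1 0 le_rfl (by omega) hc (by rw [Sa_one]) (by rw [Sa_one]; simp)
    j (by omega) (by omega) hne

end Pool.Agent.TWC
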