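import Pool.Agent.TWC.Defs

/-!
# TWC-N6c: `Q5` and `ca` for `d ≥ 160`

Lower bound of `Q5 d k` and upper bound of `ca d k` for `d ≥ 160`, `k = d - j`, `2 ≤ j`, `2 j + 2 ≤ d`.
-/

set_option autoImplicit false

namespace Pool.Agent.TWC

open MeasureTheory ProbabilityTheory Set Filter Topology Metric
open Pool.Agent.HP89 Pool.Agent.FI75 Pool.Agent.PBL Pool.Agent.HRJ
open scoped RealInnerProductSpace ENNReal

private theorem n6c_key {x κ D e : ℝ} (hx : 0 < x) (hκ : 0 < κ) (hκx : κ ≤ x) (hD0 : 0 < D)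
    (hD : D ≤ x + 2.1 * κ) (he : 4.1 * (κ / x) ≤ e) (he1 : e ≤ 1) :
    1 - e ≤ 1 / x * (x - κ) ^ 2 / D := by
  rw [le_div_iff₀ hD0]
  set y := κ / x with hy
  have h1 : κ = y * x := by
    rw [hy]
    field_simp
  have hy0 : 0 < y := by
    rw [hy]
    positivity
  have h2 : (1 - e) * D ≤ (1 - e) * (x + 2.1 * κ) := mul_le_mul_of_nonneg_left hD (by linarith)
  have h3 : (1 - e) * (x + 2.1 * κ) ≤ (1 - 4.1 * y) * (x + 2.1 * κ) :=
    mul_le_mul_of_nonneg_right (by linarith) (by positivity)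
  have h4 : 1 / x * (x - κ) ^ 2 = x * (1 - y) ^ 2 := by
    rw [h1]
    field_simp
  have h5 : (1 - 4.1 * y) * (x + 2.1 * κ) ≤ x * (1 - y) ^ 2 := by
    rw [h1]
    have h6 : x * (1 - y) ^ 2 - (1 - 4.1 * y) * (x + 2.1 * (y * x)) = x * (9.61 * y ^ 2) := by ring
    have h7 : 0 ≤ x * (9.61 * y ^ 2) := by positivity
    linarith
  rw [h4]
  linarith

private theorem n6c_kap {k : ℕ} (hk : 81 ≤ k) : 0 < kap k ∧ kap k * k ≤ 2.001 ∧ 2 / ((k : ℝ) + 2) ≤ kap k := by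
  have h1 : (81 : ℝ) ≤ k := by exact_mod_cast hk
  have h2 : (0 : ℝ) < (k : ℝ) - 1 := by linarith
  unfold kap
  refine ⟨by positivity, ?_, ?_⟩
  · rw [div_mul_eq_mul_div, div_le_iff₀ (by positivity)]
    nlinarith
  · rw [div_le_div_iff₀ (by positivity) (by positivity)]
    nlinarith

theorem Q5_ge {d j : ℕ} (hd : 160 ≤ d) (hj : 2 ≤ j) (hjd : 2 * j + 2 ≤ d) :
    0 < TT d (d - j) ∧ 1 - 33 / (d : ℝ) ≤ Q5 d (d - j) := by
  obtain ⟨k, hk⟩ : ∃ k, k = d - j := ⟨_, rfl⟩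
  rw [← hk]
  have hk81 : 81 ≤ k := by omega
  have hkd : d + 2 ≤ 2 * k := by omega
  have hkd' : k ≤ d := by omega
  have hkd1 : (d : ℝ) + 2 ≤ 2 * k := by exact_mod_cast hkd
  have hkd2 : (k : ℝ) ≤ d := by exact_mod_cast hkd'
  have hd1 : (160 : ℝ) ≤ d := by exact_mod_cast hd
  have hk1 : (81 : ℝ) ≤ k := by exact_mod_cast hk81
  obtain ⟨hκ0, hκk, hκ2⟩ := n6c_kap hk81
  have hd0 : (0 : ℝ) < d := by linarith
  have hk0 : (0 : ℝ) < k := by linarith
  have hx : 0 < (k : ℝ) / d := by positivity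
  have hκs : kap k ≤ 0.1 := by nlinarith
  have hx2 : 1 / 2 ≤ (k : ℝ) / d := by
    rw [div_le_div_iff₀ (by norm_num) hd0]
    linarith
  have hκx : kap k < (k : ℝ) / d := by linarith
  have hTT : 0 < TT d k := by
    unfold TT
    linarith
  refine ⟨hTT, ?_⟩
  have hy : 4.1 * (kap k / ((k : ℝ) / d)) ≤ 33 / (d : ℝ) := by
    rw [div_div_eq_mul_div, mul_div_assoc', div_le_div_iff₀ hk0 hd0]
    have h1 : kap k * d * d ≤ kap k * (4 * k ^ 2) := by
      rw [mul_assoc]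
      refine mul_le_mul_of_nonneg_left ?_ hκ0.le
      nlinarith
    have h2 : kap k * (4 * (k : ℝ) ^ 2) = 4 * (kap k * k) * k := by ring
    have h3 : 4 * (kap k * k) * (k : ℝ) ≤ 4 * 2.001 * k :=
      mul_le_mul_of_nonneg_right (by linarith) hk0.le
    calc 4.1 * (kap k * (d : ℝ)) * d = 4.1 * (kap k * d * d) := by ring
      _ ≤ 4.1 * (4 * 2.001 * k) := by linarith
      _ ≤ 33 * k := by nlinarith
  have hT0 : 0 < TT d k + kap k * (2 + kap k) := by positivity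
  have hD0 : 0 < (k : ℝ) / ((k : ℝ) + 2) * (TT d k + kap k * (2 + kap k)) / (1 + kap k) ^ 2 + 2 / ((k : ℝ) + 2) := by
    positivity
  have hD : (k : ℝ) / ((k : ℝ) + 2) * (TT d k + kap k * (2 + kap k)) / (1 + kap k) ^ 2 + 2 / ((k : ℝ) + 2) ≤
      (k : ℝ) / d + 2.1 * kap k := by
    have h1 : (k : ℝ) / ((k : ℝ) + 2) * (TT d k + kap k * (2 + kap k)) / (1 + kap k) ^ 2 ≤
        TT d k + kap k * (2 + kap k) := by
      rw [div_le_iff₀ (by positivity)]
      have h2 : (k : ℝ) / ((k : ℝ) + 2) ≤ 1 := by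
        rw [div_le_one (by positivity)]
        linarith
      have h3 : (1 : ℝ) ≤ (1 + kap k) ^ 2 := by nlinarith
      calc (k : ℝ) / ((k : ℝ) + 2) * (TT d k + kap k * (2 + kap k))
          ≤ 1 * (TT d k + kap k * (2 + kap k)) := mul_le_mul_of_nonneg_right h2 hT0.le
        _ = (TT d k + kap k * (2 + kap k)) * 1 := by ring
        _ ≤ _ := mul_le_mul_of_nonneg_left h3 hT0.le
    have h4 : TT d k + kap k * (2 + kap k) + kap k = (k : ℝ) / d + 2 * kap k + kap k * kap k := by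
      unfold TT
      ring
    have h5 : kap k * kap k ≤ 0.1 * kap k := mul_le_mul_of_nonneg_right hκs hκ0.le
    linarith
  have h33 : 33 / (d : ℝ) ≤ 1 := by
    rw [div_le_one hd0]
    linarith
  have key := n6c_key hx hκ0 hκx.le hD0 hD hy h33
  unfold Q5
  rw [show (d : ℝ) / k = 1 / ((k : ℝ) / d) by rw [one_div_div]]
  exact key

theorem ca_le {d j : ℕ} (hd : 160 ≤ d) (hj : 2 ≤ j) (hjd : 2 * j + 2 ≤ d) :
    0 ≤ ca d (d - j) ∧ ca d (d - j) ≤ 1 / (d : ℝ) := by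
  obtain ⟨k, hk⟩ : ∃ k, k = d - j := ⟨_, rfl⟩
  rw [← hk]
  have hk81 : 81 ≤ k := by omega
  have hkd : d + 2 ≤ 2 * k := by omega
  have hkd' : k ≤ d := by omega
  have hkd1 : (d : ℝ) + 2 ≤ 2 * k := by exact_mod_cast hkd
  have hkd2 : (k : ℝ) ≤ d := by exact_mod_cast hkd'
  have hd1 : (160 : ℝ) ≤ d := by exact_mod_cast hd
  have hk1 : (81 : ℝ) ≤ k := by exact_mod_cast hk81
  have hd0 : (0 : ℝ) < d := by linarith
  have hk0 : (0 : ℝ) < k := by linarith
  have hkm : (0 : ℝ) < (k : ℝ) - 1 := by linarith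
  have hDk0 : 0 ≤ Dk d k := by
    unfold Dk
    positivity
  have hDk : Dk d k ≤ 4.1 := by
    unfold Dk
    have h1 : ((k : ℝ) + 1) / ((k : ℝ) - 1) ≤ 1.025 := by
      rw [div_le_iff₀ hkm]
      linarith
    have h2 : (d : ℝ) * ((d : ℝ) + 2) / ((k : ℝ) * ((k : ℝ) + 2)) ≤ 4 := by
      rw [div_le_iff₀ (by positivity)]
      nlinarith
    calc ((k : ℝ) + 1) / ((k : ℝ) - 1) * ((d : ℝ) * ((d : ℝ) + 2) / ((k : ℝ) * ((k : ℝ) + 2)))
        ≤ 1.025 * 4 := mul_le_mul h1 h2 (by positivity) (by norm_num)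
      _ = 4.1 := by norm_num
  have hv0 : 0 ≤ vt d k := by
    unfold vt
    positivity
  have hr0 : 0 ≤ rt2 d k := by
    unfold rt2
    positivity
  have hv : vt d k ≤ 3 / d := by
    unfold vt
    have h1 : √((2 * (d : ℝ) - 1) / (2 * (k : ℝ) - 1)) ≤ 3 / 2 := by
      rw [Real.sqrt_le_left (by norm_num), div_le_iff₀ (by linarith)]
      linarith
    rw [div_le_div_iff₀ hkm hd0]
    nlinarith
  have hr : rt2 d k ≤ d / 15 := by
    unfold rt2
    rw [Real.sqrt_le_left (by positivity), div_le_iff₀ (by linarith)]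
    have h1 : (3 : ℝ) ≤ 2 * (k : ℝ) - d + 1 := by linarith
    have h2 : ((d : ℝ) / 15) ^ 2 * 3 ≤ ((d : ℝ) / 15) ^ 2 * (2 * (k : ℝ) - d + 1) :=
      mul_le_mul_of_nonneg_left h1 (by positivity)
    nlinarith
  have hvr : vt d k * rt2 d k ≤ 1 / 5 := by
    calc vt d k * rt2 d k ≤ 3 / d * (d / 15) := mul_le_mul hv hr hr0 (by positivity)
      _ = 1 / 5 := by
        field_simp
        norm_num
  unfold ca
  refine ⟨by positivity, ?_⟩
  calc Dk d k / ((d : ℝ) + 1) * (vt d k * rt2 d k) ≤ 4.1 / ((d : ℝ) + 1) * (1 / 5) := by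
        refine mul_le_mul ?_ hvr (by positivity) (by positivity)
        exact div_le_div_of_nonneg_right hDk (by positivity)
    _ ≤ 1 / (d : ℝ) := by
        rw [div_mul_div_comm, div_le_div_iff₀ (by positivity) hd0]
        linarith

end Pool.Agent.TWC
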