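import Pool.Agent.TWC.N6b
import Pool.Agent.TWC.N6c

/-!
# TWC-N6: `d ≥ 160`

PROOF PLAN.  `θ² ≥ Q5 ≥ 1 - 33/d ≥ (1 - 18/d)²` (`324/d ≤ 3`), so `θ ≥ 1 - 18/d ≥ .88`.  `q = √(2 - d/(d-j))`: `4/(d+2) ≤ q² ≤ 1` (`2 (d-j) ≥ d + 2`), `2q - q²` is increasing on `[0,1]`: `2q - q² ≥ 4/√(d+2) - 4/(d+2) > 36.5/d` for `d ≥ 160` (with `y = √(d+2) ≥ 12.7`:
`4/y - 4/y² > 36.5/(y²-2)`).  `S + c/θ ≤ (1-q)² + 17/d + 1.2/d < 1 - 18/d ≤ θ` (`Sa_le`, `ca_le`); multiply by `θ`.  `2 c ≤ 2/d < θ²`.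
-/

set_option autoImplicit false

namespace Pool.Agent.TWC

open MeasureTheory ProbabilityTheory Set Filter Topology Metric
open Pool.Agent.HP89 Pool.Agent.FI75 Pool.Agent.PBL Pool.Agent.HRJ
open scoped RealInnerProductSpace ENNReal

private theorem q_low {D q u : ℝ} (hD : 160 ≤ D) (hu : u * D = 1) (hu0 : 0 < u) (hu1 : u ≤ 1 / 160)
    (hq0 : 0 ≤ q) (hq1 : q ≤ 1) (hq2 : 4 / (D + 2) ≤ q ^ 2) : 36.2 * u < 2 * q - q ^ 2 := by
  rcases le_or_gt 0.1575 q with h | h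
  · have h1 : 0.29 ≤ 2 * q - q ^ 2 := by nlinarith
    linarith
  · have h1 : 4 ≤ q ^ 2 * (D + 2) := by
      rwa [div_le_iff₀ (by linarith)] at hq2
    have h2 : 4 * u ≤ q ^ 2 * (1 + 2 * u) := by
      have h3 : 4 * u ≤ q ^ 2 * (D + 2) * u := mul_le_mul_of_nonneg_right h1 hu0.le
      have h4 : q ^ 2 * (D + 2) * u = q ^ 2 * (u * D + 2 * u) := by ring
      rw [h4, hu] at h3
      exact h3
    have h3 : q ^ 2 ≤ 0.1575 * q := by nlinarith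
    have h4 : q ^ 2 * (1 + 2 * u) ≤ 0.1575 * q * 1.0125 := by
      have h5 : 1 + 2 * u ≤ 1.0125 := by linarith
      exact mul_le_mul h3 h5 (by linarith) (by positivity)
    have h5 : 1.84 * q ≤ 2 * q - q ^ 2 := by nlinarith
    linarith

theorem large {d j : ℕ} (hd : 160 ≤ d) (hj : 2 ≤ j) (hjd : 2 * j + 2 ≤ d) {θ : ℝ} (hθ : 0 < θ)
    (h5 : 0 < TT d (d - j) → Q5 d (d - j) ≤ θ ^ 2) :
    2 * ca d (d - j) < θ ^ 2 ∧ Sa d j * θ + ca d (d - j) < θ ^ 2 := by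
  obtain ⟨hT, hQ⟩ := Q5_ge hd hj hjd
  have hQ' := hQ.trans (h5 hT)
  obtain ⟨hc0, hc1⟩ := ca_le hd hj hjd
  have hS := Sa_le hd hj hjd
  have hS0 := Sa_nonneg hj hjd
  have hD : (160 : ℝ) ≤ (d : ℝ) := by exact_mod_cast hd
  have hJ : (2 : ℝ) ≤ (j : ℝ) := by exact_mod_cast hj
  have hJD : 2 * (j : ℝ) + 2 ≤ (d : ℝ) := by exact_mod_cast hjd
  set D : ℝ := (d : ℝ) with hDdef
  set J : ℝ := (j : ℝ) with hJdef
  set c := ca d (d - j)
  set S := Sa d j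
  set q := √(2 - D / (D - J)) with hqdef
  set u : ℝ := 1 / D with hudef
  have hD0 : 0 < D := by linarith
  have hu0 : 0 < u := by positivity
  have huD : u * D = 1 := by
    rw [hudef]
    field_simp
  have hu1 : u ≤ 1 / 160 := one_div_le_one_div_of_le (by norm_num) hD
  have e33 : 33 / D = 33 * u := by rw [hudef]; ring
  have e17 : 17 / D = 17 * u := by rw [hudef]; ring
  rw [e33] at hQ'
  rw [e17] at hS
  have hDJ : 0 < D - J := by linarith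
  have hin : 4 / (D + 2) ≤ 2 - D / (D - J) := by
    have h1 : 2 - D / (D - J) = (D - 2 * J) / (D - J) := by
      field_simp
      ring
    rw [h1, div_le_div_iff₀ (by linarith) hDJ]
    nlinarith
  have hin1 : 2 - D / (D - J) ≤ 1 := by
    have h1 : 1 ≤ D / (D - J) := by
      rw [le_div_iff₀ hDJ]
      linarith
    linarith
  have hin0 : 0 ≤ 2 - D / (D - J) := le_trans (by positivity) hin
  have hq0 : 0 ≤ q := Real.sqrt_nonneg _
  have hqs : q ^ 2 = 2 - D / (D - J) := Real.sq_sqrt hin0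
  have hq1 : q ≤ 1 := by
    rw [hqdef]
    exact Real.sqrt_le_one.2 hin1
  have hql := q_low hD huD hu0 hu1 hq0 hq1 (by rw [hqs]; exact hin)
  have hth : 1 - 18 * u ≤ θ := by
    have h1 : (1 - 18 * u) ^ 2 ≤ θ ^ 2 := by nlinarith
    have h2 : 0 ≤ 1 - 18 * u := by linarith
    exact (sq_le_sq₀ h2 hθ.le).1 h1
  refine ⟨by nlinarith, ?_⟩
  have h6 : 1.2 * u ≤ θ - ((1 - q) ^ 2 + 17 * u) := by nlinarith
  have h7 : S * θ ≤ ((1 - q) ^ 2 + 17 * u) * θ := mul_le_mul_of_nonneg_right hS hθ.le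
  have h8 : 0.88 ≤ θ := by linarith
  have h9 : u < θ * (θ - ((1 - q) ^ 2 + 17 * u)) := by
    have h10 : 0.88 * (1.2 * u) ≤ θ * (θ - ((1 - q) ^ 2 + 17 * u)) :=
      mul_le_mul h8 h6 (by positivity) hθ.le
    linarith
  nlinarith

end Pool.Agent.TWC
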