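import Pool.Agent.TWC.Defs

/-!
# TWC-N0: from one value of `θ²` to all larger ones

PROOF PLAN.  `q = √Q`: `S q < Q - c` (`abs_lt_of_sq_lt_sq'`, both sides nonnegative), so `q > S + c/q ≥ S`; for `θ ≥ q`: `θ² - S θ - c ≥ q² - S q - c > 0` since `(θ - q)(θ + q - S) ≥ 0`.
-/

set_option autoImplicit false

namespace Pool.Agent.TWC

open MeasureTheory ProbabilityTheory Set Filter Topology Metric
open Pool.Agent.HP89 Pool.Agent.FI75 Pool.Agent.PBL Pool.Agent.HRJ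
open scoped RealInnerProductSpace ENNReal

theorem good {S c Q θ : ℝ} (hS : 0 ≤ S) (hc : 0 ≤ c) (hQ : 0 < Q) (h1 : 2 * c < Q) (h2 : S ^ 2 * Q < (Q - c) ^ 2)
    (hθ : 0 < θ) (h : Q ≤ θ ^ 2) : 2 * c < θ ^ 2 ∧ S * θ + c < θ ^ 2 := by
  have hq0 : 0 < √Q := Real.sqrt_pos.2 hQ
  have hqq : √Q ^ 2 = Q := Real.sq_sqrt hQ.le
  have h3 : S * √Q < Q - c := by
    refine lt_of_pow_lt_pow_left₀ 2 (by linarith) ?_
    rw [mul_pow, hqq]
    exact h2
  have h4 : √Q ≤ θ := by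
    rw [← Real.sqrt_sq hθ.le]
    exact Real.sqrt_le_sqrt h
  have h5 : S < √Q := by
    by_contra h6
    push Not at h6
    have h7 : √Q * √Q ≤ S * √Q := mul_le_mul_of_nonneg_right h6 hq0.le
    nlinarith
  refine ⟨by linarith, ?_⟩
  have h8 : 0 ≤ (θ - √Q) * (θ + √Q - S) := mul_nonneg (by linarith) (by linarith)
  nlinarith

end Pool.Agent.TWC
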