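import Pool.Agent.HRJ.N4a
import Pool.Agent.TWC.N0

/-!
# TWC-N7: the pair (16, 7)

Explicit Gamma values for `b3 16 7`, rational upper bounds of the square roots for `Sa 16 7` and `ca 16 9`.
-/

set_option autoImplicit false

namespace Pool.Agent.TWC

open MeasureTheory ProbabilityTheory Set Filter Topology Metric
open Pool.Agent.HP89 Pool.Agent.FI75 Pool.Agent.PBL Pool.Agent.HRJ
open scoped RealInnerProductSpace ENNReal

private theorem N7_G1 : gG 1 = √Real.pi / 2 := by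
  unfold gG
  rw [show (1 : ℝ) + 1 / 2 = 1 / 2 + 1 by norm_num, Real.Gamma_add_one (by norm_num), Real.Gamma_one_half_eq,
    Real.Gamma_one]
  ring

private theorem N7_G8 : gG 8 = 2027025 / 256 * √Real.pi / 5040 := by
  unfold gG
  have h1 : Real.Gamma (8 + 1 / 2) = 2027025 / 256 * √Real.pi := by
    rw [show (8 : ℝ) + 1 / 2 = 15 / 2 + 1 by norm_num, Real.Gamma_add_one (by norm_num),
      show (15 / 2 : ℝ) = 13 / 2 + 1 by norm_num, Real.Gamma_add_one (by norm_num),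
      show (13 / 2 : ℝ) = 11 / 2 + 1 by norm_num, Real.Gamma_add_one (by norm_num),
      show (11 / 2 : ℝ) = 9 / 2 + 1 by norm_num, Real.Gamma_add_one (by norm_num),
      show (9 / 2 : ℝ) = 7 / 2 + 1 by norm_num, Real.Gamma_add_one (by norm_num),
      show (7 / 2 : ℝ) = 5 / 2 + 1 by norm_num, Real.Gamma_add_one (by norm_num),
      show (5 / 2 : ℝ) = 3 / 2 + 1 by norm_num, Real.Gamma_add_one (by norm_num),
      show (3 / 2 : ℝ) = 1 / 2 + 1 by norm_num, Real.Gamma_add_one (by norm_num), Real.Gamma_one_half_eq]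
    ring
  have h2 : Real.Gamma 8 = 5040 := by
    rw [show (8 : ℝ) = ((7 : ℕ) : ℝ) + 1 by norm_num, Real.Gamma_nat_eq_factorial]
    norm_num [Nat.factorial]
  rw [h1, h2]

private theorem N7_G9 : gG (9 / 2) = 24 / (105 / 16 * √Real.pi) := by
  unfold gG
  have h1 : Real.Gamma (9 / 2) = 105 / 16 * √Real.pi := by
    rw [show (9 / 2 : ℝ) = 7 / 2 + 1 by norm_num, Real.Gamma_add_one (by norm_num),
      show (7 / 2 : ℝ) = 5 / 2 + 1 by norm_num, Real.Gamma_add_one (by norm_num),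
      show (5 / 2 : ℝ) = 3 / 2 + 1 by norm_num, Real.Gamma_add_one (by norm_num),
      show (3 / 2 : ℝ) = 1 / 2 + 1 by norm_num, Real.Gamma_add_one (by norm_num), Real.Gamma_one_half_eq]
    ring
  have h2 : Real.Gamma (9 / 2 + 1 / 2) = 24 := by
    rw [show (9 / 2 : ℝ) + 1 / 2 = ((4 : ℕ) : ℝ) + 1 by norm_num, Real.Gamma_nat_eq_factorial]
    norm_num [Nat.factorial]
  rw [h1, h2]

theorem b3_16 : (0.5796 : ℝ) ≤ b3 16 7 := by
  have e1 : mG (16 - 2 * 7) = √2 * gG 1 := by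
    rw [mG_gG (by norm_num)]
    norm_num
  have e2 : mG 16 = √2 * gG 8 := by
    rw [mG_gG (by norm_num)]
    norm_num
  have e3 : mG (16 - 7) = √2 * gG (9 / 2) := by
    rw [mG_gG (by norm_num)]
    norm_num
  have hpi : 0 < Real.pi := Real.pi_pos
  have hs : √Real.pi ^ 2 = Real.pi := Real.sq_sqrt hpi.le
  have hs0 : 0 < √Real.pi := Real.sqrt_pos.2 hpi
  have h2 : √(2 : ℝ) ^ 2 = 2 := Real.sq_sqrt (by norm_num)
  have h20 : 0 < √(2 : ℝ) := by positivity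
  have key : b3 16 7 = Real.pi ^ 2 * (2027025 * 11025 / (2580480 * 147456)) := by
    unfold b3
    rw [e1, e2, e3, N7_G1, N7_G8, N7_G9]
    have h3 : √(2 : ℝ) ≠ 0 := h20.ne'
    have h4 : √Real.pi ≠ 0 := hs0.ne'
    have h5 : √2 * (√Real.pi / 2) * (√2 * (2027025 / 256 * √Real.pi / 5040)) / (√2 * (24 / (105 / 16 * √Real.pi))) ^ 2 =
        (√Real.pi ^ 2) ^ 2 * (2027025 * 11025 / (2580480 * 147456)) := by
      field_simp
      norm_num
    rw [h5, hs]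
  rw [key]
  have h6 : (3.1415 : ℝ) < Real.pi := Real.pi_gt_d4
  have h7 : (3.1415 : ℝ) ^ 2 ≤ Real.pi ^ 2 := pow_le_pow_left₀ (by norm_num) h6.le 2
  have h8 : (0.5796 : ℝ) ≤ 3.1415 ^ 2 * (2027025 * 11025 / (2580480 * 147456)) := by norm_num
  exact h8.trans (mul_le_mul_of_nonneg_right h7 (by norm_num))

private theorem N7_vt {p : ℕ} (hp : 9 ≤ p) : 0 ≤ vt 16 p := by
  unfold vt
  have : (9 : ℝ) ≤ p := by exact_mod_cast hp
  exact div_nonneg (Real.sqrt_nonneg _) (by linarith)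

private theorem N7_u0 {p : ℕ} (hp : 9 ≤ p) : 0 ≤ vt 16 p * rt2 16 p :=
  mul_nonneg (N7_vt hp) (Real.sqrt_nonneg _)

private theorem N7_u {p : ℕ} (hp : 9 ≤ p) {s : ℝ} (hs : 0 ≤ s)
    (h : 527 ≤ s ^ 2 * ((2 * (p : ℝ) - 1) * (2 * (p : ℝ) - 15))) :
    vt 16 p * rt2 16 p ≤ s / ((p : ℝ) - 1) := by
  have hp' : (9 : ℝ) ≤ p := by exact_mod_cast hp
  have h1 : 0 < 2 * (p : ℝ) - 1 := by linarith
  have h2 : 0 < 2 * (p : ℝ) - 15 := by linarith
  have h3 : 0 < (p : ℝ) - 1 := by linarith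
  have e1 : vt 16 p * rt2 16 p = √(527 / ((2 * (p : ℝ) - 1) * (2 * (p : ℝ) - 15))) / ((p : ℝ) - 1) := by
    unfold vt rt2
    rw [div_mul_eq_mul_div, ← Real.sqrt_mul (by
      refine div_nonneg (by norm_num) h1.le)]
    congr 2
    push_cast
    rw [show 2 * (p : ℝ) - 16 + 1 = 2 * (p : ℝ) - 15 by ring, div_mul_div_comm]
    norm_num
  rw [e1]
  refine div_le_div_of_nonneg_right ?_ h3.le
  rw [Real.sqrt_le_left hs, div_le_iff₀ (mul_pos h1 h2)]
  exact h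

private theorem N7_v4 {p : ℕ} (hp : 9 ≤ p) :
    v4a 16 p = vt 16 p * rt2 16 p * (60 / (((p : ℝ) + 1) * (2 * (p : ℝ) - 12))) := by
  have hp' : (9 : ℝ) ≤ p := by exact_mod_cast hp
  have h1 : (p : ℝ) + 1 ≠ 0 := by linarith
  have h2 : 2 * (p : ℝ) - 12 ≠ 0 := by linarith
  unfold v4a
  push_cast
  rw [show 2 * (p : ℝ) - 16 + 4 = 2 * (p : ℝ) - 12 by ring]
  field_simp
  ring

private theorem N7_den : (1 : ℝ) - 3 / (((16 : ℕ) : ℝ) ^ 2 - 1) = 252 / 255 := by norm_num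

private theorem N7_Ta0 {p : ℕ} (hp : 9 ≤ p) : 0 ≤ Ta 16 p := by
  have hp' : (9 : ℝ) ≤ p := by exact_mod_cast hp
  unfold Ta
  rw [N7_den]
  refine div_nonneg (le_max_of_le_right ?_) (by norm_num)
  rw [N7_v4 hp]
  exact mul_nonneg (N7_u0 hp) (div_nonneg (by norm_num) (mul_nonneg (by linarith) (by linarith)))

private theorem N7_Ta {p : ℕ} (hp : 9 ≤ p) {s B : ℝ} (hs : 0 ≤ s)
    (h : 527 ≤ s ^ 2 * ((2 * (p : ℝ) - 1) * (2 * (p : ℝ) - 15)))
    (h1 : s / ((p : ℝ) - 1) - D2 16 p ≤ B * (252 / 255))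
    (h2 : s / ((p : ℝ) - 1) * (60 / (((p : ℝ) + 1) * (2 * (p : ℝ) - 12))) ≤ B * (252 / 255)) :
    Ta 16 p ≤ B := by
  have hp' : (9 : ℝ) ≤ p := by exact_mod_cast hp
  have hu := N7_u hp hs h
  unfold Ta
  rw [N7_den, div_le_iff₀ (by norm_num)]
  refine max_le (by linarith) ?_
  rw [N7_v4 hp]
  refine le_trans (mul_le_mul_of_nonneg_right hu ?_) h2
  exact div_nonneg (by norm_num) (mul_nonneg (by linarith) (by linarith))

theorem pair16 {θ : ℝ} (h3 : b3 16 7 ≤ θ) : 2 * ca 16 9 < θ ^ 2 ∧ Sa 16 7 * θ + ca 16 9 < θ ^ 2 := by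
  have hθ : 0.5796 ≤ θ := b3_16.trans h3
  have hθ2 : (0.5796 : ℝ) ^ 2 ≤ θ ^ 2 := pow_le_pow_left₀ (by norm_num) hθ 2
  have hc0 : 0 ≤ ca 16 9 := by
    unfold ca Dk
    exact mul_nonneg (by norm_num) (N7_u0 (by norm_num))
  have hc : ca 16 9 ≤ 0.0861 := by
    have hu := N7_u (p := 9) (by norm_num) (s := 3.215) (by norm_num) (by norm_num)
    have e1 : Dk 16 9 / (((16 : ℕ) : ℝ) + 1) = 40 / 187 := by
      unfold Dk
      norm_num
    unfold ca
    rw [e1]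
    norm_num at hu ⊢
    linarith
  have t15 : Ta 16 15 ≤ 0.0167 := N7_Ta (by norm_num) (s := 1.101) (by norm_num) (by norm_num)
    (by unfold D2 Dk; norm_num) (by norm_num)
  have t14 : Ta 16 14 ≤ 0.0239 := N7_Ta (by norm_num) (s := 1.2255) (by norm_num) (by norm_num)
    (by unfold D2 Dk; norm_num) (by norm_num)
  have t13 : Ta 16 13 ≤ 0.0358 := N7_Ta (by norm_num) (s := 1.3845) (by norm_num) (by norm_num)
    (by unfold D2 Dk; norm_num) (by norm_num)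
  have t12 : Ta 16 12 ≤ 0.0566 := N7_Ta (by norm_num) (s := 1.596) (by norm_num) (by norm_num)
    (by unfold D2 Dk; norm_num) (by norm_num)
  have t11 : Ta 16 11 ≤ 0.0960 := N7_Ta (by norm_num) (s := 1.894) (by norm_num) (by norm_num)
    (by unfold D2 Dk; norm_num) (by norm_num)
  have t10 : Ta 16 10 ≤ 0.1807 := N7_Ta (by norm_num) (s := 2.3555) (by norm_num) (by norm_num)
    (by unfold D2 Dk; norm_num) (by norm_num)
  have hS : Sa 16 7 = Ta 16 15 + Ta 16 14 + Ta 16 13 + Ta 16 12 + Ta 16 11 + Ta 16 10 := by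
    unfold Sa
    rw [show Finset.Icc 2 7 = {2, 3, 4, 5, 6, 7} by decide]
    rw [Finset.sum_insert (by decide), Finset.sum_insert (by decide), Finset.sum_insert (by decide),
      Finset.sum_insert (by decide), Finset.sum_insert (by decide), Finset.sum_singleton]
    norm_num
    ring
  have n15 := N7_Ta0 (p := 15) (by norm_num)
  have n14 := N7_Ta0 (p := 14) (by norm_num)
  have n13 := N7_Ta0 (p := 13) (by norm_num)
  have n12 := N7_Ta0 (p := 12) (by norm_num)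
  have n11 := N7_Ta0 (p := 11) (by norm_num)
  have n10 := N7_Ta0 (p := 10) (by norm_num)
  have hS0 : 0 ≤ Sa 16 7 := by
    rw [hS]
    linarith
  have hS1 : Sa 16 7 ≤ 0.41 := by
    rw [hS]
    linarith
  refine good hS0 hc0 (Q := 0.5796 ^ 2) (by norm_num) (by norm_num; linarith) ?_ (by linarith) hθ2
  have h5 : Sa 16 7 ^ 2 ≤ 0.41 ^ 2 := pow_le_pow_left₀ hS0 hS1 2
  have h6 : (0.5796 ^ 2 - 0.0861 : ℝ) ^ 2 ≤ (0.5796 ^ 2 - ca 16 9) ^ 2 :=
    pow_le_pow_left₀ (by norm_num) (by linarith) 2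
  have h7 : (0.41 : ℝ) ^ 2 * 0.5796 ^ 2 < (0.5796 ^ 2 - 0.0861) ^ 2 := by norm_num
  have h8 : Sa 16 7 ^ 2 * 0.5796 ^ 2 ≤ 0.41 ^ 2 * 0.5796 ^ 2 := mul_le_mul_of_nonneg_right h5 (by norm_num)
  linarith

end Pool.Agent.TWC
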