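import Pool.Agent.TWC.N0
import Pool.Agent.TWC.N3
import Pool.Agent.TWC.N4
import Pool.Agent.TWC.N5
import Pool.Agent.TWC.N6
import Pool.Agent.TWC.N7

/-!
# TWC-N8: the numbers

`ce_eq`: the constant is `ce d (d-j) ≤ ca d (d-j)`, `Sq ≤ Sa` (`ce_le`, `Sq_le`), so it is enough to prove the two
inequalities with `ca`, `Sa` (`θ > 0`).  `d ≥ 160`: `large`.  `(16, 7)`: `pair16` (`16 - 7 = 9`).  Otherwise `small`
and `good` with `Q = Q3 d j ≤ b3 d j ^ 2 ≤ θ²` (`Q3_le`) or `Q = Q5`.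
-/

set_option autoImplicit false

namespace Pool.Agent.TWC

open MeasureTheory ProbabilityTheory Set Filter Topology Metric
open Pool.Agent.HP89 Pool.Agent.FI75 Pool.Agent.PBL Pool.Agent.HRJ
open scoped RealInnerProductSpace ENNReal

private theorem TWCN8_Sa_nonneg {d j : ℕ} (hj : 2 ≤ j) (hjd : 2 * j + 2 ≤ d) : 0 ≤ Sa d j := by
  unfold Sa
  refine Finset.sum_nonneg fun i hi => ?_
  rw [Finset.mem_Icc] at hi
  exact (Tq_nonneg (by omega) (by omega) (by omega)).trans (Tq_le (by omega) (by omega) (by omega))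

private theorem TWCN8_a {d j : ℕ} (hj : 2 ≤ j) (hjd : 2 * j + 2 ≤ d) {θ : ℝ} (hθ : 0 < θ) (h3 : b3 d j ≤ θ)
    (h5 : 0 < TT d (d - j) → Q5 d (d - j) ≤ θ ^ 2) :
    2 * ca d (d - j) < θ ^ 2 ∧ Sa d j * θ + ca d (d - j) < θ ^ 2 := by
  by_cases hd : 160 ≤ d
  · exact large hd hj hjd hθ h5
  push Not at hd
  by_cases hne : d = 16 ∧ j = 7
  · obtain ⟨rfl, rfl⟩ := hne
    exact pair16 h3
  have hS := TWCN8_Sa_nonneg hj hjd
  have hc : 0 ≤ ca d (d - j) := (ce_le hj hjd).1.trans (ce_le hj hjd).2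
  rcases small hd hj hjd hne with ⟨q0, q1, q2⟩ | ⟨t0, q0, q1, q2⟩
  · obtain ⟨b0, b1⟩ := Q3_le hj hjd
    exact good hS hc q0 q1 q2 hθ (b1.trans (pow_le_pow_left₀ b0.le h3 2))
  · exact good hS hc q0 q1 q2 hθ (h5 t0)

theorem num {d j : ℕ} (hj : 2 ≤ j) (hjd : 2 * j + 2 ≤ d) {θ : ℝ} (hθ : 0 < θ) (h3 : b3 d j ≤ θ)
    (h5 : 0 < TT d (d - j) → Q5 d (d - j) ≤ θ ^ 2) :
    2 * (lm d 1 * Dk d (d - j) * Tk d (d - j)) < θ ^ 2 ∧
      Sq d j * θ + lm d 1 * Dk d (d - j) * Tk d (d - j) < θ ^ 2 := by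
  obtain ⟨h1, h2⟩ := TWCN8_a hj hjd hθ h3 h5
  rw [ce_eq (by omega)]
  have hc := (ce_le hj hjd).2
  have hS := mul_le_mul_of_nonneg_right (Sq_le hj hjd) hθ.le
  exact ⟨by linarith, by linarith⟩

end Pool.Agent.TWC
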