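import Pool.Agent.TWC.B9
import Pool.Agent.TWC.C3
import Pool.Agent.TWC.N8

/-!
# TWC-Z0: the support functions of a two-cycle are constant

`const_of_num` with `T i = Tq d (d - i + 1)` (`Tq_nonneg`, `SM2_le`; `∑ T i = Sq d j` by definition),
`Θ = Tk d (d - j)` (`SM1_le`), and `num` for `θ = th ρ j` (`th_low3`, `Q3_le`, `th_low5`).
-/

set_option autoImplicit false

namespace Pool.Agent.TWC

open MeasureTheory ProbabilityTheory Set Filter Topology Metric
open Pool.Agent.HP89 Pool.Agent.FI75 Pool.Agent.PBL Pool.Agent.HRJ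
open scoped RealInnerProductSpace ENNReal

variable {V : Type*} [NormedAddCommGroup V] [InnerProductSpace ℝ V] [FiniteDimensional ℝ V]
  [MeasurableSpace V] [BorelSpace V]

variable {ρ ρ' : Measure V} {j : ℕ}

private theorem Z0_one (h : Tx j ρ ρ') {u : V} (hu : ‖u‖ = 1) :
    hf ρ u = mm (Module.finrank ℝ V) := by
  have h1 := h.hj
  have h2 := h.hjd
  have hb := th_low3 h
  have hθ : 0 < th ρ j := lt_of_lt_of_le (Q3_le h1 h2).1 hb
  obtain ⟨n1, n2⟩ := num h1 h2 hθ hb (fun hT => th_low5 h hT)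
  refine const_of_num h (T := fun i => Tq (Module.finrank ℝ V) (Module.finrank ℝ V - i + 1))
    ?_ ?_ (Θ := Tk (Module.finrank ℝ V) (Module.finrank ℝ V - j)) ?_ n1 n2 hu
  · intro i hi
    rw [Finset.mem_Icc] at hi
    exact Tq_nonneg (by omega) (by omega) (by omega)
  · intro N i hi m hm
    rw [Finset.mem_Icc] at hi
    exact SM2_le (by omega) (by omega) (by omega) N hm
  · intro N m hm
    exact SM1_le (by omega) (by omega) (by omega) N hm

theorem cyc_const (h : Tx j ρ ρ') {u v : V} (hu : ‖u‖ = 1) (hv : ‖v‖ = 1) : hf ρ u = hf ρ v := by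
  rw [Z0_one h hu, Z0_one h hv]

end Pool.Agent.TWC
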