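import Pool.Agent.PBL.S8
import Pool.Agent.PBL.S9
import Pool.Agent.TWC.Z0

/-!
# TWC-Z1: bodies

A body which is homothetic to its second projection body of order `j` is a ball, for `2 ≤ j` and `2 j + 2 ≤ d`: the measures
which generate the two bodies of the cycle form a two-cycle `Tx`, so their support functions are constant (`cyc_const`).
-/

set_option autoImplicit false

namespace Pool.Agent.TWC

open MeasureTheory ProbabilityTheory Set Filter Topology Metric
open Pool.Agent.HP89 Pool.Agent.FI75 Pool.Agent.PBL Pool.Agent.HRJ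
open scoped RealInnerProductSpace ENNReal

variable {V : Type*} [NormedAddCommGroup V] [InnerProductSpace ℝ V] [FiniteDimensional ℝ V]
  [MeasurableSpace V] [BorelSpace V]

open scoped Pointwise in
open Pool.Agent.Helper82.Proj1 (supp) in
private theorem Z1_const {j : ℕ} (hj : 2 ≤ j) (hjd : 2 * j + 2 ≤ Module.finrank ℝ V)
    (D : ℕ → Set V) (hD : ∀ n, CC (D n)) (hper : ∀ n, D (n + 2) = D n)
    (s : ℕ → ℝ) (hs : ∀ n, 0 < s n) (hpb : ∀ n, IsPB j (D n) (s n • D (n + 1)))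
    (hne : ∀ n, ∃ u, ‖u‖ = 1 ∧ supp (D n) u ≠ 0) (hpos : ∀ u, ‖u‖ = 1 → 0 < supp (D 1) u)
    (n : ℕ) (u v : V) (hu : ‖u‖ = 1) (hv : ‖v‖ = 1) :
    supp (D n) u = supp (D n) v := by
  have hjd' : j < Module.finrank ℝ V := by omega
  have hd1 : 1 ≤ Module.finrank ℝ V := by omega
  obtain ⟨ρ, hc, hτ, hgen⟩ := chain_measures (by omega : 1 ≤ j) hjd' (by norm_num : 1 ≤ 2) D hD hper s hs hpb hne
  -- equal support functions
  have hhf : ∀ n u, ‖u‖ = 1 → hf (ρ (n + 2)) u = hf (ρ n) u := by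
    intro n
    obtain ⟨c, hc0, h1⟩ := hgen n
    obtain ⟨c', hc0', h2⟩ := hgen (n + 2)
    have h3 : ∀ u, ‖u‖ = 1 → c' * hf (ρ (n + 2)) u = c * hf (ρ n) u := by
      intro u hu
      rw [← h1 u hu, ← h2 u hu, hper n]
    have h4 : c' = c := hf_det hd1 (hc.us _) (hc.us _) h3
    subst h4
    intro u hu
    exact mul_left_cancel₀ hc0.ne' (h3 u hu)
  -- positivity
  have hodd : ∀ q, D (2 * q + 1) = D 1 := by
    intro q
    induction q with
    | zero => rfl
    | succ q ih =>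
      rw [show 2 * (q + 1) + 1 = 2 * q + 1 + 2 by ring, hper, ih]
  have hhpos : ∀ q u, ‖u‖ = 1 → 0 < hf (ρ (2 * q + 1)) u := by
    intro q u hu
    obtain ⟨c, hc0, h1⟩ := hgen (2 * q + 1)
    have h2 := hpos u hu
    rw [← hodd q, h1 u hu] at h2
    exact pos_of_mul_pos_right h2 hc0.le
  have hI1 : ∀ n, 0 < ∫ x, hf (ρ n) x ∂(ρ (n + 1)) := by
    intro n
    rcases Nat.even_or_odd' n with ⟨q, rfl | rfl⟩
    · rw [hf_comm (hc.us _) (hc.us _)]
      exact hf_int_pos (hc.us _) (hc.us _) (hhpos q)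
    · exact hf_int_pos (hc.us _) (hc.us _) (hhpos q)
  have e1 : Nop j (ρ n) = ρ (n + 1) := (hc.step n).symm
  have e2 : Nop j (ρ (n + 1)) = ρ (n + 2) := (hc.step (n + 1)).symm
  have hT : Tx j (ρ n) (ρ (n + 1)) := by
    refine ⟨hc.us _, hc.us _, hj, hjd, hc.pos _, hc.pos _, ?_, ?_, ?_⟩
    · intro u _
      rw [e1]
    · intro u hu
      rw [e2]
      exact hhf n u hu
    · intro τ hτ
      have h1 := cyc_mW (j := j) hjd' (hc.us n) (hc.pos n) (by rw [e1]; exact hc.pos _)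
        (by rw [e1, e2]; exact hhf n) (by rw [e1]; exact hI1 n) hτ
      rw [e1] at h1
      exact h1
  obtain ⟨c, hc0, h1⟩ := hgen n
  rw [h1 u hu, h1 v hv, cyc_const hT hu hv]

theorem ball_two_half {j : ℕ} (hj : 2 ≤ j) (hjd : 2 * j + 2 ≤ Module.finrank ℝ V)
    (C : ℕ → Set V) (hC : ∀ i, CC (C i)) (hint : (interior (C 0)).Nonempty)
    (hpb : ∀ i < 2, IsPB j (C i) (C (i + 1))) {c : ℝ} (hc : 0 < c) {x : V}
    (hH : C 2 = (fun y => c • y + x) '' C 0) : ∃ (y : V) (r : ℝ), 0 < r ∧ C 0 = closedBall y r := by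
  refine ball_of_const' (by omega : 1 ≤ j) (by omega) (by norm_num) ?_ C hC hint hpb hc hH
  intro D hD hper s hs hpb' hne hpos n u v hu hv
  exact Z1_const hj hjd D hD hper s hs hpb' hne hpos n u v hu hv

end Pool.Agent.TWC
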