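import Pool.Agent.HRJ.D7
import Pool.Agent.TWC.A1
import Pool.Agent.TWC.A3

/-!
# TWC-B1: `S_1` of the test functions

PROOF PLAN.  As in `HRJ/D7.lean` (`sN_eq`, `iw_one`, `en_one`, `g_ort`, all private: copy them with `gg ρ ρ' a b N` instead of `gN ρ N`): `sN ρ 1 g = ∫ g(a) ∫ ‖ort x a‖ dρ(x) dσ(a)`, Fubini and `ff_ort`
(for both measures) give `cc d 1 * ∑_h R_h T_h (a_h ff ρ (2h) x + b_h ff ρ' (2h) x)` for unit `x`, integrated over `x ~ ρ`: `∫ ff ρ (2h) dρ = xx ρ (2h)` (definition), `∫ ff ρ' (2h) dρ = xy ρ' ρ (2h) = xy ρ ρ' (2h)` (`xy_comm`).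
-/

set_option autoImplicit false

namespace Pool.Agent.TWC

open MeasureTheory ProbabilityTheory Set Filter Topology Metric
open Pool.Agent.HP89 Pool.Agent.FI75 Pool.Agent.PBL Pool.Agent.HRJ
open scoped RealInnerProductSpace ENNReal

variable {V : Type*} [NormedAddCommGroup V] [InnerProductSpace ℝ V] [FiniteDimensional ℝ V]
  [MeasurableSpace V] [BorelSpace V]

variable {ρ ρ' : Measure V}

private theorem nrv {n : ℕ} (X : Fin n → V) (a : V) : ‖rv X a‖ ≤ ‖a‖ := norm_res_le _ _

private theorem wvp {n : ℕ} (x : Fin n → V) : wv x ≤ ∏ m, ‖x m‖ := by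
  have h := wn_le_prod (List.ofFn x)
  rw [List.map_ofFn, List.prod_ofFn] at h
  exact h

private theorem ms_int (hV : 1 ≤ Module.finrank ℝ V) : Integrable (fun a : V => ‖a‖) (ms (⊤ : Submodule ℝ V)) := by
  have := ms_prob (⊤ : Submodule ℝ V)
  have h1 : (fun _ : V => (1 : ℝ)) =ᵐ[ms (⊤ : Submodule ℝ V)] (fun a : V => ‖a‖) := by
    have hE : 1 ≤ Module.finrank ℝ (⊤ : Submodule ℝ V) := by rw [finrank_top]; exact hV
    filter_upwards [ms_unit (⊤ : Submodule ℝ V) hE] with a ha
    exact ha.1.symm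
  exact (integrable_const (1 : ℝ)).congr h1

private theorem fub {α : Type*} [MeasurableSpace α] {μ : Measure α} [SFinite μ] (hV : 1 ≤ Module.finrank ℝ V)
    {g : V → ℝ} (hg : Measurable g) {C : ℝ} (hC : ∀ a, |g a| ≤ C) {K : α → V → ℝ}
    (hK : Measurable (Function.uncurry K)) {B : α → ℝ} (hB : Integrable B μ)
    (hKB : ∀ x a, |K x a| ≤ B x * ‖a‖) :
    ∫ x, ∫ a, K x a * g a ∂(ms (⊤ : Submodule ℝ V)) ∂μ =
      ∫ a, g a * ∫ x, K x a ∂μ ∂(ms (⊤ : Submodule ℝ V)) := by
  have := ms_prob (⊤ : Submodule ℝ V)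
  have hC0 : 0 ≤ C := (abs_nonneg _).trans (hC 0)
  rw [integral_integral_swap]
  · refine integral_congr_ae (Eventually.of_forall fun a => ?_)
    simp only
    rw [integral_mul_const, mul_comm]
  · have h1 : Integrable (fun p : α × V => B p.1 * (C * ‖p.2‖)) (μ.prod (ms (⊤ : Submodule ℝ V))) :=
      hB.mul_prod ((ms_int hV).const_mul C)
    refine h1.mono' ?_ (Eventually.of_forall fun p => ?_)
    · exact (hK.mul (hg.comp measurable_snd)).aestronglyMeasurable
    · simp only [Function.uncurry, norm_mul, Real.norm_eq_abs]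
      calc |K p.1 p.2| * |g p.2| ≤ (B p.1 * ‖p.2‖) * C :=
            mul_le_mul (hKB _ _) (hC _) (abs_nonneg _) ((abs_nonneg _).trans (hKB _ _))
        _ = B p.1 * (C * ‖p.2‖) := by ring

private theorem sN_eq (hρ : US ρ) (hV : 1 ≤ Module.finrank ℝ V) (n : ℕ)
    {g : V → ℝ} (hg : Measurable g) {C : ℝ} (hC : ∀ a, |g a| ≤ C) :
    sN ρ n g = ∫ a, g a * iw n ρ (fun X => ‖rv X a‖) ∂(ms (⊤ : Submodule ℝ V)) := by
  have := hρ.prob
  unfold sN iw
  have h1 := fub (μ := pp n ρ) hV hg hC (K := fun X a => wv X * ‖rv X a‖)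
    (B := fun X => ∏ i, ‖X i‖) ?_ ?_ ?_
  · rw [← h1]
    refine integral_congr_ae (Eventually.of_forall fun X => ?_)
    simp only
    rw [← integral_const_mul]
    refine integral_congr_ae (Eventually.of_forall fun a => ?_)
    simp only
    ring
  · exact ((measurable_wv n).comp measurable_fst).mul (measurable_rv n).norm
  · refine Integrable.fintype_prod (f := fun (_ : Fin n) (x : V) => ‖x‖) (fun i => ?_)
    exact (integrable_const (1 : ℝ)).congr (by filter_upwards [hρ.unit] with x hx using hx.symm)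
  · intro X a
    have hw : 0 ≤ wv X := wn_nonneg _
    rw [abs_mul, abs_of_nonneg hw, abs_of_nonneg (norm_nonneg _)]
    exact mul_le_mul (wvp X) (nrv X a) (norm_nonneg _) (Finset.prod_nonneg fun i _ => norm_nonneg _)

private theorem rint (hρ : US ρ) : Integrable (fun x : V => ‖x‖) ρ := by
  have := hρ.prob
  exact (integrable_const (1 : ℝ)).congr (by filter_upwards [hρ.unit] with x hx using hx.symm)

private theorem iw_zero (ρ : Measure V) [IsProbabilityMeasure ρ] (Φ : (Fin 0 → V) → ℝ) : iw 0 ρ Φ = Φ ![] := by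
  unfold iw
  have h0 : ∀ X : Fin 0 → V, X = ![] := fun X => Subsingleton.elim _ _
  have h1 : (fun X : Fin 0 → V => wv X * Φ X) = fun _ => Φ ![] := by
    funext X
    rw [h0 X]
    have : wv (![] : Fin 0 → V) = 1 := by
      unfold wv
      simp [wn]
    rw [this, one_mul]
  rw [h1]
  simp

private theorem rv_zero (a : V) : rv (![] : Fin 0 → V) a = a := by
  unfold rv
  simp [res]

private theorem iw_one (hρ : US ρ) (a : V) : iw 1 ρ (fun X => ‖rv X a‖) = ∫ x, ‖ort x a‖ ∂ρ := by
  have := hρ.prob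
  have h1 := iw_succ hρ (n := 0) (Φ := fun X => ‖rv X a‖) (C := ‖a‖)
    (((measurable_rv 1).comp (measurable_id.prodMk measurable_const)).norm)
    (fun X => by rw [abs_norm]; exact nrv X a)
  refine h1.trans ?_
  rw [iw_zero]
  refine integral_congr_ae ?_
  filter_upwards [hρ.unit] with x hx
  rw [rv_cons, rv_zero, rv_zero, hx, one_mul]

private theorem en_one (hρ : US ρ) : en 1 ρ = 1 := by
  have := hρ.prob
  have h1 := iw_succ hρ (n := 0) (Φ := fun _ => (1 : ℝ)) (C := 1) measurable_const (fun X => by simp)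
  rw [iw_const, iw_zero, one_mul] at h1
  refine h1.trans ?_
  have h2 : (fun x : V => ‖rv (![] : Fin 0 → V) x‖ * 1) =ᵐ[ρ] fun _ => 1 := by
    filter_upwards [hρ.unit] with x hx
    rw [rv_zero, hx, one_mul]
  rw [integral_congr_ae h2]
  simp


private theorem g_ort (hρ : US ρ) (hρ' : US ρ') (hV : 3 ≤ Module.finrank ℝ V) (a b : ℕ → ℝ) (N : ℕ) :
    ∫ u, gg ρ ρ' a b N u * ∫ x, ‖ort x u‖ ∂ρ ∂(ms (⊤ : Submodule ℝ V)) =
      cc (Module.finrank ℝ V) 1 * ∑ h ∈ Finset.range (N + 1),
        rR (Module.finrank ℝ V) h * tT (Module.finrank ℝ V) h *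
          (a h * xx ρ (2 * h) + b h * xy ρ ρ' (2 * h)) := by
  have := hρ.prob
  have := hρ'.prob
  have := ms_prob (⊤ : Submodule ℝ V)
  obtain ⟨C, hC⟩ := gg_bdd hρ hρ' hV a b N
  have hi : ∀ {τ : Measure V}, US τ → ∀ (x : V) (l : ℕ),
      Integrable (fun u : V => ‖ort x u‖ * ff τ l u) (ms (⊤ : Submodule ℝ V)) := by
    intro τ hτ x l
    have h5 := (ms_int (V := V) (by omega)).mul_const (nN (Module.finrank ℝ V) l)
    refine h5.mono' ?_ (Eventually.of_forall fun u => ?_)
    · exact ((measurable_ort.comp (measurable_const.prodMk measurable_id)).norm.mul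
        (ff_meas hτ _)).aestronglyMeasurable
    · rw [norm_mul, Real.norm_eq_abs, Real.norm_eq_abs, abs_norm]
      exact mul_le_mul (norm_ort_le x u) (ff_bdd hτ hV _ u) (abs_nonneg _) (norm_nonneg _)
  have hj : ∀ {τ : Measure V}, US τ → ∀ (l : ℕ), Integrable (fun u : V => ff τ l u) ρ := by
    intro τ hτ l
    exact (integrable_const (nN (Module.finrank ℝ V) l)).mono'
      (ff_meas hτ _).aestronglyMeasurable (Eventually.of_forall fun u => ff_bdd hτ hV _ u)
  have h1 := fub (μ := ρ) (by omega) (gg_meas hρ hρ' a b N) hC (K := fun x u => ‖ort x u‖)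
    (B := fun _ => 1) ?_ (integrable_const _) ?_
  · rw [← h1]
    have h2 : (fun x : V => ∫ u, ‖ort x u‖ * gg ρ ρ' a b N u ∂(ms (⊤ : Submodule ℝ V))) =ᵐ[ρ]
        (fun x : V => ∑ h ∈ Finset.range (N + 1),
          (a h * (cc (Module.finrank ℝ V) 1 * (rR (Module.finrank ℝ V) h * tT (Module.finrank ℝ V) h) *
            ff ρ (2 * h) x) + b h * (cc (Module.finrank ℝ V) 1 * (rR (Module.finrank ℝ V) h *
            tT (Module.finrank ℝ V) h) * ff ρ' (2 * h) x))) := by
      filter_upwards [hρ.unit] with x hx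
      have h3 : (fun u : V => ‖ort x u‖ * gg ρ ρ' a b N u) = fun u : V =>
          ∑ h ∈ Finset.range (N + 1), (a h * (‖ort x u‖ * ff ρ (2 * h) u) +
            b h * (‖ort x u‖ * ff ρ' (2 * h) u)) := by
        funext u
        unfold gg
        rw [Finset.mul_sum]
        refine Finset.sum_congr rfl fun h _ => ?_
        ring
      rw [h3, integral_finsetSum]
      · refine Finset.sum_congr rfl fun h _ => ?_
        rw [integral_add ((hi hρ x _).const_mul _) ((hi hρ' x _).const_mul _), integral_const_mul,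
          integral_const_mul, ff_ort hρ hV hx h, ff_ort hρ' hV hx h]
      · intro h _
        exact ((hi hρ x _).const_mul _).add ((hi hρ' x _).const_mul _)
    rw [integral_congr_ae h2, integral_finsetSum, Finset.mul_sum]
    · refine Finset.sum_congr rfl fun h _ => ?_
      rw [integral_add (((hj hρ _).const_mul _).const_mul _) (((hj hρ' _).const_mul _).const_mul _),
        integral_const_mul, integral_const_mul, integral_const_mul, integral_const_mul,
        xy_comm hρ hρ' hV]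
      unfold xx xy
      ring
    · intro h _
      exact (((hj hρ _).const_mul _).const_mul _).add (((hj hρ' _).const_mul _).const_mul _)
  · exact measurable_ort.norm
  · intro x u
    rw [abs_norm, one_mul]
    exact norm_ort_le x u

theorem sn_one (hρ : US ρ) (hρ' : US ρ') (hV : 3 ≤ Module.finrank ℝ V) (a b : ℕ → ℝ) (N : ℕ) :
    Sn ρ 1 (gg ρ ρ' a b N) = ∑ h ∈ Finset.range (N + 1), rR (Module.finrank ℝ V) h * tT (Module.finrank ℝ V) h *
      (a h * xx ρ (2 * h) + b h * xy ρ ρ' (2 * h)) := by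
  have := hρ.prob
  have := ms_prob (⊤ : Submodule ℝ V)
  have hV1 : 1 ≤ Module.finrank ℝ V := by omega
  obtain ⟨C, hC⟩ := gg_bdd hρ hρ' hV a b N
  have hmG : ∀ k : ℕ, 1 ≤ k → 0 < mG k := fun k hk => by
    have := mm_pos hk
    unfold mm at this
    by_contra hcon
    push Not at hcon
    have h2 : √(2 / Real.pi) / mG k ≤ 0 := div_nonpos_of_nonneg_of_nonpos (Real.sqrt_nonneg _) hcon
    linarith
  unfold Sn
  rw [sN_eq hρ hV1 1 (gg_meas hρ hρ' a b N) hC, en_one hρ, mul_one]
  simp_rw [iw_one hρ]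
  rw [g_ort hρ hρ' hV a b N]
  have hc : cc (Module.finrank ℝ V) 1 ≠ 0 := by
    unfold cc
    exact div_ne_zero (hmG _ (by omega)).ne' (hmG _ (by omega)).ne'
  exact mul_div_cancel_left₀ _ hc

end Pool.Agent.TWC
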