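import Pool.Agent.TWC.Defs

/-!
# TWC-B4a: the algebra of two chains

`W = ∑_i r_i`, `r_i = (s_(i-1) - s_i) + (s'_(i-1) - s'_i)`, and `r_i² ≤ 2 (δ_i + δ'_i) T_i W` with
`δ_i = 1 - θ_i/θ_(i-1) ≤ (θ_(i-1) - θ_i)/θ_j`; Cauchy-Schwarz and telescoping (one chain: `HRJ/D6.lean`).
-/

set_option autoImplicit false

namespace Pool.Agent.TWC

open MeasureTheory ProbabilityTheory Set Filter Topology Metric
open Pool.Agent.HP89 Pool.Agent.FI75 Pool.Agent.PBL Pool.Agent.HRJ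
open scoped RealInnerProductSpace ENNReal

private theorem b4a_tel (f : ℕ → ℝ) {j : ℕ} (hj : 1 ≤ j) :
    ∑ i ∈ Finset.Icc 2 j, (f (i - 1) - f i) = f 1 - f j := by
  induction j, hj using Nat.le_induction with
  | base => simp
  | succ n hn ih =>
    rw [Finset.sum_Icc_succ_top (by omega), ih, Nat.add_sub_cancel]
    ring

private theorem b4a_mon {θ : ℕ → ℝ} {j : ℕ} (h : ∀ i ∈ Finset.Icc 2 j, θ i ≤ θ (i - 1)) :
    ∀ k, k ≤ j → ∀ i, 1 ≤ i → i ≤ k → θ k ≤ θ i := by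
  intro k
  induction k with
  | zero => intro _ i h1 h2; omega
  | succ n ih =>
    intro hk i h1 h2
    rcases Nat.lt_or_ge i (n + 1) with h3 | h3
    · have h4 := h (n + 1) (Finset.mem_Icc.2 ⟨by omega, hk⟩)
      rw [Nat.add_sub_cancel] at h4
      exact h4.trans (ih (by omega) i h1 (by omega))
    · have h4 : i = n + 1 := by omega
      rw [h4]

private theorem b4a_one {θ s T : ℕ → ℝ} {W t : ℝ} {j i : ℕ} (hi : i ∈ Finset.Icc 2 j)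
    (hθ : ∀ i, 1 ≤ i → i ≤ j → 0 < θ i) (ht : t = θ j) (ht0 : 0 < t)
    (hmon : ∀ i ∈ Finset.Icc 2 j, θ i ≤ θ (i - 1)) (hTW : 0 ≤ T i * W)
    (h2 : (s i - s (i - 1)) ^ 2 ≤ (1 - θ i / θ (i - 1)) * (T i * W)) :
    (s (i - 1) - s i) ^ 2 ≤ (θ (i - 1) - θ i) / t * (T i * W) := by
  obtain ⟨h3, h4⟩ := Finset.mem_Icc.1 hi
  have h1 := hmon i hi
  have h5 := hθ (i - 1) (by omega) (by omega)
  have h6 : t ≤ θ (i - 1) := ht.le.trans (b4a_mon hmon j le_rfl (i - 1) (by omega) (by omega))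
  have h7 : 1 - θ i / θ (i - 1) ≤ (θ (i - 1) - θ i) / t := by
    have h8 : 1 - θ i / θ (i - 1) = (θ (i - 1) - θ i) / θ (i - 1) := by
      field_simp
    rw [h8]
    exact div_le_div_of_nonneg_left (sub_nonneg.2 h1) ht0 h6
  calc (s (i - 1) - s i) ^ 2 = (s i - s (i - 1)) ^ 2 := by ring
    _ ≤ (1 - θ i / θ (i - 1)) * (T i * W) := h2
    _ ≤ (θ (i - 1) - θ i) / t * (T i * W) := mul_le_mul_of_nonneg_right h7 hTW

theorem chain_alg {T θ θ' s s' : ℕ → ℝ} {W : ℝ} {j : ℕ} (hj : 2 ≤ j) (hW0 : 0 ≤ W)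
    (hW : W = (s 1 - s j) + (s' 1 - s' j)) (hT0 : ∀ i ∈ Finset.Icc 2 j, 0 ≤ T i)
    (hθ : ∀ i, 1 ≤ i → i ≤ j → 0 < θ i) (hθ' : ∀ i, 1 ≤ i → i ≤ j → 0 < θ' i) (hjj : θ j = θ' j)
    (hst : ∀ i ∈ Finset.Icc 2 j, θ i ≤ θ (i - 1) ∧ (s i - s (i - 1)) ^ 2 ≤ (1 - θ i / θ (i - 1)) * (T i * W))
    (hst' : ∀ i ∈ Finset.Icc 2 j, θ' i ≤ θ' (i - 1) ∧ (s' i - s' (i - 1)) ^ 2 ≤ (1 - θ' i / θ' (i - 1)) * (T i * W)) :
    θ j ≤ θ 1 ∧ θ' j ≤ θ' 1 ∧ W * θ j ≤ 2 * (∑ i ∈ Finset.Icc 2 j, T i) * (θ 1 + θ' 1 - 2 * θ j) := by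
  have hm : ∀ i ∈ Finset.Icc 2 j, θ i ≤ θ (i - 1) := fun i hi => (hst i hi).1
  have hm' : ∀ i ∈ Finset.Icc 2 j, θ' i ≤ θ' (i - 1) := fun i hi => (hst' i hi).1
  have hθj := hθ j (by omega) le_rfl
  have h1j := b4a_mon hm j le_rfl 1 le_rfl (by omega)
  have h1j' := b4a_mon hm' j le_rfl 1 le_rfl (by omega)
  have hS0 : 0 ≤ ∑ i ∈ Finset.Icc 2 j, T i := Finset.sum_nonneg hT0
  refine ⟨h1j, h1j', ?_⟩
  have hcs : (∑ i ∈ Finset.Icc 2 j, ((s (i - 1) - s i) + (s' (i - 1) - s' i))) ^ 2 ≤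
      (∑ i ∈ Finset.Icc 2 j, T i * W) *
        ∑ i ∈ Finset.Icc 2 j, 2 * (((θ (i - 1) - θ i) + (θ' (i - 1) - θ' i)) / θ j) := by
    refine Finset.sum_sq_le_sum_mul_sum_of_sq_le_mul _ (fun i hi => mul_nonneg (hT0 i hi) hW0) (fun i hi => ?_)
      fun i hi => ?_
    · have h1 := sub_nonneg.2 (hm i hi)
      have h2 := sub_nonneg.2 (hm' i hi)
      exact mul_nonneg zero_le_two (div_nonneg (add_nonneg h1 h2) hθj.le)
    · have h1 := b4a_one hi hθ rfl hθj hm (mul_nonneg (hT0 i hi) hW0) (hst i hi).2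
      have h2 := b4a_one hi hθ' hjj hθj hm' (mul_nonneg (hT0 i hi) hW0) (hst' i hi).2
      have h3 : ((s (i - 1) - s i) + (s' (i - 1) - s' i)) ^ 2 ≤
          2 * ((s (i - 1) - s i) ^ 2 + (s' (i - 1) - s' i) ^ 2) := by
        nlinarith [sq_nonneg ((s (i - 1) - s i) - (s' (i - 1) - s' i))]
      calc ((s (i - 1) - s i) + (s' (i - 1) - s' i)) ^ 2
          ≤ 2 * ((s (i - 1) - s i) ^ 2 + (s' (i - 1) - s' i) ^ 2) := h3
        _ ≤ 2 * ((θ (i - 1) - θ i) / θ j * (T i * W) + (θ' (i - 1) - θ' i) / θ j * (T i * W)) := by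
            linarith
        _ = T i * W * (2 * (((θ (i - 1) - θ i) + (θ' (i - 1) - θ' i)) / θ j)) := by ring
  have e1 : ∑ i ∈ Finset.Icc 2 j, ((s (i - 1) - s i) + (s' (i - 1) - s' i)) = W := by
    rw [Finset.sum_add_distrib, b4a_tel s (by omega), b4a_tel s' (by omega), hW]
  have e2 : ∑ i ∈ Finset.Icc 2 j, 2 * (((θ (i - 1) - θ i) + (θ' (i - 1) - θ' i)) / θ j) =
      2 * ((θ 1 + θ' 1 - 2 * θ j) / θ j) := by
    rw [← Finset.mul_sum, ← Finset.sum_div, Finset.sum_add_distrib, b4a_tel θ (by omega),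
      b4a_tel θ' (by omega), ← hjj]
    ring
  rw [e1, e2, ← Finset.sum_mul] at hcs
  have hD : 0 ≤ θ 1 + θ' 1 - 2 * θ j := by
    rw [← hjj] at h1j'
    linarith
  rcases hW0.eq_or_lt with h0 | h0
  · rw [← h0, zero_mul]
    exact mul_nonneg (mul_nonneg zero_le_two hS0) hD
  · have h9 : W * (W * θ j) ≤ W * (2 * (∑ i ∈ Finset.Icc 2 j, T i) * (θ 1 + θ' 1 - 2 * θ j)) := by
      have h10 := mul_le_mul_of_nonneg_right hcs hθj.le
      have h11 : (∑ i ∈ Finset.Icc 2 j, T i) * W * (2 * ((θ 1 + θ' 1 - 2 * θ j) / θ j)) * θ j =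
          W * (2 * (∑ i ∈ Finset.Icc 2 j, T i) * (θ 1 + θ' 1 - 2 * θ j)) := by
        field_simp
      rw [h11] at h10
      calc W * (W * θ j) = W ^ 2 * θ j := by ring
        _ ≤ _ := h10
    exact le_of_mul_le_mul_left h9 h0

end Pool.Agent.TWC
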