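import Pool.Agent.HRJ.D6
import Pool.Agent.TWC.A4
import Pool.Agent.TWC.B1
import Pool.Agent.TWC.B1b
import Pool.Agent.TWC.B3
import Pool.Agent.TWC.B4a

/-!
# TWC-B4: the two chains

The sum of the differences of `Sn` for `n = 1` and `n = j` and the test functions of `ρ` and `ρ'` is `WN`, which is
also the weighted square norm of both test functions; `step` for all `n < j` and `chain_alg` give `chain2`.
-/

set_option autoImplicit false

namespace Pool.Agent.TWC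

open MeasureTheory ProbabilityTheory Set Filter Topology Metric
open Pool.Agent.HP89 Pool.Agent.FI75 Pool.Agent.PBL Pool.Agent.HRJ
open scoped RealInnerProductSpace ENNReal

variable {V : Type*} [NormedAddCommGroup V] [InnerProductSpace ℝ V] [FiniteDimensional ℝ V]
  [MeasurableSpace V] [BorelSpace V]

variable {ρ ρ' : Measure V} {j : ℕ}

private theorem b4_dim (h : Tx j ρ ρ') : 3 ≤ Module.finrank ℝ V := by
  have h1 := h.hj
  have h2 := h.hjd
  omega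

private theorem b4_c1_one : c1 1 = 0 := if_pos le_rfl

private theorem b4_c2_one : c2 1 = 0 := if_pos le_rfl

private theorem b4_c1 {h : ℕ} (hh : 2 ≤ h) : c1 h = 1 := if_neg (by omega)

private theorem b4_c2 {h : ℕ} (hh : 2 ≤ h) : c2 h = (-1) ^ h := if_neg (by omega)

private theorem b4_icc (N : ℕ) {F : ℕ → ℝ} (h1 : F 1 = 0) :
    ∑ h ∈ Finset.Icc 1 N, F h = ∑ h ∈ Finset.Icc 2 N, F h := by
  symm
  refine Finset.sum_subset (fun h hh => ?_) fun h hh hh' => ?_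
  · rw [Finset.mem_Icc] at hh ⊢
    omega
  · rw [Finset.mem_Icc] at hh hh'
    have : h = 1 := by omega
    rw [this, h1]

private theorem b4_range (N : ℕ) {F : ℕ → ℝ} (h0 : F 0 = 0) (h1 : F 1 = 0) :
    ∑ h ∈ Finset.range (N + 1), F h = ∑ h ∈ Finset.Icc 2 N, F h := by
  symm
  refine Finset.sum_subset (fun h hh => ?_) fun h hh hh' => ?_
  · rw [Finset.mem_Icc] at hh
    rw [Finset.mem_range]
    omega
  · rw [Finset.mem_range] at hh
    rw [Finset.mem_Icc] at hh'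
    rcases Nat.lt_or_ge h 1 with h2 | h2
    · have : h = 0 := by omega
      rw [this, h0]
    · have : h = 1 := by omega
      rw [this, h1]

/-- the square norm of `f ± f'` is symmetric -/
private theorem b4_qf (hρ : US ρ) (hρ' : US ρ') (hV : 3 ≤ Module.finrank ℝ V) (h l : ℕ) :
    qf ρ' ρ 1 ((-1) ^ h) l = qf ρ ρ' 1 ((-1) ^ h) l := by
  unfold qf
  rw [xy_comm hρ' hρ hV l]
  have h1 : (((-1 : ℝ)) ^ h) ^ 2 = 1 := by
    rw [← pow_mul, mul_comm, pow_mul]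
    norm_num
  rw [h1]
  ring

/-- the signs of `T_h` and `R_h` -/
private theorem b4_sign {d : ℕ} (hd : 3 ≤ d) {h : ℕ} (hh : 2 ≤ h) :
    ((-1 : ℝ) ^ h = 1 ∧ lm d h = tT d h * (rR d h - 1)) ∨
      ((-1 : ℝ) ^ h = -1 ∧ lm d h = tT d h * (rR d h + 1)) := by
  rcases Nat.even_or_odd' h with ⟨r, rfl | rfl⟩
  · left
    obtain ⟨r', rfl⟩ : ∃ r', r = r' + 1 := ⟨r - 1, by omega⟩
    refine ⟨by rw [pow_mul]; norm_num, ?_⟩
    unfold lm
    rw [abs_of_neg (tT_four hd r'), abs_of_pos (rR_four hd r')]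
    ring
  · right
    refine ⟨by rw [pow_succ, pow_mul]; norm_num, ?_⟩
    unfold lm
    rw [abs_of_pos (tT_two hd r), abs_of_neg (rR_two hd r)]
    ring

theorem WN_nonneg (h : Tx j ρ ρ') (N : ℕ) : 0 ≤ WN ρ ρ' N := by
  have hV := b4_dim h
  unfold WN
  refine Finset.sum_nonneg fun k hk => ?_
  obtain ⟨hk2, -⟩ := Finset.mem_Icc.1 hk
  refine mul_nonneg (mul_nonneg (abs_nonneg _) ?_) (qf_nonneg h.us h.us' hV _ _ _)
  have h1 := rR_abs_lt hV (h := k) (by omega)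
  linarith

theorem GA_g (h : Tx j ρ ρ') (N : ℕ) : GA ρ ρ' c1 c2 N = WN ρ ρ' N ∧ GA ρ' ρ c1 c2 N = WN ρ ρ' N := by
  have hV := b4_dim h
  unfold GA WN
  constructor
  · rw [b4_icc N (F := fun k => lm (Module.finrank ℝ V) k * qf ρ ρ' (c1 k) (c2 k) (2 * k))]
    · refine Finset.sum_congr rfl fun k hk => ?_
      obtain ⟨hk2, -⟩ := Finset.mem_Icc.1 hk
      rw [b4_c1 hk2, b4_c2 hk2]
    · simp only [b4_c1_one, b4_c2_one]
      unfold qf
      ring
  · rw [b4_icc N (F := fun k => lm (Module.finrank ℝ V) k * qf ρ' ρ (c1 k) (c2 k) (2 * k))]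
    · refine Finset.sum_congr rfl fun k hk => ?_
      obtain ⟨hk2, -⟩ := Finset.mem_Icc.1 hk
      rw [b4_c1 hk2, b4_c2 hk2, b4_qf h.us h.us' hV]
    · simp only [b4_c1_one, b4_c2_one]
      unfold qf
      ring

theorem sum_diff (h : Tx j ρ ρ') (N : ℕ) :
    WN ρ ρ' N = (Sn ρ 1 (gg ρ ρ' c1 c2 N) - Sn ρ j (gg ρ ρ' c1 c2 N)) +
      (Sn ρ' 1 (gg ρ' ρ c1 c2 N) - Sn ρ' j (gg ρ' ρ c1 c2 N)) := by
  have hV := b4_dim h
  rw [sn_one h.us h.us' hV, sn_j h, sn_one h.us' h.us hV, sn_j h.symm, ← Finset.sum_sub_distrib,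
    ← Finset.sum_sub_distrib, ← Finset.sum_add_distrib]
  rw [b4_range N]
  · unfold WN
    refine Finset.sum_congr rfl fun k hk => ?_
    obtain ⟨hk2, -⟩ := Finset.mem_Icc.1 hk
    rw [b4_c1 hk2, b4_c2 hk2, xy_comm h.us' h.us hV]
    unfold qf
    rcases b4_sign hV hk2 with ⟨h1, h2⟩ | ⟨h1, h2⟩
    · rw [h1, h2]
      ring
    · rw [h1, h2]
      ring
  · simp [c1, c2]
  · simp [c1, c2]

theorem chain2 (h : Tx j ρ ρ') (N : ℕ) {T : ℕ → ℝ} (hT0 : ∀ i ∈ Finset.Icc 2 j, 0 ≤ T i)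
    (hT : ∀ i ∈ Finset.Icc 2 j, ∀ m, 1 ≤ m →
      SM (Module.finrank ℝ V) (Module.finrank ℝ V - i + 1) (Finset.Icc 2 N) m ≤ T i) :
    th ρ j ≤ th ρ 1 ∧ th ρ' j ≤ th ρ' 1 ∧
      WN ρ ρ' N * th ρ j ≤ 2 * (∑ i ∈ Finset.Icc 2 j, T i) * (th ρ 1 + th ρ' 1 - 2 * th ρ j) := by
  have hV := b4_dim h
  have hj := h.hj
  have hjd := h.hjd
  have hG := GA_g h N
  have hp := en_pos1 h
  have hp' := en_pos1 h.symm
  have key : ∀ {τ τ' : Measure V}, US τ → US τ' → 0 < en (j + 1) τ → GA τ τ' c1 c2 N = WN ρ ρ' N →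
      ∀ i ∈ Finset.Icc 2 j, th τ i ≤ th τ (i - 1) ∧
        (Sn τ i (gg τ τ' c1 c2 N) - Sn τ (i - 1) (gg τ τ' c1 c2 N)) ^ 2 ≤
          (1 - th τ i / th τ (i - 1)) * (T i * WN ρ ρ' N) := by
    intro τ τ' hτ hτ' hpos hGA i hi
    obtain ⟨h3, h4⟩ := Finset.mem_Icc.1 hi
    obtain ⟨C, hC⟩ := gg_bdd hτ hτ' hV c1 c2 N
    obtain ⟨n, hn⟩ : ∃ n, i = n + 1 := ⟨i - 1, by omega⟩
    have hTi := hT i hi
    rw [hn] at hTi ⊢
    rw [Nat.add_sub_cancel]
    refine step hτ (n := n) (by omega) (en_pos_of_le hτ (by omega) hpos) (gg_meas hτ hτ' _ _ _) hC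
      fun E hE => ?_
    have hfr : Module.finrank ℝ E = Module.finrank ℝ V - (n + 1) + 1 := by omega
    rw [← hGA]
    refine trace2 hτ hτ' (by omega) (by omega) c1 c2 N (s := Finset.Icc 2 N) ?_ ?_ ?_
    · intro k hk
      rw [Finset.mem_Icc] at hk ⊢
      omega
    · intro k hk hk'
      rw [Finset.mem_Icc] at hk hk'
      have : k = 1 := by omega
      rw [this]
      exact ⟨b4_c1_one, b4_c2_one⟩
    · intro m hm
      rw [hfr]
      exact hTi m hm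
  have hth : ∀ {τ : Measure V}, US τ → 0 < en (j + 1) τ → ∀ i, 1 ≤ i → i ≤ j → 0 < th τ i := by
    intro τ hτ hpos i h1 h2
    unfold th
    exact div_pos (en_pos_of_le hτ (by omega) hpos)
      (mul_pos (en_pos_of_le hτ (by omega) hpos) (cc_pos (by omega)))
  exact chain_alg (T := T) (θ := th ρ) (θ' := th ρ') (s := fun i => Sn ρ i (gg ρ ρ' c1 c2 N))
    (s' := fun i => Sn ρ' i (gg ρ' ρ c1 c2 N)) hj (WN_nonneg h N) (sum_diff h N) hT0 (hth h.us hp)
    (hth h.us' hp') (th_eq h) (key h.us h.us' hp hG.1) (key h.us' h.us hp' hG.2)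

end Pool.Agent.TWC
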