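import Pool.Agent.HRJ.D5
import Pool.Agent.TWC.Defs

/-!
# TWC-B6a: the defect

`defect` is the private lemma `d5_defect` of `HRJ/D5.lean` (copied together with the private lemmas it uses).
`af_sg` is the second part `0 ≤ E²/S - G` of `alg3`, applied to `af_matrix`: `G = tN ρ n g`, `S = en n ρ c_n c_(n+1)`,
`E = c_(n+1) sN ρ n g`.
-/

set_option autoImplicit false

namespace Pool.Agent.TWC

open MeasureTheory ProbabilityTheory Set Filter Topology Metric
open Pool.Agent.HP89 Pool.Agent.FI75 Pool.Agent.PBL Pool.Agent.HRJ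
open scoped RealInnerProductSpace ENNReal

variable {V : Type*} [NormedAddCommGroup V] [InnerProductSpace ℝ V] [FiniteDimensional ℝ V]
  [MeasurableSpace V] [BorelSpace V]

variable {ρ : Measure V}

private theorem d5_int {β : Type*} [MeasurableSpace β] {ν : Measure V} [SFinite ν] {f : β → V → ℝ}
    (hf : Measurable (Function.uncurry f)) : Measurable (fun b => ∫ x, f b x ∂ν) :=
  (StronglyMeasurable.integral_prod_right hf.stronglyMeasurable).measurable

/-- the inner integral of `sN` -/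
private noncomputable def d5M {n : ℕ} (g : V → ℝ) (X : Fin n → V) : ℝ :=
  ∫ a, ‖rv X a‖ * g a ∂(ms (⊤ : Submodule ℝ V))

/-- the inner integral of `tN` -/
private noncomputable def d5T {n : ℕ} (g : V → ℝ) (X : Fin n → V) : ℝ :=
  ∫ a, ∫ b, ‖rv X a‖ * ‖ort (rv X a) (rv X b)‖ * (g a * g b)
    ∂(ms (⊤ : Submodule ℝ V)) ∂(ms (⊤ : Submodule ℝ V))

private theorem d5_rv_le {n : ℕ} (X : Fin n → V) (a : V) : ‖rv X a‖ ≤ ‖a‖ := by
  rw [rv_eq]
  exact (oc X).norm_starProjection_apply_le a

private theorem d5_measM {n : ℕ} {g : V → ℝ} (hg : Measurable g) :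
    Measurable (fun X : Fin n → V => d5M g X) := by
  have : IsProbabilityMeasure (ms (⊤ : Submodule ℝ V)) := ms_prob _
  unfold d5M
  exact d5_int (meas_rv.norm.mul (hg.comp measurable_snd))

private theorem d5_measT {n : ℕ} {g : V → ℝ} (hg : Measurable g) :
    Measurable (fun X : Fin n → V => d5T g X) := by
  have : IsProbabilityMeasure (ms (⊤ : Submodule ℝ V)) := ms_prob _
  unfold d5T
  refine d5_int ?_
  refine d5_int (β := (Fin n → V) × V)
    (f := fun p b => ‖rv p.1 p.2‖ * ‖ort (rv p.1 p.2) (rv p.1 b)‖ * (g p.2 * g b)) ?_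
  have h1 : Measurable (fun q : ((Fin n → V) × V) × V => rv q.1.1 q.1.2) :=
    meas_rv.comp measurable_fst
  have h2 : Measurable (fun q : ((Fin n → V) × V) × V => rv q.1.1 q.2) :=
    meas_rv.comp ((measurable_fst.comp measurable_fst).prodMk measurable_snd)
  exact (h1.norm.mul (measurable_ort.comp (h1.prodMk h2)).norm).mul
    ((hg.comp (measurable_snd.comp measurable_fst)).mul (hg.comp measurable_snd))

private theorem d5_bddM (hV : 1 ≤ Module.finrank ℝ V) {n : ℕ} {g : V → ℝ} {C : ℝ}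
    (hC : ∀ x, |g x| ≤ C) (X : Fin n → V) : |d5M g X| ≤ C := by
  have : IsProbabilityMeasure (ms (⊤ : Submodule ℝ V)) := ms_prob _
  have h := norm_integral_le_of_norm_le_const (μ := ms (⊤ : Submodule ℝ V))
    (f := fun a => ‖rv X a‖ * g a) (C := C) (by
      filter_upwards [ms_unit (⊤ : Submodule ℝ V) (by rw [finrank_top]; exact hV)] with a ha
      rw [Real.norm_eq_abs, abs_mul, abs_of_nonneg (norm_nonneg _)]
      have h1 := d5_rv_le X a
      rw [ha.1] at h1
      calc ‖rv X a‖ * |g a| ≤ 1 * |g a| := mul_le_mul_of_nonneg_right h1 (abs_nonneg _)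
        _ = |g a| := one_mul _
        _ ≤ C := hC a)
  rwa [probReal_univ, mul_one, Real.norm_eq_abs] at h

private theorem d5_bddT (hV : 1 ≤ Module.finrank ℝ V) {n : ℕ} {g : V → ℝ} {C : ℝ}
    (hC : ∀ x, |g x| ≤ C) (X : Fin n → V) : |d5T g X| ≤ C * C := by
  have : IsProbabilityMeasure (ms (⊤ : Submodule ℝ V)) := ms_prob _
  have hu := ms_unit (⊤ : Submodule ℝ V) (by rw [finrank_top]; exact hV)
  have h := norm_integral_le_of_norm_le_const (μ := ms (⊤ : Submodule ℝ V))
    (f := fun a => ∫ b, ‖rv X a‖ * ‖ort (rv X a) (rv X b)‖ * (g a * g b) ∂(ms (⊤ : Submodule ℝ V)))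
    (C := C * C) (by
      filter_upwards [hu] with a ha
      have h' := norm_integral_le_of_norm_le_const (μ := ms (⊤ : Submodule ℝ V))
        (f := fun b => ‖rv X a‖ * ‖ort (rv X a) (rv X b)‖ * (g a * g b)) (C := C * C) (by
          filter_upwards [hu] with b hb
          rw [Real.norm_eq_abs, abs_mul, abs_mul, abs_mul, abs_of_nonneg (norm_nonneg _),
            abs_of_nonneg (norm_nonneg _)]
          have h1 := d5_rv_le X a
          rw [ha.1] at h1
          have h2 := (norm_ort_le (rv X a) (rv X b)).trans (d5_rv_le X b)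
          rw [hb.1] at h2
          have h3 : ‖rv X a‖ * ‖ort (rv X a) (rv X b)‖ ≤ 1 * 1 :=
            mul_le_mul h1 h2 (norm_nonneg _) zero_le_one
          have h4 : |g a| * |g b| ≤ C * C :=
            mul_le_mul (hC a) (hC b) (abs_nonneg _) ((abs_nonneg _).trans (hC a))
          calc ‖rv X a‖ * ‖ort (rv X a) (rv X b)‖ * (|g a| * |g b|)
              ≤ (1 * 1) * (|g a| * |g b|) :=
                mul_le_mul_of_nonneg_right h3 (mul_nonneg (abs_nonneg _) (abs_nonneg _))
            _ = |g a| * |g b| := by ring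
            _ ≤ C * C := h4)
      rwa [probReal_univ, mul_one] at h')
  rwa [probReal_univ, mul_one, Real.norm_eq_abs] at h

/-- the pointwise inequality -/
private theorem d5_point {n : ℕ} (hn : n + 2 ≤ Module.finrank ℝ V) {g : V → ℝ} {A' : ℝ}
    (hA : ∀ E : Submodule ℝ V, Module.finrank ℝ E + n = Module.finrank ℝ V → DE E g ≤ A')
    {X : Fin n → V} (hX : wv X ≠ 0) :
    (cc (Module.finrank ℝ V) (n + 1) / cc (Module.finrank ℝ V) n) * (d5M g X) ^ 2 ≤
      d5T g X + cc (Module.finrank ℝ V) n * cc (Module.finrank ℝ V) (n + 1) * A' := by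
  have hfr := finrank_oc hX
  have h := hA (oc X) hfr
  have hm0 : 0 < mG (Module.finrank ℝ V) := mG_pos (by omega)
  have hm1 : 0 < mG (Module.finrank ℝ V - n) := mG_pos (by omega)
  have hm2 : 0 < mG (Module.finrank ℝ V - (n + 1)) := mG_pos (by omega)
  unfold DE at h
  simp only [← rv_eq] at h
  have e1 : Module.finrank ℝ (oc X) = Module.finrank ℝ V - n := by omega
  have e2 : Module.finrank ℝ V - n - 1 = Module.finrank ℝ V - (n + 1) := by omega
  rw [e1, e2] at h
  change (d5M g X * mG (Module.finrank ℝ V) / mG (Module.finrank ℝ V - n)) ^ 2 -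
    d5T g X * (mG (Module.finrank ℝ V) ^ 2 /
      (mG (Module.finrank ℝ V - n) * mG (Module.finrank ℝ V - (n + 1)))) ≤ A' at h
  unfold cc
  set a := mG (Module.finrank ℝ V) with ha
  set b := mG (Module.finrank ℝ V - n) with hb
  set c := mG (Module.finrank ℝ V - (n + 1)) with hc
  have h1 : (b * c / a ^ 2) * ((d5M g X * a / b) ^ 2 - d5T g X * (a ^ 2 / (b * c))) ≤
      (b * c / a ^ 2) * A' := mul_le_mul_of_nonneg_left h (by positivity)
  have h2 : (b * c / a ^ 2) * ((d5M g X * a / b) ^ 2 - d5T g X * (a ^ 2 / (b * c))) =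
      c / a / (b / a) * (d5M g X) ^ 2 - d5T g X := by
    field_simp
  rw [h2] at h1
  have h3 : b / a * (c / a) * A' = b * c / a ^ 2 * A' := by
    field_simp
  rw [h3]
  linarith

theorem defect (hρ : US ρ) {n : ℕ} (hn : n + 2 ≤ Module.finrank ℝ V) (he : 0 < en n ρ) {g : V → ℝ}
    (hg : Measurable g) {C : ℝ} (hC : ∀ x, |g x| ≤ C) {A' : ℝ}
    (hA : ∀ E : Submodule ℝ V, Module.finrank ℝ E + n = Module.finrank ℝ V → DE E g ≤ A') :
    (cc (Module.finrank ℝ V) (n + 1) / cc (Module.finrank ℝ V) n) * (sN ρ n g ^ 2 / en n ρ) ≤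
      tN ρ n g + cc (Module.finrank ℝ V) n * cc (Module.finrank ℝ V) (n + 1) * A' * en n ρ := by
  have hV : 1 ≤ Module.finrank ℝ V := by omega
  have hc0 : 0 < cc (Module.finrank ℝ V) n := cc_pos (by omega)
  have hc1 : 0 < cc (Module.finrank ℝ V) (n + 1) := cc_pos (by omega)
  set q : ℝ := cc (Module.finrank ℝ V) (n + 1) / cc (Module.finrank ℝ V) n with hq
  have hq0 : 0 < q := div_pos hc1 hc0
  set K : ℝ := cc (Module.finrank ℝ V) n * cc (Module.finrank ℝ V) (n + 1) * A' with hK
  set m : ℝ := sN ρ n g / en n ρ with hm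
  have hsN : iw n ρ (fun X => d5M g X) = sN ρ n g := rfl
  have htN : iw n ρ (fun X => d5T g X) = tN ρ n g := rfl
  have hM := d5_measM (n := n) hg
  have hT := d5_measT (n := n) hg
  have hCM := d5_bddM (n := n) hV hC
  have hCT := d5_bddT (n := n) hV hC
  have hC0 : 0 ≤ C := (abs_nonneg _).trans (hC 0)
  -- the first integration
  set D : ℝ := |q * (2 * m)| * C + |q * -(m ^ 2)| + (C * C + |K|) with hD
  have hD0 : 0 ≤ |q * (2 * m)| * C := mul_nonneg (abs_nonneg _) hC0
  have hD1 : 0 ≤ |q * -(m ^ 2)| := abs_nonneg _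
  have hD2 : 0 ≤ C * C + |K| := add_nonneg (mul_nonneg hC0 hC0) (abs_nonneg _)
  have bd1 : ∀ X : Fin n → V, |q * (2 * m) * d5M g X| ≤ D := fun X => by
    rw [abs_mul]
    have := mul_le_mul_of_nonneg_left (hCM X) (abs_nonneg (q * (2 * m)))
    linarith
  have bd2 : ∀ X : Fin n → V, |(fun _ : Fin n → V => q * -(m ^ 2)) X| ≤ D := fun X => by
    show |q * -(m ^ 2)| ≤ D
    linarith
  have bd3 : ∀ X : Fin n → V, |d5T g X| ≤ D := fun X => by
    have := hCT X
    have h0 := abs_nonneg K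
    linarith
  have bd4 : ∀ X : Fin n → V, |(fun _ : Fin n → V => K) X| ≤ D := fun X => by
    show |K| ≤ D
    have h0 := mul_nonneg hC0 hC0
    linarith
  have bd5 : ∀ X : Fin n → V, |q * (2 * m) * d5M g X + q * -(m ^ 2)| ≤ D := fun X => by
    refine (abs_add_le _ _).trans ?_
    rw [abs_mul]
    have := mul_le_mul_of_nonneg_left (hCM X) (abs_nonneg (q * (2 * m)))
    linarith
  have bd6 : ∀ X : Fin n → V, |d5T g X + K| ≤ D := fun X => by
    refine (abs_add_le _ _).trans ?_
    have := hCT X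
    linarith
  have h1 : iw n ρ (fun X => q * (2 * m) * d5M g X + q * -(m ^ 2)) ≤ iw n ρ (fun X => d5T g X + K) := by
    refine iw_mono hρ ((measurable_const.mul hM).add measurable_const) (hT.add measurable_const) bd5 bd6 ?_
    intro X hX _
    have h2 := d5_point hn hA hX
    have h3 : q * (2 * m) * d5M g X + q * -(m ^ 2) ≤ q * (d5M g X) ^ 2 := by
      nlinarith [mul_nonneg hq0.le (sq_nonneg (d5M g X - m))]
    exact h3.trans h2
  rw [iw_add hρ (Φ := fun X : Fin n → V => q * (2 * m) * d5M g X) (Ψ := fun _ => q * -(m ^ 2))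
      (measurable_const.mul hM) measurable_const bd1 bd2,
    iw_add hρ (Φ := fun X : Fin n → V => d5T g X) (Ψ := fun _ => K) hT measurable_const bd3 bd4,
    iw_mul, iw_const, iw_const, hsN, htN] at h1
  have h4 : q * (2 * m) * sN ρ n g + q * -(m ^ 2) * en n ρ = q * (sN ρ n g ^ 2 / en n ρ) := by
    rw [hm]
    field_simp
    ring
  rw [h4] at h1
  exact h1


theorem af_sg (hρ : US ρ) {n : ℕ} (hn : n + 2 ≤ Module.finrank ℝ V) (hpos : 0 < en (n + 2) ρ) {g : V → ℝ}
    (hg : Measurable g) {C : ℝ} (hC : ∀ x, |g x| ≤ C) :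
    tN ρ n g * en n ρ * cc (Module.finrank ℝ V) n ≤ cc (Module.finrank ℝ V) (n + 1) * sN ρ n g ^ 2 := by
  have he0 : 0 < en n ρ := en_pos_of_le hρ (by omega) hpos
  have hc0 : 0 < cc (Module.finrank ℝ V) n := cc_pos (by omega)
  have hc1 : 0 < cc (Module.finrank ℝ V) (n + 1) := cc_pos (by omega)
  have hmat := af_matrix hρ hn hg hC
  obtain ⟨-, k2, -⟩ := alg3 hpos (mul_pos (mul_pos he0 hc0) hc1) hmat
  set a := en n ρ with ha
  set c := cc (Module.finrank ℝ V) n with hc
  set c' := cc (Module.finrank ℝ V) (n + 1) with hc'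
  set s := sN ρ n g with hs
  set t := tN ρ n g with ht
  have h1 : t ≤ (c' * s) ^ 2 / (a * c * c') := by linarith
  rw [le_div_iff₀ (by positivity)] at h1
  have h2 : c' * (t * a * c) ≤ c' * (c' * s ^ 2) := by
    calc c' * (t * a * c) = t * (a * c * c') := by ring
      _ ≤ (c' * s) ^ 2 := h1
      _ = c' * (c' * s ^ 2) := by ring
  exact le_of_mul_le_mul_left h2 hc1

end Pool.Agent.TWC
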