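import Pool.Agent.HRJ.D9a
import Pool.Agent.PBL.D0a
import Pool.Agent.TWC.A1

/-!
# TWC-B6b: the smoothed measure

`g_M = gg ρ ρ (ws d M) 0 M` is the density of the smoothed measure.  `unif`: the cosine transform of `g_M` tends to `hf ρ`
uniformly (Gegenbauer expansion of `|t|`).  `unif_sub`: the norm of the projection to a subspace is a mean of such functions
(Fubini).  `g_nonneg`, `g_mass`: `g_M` is a probability density.
-/

set_option autoImplicit false

namespace Pool.Agent.TWC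

open MeasureTheory ProbabilityTheory Set Filter Topology Metric
open Pool.Agent.HP89 Pool.Agent.FI75 Pool.Agent.PBL Pool.Agent.HRJ
open scoped RealInnerProductSpace ENNReal

variable {V : Type*} [NormedAddCommGroup V] [InnerProductSpace ℝ V] [FiniteDimensional ℝ V]
  [MeasurableSpace V] [BorelSpace V]

variable {ρ : Measure V}

private theorem b6_inner {u y : V} (hu : ‖u‖ = 1) (hy : ‖y‖ = 1) : |⟪u, y⟫| ≤ 1 := by
  have := abs_real_inner_le_norm u y
  rwa [hu, hy, mul_one] at this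

private theorem b6_nrm {u : V} (hu : ‖u‖ = 1) : nrm u = u := by
  rw [nrm, hu, inv_one, one_smul]

private theorem b6_gK {p : ℕ} (hp : 3 ≤ p) (l : ℕ) {t : ℝ} (ht : |t| ≤ 1) : |gK p l t| ≤ nN p l := by
  rw [gK, abs_mul, abs_of_pos (nN_pos hp l)]
  have := mul_le_mul_of_nonneg_left (gP_abs_le hp l ht) (nN_pos hp l).le
  rwa [mul_one] at this

private theorem b6_cgK (p l : ℕ) : Continuous (gK p l) := by
  unfold gK
  exact continuous_const.mul (continuous_gP p l)

private theorem b6_le_nrm (u : V) {y : V} (hy : ‖y‖ = 1) : |⟪nrm u, y⟫| ≤ 1 := by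
  have h1 := abs_real_inner_le_norm (nrm u) y
  have h2 := norm_nrm_le u
  rw [hy, mul_one] at h1
  linarith

private theorem b6_int_gK (hρ : US ρ) (hV : 3 ≤ Module.finrank ℝ V) (l : ℕ) (u : V) :
    Integrable (fun y => gK (Module.finrank ℝ V) l ⟪nrm u, y⟫) ρ := by
  have := hρ.prob
  refine Integrable.of_bound (C := nN (Module.finrank ℝ V) l) ?_ ?_
  · exact ((b6_cgK _ l).comp (continuous_const.inner continuous_id)).aestronglyMeasurable
  · filter_upwards [hρ.unit] with y hy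
    rw [Real.norm_eq_abs]
    exact b6_gK hV l (b6_le_nrm u hy)

private theorem b6_gg (ρ : Measure V) (M : ℕ) (u : V) :
    gg ρ ρ (ws (Module.finrank ℝ V) M) (fun _ => 0) M u =
      ∑ h ∈ Finset.range (M + 1), ws (Module.finrank ℝ V) M h * ff ρ (2 * h) u := by
  unfold gg
  refine Finset.sum_congr rfl fun h _ => ?_
  rw [zero_mul, add_zero]

/-- the total mass of the components -/
private theorem b6_zero (hρ : US ρ) (hV : 3 ≤ Module.finrank ℝ V) (l : ℕ) :
    ∫ u, ff ρ (l + 1) u ∂(ms (⊤ : Submodule ℝ V)) = 0 := by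
  have := hρ.prob
  have := ms_prob (⊤ : Submodule ℝ V)
  set d := Module.finrank ℝ V with hd
  have hdt : Module.finrank ℝ (⊤ : Submodule ℝ V) = d := finrank_top ℝ V
  have hu1 : ∀ᵐ u ∂(ms (⊤ : Submodule ℝ V)), ‖u‖ = 1 := by
    filter_upwards [ms_unit (⊤ : Submodule ℝ V) (by rw [finrank_top]; omega)] with u hu using hu.1
  have hint : Integrable (Function.uncurry fun (u y : V) => gK d (l + 1) ⟪nrm u, y⟫)
      ((ms (⊤ : Submodule ℝ V)).prod ρ) := by
    refine Integrable.of_bound (C := nN d (l + 1)) ?_ ?_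
    · apply Measurable.aestronglyMeasurable
      exact (b6_cgK d (l + 1)).measurable.comp ((measurable_nrm.comp measurable_fst).inner measurable_snd)
    · have h3 : ∀ᵐ q ∂((ms (⊤ : Submodule ℝ V)).prod ρ), ‖q.2‖ = 1 :=
        Measure.quasiMeasurePreserving_snd.ae hρ.unit
      filter_upwards [h3] with q hq
      rw [Function.uncurry, Real.norm_eq_abs]
      exact b6_gK hV _ (b6_le_nrm _ hq)
  have h1 : ∫ u, ff ρ (l + 1) u ∂(ms (⊤ : Submodule ℝ V)) =
      ∫ u, ∫ y, gK d (l + 1) ⟪nrm u, y⟫ ∂ρ ∂(ms (⊤ : Submodule ℝ V)) := rfl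
  rw [h1, integral_integral_swap hint]
  have h2 : ∀ᵐ y ∂ρ, ∫ u, gK d (l + 1) ⟪nrm u, y⟫ ∂(ms (⊤ : Submodule ℝ V)) = 0 := by
    filter_upwards [hρ.unit] with y hy
    have h4 := fh (E := (⊤ : Submodule ℝ V)) (by rw [hdt]; exact hV) (u := y) (v := y) trivial hy trivial hy
      (f := gK d (l + 1)) (b6_cgK d (l + 1)).measurable (C := nN d (l + 1)) (fun t ht => b6_gK hV _ ht) 0
    have h5 : mu d 0 (gK d (l + 1)) = 0 := by
      have h6 := gP_int hV l
      unfold mu gK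
      have h7 : ∀ t : ℝ, nN d (l + 1) * gP d (l + 1) t * gP d 0 t = nN d (l + 1) * gP d (l + 1) t := by
        intro t
        simp [gP]
      simp only [h7]
      rw [integral_const_mul, h6, mul_zero]
    rw [hdt, h5, zero_mul] at h4
    rw [← h4]
    apply integral_congr_ae
    filter_upwards [hu1] with u hu
    rw [b6_nrm hu]
    simp [gP]
  rw [integral_congr_ae h2, integral_zero]

/-- `‖P_F a‖` is a mean of `|⟪a, w⟫|` -/
private theorem b6_fub {μ : Measure V} [IsProbabilityMeasure μ] (hμ : ∀ᵐ x ∂μ, ‖x‖ = 1) (F : Submodule ℝ V)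
    (hF : 1 ≤ Module.finrank ℝ F) {g : V → ℝ} (hg : Measurable g) {C : ℝ} (hC : ∀ u, |g u| ≤ C) :
    Integrable (fun w => ∫ a, |⟪a, w⟫| * g a ∂μ) (ms F) ∧
    mm (Module.finrank ℝ F) * ∫ a, ‖F.starProjection a‖ * g a ∂μ = ∫ w, ∫ a, |⟪a, w⟫| * g a ∂μ ∂(ms F) := by
  have := ms_prob F
  have hC0 : 0 ≤ C := (abs_nonneg _).trans (hC 0)
  have hint : Integrable (Function.uncurry fun (a w : V) => |⟪a, w⟫| * g a) (μ.prod (ms F)) := by
    refine Integrable.of_bound (C := C) ?_ ?_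
    · apply Measurable.aestronglyMeasurable
      have hm1 : Measurable (fun q : V × V => |⟪q.1, q.2⟫|) := (continuous_fst.inner continuous_snd).abs.measurable
      exact hm1.mul (hg.comp measurable_fst)
    · have h1 : ∀ᵐ q ∂(μ.prod (ms F)), ‖q.1‖ = 1 := Measure.quasiMeasurePreserving_fst.ae hμ
      have h2 : ∀ᵐ q ∂(μ.prod (ms F)), ‖q.2‖ = 1 ∧ q.2 ∈ F :=
        Measure.quasiMeasurePreserving_snd.ae (ms_unit F hF)
      filter_upwards [h1, h2] with q h3 h4
      rw [Function.uncurry, norm_mul, Real.norm_eq_abs, Real.norm_eq_abs, abs_abs]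
      calc |⟪q.1, q.2⟫| * |g q.1| ≤ 1 * |g q.1| :=
            mul_le_mul_of_nonneg_right (b6_inner h3 h4.1) (abs_nonneg _)
        _ = |g q.1| := one_mul _
        _ ≤ C := hC _
  refine ⟨hint.integral_prod_right, ?_⟩
  rw [← integral_integral_swap hint, ← integral_const_mul]
  congr 1
  funext a
  rw [integral_mul_const, ms_abs F hF a]
  ring

private theorem b6_key (hρ : US ρ) (hd : 3 ≤ Module.finrank ℝ V) {ε : ℝ} (hε : 0 < ε) :
    ∃ M0 : ℕ, ∀ M ≥ M0, ∀ u : V, ‖u‖ = 1 →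
      |(∫ y, |⟪u, y⟫| ∂ρ) - ∑ i ∈ Finset.range (M + 1), ws (Module.finrank ℝ V) M i *
        (mu (Module.finrank ℝ V) (2 * i) (fun t => |t|) * ff ρ (2 * i) u)| ≤ ε := by
  obtain ⟨M0, hM0⟩ := smooth hd (F := fun t : ℝ => |t|) continuous_abs (fun t => abs_neg t) hε
  refine ⟨M0, fun M hM u hu => ?_⟩
  have := hρ.prob
  have hF : Integrable (fun y => |⟪u, y⟫|) ρ := by
    refine Integrable.of_bound (C := 1) ?_ ?_
    · exact (continuous_abs.comp (continuous_const.inner continuous_id)).aestronglyMeasurable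
    · filter_upwards [hρ.unit] with y hy
      rw [Real.norm_eq_abs, abs_abs]
      exact b6_inner hu hy
  have hK : ∀ i : ℕ, Integrable (fun y => gK (Module.finrank ℝ V) (2 * i) ⟪u, y⟫) ρ := by
    intro i
    have h := b6_int_gK hρ hd (2 * i) u
    rwa [b6_nrm hu] at h
  have h1 : (∑ i ∈ Finset.range (M + 1), ws (Module.finrank ℝ V) M i *
        (mu (Module.finrank ℝ V) (2 * i) (fun t => |t|) * ff ρ (2 * i) u)) =
      ∫ y, (∑ i ∈ Finset.range (M + 1), ws (Module.finrank ℝ V) M i *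
        (mu (Module.finrank ℝ V) (2 * i) (fun t => |t|) * gK (Module.finrank ℝ V) (2 * i) ⟪u, y⟫)) ∂ρ := by
    rw [integral_finsetSum]
    · refine Finset.sum_congr rfl fun i _ => ?_
      rw [integral_const_mul, integral_const_mul]
      unfold ff
      rw [b6_nrm hu]
    · intro i _
      exact ((hK i).const_mul _).const_mul _
  rw [h1, ← integral_sub hF]
  · have h2 := norm_integral_le_of_norm_le_const (μ := ρ) (C := ε)
      (f := fun y => |⟪u, y⟫| - (∑ i ∈ Finset.range (M + 1), ws (Module.finrank ℝ V) M i *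
        (mu (Module.finrank ℝ V) (2 * i) (fun t => |t|) * gK (Module.finrank ℝ V) (2 * i) ⟪u, y⟫)))
      (by
        filter_upwards [hρ.unit] with y hy
        rw [Real.norm_eq_abs]
        exact hM0 M hM _ (b6_inner hu hy))
    rw [Real.norm_eq_abs] at h2
    simpa using h2
  · exact integrable_finsetSum _ fun i _ => ((hK i).const_mul _).const_mul _

theorem unif (hρ : US ρ) (hV : 3 ≤ Module.finrank ℝ V) {ε : ℝ} (hε : 0 < ε) :
    ∃ M0 : ℕ, ∀ M ≥ M0, ∀ z : V, ‖z‖ = 1 →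
      |(∫ a, |⟪a, z⟫| * gg ρ ρ (ws (Module.finrank ℝ V) M) (fun _ => 0) M a ∂(ms (⊤ : Submodule ℝ V))) - hf ρ z| ≤ ε := by
  obtain ⟨M0, hM0⟩ := b6_key hρ hV hε
  refine ⟨M0, fun M hM z hz => ?_⟩
  have h1 := hM0 M hM z hz
  rw [ps_gg hρ hρ hV _ _ _ hz]
  have h2 : mm (Module.finrank ℝ V) * ps ρ ρ (ws (Module.finrank ℝ V) M) (fun _ => 0) M z =
      ∑ i ∈ Finset.range (M + 1), ws (Module.finrank ℝ V) M i *
        (mu (Module.finrank ℝ V) (2 * i) (fun t => |t|) * ff ρ (2 * i) z) := by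
    unfold ps
    rw [Finset.mul_sum]
    refine Finset.sum_congr rfl fun i _ => ?_
    rw [mu_abs hV]
    ring
  have h3 : hf ρ z = ∫ y, |⟪z, y⟫| ∂ρ := by
    unfold hf
    congr 1
    funext y
    rw [real_inner_comm]
  rw [h2, h3, abs_sub_comm]
  exact h1

theorem unif_sub (hρ : US ρ) (hV : 3 ≤ Module.finrank ℝ V) {ε : ℝ} (hε : 0 < ε) :
    ∃ M0 : ℕ, ∀ M ≥ M0, ∀ F : Submodule ℝ V, 1 ≤ Module.finrank ℝ F →
      |(∫ a, ‖F.starProjection a‖ * gg ρ ρ (ws (Module.finrank ℝ V) M) (fun _ => 0) M a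
        ∂(ms (⊤ : Submodule ℝ V))) - gW ρ F| ≤ ε := by
  have hmd : 0 < mm (Module.finrank ℝ V) := mm_pos (by omega)
  obtain ⟨M0, hM0⟩ := unif hρ hV (mul_pos hε hmd)
  refine ⟨M0, fun M hM F hF => ?_⟩
  have := hρ.prob
  have := ms_prob (⊤ : Submodule ℝ V)
  have := ms_prob F
  have hmF : 0 < mm (Module.finrank ℝ F) := mm_pos hF
  have hle : mm (Module.finrank ℝ V) ≤ mm (Module.finrank ℝ F) := by
    unfold mm
    exact div_le_div_of_nonneg_left (Real.sqrt_nonneg _) (mG_pos hF) (mG_mono F.finrank_le)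
  obtain ⟨C, hC⟩ := gg_bdd hρ hρ hV (ws (Module.finrank ℝ V) M) (fun _ => 0) M
  have hu1 : ∀ᵐ u ∂(ms (⊤ : Submodule ℝ V)), ‖u‖ = 1 := by
    filter_upwards [ms_unit (⊤ : Submodule ℝ V) (by rw [finrank_top]; omega)] with u hu using hu.1
  obtain ⟨i1, e1⟩ := b6_fub hu1 F hF (gg_meas hρ hρ (ws (Module.finrank ℝ V) M) (fun _ => 0) M) hC
  obtain ⟨i2, e2⟩ := b6_fub hρ.unit F hF (g := fun _ => 1) measurable_const (C := 1) (fun _ => by simp)
  simp only [mul_one] at i2 e2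
  have e3 : mm (Module.finrank ℝ F) * gW ρ F = ∫ w, ∫ a, |⟪a, w⟫| ∂ρ ∂(ms F) := e2
  have h1 : mm (Module.finrank ℝ F) * ((∫ a, ‖F.starProjection a‖ *
      gg ρ ρ (ws (Module.finrank ℝ V) M) (fun _ => 0) M a ∂(ms (⊤ : Submodule ℝ V))) - gW ρ F) =
      ∫ w, ((∫ a, |⟪a, w⟫| * gg ρ ρ (ws (Module.finrank ℝ V) M) (fun _ => 0) M a ∂(ms (⊤ : Submodule ℝ V))) -
        ∫ a, |⟪a, w⟫| ∂ρ) ∂(ms F) := by
    rw [mul_sub, e1, e3, integral_sub i1 i2]
  have h2 := norm_integral_le_of_norm_le_const (μ := ms F) (C := ε * mm (Module.finrank ℝ V))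
    (f := fun w => (∫ a, |⟪a, w⟫| * gg ρ ρ (ws (Module.finrank ℝ V) M) (fun _ => 0) M a
      ∂(ms (⊤ : Submodule ℝ V))) - ∫ a, |⟪a, w⟫| ∂ρ)
    (by
      filter_upwards [ms_unit F hF] with w hw
      rw [Real.norm_eq_abs]
      exact hM0 M hM w hw.1)
  rw [← h1, Real.norm_eq_abs, abs_mul, abs_of_pos hmF, probReal_univ, mul_one] at h2
  have h3 : mm (Module.finrank ℝ F) * |(∫ a, ‖F.starProjection a‖ *
      gg ρ ρ (ws (Module.finrank ℝ V) M) (fun _ => 0) M a ∂(ms (⊤ : Submodule ℝ V))) - gW ρ F| ≤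
      mm (Module.finrank ℝ F) * ε := by
    refine h2.trans ?_
    rw [mul_comm]
    exact mul_le_mul_of_nonneg_right hle hε.le
  exact le_of_mul_le_mul_left h3 hmF

theorem g_nonneg (hρ : US ρ) (hV : 3 ≤ Module.finrank ℝ V) (M : ℕ) (u : V) :
    0 ≤ gg ρ ρ (ws (Module.finrank ℝ V) M) (fun _ => 0) M u := by
  have := hρ.prob
  rw [b6_gg]
  set d := Module.finrank ℝ V with hd
  have h1 : ∑ h ∈ Finset.range (M + 1), ws d M h * ff ρ (2 * h) u =
      ∫ y, ∑ h ∈ Finset.range (M + 1), ws d M h * gK d (2 * h) ⟪nrm u, y⟫ ∂ρ := by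
    rw [integral_finsetSum]
    · refine Finset.sum_congr rfl fun h _ => ?_
      rw [integral_const_mul]
      rfl
    · intro h _
      exact (b6_int_gK hρ hV (2 * h) u).const_mul _
  rw [h1]
  refine integral_nonneg fun y => ?_
  have h2 : ∑ h ∈ Finset.range (M + 1), ws d M h * gK d (2 * h) ⟪nrm u, y⟫ =
      ⟪nrm u, y⟫ ^ (2 * M) / mu d 0 (fun t => t ^ (2 * M)) := by
    rw [pow_expand hV M, Finset.sum_div]
    refine Finset.sum_congr rfl fun h _ => ?_
    rw [ws]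
    ring
  show 0 ≤ ∑ h ∈ Finset.range (M + 1), ws d M h * gK d (2 * h) ⟪nrm u, y⟫
  rw [h2]
  exact div_nonneg ((even_two_mul M).pow_nonneg _) (mu_pow_nonneg hV _ _)

theorem g_mass (hρ : US ρ) (hV : 3 ≤ Module.finrank ℝ V) (M : ℕ) :
    ∫ u, gg ρ ρ (ws (Module.finrank ℝ V) M) (fun _ => 0) M u ∂(ms (⊤ : Submodule ℝ V)) = 1 := by
  have := hρ.prob
  have := ms_prob (⊤ : Submodule ℝ V)
  have hI : ∀ h : ℕ, Integrable (fun u => ws (Module.finrank ℝ V) M h * ff ρ (2 * h) u)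
      (ms (⊤ : Submodule ℝ V)) := by
    intro h
    refine Integrable.const_mul ?_ _
    refine Integrable.of_bound (C := nN (Module.finrank ℝ V) (2 * h)) (ff_meas hρ _).aestronglyMeasurable ?_
    refine Filter.Eventually.of_forall fun u => ?_
    rw [Real.norm_eq_abs]
    exact ff_bdd hρ hV _ u
  simp only [b6_gg]
  rw [integral_finsetSum _ fun h _ => hI h, Finset.sum_range_succ']
  have h1 : ∑ k ∈ Finset.range M, ∫ u, ws (Module.finrank ℝ V) M (k + 1) * ff ρ (2 * (k + 1)) u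
      ∂(ms (⊤ : Submodule ℝ V)) = 0 := by
    refine Finset.sum_eq_zero fun k _ => ?_
    rw [integral_const_mul, show 2 * (k + 1) = (2 * k + 1) + 1 by ring, b6_zero hρ hV, mul_zero]
  rw [h1, zero_add, mul_zero, ws_zero_deg hV]
  simp [ff_zero_deg hρ]

end Pool.Agent.TWC
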