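import Pool.Agent.HRJ.D5
import Pool.Agent.TWC.B6b

/-!
# TWC-B6c: limits of `sN` and `tN`

PROOF PLAN.  Let `g_M = gg ρ ρ (ws d M) 0 M`.  `lim_s`: `sN ρ n g_M = iw n ρ (∫ ‖P_(oc X) a‖ g_M dσ)` (`rv_eq`) and `en (n+1) ρ = iw n ρ (gW ρ (oc X))` (`en_succ`); `unif_sub` (`finrank (oc X) = d - n ≥ 1` if `wv X ≠ 0`) and `iw_mono` with `± ε`:
the difference is at most `ε * en n ρ ≤ ε` in absolute value.  `lim_t`: for fixed `X`, `a` with `wv X ≠ 0`, `rv X a ≠ 0`: `F = oc X ∩ (rv X a)^⊥ = sb (oc X) a` has dimension `d - n - 1 ≥ 1` (`sb_proj`, `finrank_sb`), `‖ort (rv X a) (rv X b)‖ = ‖P_F b‖`, so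
`|∫ ‖ort (rv X a) (rv X b)‖ g_M(b) dσ(b) - gW ρ F| ≤ ε` (for `rv X a = 0` the factor `‖rv X a‖` vanishes); integrating with the weight `‖rv X a‖ g_M(a) dσ(a)` (`g_nonneg`, `g_mass`, `‖rv X a‖ ≤ 1` a.e.):
`|tN ρ n g_M - iw n ρ (∫ ‖rv X a‖ gW ρ (sb (oc X) a) g_M(a) dσ(a))| ≤ ε`, and `‖rv X a‖ gW ρ (sb (oc X) a) = ∫ ‖rv X a‖ ‖ort (rv X a) (rv X y)‖ dρ(y) = ∫ ‖rv X y‖ ‖ort (rv X y) (rv X a)‖ dρ(y)` (the area of a parallelogram is symmetric:
see `wv_cons`, `rv_cons`, or `norm_ort_sq`), so by Fubini this is `iw n ρ (∫ ‖rv X y‖ (∫ ‖ort (rv X y) (rv X a)‖ g_M(a) dσ(a)) dρ(y))`, again within `ε` of `iw n ρ (∫ ‖rv X y‖ gW ρ (sb (oc X) y) dρ(y)) = en (n+2) ρ` (`iw_succ`, `en_succ` twice, `rv_cons`).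
-/

set_option autoImplicit false

namespace Pool.Agent.TWC

open MeasureTheory ProbabilityTheory Set Filter Topology Metric
open Pool.Agent.HP89 Pool.Agent.FI75 Pool.Agent.PBL Pool.Agent.HRJ
open scoped RealInnerProductSpace ENNReal

variable {V : Type*} [NormedAddCommGroup V] [InnerProductSpace ℝ V] [FiniteDimensional ℝ V]
  [MeasurableSpace V] [BorelSpace V]

variable {ρ : Measure V}

private theorem b6c_en_le (hρ : US ρ) (n : ℕ) : en n ρ ≤ 1 := by
  have := hρ.prob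
  unfold en
  have h : ∫ X, wv X ∂(pp n ρ) ≤ ∫ _X : Fin n → V, (1 : ℝ) ∂(pp n ρ) := by
    refine integral_mono_of_nonneg ?_ (integrable_const _) ?_
    · filter_upwards [ae_wv_le hρ n] with X hX using hX.1
    · filter_upwards [ae_wv_le hρ n] with X hX using hX.2
  simpa using h

private theorem b6c_iw_close (hρ : US ρ) {n : ℕ} {Φ Ψ : (Fin n → V) → ℝ} (hΦ : Measurable Φ) (hΨ : Measurable Ψ)
    {C : ℝ} (hC : ∀ X, |Φ X| ≤ C) (hC' : ∀ X, |Ψ X| ≤ C) {ε : ℝ} (hε : 0 ≤ ε)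
    (h : ∀ X, wv X ≠ 0 → (∀ i, ‖X i‖ = 1) → |Φ X - Ψ X| ≤ ε) : |iw n ρ Φ - iw n ρ Ψ| ≤ ε := by
  have hen := b6c_en_le hρ n
  have hen0 := en_nonneg ρ n
  have hC0 : 0 ≤ C := (abs_nonneg _).trans (hC 0)
  have key : ∀ (Φ Ψ : (Fin n → V) → ℝ), Measurable Φ → Measurable Ψ → (∀ X, |Φ X| ≤ C) → (∀ X, |Ψ X| ≤ C) →
      (∀ X, wv X ≠ 0 → (∀ i, ‖X i‖ = 1) → |Φ X - Ψ X| ≤ ε) → iw n ρ Φ ≤ iw n ρ Ψ + ε := by
    intro Φ Ψ hΦ hΨ hC hC' h
    have h1 : iw n ρ Φ ≤ iw n ρ (fun X => Ψ X + ε) := by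
      refine iw_mono hρ hΦ (hΨ.add measurable_const) (C := C + ε) (fun X => (hC X).trans (by linarith))
        (fun X => ?_) ?_
      · refine (abs_add_le _ _).trans ?_
        rw [abs_of_nonneg hε]
        linarith [hC' X]
      · intro X hX hX1
        have := (abs_le.mp (h X hX hX1)).2
        linarith
    have h2 : iw n ρ (fun X => Ψ X + ε) = iw n ρ Ψ + iw n ρ (fun _ => ε) :=
      iw_add hρ hΨ measurable_const (C := C + ε) (fun X => (hC' X).trans (by linarith))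
        (fun X => by rw [abs_of_nonneg hε]; linarith)
    rw [h2, iw_const] at h1
    have h3 : ε * en n ρ ≤ ε := by nlinarith
    linarith
  have k1 := key Φ Ψ hΦ hΨ hC hC' h
  have k2 := key Ψ Φ hΨ hΦ hC' hC (fun X hX hX1 => by rw [abs_sub_comm]; exact h X hX hX1)
  rw [abs_le]
  constructor <;> linarith

private theorem b6c_int {β : Type*} [MeasurableSpace β] {ν : Measure V} [SFinite ν] {f : β → V → ℝ}
    (hf : Measurable (Function.uncurry f)) : Measurable (fun b => ∫ x, f b x ∂ν) :=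
  (StronglyMeasurable.integral_prod_right hf.stronglyMeasurable).measurable

private theorem b6c_rv_le {n : ℕ} (X : Fin n → V) (a : V) : ‖rv X a‖ ≤ ‖a‖ := by
  rw [rv_eq]
  exact (oc X).norm_starProjection_apply_le a

private theorem b6c_meas2 {n : ℕ} :
    Measurable (fun q : ((Fin n → V) × V) × V => ort (rv q.1.1 q.1.2) (rv q.1.1 q.2)) := by
  have h1 : Measurable (fun q : ((Fin n → V) × V) × V => rv q.1.1 q.1.2) :=
    meas_rv.comp measurable_fst
  have h2 : Measurable (fun q : ((Fin n → V) × V) × V => rv q.1.1 q.2) :=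
    meas_rv.comp ((measurable_fst.comp measurable_fst).prodMk measurable_snd)
  exact measurable_ort.comp (h1.prodMk h2)

/-- the area is symmetric -/
private theorem b6c_area (x y : V) : ‖x‖ * ‖ort x y‖ = ‖y‖ * ‖ort y x‖ := by
  have h1 := norm_mul_norm_ort x y
  have h2 := norm_mul_norm_ort y x
  rw [real_inner_comm] at h2
  have h3 : (‖x‖ * ‖ort x y‖) ^ 2 = (‖y‖ * ‖ort y x‖) ^ 2 := by
    rw [h1, h2]; ring
  exact (pow_left_inj₀ (mul_nonneg (norm_nonneg _) (norm_nonneg _))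
    (mul_nonneg (norm_nonneg _) (norm_nonneg _)) two_ne_zero).mp h3

/-- means of close bounded functions -/
private theorem b6c_close {μ : Measure V} [IsProbabilityMeasure μ] {f h : V → ℝ} (hf : Measurable f)
    (hh : Measurable h) {C : ℝ} (hC : ∀ᵐ x ∂μ, |f x| ≤ C) (hC' : ∀ᵐ x ∂μ, |h x| ≤ C) {w : V → ℝ}
    (hw : Measurable w) {D : ℝ} (hD : ∀ x, |w x| ≤ D) (hw0 : ∀ x, 0 ≤ w x) (hw1 : ∫ x, w x ∂μ = 1) {ε : ℝ}
    (hε : ∀ᵐ x ∂μ, |f x - h x| ≤ ε) : |(∫ x, f x * w x ∂μ) - ∫ x, h x * w x ∂μ| ≤ ε := by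
  have i0 : Integrable w μ := Integrable.of_bound hw.aestronglyMeasurable D
    (Eventually.of_forall fun x => by rw [Real.norm_eq_abs]; exact hD x)
  have hi : ∀ f : V → ℝ, Measurable f → (∀ᵐ x ∂μ, |f x| ≤ C) → Integrable (fun x => f x * w x) μ := by
    intro f hf hC
    refine Integrable.of_bound (C := C * D) (hf.mul hw).aestronglyMeasurable ?_
    filter_upwards [hC] with x hx
    rw [Real.norm_eq_abs, abs_mul]
    exact mul_le_mul hx (hD x) (abs_nonneg _) ((abs_nonneg _).trans hx)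
  have i1 := hi f hf hC
  have i2 := hi h hh hC'
  rw [← integral_sub i1 i2]
  have h1 : |∫ x, (f x * w x - h x * w x) ∂μ| ≤ ∫ x, |f x * w x - h x * w x| ∂μ := abs_integral_le_integral_abs
  refine h1.trans ?_
  have h2 : ∫ x, |f x * w x - h x * w x| ∂μ ≤ ∫ x, ε * w x ∂μ := by
    refine integral_mono_ae (i1.sub i2).abs (i0.const_mul ε) ?_
    filter_upwards [hε] with x hx
    show |f x * w x - h x * w x| ≤ ε * w x
    rw [← sub_mul, abs_mul, abs_of_nonneg (hw0 x)]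
    exact mul_le_mul_of_nonneg_right hx (hw0 x)
  rw [integral_const_mul, hw1, mul_one] at h2
  exact h2

private theorem b6c_gW_le (hρ : US ρ) (E : Submodule ℝ V) : 0 ≤ gW ρ E ∧ gW ρ E ≤ 1 := by
  have := hρ.prob
  refine ⟨integral_nonneg fun x => norm_nonneg _, ?_⟩
  have h1 : gW ρ E ≤ ∫ _x : V, (1 : ℝ) ∂ρ := by
    unfold gW
    refine integral_mono_of_nonneg (Filter.Eventually.of_forall fun x => norm_nonneg _) (integrable_const _) ?_
    filter_upwards [hρ.unit] with x hx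
    calc ‖E.starProjection x‖ ≤ ‖x‖ := E.norm_starProjection_apply_le x
      _ = 1 := hx
  simpa using h1

/-- the inner integral of `sN` -/
private noncomputable def b6M {n : ℕ} (g : V → ℝ) (X : Fin n → V) : ℝ :=
  ∫ a, ‖rv X a‖ * g a ∂(ms (⊤ : Submodule ℝ V))

/-- the inner integral of `tN` -/
private noncomputable def b6T {n : ℕ} (g : V → ℝ) (X : Fin n → V) : ℝ :=
  ∫ a, ∫ b, ‖rv X a‖ * ‖ort (rv X a) (rv X b)‖ * (g a * g b)
    ∂(ms (⊤ : Submodule ℝ V)) ∂(ms (⊤ : Submodule ℝ V))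

private theorem b6c_measM {n : ℕ} {g : V → ℝ} (hg : Measurable g) :
    Measurable (fun X : Fin n → V => b6M g X) := by
  have : IsProbabilityMeasure (ms (⊤ : Submodule ℝ V)) := ms_prob _
  unfold b6M
  exact b6c_int (meas_rv.norm.mul (hg.comp measurable_snd))

private theorem b6c_measT {n : ℕ} {g : V → ℝ} (hg : Measurable g) :
    Measurable (fun X : Fin n → V => b6T g X) := by
  have : IsProbabilityMeasure (ms (⊤ : Submodule ℝ V)) := ms_prob _
  unfold b6T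
  refine b6c_int ?_
  refine b6c_int (β := (Fin n → V) × V)
    (f := fun p b => ‖rv p.1 p.2‖ * ‖ort (rv p.1 p.2) (rv p.1 b)‖ * (g p.2 * g b)) ?_
  have h1 : Measurable (fun q : ((Fin n → V) × V) × V => rv q.1.1 q.1.2) :=
    meas_rv.comp measurable_fst
  exact (h1.norm.mul b6c_meas2.norm).mul
    ((hg.comp (measurable_snd.comp measurable_fst)).mul (hg.comp measurable_snd))

private theorem b6c_bddM (hV : 1 ≤ Module.finrank ℝ V) {n : ℕ} {g : V → ℝ} {C : ℝ}
    (hC : ∀ x, |g x| ≤ C) (X : Fin n → V) : |b6M g X| ≤ C := by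
  have : IsProbabilityMeasure (ms (⊤ : Submodule ℝ V)) := ms_prob _
  have h := norm_integral_le_of_norm_le_const (μ := ms (⊤ : Submodule ℝ V))
    (f := fun a => ‖rv X a‖ * g a) (C := C) (by
      filter_upwards [ms_unit (⊤ : Submodule ℝ V) (by rw [finrank_top]; exact hV)] with a ha
      rw [Real.norm_eq_abs, abs_mul, abs_of_nonneg (norm_nonneg _)]
      have h1 := b6c_rv_le X a
      rw [ha.1] at h1
      calc ‖rv X a‖ * |g a| ≤ 1 * |g a| := mul_le_mul_of_nonneg_right h1 (abs_nonneg _)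
        _ = |g a| := one_mul _
        _ ≤ C := hC a)
  rwa [probReal_univ, mul_one, Real.norm_eq_abs] at h

private theorem b6c_bddT (hV : 1 ≤ Module.finrank ℝ V) {n : ℕ} {g : V → ℝ} {C : ℝ}
    (hC : ∀ x, |g x| ≤ C) (X : Fin n → V) : |b6T g X| ≤ C * C := by
  have : IsProbabilityMeasure (ms (⊤ : Submodule ℝ V)) := ms_prob _
  have hu := ms_unit (⊤ : Submodule ℝ V) (by rw [finrank_top]; exact hV)
  have h := norm_integral_le_of_norm_le_const (μ := ms (⊤ : Submodule ℝ V))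
    (f := fun a => ∫ b, ‖rv X a‖ * ‖ort (rv X a) (rv X b)‖ * (g a * g b) ∂(ms (⊤ : Submodule ℝ V)))
    (C := C * C) (by
      filter_upwards [hu] with a ha
      have h' := norm_integral_le_of_norm_le_const (μ := ms (⊤ : Submodule ℝ V))
        (f := fun b => ‖rv X a‖ * ‖ort (rv X a) (rv X b)‖ * (g a * g b)) (C := C * C) (by
          filter_upwards [hu] with b hb
          rw [Real.norm_eq_abs, abs_mul, abs_mul, abs_mul, abs_of_nonneg (norm_nonneg _),
            abs_of_nonneg (norm_nonneg _)]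
          have h1 := b6c_rv_le X a
          rw [ha.1] at h1
          have h2 := (norm_ort_le (rv X a) (rv X b)).trans (b6c_rv_le X b)
          rw [hb.1] at h2
          have h3 : ‖rv X a‖ * ‖ort (rv X a) (rv X b)‖ ≤ 1 * 1 :=
            mul_le_mul h1 h2 (norm_nonneg _) zero_le_one
          have h4 : |g a| * |g b| ≤ C * C :=
            mul_le_mul (hC a) (hC b) (abs_nonneg _) ((abs_nonneg _).trans (hC a))
          calc ‖rv X a‖ * ‖ort (rv X a) (rv X b)‖ * (|g a| * |g b|)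
              ≤ (1 * 1) * (|g a| * |g b|) :=
                mul_le_mul_of_nonneg_right h3 (mul_nonneg (abs_nonneg _) (abs_nonneg _))
            _ = |g a| * |g b| := by ring
            _ ≤ C * C := h4)
      rwa [probReal_univ, mul_one] at h')
  rwa [probReal_univ, mul_one, Real.norm_eq_abs] at h

theorem lim_s (hρ : US ρ) (hV : 3 ≤ Module.finrank ℝ V) {n : ℕ} (hn : n + 1 ≤ Module.finrank ℝ V) :
    Tendsto (fun M : ℕ => sN ρ n (gg ρ ρ (ws (Module.finrank ℝ V) M) (fun _ => 0) M)) atTop (𝓝 (en (n + 1) ρ)) := by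
  have := hρ.prob
  rw [Metric.tendsto_atTop]
  intro ε hε
  obtain ⟨M0, hM0⟩ := unif_sub hρ hV (half_pos hε)
  refine ⟨M0, fun M hM => ?_⟩
  have hg := gg_meas hρ hρ (ws (Module.finrank ℝ V) M) (fun _ => 0) M
  obtain ⟨C, hC⟩ := gg_bdd hρ hρ hV (ws (Module.finrank ℝ V) M) (fun _ => 0) M
  have hu := hM0 M hM
  set g := gg ρ ρ (ws (Module.finrank ℝ V) M) (fun _ => 0) M with hgdef
  rw [Real.dist_eq, en_succ hρ]
  have hs : sN ρ n g = iw n ρ (fun X => b6M g X) := rfl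
  rw [hs]
  have hclose : |iw n ρ (fun X => b6M g X) - iw n ρ (fun X => gW ρ (oc X))| ≤ ε / 2 := by
    refine b6c_iw_close hρ (b6c_measM hg) (meas_gW ρ) (C := max C 1)
      (fun X => (b6c_bddM (by omega) hC X).trans (le_max_left _ _)) (fun X => ?_) (half_pos hε).le ?_
    · rw [abs_of_nonneg (b6c_gW_le hρ _).1]
      exact (b6c_gW_le hρ _).2.trans (le_max_right _ _)
    · intro X hX _
      have hfr := finrank_oc hX
      have h := hu (oc X) (by omega)
      simp only [← rv_eq] at h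
      exact h
  linarith

/-- the comparison for one tuple -/
private theorem b6c_point (hρ : US ρ) (hV : 3 ≤ Module.finrank ℝ V) {n : ℕ} (hn : n + 2 ≤ Module.finrank ℝ V)
    {g : V → ℝ} (hg : Measurable g) {C : ℝ} (hC : ∀ x, |g x| ≤ C) (hg0 : ∀ x, 0 ≤ g x)
    (hg1 : ∫ x, g x ∂(ms (⊤ : Submodule ℝ V)) = 1) {ε : ℝ} (hε : 0 ≤ ε)
    (hu : ∀ F : Submodule ℝ V, 1 ≤ Module.finrank ℝ F →
      |(∫ a, ‖F.starProjection a‖ * g a ∂(ms (⊤ : Submodule ℝ V))) - gW ρ F| ≤ ε)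
    {X : Fin n → V} (hX : wv X ≠ 0) :
    |b6T g X - ∫ y, ‖rv X y‖ * gW ρ (oc (Fin.cons y X : Fin (n + 1) → V)) ∂ρ| ≤ ε + ε := by
  have := hρ.prob
  have : IsProbabilityMeasure (ms (⊤ : Submodule ℝ V)) := ms_prob _
  have hun := ms_unit (⊤ : Submodule ℝ V) (by rw [finrank_top]; omega)
  have hfr := finrank_oc hX
  have hC0 : 0 ≤ C := (abs_nonneg _).trans (hC 0)
  have mrv : Measurable (fun a : V => rv X a) := by
    have h : Measurable (fun a : V => (oc X).starProjection a) := (oc X).starProjection.continuous.measurable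
    simpa only [← rv_eq] using h
  have mort : Measurable (fun p : V × V => ‖ort (rv X p.1) (rv X p.2)‖) :=
    (measurable_ort.comp ((mrv.comp measurable_fst).prodMk (mrv.comp measurable_snd))).norm
  -- the two inner means
  set k : V → ℝ := fun a => ∫ b, ‖ort (rv X a) (rv X b)‖ * g b ∂(ms (⊤ : Submodule ℝ V)) with hk
  set l : V → ℝ := fun a => ∫ y, ‖ort (rv X a) (rv X y)‖ ∂ρ with hl
  have mk : Measurable k := b6c_int (f := fun a b => ‖ort (rv X a) (rv X b)‖ * g b)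
    (mort.mul (hg.comp measurable_snd))
  have ml : Measurable l := b6c_int (f := fun a y => ‖ort (rv X a) (rv X y)‖) mort
  have hkl : ∀ a : V, rv X a ≠ 0 → |k a - l a| ≤ ε := by
    intro a ha
    have ha' : (oc X).starProjection a ≠ 0 := by rw [← rv_eq]; exact ha
    have h1 := finrank_sb ha'
    have h2 := hu (sb (oc X) a) (by omega)
    simp only [gW, sb_proj, ← rv_eq] at h2
    exact h2
  have hort : ∀ a y : V, ‖y‖ = 1 → ‖ort (rv X a) (rv X y)‖ ≤ 1 := by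
    intro a y hy
    exact ((norm_ort_le _ _).trans (b6c_rv_le X y)).trans hy.le
  have hl1 : ∀ a : V, 0 ≤ l a ∧ l a ≤ 1 := by
    intro a
    refine ⟨integral_nonneg fun y => norm_nonneg _, ?_⟩
    have h1 : l a ≤ ∫ _y : V, (1 : ℝ) ∂ρ := by
      refine integral_mono_of_nonneg (Eventually.of_forall fun y => norm_nonneg _) (integrable_const _) ?_
      filter_upwards [hρ.unit] with y hy using hort a y hy
    simpa using h1
  have hk1 : ∀ a : V, |k a| ≤ C := by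
    intro a
    have h := norm_integral_le_of_norm_le_const (μ := ms (⊤ : Submodule ℝ V))
      (f := fun b => ‖ort (rv X a) (rv X b)‖ * g b) (C := C) (by
        filter_upwards [hun] with b hb
        rw [Real.norm_eq_abs, abs_mul, abs_of_nonneg (norm_nonneg _)]
        calc ‖ort (rv X a) (rv X b)‖ * |g b| ≤ 1 * |g b| :=
              mul_le_mul_of_nonneg_right (hort a b hb.1) (abs_nonneg _)
          _ = |g b| := one_mul _
          _ ≤ C := hC b)
    rwa [probReal_univ, mul_one, Real.norm_eq_abs] at h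
  have hdiff : ∀ a : V, ‖a‖ = 1 → |‖rv X a‖ * k a - ‖rv X a‖ * l a| ≤ ε := by
    intro a ha
    rcases eq_or_ne (rv X a) 0 with h0 | h0
    · rw [h0]; simpa using hε
    · rw [← mul_sub, abs_mul, abs_of_nonneg (norm_nonneg _)]
      have h1 := b6c_rv_le X a
      rw [ha] at h1
      calc ‖rv X a‖ * |k a - l a| ≤ 1 * |k a - l a| := mul_le_mul_of_nonneg_right h1 (abs_nonneg _)
        _ = |k a - l a| := one_mul _
        _ ≤ ε := hkl a h0
  have b1 : ∀ a : V, ‖a‖ = 1 → |‖rv X a‖ * k a| ≤ max C 1 := by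
    intro a ha
    rw [abs_mul, abs_of_nonneg (norm_nonneg _)]
    have h1 := b6c_rv_le X a
    rw [ha] at h1
    calc ‖rv X a‖ * |k a| ≤ 1 * |k a| := mul_le_mul_of_nonneg_right h1 (abs_nonneg _)
      _ = |k a| := one_mul _
      _ ≤ C := hk1 a
      _ ≤ max C 1 := le_max_left _ _
  have b2 : ∀ a : V, ‖a‖ = 1 → |‖rv X a‖ * l a| ≤ max C 1 := by
    intro a ha
    rw [abs_mul, abs_of_nonneg (norm_nonneg _), abs_of_nonneg (hl1 a).1]
    have h1 := b6c_rv_le X a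
    rw [ha] at h1
    calc ‖rv X a‖ * l a ≤ 1 * l a := mul_le_mul_of_nonneg_right h1 (hl1 a).1
      _ = l a := one_mul _
      _ ≤ 1 := (hl1 a).2
      _ ≤ max C 1 := le_max_right _ _
  -- first step
  have e1 : b6T g X = ∫ a, (‖rv X a‖ * k a) * g a ∂(ms (⊤ : Submodule ℝ V)) := by
    unfold b6T
    refine integral_congr_ae (Eventually.of_forall fun a => ?_)
    show ∫ b, ‖rv X a‖ * ‖ort (rv X a) (rv X b)‖ * (g a * g b) ∂(ms (⊤ : Submodule ℝ V)) =
      ‖rv X a‖ * k a * g a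
    rw [hk]
    rw [show ‖rv X a‖ * (∫ b, ‖ort (rv X a) (rv X b)‖ * g b ∂(ms (⊤ : Submodule ℝ V))) * g a =
      (‖rv X a‖ * g a) * ∫ b, ‖ort (rv X a) (rv X b)‖ * g b ∂(ms (⊤ : Submodule ℝ V)) by ring]
    rw [← integral_const_mul]
    refine integral_congr_ae (Eventually.of_forall fun b => ?_)
    show ‖rv X a‖ * ‖ort (rv X a) (rv X b)‖ * (g a * g b) = ‖rv X a‖ * g a * (‖ort (rv X a) (rv X b)‖ * g b)
    ring
  have s1 : |b6T g X - ∫ a, (‖rv X a‖ * l a) * g a ∂(ms (⊤ : Submodule ℝ V))| ≤ ε := by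
    rw [e1]
    refine b6c_close (mrv.norm.mul mk) (mrv.norm.mul ml) (C := max C 1) ?_ ?_ hg hC hg0 hg1 ?_
    · filter_upwards [hun] with a ha using b1 a ha.1
    · filter_upwards [hun] with a ha using b2 a ha.1
    · filter_upwards [hun] with a ha using hdiff a ha.1
  -- exchange of the integrals
  have e2 : ∫ a, (‖rv X a‖ * l a) * g a ∂(ms (⊤ : Submodule ℝ V)) = ∫ y, ‖rv X y‖ * k y ∂ρ := by
    have h1 : ∫ a, (‖rv X a‖ * l a) * g a ∂(ms (⊤ : Submodule ℝ V)) =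
        ∫ a, ∫ y, ‖rv X a‖ * ‖ort (rv X a) (rv X y)‖ * g a ∂ρ ∂(ms (⊤ : Submodule ℝ V)) := by
      refine integral_congr_ae (Eventually.of_forall fun a => ?_)
      show ‖rv X a‖ * l a * g a = ∫ y, ‖rv X a‖ * ‖ort (rv X a) (rv X y)‖ * g a ∂ρ
      rw [integral_mul_const, integral_const_mul]
    rw [h1, integral_integral_swap]
    · refine integral_congr_ae (Eventually.of_forall fun y => ?_)
      show ∫ a, ‖rv X a‖ * ‖ort (rv X a) (rv X y)‖ * g a ∂(ms (⊤ : Submodule ℝ V)) = ‖rv X y‖ * k y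
      rw [hk]
      rw [← integral_const_mul]
      refine integral_congr_ae (Eventually.of_forall fun a => ?_)
      show ‖rv X a‖ * ‖ort (rv X a) (rv X y)‖ * g a = ‖rv X y‖ * (‖ort (rv X y) (rv X a)‖ * g a)
      rw [b6c_area]
      ring
    · have hm : Measurable (Function.uncurry fun a y : V => ‖rv X a‖ * ‖ort (rv X a) (rv X y)‖ * g a) :=
        ((mrv.norm.comp measurable_fst).mul mort).mul (hg.comp measurable_fst)
      have hae : ∀ᵐ p ∂((ms (⊤ : Submodule ℝ V)).prod ρ), ‖p.1‖ = 1 ∧ ‖p.2‖ = 1 := by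
        have h1 : ∀ᵐ p ∂((ms (⊤ : Submodule ℝ V)).prod ρ), ‖p.1‖ = 1 :=
          Measure.quasiMeasurePreserving_fst.ae (hun.mono fun a ha => ha.1)
        have h2 : ∀ᵐ p ∂((ms (⊤ : Submodule ℝ V)).prod ρ), ‖p.2‖ = 1 :=
          Measure.quasiMeasurePreserving_snd.ae hρ.unit
        filter_upwards [h1, h2] with p hp1 hp2 using ⟨hp1, hp2⟩
      refine Integrable.of_bound (C := C) hm.aestronglyMeasurable ?_
      filter_upwards [hae] with p hp
      show ‖‖rv X p.1‖ * ‖ort (rv X p.1) (rv X p.2)‖ * g p.1‖ ≤ C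
      rw [Real.norm_eq_abs, abs_mul, abs_of_nonneg (mul_nonneg (norm_nonneg _) (norm_nonneg _))]
      have h1 := b6c_rv_le X p.1
      rw [hp.1] at h1
      have h3 : ‖rv X p.1‖ * ‖ort (rv X p.1) (rv X p.2)‖ ≤ 1 * 1 :=
        mul_le_mul h1 (hort p.1 p.2 hp.2) (norm_nonneg _) zero_le_one
      calc ‖rv X p.1‖ * ‖ort (rv X p.1) (rv X p.2)‖ * |g p.1| ≤ (1 * 1) * |g p.1| :=
            mul_le_mul_of_nonneg_right h3 (abs_nonneg _)
        _ = |g p.1| := by ring
        _ ≤ C := hC p.1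
  -- second step
  have e3 : ∫ y, ‖rv X y‖ * gW ρ (oc (Fin.cons y X : Fin (n + 1) → V)) ∂ρ = ∫ y, ‖rv X y‖ * l y ∂ρ := by
    refine integral_congr_ae (Eventually.of_forall fun y => ?_)
    show ‖rv X y‖ * gW ρ (oc (Fin.cons y X : Fin (n + 1) → V)) = ‖rv X y‖ * l y
    simp only [gW, ← rv_eq, rv_cons, hl]
  have s2 : |(∫ y, ‖rv X y‖ * k y ∂ρ) - ∫ y, ‖rv X y‖ * l y ∂ρ| ≤ ε := by
    have h := b6c_close (μ := ρ) (f := fun y => ‖rv X y‖ * k y) (h := fun y => ‖rv X y‖ * l y)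
      (mrv.norm.mul mk) (mrv.norm.mul ml) (C := max C 1)
      (by filter_upwards [hρ.unit] with a ha using b1 a ha)
      (by filter_upwards [hρ.unit] with a ha using b2 a ha)
      (w := fun _ => 1) measurable_const (D := 1) (fun _ => by simp) (fun _ => zero_le_one)
      (by simp) (ε := ε) (by filter_upwards [hρ.unit] with a ha using hdiff a ha)
    simpa using h
  rw [e3]
  rw [e2] at s1
  calc |b6T g X - ∫ y, ‖rv X y‖ * l y ∂ρ|
      = |(b6T g X - ∫ y, ‖rv X y‖ * k y ∂ρ) + ((∫ y, ‖rv X y‖ * k y ∂ρ) - ∫ y, ‖rv X y‖ * l y ∂ρ)| := by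
        rw [sub_add_sub_cancel]
    _ ≤ _ := abs_add_le _ _
    _ ≤ ε + ε := add_le_add s1 s2

theorem lim_t (hρ : US ρ) (hV : 3 ≤ Module.finrank ℝ V) {n : ℕ} (hn : n + 2 ≤ Module.finrank ℝ V) :
    Tendsto (fun M : ℕ => tN ρ n (gg ρ ρ (ws (Module.finrank ℝ V) M) (fun _ => 0) M)) atTop (𝓝 (en (n + 2) ρ)) := by
  have := hρ.prob
  rw [Metric.tendsto_atTop]
  intro ε hε
  obtain ⟨M0, hM0⟩ := unif_sub hρ hV (show 0 < ε / 4 by positivity)
  refine ⟨M0, fun M hM => ?_⟩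
  have hg := gg_meas hρ hρ (ws (Module.finrank ℝ V) M) (fun _ => 0) M
  obtain ⟨C, hC⟩ := gg_bdd hρ hρ hV (ws (Module.finrank ℝ V) M) (fun _ => 0) M
  have hu := hM0 M hM
  have hg0 := g_nonneg hρ hV M
  have hg1 := g_mass hρ hV M
  set g := gg ρ ρ (ws (Module.finrank ℝ V) M) (fun _ => 0) M with hgdef
  rw [Real.dist_eq, show n + 2 = (n + 1) + 1 from rfl, en_succ hρ (n + 1)]
  have hgWb : ∀ X : Fin (n + 1) → V, |gW ρ (oc X)| ≤ 1 := fun X => by
    rw [abs_of_nonneg (b6c_gW_le hρ _).1]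
    exact (b6c_gW_le hρ _).2
  rw [iw_succ hρ (Φ := fun X : Fin (n + 1) → V => gW ρ (oc X)) (meas_gW ρ) hgWb]
  have ht : tN ρ n g = iw n ρ (fun X => b6T g X) := rfl
  rw [ht]
  have hmR : Measurable (fun X : Fin n → V => ∫ y, ‖rv X y‖ * gW ρ (oc (Fin.cons y X : Fin (n + 1) → V)) ∂ρ) := by
    have h1 : (fun X : Fin n → V => ∫ y, ‖rv X y‖ * gW ρ (oc (Fin.cons y X : Fin (n + 1) → V)) ∂ρ) =
        fun X : Fin n → V => ∫ y, ‖rv X y‖ * (∫ x, ‖ort (rv X y) (rv X x)‖ ∂ρ) ∂ρ := by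
      funext X
      simp only [gW, ← rv_eq, rv_cons]
    rw [h1]
    refine b6c_int (f := fun (X : Fin n → V) y => ‖rv X y‖ * (∫ x, ‖ort (rv X y) (rv X x)‖ ∂ρ)) ?_
    exact meas_rv.norm.mul (b6c_int (β := (Fin n → V) × V)
      (f := fun p x => ‖ort (rv p.1 p.2) (rv p.1 x)‖) b6c_meas2.norm)
  have hbR : ∀ X : Fin n → V, |∫ y, ‖rv X y‖ * gW ρ (oc (Fin.cons y X : Fin (n + 1) → V)) ∂ρ| ≤ 1 := by
    intro X
    have h := norm_integral_le_of_norm_le_const (μ := ρ)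
      (f := fun y => ‖rv X y‖ * gW ρ (oc (Fin.cons y X : Fin (n + 1) → V))) (C := 1) (by
        filter_upwards [hρ.unit] with y hy
        rw [Real.norm_eq_abs, abs_mul, abs_of_nonneg (norm_nonneg _)]
        have h1 := b6c_rv_le X y
        rw [hy] at h1
        calc ‖rv X y‖ * |gW ρ (oc (Fin.cons y X : Fin (n + 1) → V))| ≤ 1 * 1 :=
              mul_le_mul h1 (hgWb _) (abs_nonneg _) zero_le_one
          _ = 1 := one_mul _)
    rwa [probReal_univ, mul_one, Real.norm_eq_abs] at h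
  have hclose : |iw n ρ (fun X => b6T g X) -
      iw n ρ (fun X => ∫ y, ‖rv X y‖ * gW ρ (oc (Fin.cons y X : Fin (n + 1) → V)) ∂ρ)| ≤ ε / 4 + ε / 4 := by
    refine b6c_iw_close hρ (b6c_measT hg) hmR (C := max (C * C) 1)
      (fun X => (b6c_bddT (by omega) hC X).trans (le_max_left _ _))
      (fun X => (hbR X).trans (le_max_right _ _)) (by positivity) ?_
    intro X hX _
    exact b6c_point hρ hV hn hg hC hg0 hg1 (by positivity) hu hX
  linarith

end Pool.Agent.TWC
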