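import Pool.Agent.HRJ.D8a
import Pool.Agent.TWC.A4
import Pool.Agent.TWC.B6a
import Pool.Agent.TWC.B6c

/-!
# TWC-B6: `θ_n (θ_n - θ_(n+1)) ≤ Θ A_ρ`

PROOF PLAN.  `g_M = gg ρ ρ (ws d M) 0 M`.  For `finrank E = d - n`: `DE E g_M ≤ Θ GA ρ ρ (ws d M) 0 M ≤ Θ AR ρ M` (`trace2` with `s = Icc 1 M`; `qf ρ ρ (ws) 0 l = ws² xx ρ l ≤ xx ρ l`, `ws_nonneg`, `ws_le_one`, `xx_nonneg`, `lm_pos`; `Θ ≥ 0`: `SM ≥ 0`).
`defect`: `(c'/c) sN²/e ≤ tN + c c' Θ AR ρ M e` with `c = cc d n`, `c' = cc d (n+1)`, `e = en n ρ`.  As `M → ∞`: `sN → en (n+1) ρ`, `tN → en (n+2) ρ` (`lim_s`, `lim_t`), so `(c'/c) en (n+1)²/e - en (n+2) ≤ c c' e Θ AR ρ M + ε'` eventually; divide by `c c' e`: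
`th ρ n = en (n+1)/(e c)`, `th ρ n * th ρ (n+1) = en (n+2)/(e c c')`.
-/

set_option autoImplicit false

namespace Pool.Agent.TWC

open MeasureTheory ProbabilityTheory Set Filter Topology Metric
open Pool.Agent.HP89 Pool.Agent.FI75 Pool.Agent.PBL Pool.Agent.HRJ
open scoped RealInnerProductSpace ENNReal

variable {V : Type*} [NormedAddCommGroup V] [InnerProductSpace ℝ V] [FiniteDimensional ℝ V]
  [MeasurableSpace V] [BorelSpace V]

variable {ρ : Measure V}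

private theorem b6_GA_le (hρ : US ρ) (hV : 3 ≤ Module.finrank ℝ V) (M : ℕ) :
    GA ρ ρ (ws (Module.finrank ℝ V) M) (fun _ => 0) M ≤ AR ρ M := by
  unfold GA AR
  refine Finset.sum_le_sum fun h hh => ?_
  have hl := lm_pos hV (Finset.mem_Icc.mp hh).1
  refine mul_le_mul_of_nonneg_left ?_ hl.le
  have hx := xx_nonneg hρ hV (2 * h)
  have h0 := ws_nonneg hV M h
  have h1 := ws_le_one hV M h
  unfold qf
  have h2 : ws (Module.finrank ℝ V) M h ^ 2 ≤ 1 := pow_le_one₀ h0 h1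
  nlinarith

private theorem b6_trace (hρ : US ρ) {n : ℕ} (hn : n + 3 ≤ Module.finrank ℝ V) (hn1 : 1 ≤ n) {Θ : ℝ}
    (hΘ : ∀ N m, 1 ≤ m → SM (Module.finrank ℝ V) (Module.finrank ℝ V - n) (Finset.Icc 1 N) m ≤ Θ) (M : ℕ)
    {E : Submodule ℝ V} (hE : Module.finrank ℝ E + n = Module.finrank ℝ V) :
    DE E (gg ρ ρ (ws (Module.finrank ℝ V) M) (fun _ => 0) M) ≤ Θ * AR ρ M := by
  have hE' : Module.finrank ℝ V - n = Module.finrank ℝ E := by omega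
  have hΘ0 : 0 ≤ Θ := by
    have h := hΘ 0 1 le_rfl
    unfold SM at h
    simpa using h
  rw [hE'] at hΘ
  refine (trace2 hρ hρ (by omega) (by omega) (ws (Module.finrank ℝ V) M) (fun _ => 0) M
    (s := Finset.Icc 1 M) (Finset.Subset.refl _) (fun h h1 h2 => absurd h1 h2) (hΘ M)).trans ?_
  exact mul_le_mul_of_nonneg_left (b6_GA_le hρ (by omega) M) hΘ0

theorem defect_le (hρ : US ρ) {n : ℕ} (hn : n + 3 ≤ Module.finrank ℝ V) (hn1 : 1 ≤ n) (hpos : 0 < en (n + 2) ρ) {Θ : ℝ}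
    (hΘ : ∀ N m, 1 ≤ m → SM (Module.finrank ℝ V) (Module.finrank ℝ V - n) (Finset.Icc 1 N) m ≤ Θ) {ε : ℝ}
    (hε : 0 < ε) :
    ∃ N0 : ℕ, ∀ N ≥ N0, th ρ n * (th ρ n - th ρ (n + 1)) ≤ Θ * AR ρ N + ε := by
  classical
  set d := Module.finrank ℝ V with hd
  have he0 : 0 < en n ρ := en_pos_of_le hρ (by omega) hpos
  have he1 : 0 < en (n + 1) ρ := en_pos_of_le hρ (by omega) hpos
  have hc0 : 0 < cc d n := cc_pos (by omega)
  have hc1 : 0 < cc d (n + 1) := cc_pos (by omega)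
  have hls := lim_s (n := n) hρ (by omega) (by omega)
  have hlt := lim_t (n := n) hρ (by omega) (by omega)
  rw [← hd] at hls hlt
  have hlim : Tendsto (fun M : ℕ =>
      (cc d (n + 1) / cc d n * (sN ρ n (gg ρ ρ (ws d M) (fun _ => 0) M) ^ 2 / en n ρ) -
        tN ρ n (gg ρ ρ (ws d M) (fun _ => 0) M)) / (cc d n * cc d (n + 1) * en n ρ)) atTop
      (𝓝 ((cc d (n + 1) / cc d n * (en (n + 1) ρ ^ 2 / en n ρ) - en (n + 2) ρ) /
        (cc d n * cc d (n + 1) * en n ρ))) :=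
    ((((hls.pow 2).div_const _).const_mul _).sub hlt).div_const _
  have hL : (cc d (n + 1) / cc d n * (en (n + 1) ρ ^ 2 / en n ρ) - en (n + 2) ρ) /
        (cc d n * cc d (n + 1) * en n ρ) = th ρ n * (th ρ n - th ρ (n + 1)) := by
    unfold th
    rw [← hd, show n + 1 + 1 = n + 2 from rfl]
    field_simp
  rw [hL] at hlim
  have hev := hlim.eventually (lt_mem_nhds (show th ρ n * (th ρ n - th ρ (n + 1)) - ε <
    th ρ n * (th ρ n - th ρ (n + 1)) by linarith))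
  obtain ⟨N0, hN0⟩ := eventually_atTop.mp hev
  refine ⟨N0, fun N hN => ?_⟩
  have h1 := hN0 N hN
  have hgm := gg_meas hρ hρ (ws d N) (fun _ => 0) N
  obtain ⟨C, hC⟩ := gg_bdd hρ hρ (by omega) (ws d N) (fun _ => 0) N
  have h2 := defect hρ (n := n) (by omega) he0 hgm hC (A' := Θ * AR ρ N)
    (fun E hE => b6_trace hρ hn hn1 hΘ N hE)
  rw [← hd] at h2
  have hK : 0 < cc d n * cc d (n + 1) * en n ρ := by positivity
  have h3 : (cc d (n + 1) / cc d n * (sN ρ n (gg ρ ρ (ws d N) (fun _ => 0) N) ^ 2 / en n ρ) -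
        tN ρ n (gg ρ ρ (ws d N) (fun _ => 0) N)) / (cc d n * cc d (n + 1) * en n ρ) ≤ Θ * AR ρ N := by
    rw [div_le_iff₀ hK]
    nlinarith [h2]
  linarith

end Pool.Agent.TWC
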