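import Pool.Agent.HRJ.D9
import Pool.Agent.TWC.A3
import Pool.Agent.TWC.A5
import Pool.Agent.TWC.B2

/-!
# TWC-B7: the limit formula for `θ_1 + θ'_1 - 2 θ_j`

PROOF PLAN.  Copy `HRJ/D9a.lean` (`d9_*` private lemmas, `quad_lim` for a measure with only `US ρ`, `3 ≤ d`): `cross_lim` is `d9_key` (for `ρ`, at `x = u`) integrated over `x ~ ρ'`: `∫ ff ρ (2i) dρ' = xy ρ ρ' (2i)`; with `ρ' = ρ` it is `quad_lim`
(`xy ρ ρ l = xx ρ l` by definition).  `lin_lim2`: `d9_key` at a point.  `th_lim`: `cross_lim` for `F1 = √(1-t²)/cc d 1` with `(ρ, ρ)` and `(ρ', ρ')` (`mu_sqrt`: the multiplier of `F1` is `R_h T_h`; `th_one2`; `‖ort x y‖ = √(1 - ⟪x,y⟫²)`) and for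
`F2 = |t|/mm d` with `(ρ, ρ')` (multiplier `T_h`, `mu_abs`; `th_j2`: `th ρ j = ∫∫ |⟪x,y⟫| /mm d`): the sum of the three limits is `∑_h ws_h T_h (R_h (xx + xx') - 2 xy) → θ_1 + θ'_1 - 2 θ_j`, and the terms are `al - be` (`lm_sub` for `h ≥ 1`; for `h = 0`:
`tT d 0 = rR d 0 = 1`, `xx ρ 0 = xy ρ ρ' 0 = 1` (`ff_zero_deg`), `lm d 0 = 0`, both sides are zero).
-/

set_option autoImplicit false

namespace Pool.Agent.TWC

open MeasureTheory ProbabilityTheory Set Filter Topology Metric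
open Pool.Agent.HP89 Pool.Agent.FI75 Pool.Agent.PBL Pool.Agent.HRJ
open scoped RealInnerProductSpace ENNReal

variable {V : Type*} [NormedAddCommGroup V] [InnerProductSpace ℝ V] [FiniteDimensional ℝ V]
  [MeasurableSpace V] [BorelSpace V]

variable {ρ ρ' : Measure V} {j : ℕ}

private theorem b7_inner {u y : V} (hu : ‖u‖ = 1) (hy : ‖y‖ = 1) : |⟪u, y⟫| ≤ 1 := by
  have := abs_real_inner_le_norm u y
  rw [hu, hy] at this
  linarith

private theorem b7_bdd {F : ℝ → ℝ} (hF : Continuous F) : ∃ C : ℝ, ∀ t : ℝ, |t| ≤ 1 → |F t| ≤ C := by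
  obtain ⟨C, hC⟩ := (isCompact_Icc (a := (-1 : ℝ)) (b := 1)).exists_bound_of_continuousOn hF.continuousOn
  refine ⟨C, fun t ht => ?_⟩
  have := hC t (abs_le.mp ht)
  rwa [Real.norm_eq_abs] at this

private theorem b7_int {ρ : Measure V} (hρ : US ρ) {F : ℝ → ℝ} (hF : Continuous F) {u : V} (hu : ‖u‖ = 1) :
    Integrable (fun y => F ⟪u, y⟫) ρ := by
  obtain ⟨C, hC⟩ := b7_bdd hF
  have := hρ.prob
  refine Integrable.of_bound (C := C) ?_ ?_
  · exact (hF.comp (continuous_const.inner continuous_id)).aestronglyMeasurable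
  · filter_upwards [hρ.unit] with y hy
    rw [Real.norm_eq_abs]
    exact hC _ (b7_inner hu hy)

private theorem b7_gK_cont (d l : ℕ) : Continuous (gK d l) := by
  unfold gK
  exact continuous_const.mul (continuous_gP d l)

private theorem b7_nrm {u : V} (hu : ‖u‖ = 1) : nrm u = u := by
  unfold nrm
  rw [hu, inv_one, one_smul]

private theorem b7_key {ρ : Measure V} (hρ : US ρ) (hd : 3 ≤ Module.finrank ℝ V) {F : ℝ → ℝ} (hF : Continuous F)
    (hev : ∀ t, F (-t) = F t) {ε : ℝ} (hε : 0 < ε) :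
    ∃ M0 : ℕ, ∀ M ≥ M0, ∀ u : V, ‖u‖ = 1 →
      |(∫ y, F ⟪u, y⟫ ∂ρ) - ∑ i ∈ Finset.range (M + 1), ws (Module.finrank ℝ V) M i *
        (mu (Module.finrank ℝ V) (2 * i) F * ff ρ (2 * i) u)| ≤ ε := by
  obtain ⟨M0, hM0⟩ := smooth hd hF hev hε
  refine ⟨M0, fun M hM u hu => ?_⟩
  have := hρ.prob
  have h1 : (∑ i ∈ Finset.range (M + 1), ws (Module.finrank ℝ V) M i *
        (mu (Module.finrank ℝ V) (2 * i) F * ff ρ (2 * i) u)) =
      ∫ y, (∑ i ∈ Finset.range (M + 1), ws (Module.finrank ℝ V) M i *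
        (mu (Module.finrank ℝ V) (2 * i) F * gK (Module.finrank ℝ V) (2 * i) ⟪u, y⟫)) ∂ρ := by
    rw [integral_finsetSum]
    · refine Finset.sum_congr rfl fun i _ => ?_
      rw [integral_const_mul, integral_const_mul]
      unfold ff
      rw [b7_nrm hu]
    · intro i _
      exact ((b7_int hρ (b7_gK_cont _ _) hu).const_mul _).const_mul _
  rw [h1, ← integral_sub (b7_int hρ hF hu)]
  · have h2 := norm_integral_le_of_norm_le_const (μ := ρ) (C := ε)
      (f := fun y => F ⟪u, y⟫ - (∑ i ∈ Finset.range (M + 1), ws (Module.finrank ℝ V) M i *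
        (mu (Module.finrank ℝ V) (2 * i) F * gK (Module.finrank ℝ V) (2 * i) ⟪u, y⟫)))
      (by
        filter_upwards [hρ.unit] with y hy
        rw [Real.norm_eq_abs]
        exact hM0 M hM _ (b7_inner hu hy))
    rw [Real.norm_eq_abs] at h2
    simpa using h2
  · exact integrable_finsetSum _ fun i _ => ((b7_int hρ (b7_gK_cont _ _) hu).const_mul _).const_mul _

theorem cross_lim (hρ : US ρ) (hρ' : US ρ') (hd : 3 ≤ Module.finrank ℝ V) {F : ℝ → ℝ} (hF : Continuous F)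
    (hev : ∀ t, F (-t) = F t) :
    Tendsto (fun M : ℕ => ∑ i ∈ Finset.range (M + 1), ws (Module.finrank ℝ V) M i *
      (mu (Module.finrank ℝ V) (2 * i) F * xy ρ ρ' (2 * i))) atTop (𝓝 (∫ x, ∫ y, F ⟪x, y⟫ ∂ρ ∂ρ')) := by
  have hpr := hρ.prob
  have hpr' := hρ'.prob
  have hI1 : Integrable (fun x => ∫ y, F ⟪x, y⟫ ∂ρ) ρ' := by
    obtain ⟨C, hC⟩ := b7_bdd hF
    refine Integrable.of_bound (C := C) ?_ ?_
    · have hc : Continuous (fun p : V × V => F ⟪p.1, p.2⟫) := hF.comp (continuous_fst.inner continuous_snd)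
      exact (hc.stronglyMeasurable.integral_prod_right').aestronglyMeasurable
    · filter_upwards [hρ'.unit] with x hx
      have h2 := norm_integral_le_of_norm_le_const (μ := ρ) (C := C) (f := fun y => F ⟪x, y⟫)
        (by
          filter_upwards [hρ.unit] with y hy
          rw [Real.norm_eq_abs]
          exact hC _ (b7_inner hx hy))
      simpa using h2
  have hI2 : ∀ l : ℕ, Integrable (ff ρ l) ρ' := by
    intro l
    refine Integrable.of_bound (C := nN (Module.finrank ℝ V) l) (ff_meas hρ l).aestronglyMeasurable ?_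
    refine Filter.Eventually.of_forall fun x => ?_
    rw [Real.norm_eq_abs]
    exact ff_bdd hρ hd l x
  rw [Metric.tendsto_atTop]
  intro ε hε
  obtain ⟨M0, hM0⟩ := b7_key hρ hd hF hev (half_pos hε)
  refine ⟨M0, fun M hM => ?_⟩
  have h1 : (∑ i ∈ Finset.range (M + 1), ws (Module.finrank ℝ V) M i *
      (mu (Module.finrank ℝ V) (2 * i) F * xy ρ ρ' (2 * i))) =
      ∫ x, (∑ i ∈ Finset.range (M + 1), ws (Module.finrank ℝ V) M i *
        (mu (Module.finrank ℝ V) (2 * i) F * ff ρ (2 * i) x)) ∂ρ' := by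
    rw [integral_finsetSum]
    · refine Finset.sum_congr rfl fun i _ => ?_
      rw [integral_const_mul, integral_const_mul]
      rfl
    · intro i _
      exact ((hI2 _).const_mul _).const_mul _
  rw [dist_comm, Real.dist_eq, h1, ← integral_sub hI1]
  · have h2 := norm_integral_le_of_norm_le_const (μ := ρ') (C := ε / 2)
      (f := fun x => (∫ y, F ⟪x, y⟫ ∂ρ) - (∑ i ∈ Finset.range (M + 1), ws (Module.finrank ℝ V) M i *
        (mu (Module.finrank ℝ V) (2 * i) F * ff ρ (2 * i) x)))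
      (by
        filter_upwards [hρ'.unit] with x hx
        rw [Real.norm_eq_abs]
        exact hM0 M hM x hx)
    rw [Real.norm_eq_abs] at h2
    have h3 : ε / 2 < ε := half_lt_self hε
    have h4 : ε / 2 * ρ'.real Set.univ = ε / 2 := by simp
    rw [h4] at h2
    exact lt_of_le_of_lt h2 h3
  · exact integrable_finsetSum _ fun i _ => ((hI2 _).const_mul _).const_mul _

theorem lin_lim2 (hρ : US ρ) (hd : 3 ≤ Module.finrank ℝ V) {F : ℝ → ℝ} (hF : Continuous F)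
    (hev : ∀ t, F (-t) = F t) {u : V} (hu : ‖u‖ = 1) :
    Tendsto (fun M : ℕ => ∑ i ∈ Finset.range (M + 1), ws (Module.finrank ℝ V) M i *
      (mu (Module.finrank ℝ V) (2 * i) F * ff ρ (2 * i) u)) atTop (𝓝 (∫ y, F ⟪u, y⟫ ∂ρ)) := by
  rw [Metric.tendsto_atTop]
  intro ε hε
  obtain ⟨M0, hM0⟩ := b7_key hρ hd hF hev (half_pos hε)
  refine ⟨M0, fun M hM => ?_⟩
  rw [dist_comm, Real.dist_eq]
  exact lt_of_le_of_lt (hM0 M hM u hu) (half_lt_self hε)

private theorem b7_one (hρ : US ρ) :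
    (∫ x, ∫ y, √(1 - ⟪x, y⟫ ^ 2) ∂ρ ∂ρ) / cc (Module.finrank ℝ V) 1 = th ρ 1 := by
  have e1 : ∫ x, ∫ y, ‖ort x y‖ ∂ρ ∂ρ = ∫ x, ∫ y, √(1 - ⟪x, y⟫ ^ 2) ∂ρ ∂ρ := by
    refine integral_congr_ae ?_
    filter_upwards [hρ.unit] with x hx
    refine integral_congr_ae ?_
    filter_upwards [hρ.unit] with y hy
    have h1 := norm_ort_sq x y
    rw [hx, hy, div_one, one_pow] at h1
    rw [← h1, Real.sqrt_sq (norm_nonneg _)]
  rw [th_one2 hρ, e1]

private theorem b7_j (h : Tx j ρ ρ') :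
    (∫ x, ∫ y, |⟪x, y⟫| ∂ρ ∂ρ') / mm (Module.finrank ℝ V) = th ρ j := by
  have e2 : ∫ u, hf ρ u ∂ρ' = ∫ x, ∫ y, |⟪x, y⟫| ∂ρ ∂ρ' := by
    unfold hf
    refine integral_congr_ae (ae_of_all _ fun x => integral_congr_ae (ae_of_all _ fun y => ?_))
    show |⟪y, x⟫| = |⟪x, y⟫|
    rw [real_inner_comm]
  rw [th_eq h, th_j2 h.symm, e2]

private theorem b7_xx (hρ : US ρ) : xx ρ 0 = 1 := by
  have := hρ.prob
  unfold xx
  simp only [ff_zero_deg hρ]
  simp

private theorem b7_xy (hρ : US ρ) (hρ' : US ρ') : xy ρ ρ' 0 = 1 := by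
  have := hρ'.prob
  unfold xy
  simp only [ff_zero_deg hρ]
  simp

private theorem b7_term (hρ : US ρ) (hρ' : US ρ') (hd : 3 ≤ Module.finrank ℝ V) (i : ℕ) :
    tT (Module.finrank ℝ V) i * (rR (Module.finrank ℝ V) i * (xx ρ (2 * i) + xx ρ' (2 * i)) - 2 * xy ρ ρ' (2 * i)) =
      al ρ ρ' i - be ρ ρ' i := by
  rcases Nat.eq_zero_or_pos i with h0 | h0
  · subst h0
    unfold al be qf
    rw [lm_zero, mul_zero, b7_xx hρ, b7_xx hρ', b7_xy hρ hρ', tT_zero, rR_zero]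
    norm_num
  · rw [lm_sub hd h0]
    rfl

theorem th_lim (h : Tx j ρ ρ') :
    Tendsto (fun M : ℕ => ∑ i ∈ Finset.range (M + 1), ws (Module.finrank ℝ V) M i *
      (al ρ ρ' i - be ρ ρ' i)) atTop (𝓝 (th ρ 1 + th ρ' 1 - 2 * th ρ j)) := by
  have hd : 3 ≤ Module.finrank ℝ V := by
    have h1 := h.hj
    have h2 := h.hjd
    omega
  have hc : 0 < cc (Module.finrank ℝ V) 1 := cc_pos (by omega)
  have hm : 0 < mm (Module.finrank ℝ V) := mm_pos (by omega)
  have hF1 : Continuous (fun t : ℝ => √(1 - t ^ 2)) := by fun_prop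
  have hE1 : ∀ t : ℝ, (fun t : ℝ => √(1 - t ^ 2)) (-t) = (fun t : ℝ => √(1 - t ^ 2)) t := by
    intro t
    simp
  have hF2 : Continuous (fun t : ℝ => |t|) := by fun_prop
  have hE2 : ∀ t : ℝ, (fun t : ℝ => |t|) (-t) = (fun t : ℝ => |t|) t := by
    intro t
    simp
  have L1 := cross_lim h.us h.us hd hF1 hE1
  have L2 := cross_lim h.us' h.us' hd hF1 hE1
  have L3 := cross_lim h.us h.us' hd hF2 hE2
  have L := ((L1.div_const (cc (Module.finrank ℝ V) 1)).add (L2.div_const (cc (Module.finrank ℝ V) 1))).sub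
    ((L3.div_const (mm (Module.finrank ℝ V))).const_mul 2)
  rw [b7_one h.us, b7_one h.us', b7_j h] at L
  refine L.congr fun M => ?_
  simp only [mu_sqrt hd, mu_abs hd]
  rw [Finset.sum_div, Finset.sum_div, Finset.sum_div, Finset.mul_sum, ← Finset.sum_add_distrib,
    ← Finset.sum_sub_distrib]
  refine Finset.sum_congr rfl fun i _ => ?_
  rw [← b7_term h.us h.us' hd i]
  have e1 : xy ρ ρ (2 * i) = xx ρ (2 * i) := rfl
  have e2 : xy ρ' ρ' (2 * i) = xx ρ' (2 * i) := rfl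
  rw [e1, e2]
  field_simp
  try ring

end Pool.Agent.TWC
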