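import Pool.Agent.TWC.B7

/-!
# TWC-B8: consequences of the limit formula

PROOF PLAN.  `al_nonneg`, `be_nonneg`: `qf_nonneg`, `lm_pos`, `lm_zero`, `rR_abs_lt`.  `be_sum`: for fixed `N` and all `M ≥ N`: `∑_{h ≤ N} ws_h be h ≤ ∑_{h ≤ M} ws_h be h = ∑_{h ≤ M} ws_h al h - ∑_{h ≤ M} ws_h (al h - be h) ≤ A - ∑ ws_h (al h - be h)` (`0 ≤ ws ≤ 1`,
`∑_{h ≤ M} al h ≤ A`), let `M → ∞` (`ws_tendsto`, `th_lim`).  `all_zero`: if `A ≤ 0` and `0 ≤ Δ`: all partial sums of `al` and `be` vanish, so `qf 1 1 (2h) = qf 1 (-1) (2h) = 0` for all `h ≥ 1` (one of the two is in `al`, the other in `be`, the factors `lm d h`,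
`|T_h| (1 + |R_h|)` are positive), `xx_zero`, `ff_zero`, and `lin_lim2` with `F = |.|` gives `hf ρ u = mm d` as in `hf_eq` (HRJ-D9).
-/

set_option autoImplicit false

namespace Pool.Agent.TWC

open MeasureTheory ProbabilityTheory Set Filter Topology Metric
open Pool.Agent.HP89 Pool.Agent.FI75 Pool.Agent.PBL Pool.Agent.HRJ
open scoped RealInnerProductSpace ENNReal

variable {V : Type*} [NormedAddCommGroup V] [InnerProductSpace ℝ V] [FiniteDimensional ℝ V]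
  [MeasurableSpace V] [BorelSpace V]

variable {ρ ρ' : Measure V} {j : ℕ}

private theorem b8_dim (h : Tx j ρ ρ') : 3 ≤ Module.finrank ℝ V := by
  have h1 := h.hj
  have h2 := h.hjd
  omega

theorem al_nonneg (hρ : US ρ) (hρ' : US ρ') (hd : 3 ≤ Module.finrank ℝ V) (h : ℕ) : 0 ≤ al ρ ρ' h := by
  unfold al
  have h1 := qf_nonneg hρ hρ' hd 1 ((-1) ^ h) (2 * h)
  rcases Nat.eq_zero_or_pos h with h0 | h0
  · subst h0
    rw [lm_zero]
    simp
  · have h2 := lm_pos hd h0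
    exact div_nonneg (mul_nonneg h2.le h1) zero_le_two

theorem be_nonneg (hρ : US ρ) (hρ' : US ρ') (hd : 3 ≤ Module.finrank ℝ V) (h : ℕ) : 0 ≤ be ρ ρ' h := by
  unfold be
  have h1 := qf_nonneg hρ hρ' hd 1 (-(-1) ^ h) (2 * h)
  have h2 : 0 ≤ |tT (Module.finrank ℝ V) h| * (1 + |rR (Module.finrank ℝ V) h|) :=
    mul_nonneg (abs_nonneg _) (add_nonneg zero_le_one (abs_nonneg _))
  exact div_nonneg (mul_nonneg h2 h1) zero_le_two

private theorem b8_fin (h : Tx j ρ ρ') {A : ℝ} (hA : ∀ N, ∑ i ∈ Finset.range (N + 1), al ρ ρ' i ≤ A) {N M : ℕ}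
    (hM : N ≤ M) :
    ∑ i ∈ Finset.range (N + 1), ws (Module.finrank ℝ V) M i * be ρ ρ' i ≤
      A - ∑ i ∈ Finset.range (M + 1), ws (Module.finrank ℝ V) M i * (al ρ ρ' i - be ρ ρ' i) := by
  have hd := b8_dim h
  have h1 : ∑ i ∈ Finset.range (N + 1), ws (Module.finrank ℝ V) M i * be ρ ρ' i ≤
      ∑ i ∈ Finset.range (M + 1), ws (Module.finrank ℝ V) M i * be ρ ρ' i := by
    refine Finset.sum_le_sum_of_subset_of_nonneg (Finset.range_mono (by omega)) fun i _ _ => ?_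
    exact mul_nonneg (ws_nonneg hd M i) (be_nonneg h.us h.us' hd i)
  have h2 : ∑ i ∈ Finset.range (M + 1), ws (Module.finrank ℝ V) M i * al ρ ρ' i ≤
      ∑ i ∈ Finset.range (M + 1), al ρ ρ' i := by
    refine Finset.sum_le_sum fun i _ => ?_
    exact mul_le_of_le_one_left (al_nonneg h.us h.us' hd i) (ws_le_one hd M i)
  have h3 : ∑ i ∈ Finset.range (M + 1), ws (Module.finrank ℝ V) M i * (al ρ ρ' i - be ρ ρ' i) =
      ∑ i ∈ Finset.range (M + 1), ws (Module.finrank ℝ V) M i * al ρ ρ' i -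
        ∑ i ∈ Finset.range (M + 1), ws (Module.finrank ℝ V) M i * be ρ ρ' i := by
    rw [← Finset.sum_sub_distrib]
    exact Finset.sum_congr rfl fun i _ => by ring
  have h4 := hA M
  rw [h3]
  linarith

theorem be_sum (h : Tx j ρ ρ') {A : ℝ} (hA : ∀ N, ∑ i ∈ Finset.range (N + 1), al ρ ρ' i ≤ A) (N : ℕ) :
    ∑ i ∈ Finset.range (N + 1), be ρ ρ' i ≤ A - (th ρ 1 + th ρ' 1 - 2 * th ρ j) := by
  have hd := b8_dim h
  have h1 : Tendsto (fun M : ℕ => ∑ i ∈ Finset.range (N + 1), ws (Module.finrank ℝ V) M i * be ρ ρ' i) atTop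
      (𝓝 (∑ i ∈ Finset.range (N + 1), be ρ ρ' i)) := by
    refine tendsto_finsetSum _ fun i _ => ?_
    have h2 := (ws_tendsto hd i).mul_const (be ρ ρ' i)
    rwa [one_mul] at h2
  have h2 := (th_lim h).const_sub A
  refine le_of_tendsto_of_tendsto h1 h2 ?_
  filter_upwards [eventually_ge_atTop N] with M hM
  exact b8_fin h hA hM

private theorem b8_term {f : ℕ → ℝ} (hf : ∀ i, 0 ≤ f i) (hs : ∀ N, ∑ i ∈ Finset.range (N + 1), f i ≤ 0) (i : ℕ) :
    f i = 0 := by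
  have h1 : f i ≤ ∑ k ∈ Finset.range (i + 1), f k :=
    Finset.single_le_sum (fun k _ => hf k) (Finset.mem_range.2 (Nat.lt_succ_self i))
  exact le_antisymm (h1.trans (hs i)) (hf i)

private theorem b8_xx (h : Tx j ρ ρ') (hA : ∀ N, ∑ i ∈ Finset.range (N + 1), al ρ ρ' i ≤ 0)
    (h0 : 0 ≤ th ρ 1 + th ρ' 1 - 2 * th ρ j) {i : ℕ} (hi : i ≠ 0) : xx ρ (2 * i) = 0 := by
  have hd := b8_dim h
  have h1 := b8_term (al_nonneg h.us h.us' hd) hA i
  have h2 := b8_term (be_nonneg h.us h.us' hd) (fun N => (be_sum h hA N).trans (by linarith)) i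
  have hi1 : 1 ≤ i := Nat.one_le_iff_ne_zero.2 hi
  have h3 := lm_pos hd hi1
  have h4 : 0 < |tT (Module.finrank ℝ V) i| * (1 + |rR (Module.finrank ℝ V) i|) :=
    mul_pos (tT_abs_pos hd i) (by have := abs_nonneg (rR (Module.finrank ℝ V) i); linarith)
  unfold al at h1
  unfold be at h2
  have h5 : qf ρ ρ' 1 ((-1) ^ i) (2 * i) = 0 := by
    have h6 : lm (Module.finrank ℝ V) i * qf ρ ρ' 1 ((-1) ^ i) (2 * i) = 0 := by linarith
    exact (mul_eq_zero.1 h6).resolve_left h3.ne'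
  have h7 : qf ρ ρ' 1 (-(-1) ^ i) (2 * i) = 0 := by
    have h6 : |tT (Module.finrank ℝ V) i| * (1 + |rR (Module.finrank ℝ V) i|) *
      qf ρ ρ' 1 (-(-1) ^ i) (2 * i) = 0 := by linarith
    exact (mul_eq_zero.1 h6).resolve_left h4.ne'
  rcases Nat.even_or_odd i with he | ho
  · rw [he.neg_one_pow] at h5 h7
    exact (xx_zero h.us h.us' hd h5 h7).1
  · rw [ho.neg_one_pow] at h5 h7
    rw [neg_neg] at h7
    exact (xx_zero h.us h.us' hd h7 h5).1

theorem all_zero (h : Tx j ρ ρ') (hA : ∀ N, ∑ i ∈ Finset.range (N + 1), al ρ ρ' i ≤ 0)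
    (h0 : 0 ≤ th ρ 1 + th ρ' 1 - 2 * th ρ j) {u : V} (hu : ‖u‖ = 1) : hf ρ u = mm (Module.finrank ℝ V) := by
  have hd := b8_dim h
  have hlim := lin_lim2 h.us hd continuous_abs (fun t => abs_neg t) hu
  have h1 : ∀ M : ℕ, ∑ i ∈ Finset.range (M + 1), ws (Module.finrank ℝ V) M i *
      (mu (Module.finrank ℝ V) (2 * i) (fun t => |t|) * ff ρ (2 * i) u) = mm (Module.finrank ℝ V) := by
    intro M
    rw [Finset.sum_eq_single 0]
    · rw [ws_zero_deg hd, mu_abs hd, tT_zero, mul_zero, ff_zero_deg h.us]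
      ring
    · intro i _ hi
      rw [ff_zero h.us hd (b8_xx h hA h0 hi) hu]
      ring
    · intro h2
      exact absurd (Finset.mem_range.2 (Nat.succ_pos M)) h2
  have h2 : Tendsto (fun M : ℕ => ∑ i ∈ Finset.range (M + 1), ws (Module.finrank ℝ V) M i *
      (mu (Module.finrank ℝ V) (2 * i) (fun t => |t|) * ff ρ (2 * i) u)) atTop
        (𝓝 (mm (Module.finrank ℝ V))) := by
    simp only [h1]
    exact tendsto_const_nhds
  have h3 := tendsto_nhds_unique hlim h2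
  rw [hf, ← h3]
  refine integral_congr_ae (ae_of_all _ fun y => ?_)
  show |⟪y, u⟫| = |⟪u, y⟫|
  rw [real_inner_comm]

end Pool.Agent.TWC
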