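import Pool.Agent.TWC.B4
import Pool.Agent.TWC.B5
import Pool.Agent.TWC.B6
import Pool.Agent.TWC.B8

/-!
# TWC-B9: the conclusion from two inequalities between numbers

PROOF PLAN.  `θ = th ρ j = th ρ' j > 0`, `Δ = θ_1 + θ'_1 - 2 θ ≥ 0`, `k = d - j`, `S = ∑ T i`, `t = qf ρ ρ' 1 (-1) 2`, `c = lm d 1 * Dk d k * Θ`.  Let `A_N = ∑_{i ≤ N} al i`.  For `N ≥ 2`: `2 A_N = lm d 1 * t + WN ρ ρ' N` (`al 0 = 0` by `lm_zero`, `al 1 = lm d 1 qf 1 (-1) 2/2`), and `chain2`: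
`WN ρ ρ' N ≤ 2 (S/θ) Δ`.  So `A_N` is bounded; let `A = sSup (range A_N)` (or `⨆ N, A_N`): `A_N ≤ A` for all `N`, and `A` is the least upper bound.  `be_sum`: `B_N ≤ A - Δ`, in particular `Δ ≤ A`.
`AR ρ N + AR ρ' N = ∑_{h=1}^N lm_h (qf 1 1 + qf 1 (-1))/2 ≤ A_N + B_N ≤ 2 A - Δ` (`qf_add`; `|T| (1 + |R|) ≥ lm`).  `defect_le` for `ρ` and `ρ'` with `n = j`: `θ² ((1 - θ_(j+1)/θ) + (1 - θ'_(j+1)/θ)) ≤ Θ (AR ρ N + AR ρ' N) + 2 ε ≤ Θ (2 A - Δ) + 2 ε` for all `ε > 0`, so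
`≤ Θ (2 A - Δ)`.  `t_le`: `t ≤ 2 Dk (..)`, so `lm d 1 t/2 ≤ (c/θ²) (2 A - Δ)`.  Taking the supremum over `N` in `2 A_N = lm d 1 t + WN`: `A ≤ (c/θ²) (2 A - Δ) + (S/θ) Δ`.  With `e = c/θ²`, `p = S/θ`, `p + e < 1`, `2 e < 1`, `0 ≤ Δ ≤ A`:
`A (1 - 2e) ≤ (p - e) Δ`; if `p ≤ e` then `A ≤ 0`, otherwise `≤ (p - e) A`, `A (1 - e - p) ≤ 0`, `A ≤ 0`.  `all_zero`.
-/

set_option autoImplicit false

namespace Pool.Agent.TWC

open MeasureTheory ProbabilityTheory Set Filter Topology Metric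
open Pool.Agent.HP89 Pool.Agent.FI75 Pool.Agent.PBL Pool.Agent.HRJ
open scoped RealInnerProductSpace ENNReal

variable {V : Type*} [NormedAddCommGroup V] [InnerProductSpace ℝ V] [FiniteDimensional ℝ V]
  [MeasurableSpace V] [BorelSpace V]

variable {ρ ρ' : Measure V} {j : ℕ}

/-- The final argument with numbers only. -/
private theorem B9_num {A Δ θ c S : ℝ} (hθ : 0 < θ) (h0 : 0 ≤ Δ) (hΔA : Δ ≤ A)
    (h1 : 2 * c < θ ^ 2) (h2 : S * θ + c < θ ^ 2)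
    (hA : A * θ ^ 2 ≤ c * (2 * A - Δ) + S * θ * Δ) : A ≤ 0 := by
  by_contra hcon
  push Not at hcon
  have h3 : A * (θ ^ 2 - 2 * c) ≤ (S * θ - c) * Δ := by nlinarith
  rcases le_or_gt (S * θ) c with h4 | h4
  · have h5 : (S * θ - c) * Δ ≤ 0 := mul_nonpos_of_nonpos_of_nonneg (by linarith) h0
    have h6 : 0 < A * (θ ^ 2 - 2 * c) := mul_pos hcon (by linarith)
    linarith
  · have h5 : (S * θ - c) * Δ ≤ (S * θ - c) * A := mul_le_mul_of_nonneg_left hΔA (by linarith)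
    have h6 : 0 < A * (θ ^ 2 - c - S * θ) := mul_pos hcon (by linarith)
    nlinarith

private theorem B9_sgn (h : ℕ) (ρ ρ' : Measure V) (l : ℕ) :
    qf ρ ρ' 1 ((-1) ^ h) l + qf ρ ρ' 1 (-(-1) ^ h) l = 2 * (xx ρ l + xx ρ' l) := by
  unfold qf
  have h1 : ((-1 : ℝ) ^ h) ^ 2 = 1 := by rw [← pow_mul, mul_comm, pow_mul]; norm_num
  have h2 : (-(-1 : ℝ) ^ h) ^ 2 = 1 := by rw [neg_sq, h1]
  rw [h1, h2]
  ring

/-- `2 A_N = lm d 1 * t + WN` for `N ≥ 1`. -/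
private theorem B9_split (ρ ρ' : Measure V) {N : ℕ} (hN : 1 ≤ N) :
    2 * ∑ i ∈ Finset.range (N + 1), al ρ ρ' i =
      lm (Module.finrank ℝ V) 1 * qf ρ ρ' 1 (-1) 2 + WN ρ ρ' N := by
  have h1 : Finset.range (N + 1) = insert 0 (insert 1 (Finset.Icc 2 N)) := by
    ext i
    simp only [Finset.mem_range, Finset.mem_insert, Finset.mem_Icc]
    omega
  have h2 : (0 : ℕ) ∉ insert 1 (Finset.Icc 2 N) := by
    simp only [Finset.mem_insert, Finset.mem_Icc]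
    omega
  have h3 : (1 : ℕ) ∉ Finset.Icc 2 N := by
    simp only [Finset.mem_Icc]
    omega
  rw [h1, Finset.sum_insert h2, Finset.sum_insert h3]
  have h4 : al ρ ρ' 0 = 0 := by
    unfold al
    rw [lm_zero]
    ring
  have h5 : al ρ ρ' 1 = lm (Module.finrank ℝ V) 1 * qf ρ ρ' 1 (-1) 2 / 2 := by
    unfold al
    norm_num
  have h6 : ∑ i ∈ Finset.Icc 2 N, al ρ ρ' i = WN ρ ρ' N / 2 := by
    unfold WN al
    rw [Finset.sum_div]
  rw [h4, h5, h6]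
  ring

/-- `AR ρ N + AR ρ' N ≤ A_N + B_N`. -/
private theorem B9_AR (hρ : US ρ) (hρ' : US ρ') (hd : 3 ≤ Module.finrank ℝ V) (N : ℕ) :
    AR ρ N + AR ρ' N ≤ ∑ i ∈ Finset.range (N + 1), al ρ ρ' i + ∑ i ∈ Finset.range (N + 1), be ρ ρ' i := by
  unfold AR
  rw [← Finset.sum_add_distrib, ← Finset.sum_add_distrib]
  have hsub : Finset.Icc 1 N ⊆ Finset.range (N + 1) := by
    intro i hi
    rw [Finset.mem_Icc] at hi
    rw [Finset.mem_range]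
    omega
  refine le_trans (Finset.sum_le_sum (g := fun i => al ρ ρ' i + be ρ ρ' i) fun h hh => ?_)
    (Finset.sum_le_sum_of_subset_of_nonneg hsub fun i _ _ =>
      add_nonneg (al_nonneg hρ hρ' hd i) (be_nonneg hρ hρ' hd i))
  have h1 := B9_sgn h ρ ρ' (2 * h)
  have h2 : lm (Module.finrank ℝ V) h ≤
      |tT (Module.finrank ℝ V) h| * (1 + |rR (Module.finrank ℝ V) h|) := by
    unfold lm
    refine mul_le_mul_of_nonneg_left ?_ (abs_nonneg _)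
    have := abs_nonneg (rR (Module.finrank ℝ V) h)
    linarith
  have h3 : 0 ≤ qf ρ ρ' 1 (-(-1) ^ h) (2 * h) := qf_nonneg hρ hρ' hd _ _ _
  have h4 : lm (Module.finrank ℝ V) h * qf ρ ρ' 1 (-(-1) ^ h) (2 * h) ≤
      |tT (Module.finrank ℝ V) h| * (1 + |rR (Module.finrank ℝ V) h|) * qf ρ ρ' 1 (-(-1) ^ h) (2 * h) :=
    mul_le_mul_of_nonneg_right h2 h3
  have h5 : lm (Module.finrank ℝ V) h * xx ρ (2 * h) + lm (Module.finrank ℝ V) h * xx ρ' (2 * h) =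
      (lm (Module.finrank ℝ V) h * qf ρ ρ' 1 ((-1) ^ h) (2 * h) +
        lm (Module.finrank ℝ V) h * qf ρ ρ' 1 (-(-1) ^ h) (2 * h)) / 2 := by
    rw [← mul_add, ← mul_add, h1]
    ring
  show lm (Module.finrank ℝ V) h * xx ρ (2 * h) + lm (Module.finrank ℝ V) h * xx ρ' (2 * h) ≤
    al ρ ρ' h + be ρ ρ' h
  rw [h5]
  unfold al be
  linarith

private theorem B9_dim (h : Tx j ρ ρ') : 3 ≤ Module.finrank ℝ V ∧ j + 3 ≤ Module.finrank ℝ V ∧ 1 ≤ j := by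
  have h1 := h.hj
  have h2 := h.hjd
  omega

private theorem B9_th_pos (h : Tx j ρ ρ') : 0 < th ρ j := by
  obtain ⟨hd, hj3, hj1⟩ := B9_dim h
  unfold th cc
  exact div_pos (en_pos1 h) (mul_pos h.pos (div_pos (mG_pos (by omega)) (mG_pos (by omega))))

theorem const_of_num (h : Tx j ρ ρ') {T : ℕ → ℝ} (hT0 : ∀ i ∈ Finset.Icc 2 j, 0 ≤ T i)
    (hT : ∀ N, ∀ i ∈ Finset.Icc 2 j, ∀ m, 1 ≤ m →
      SM (Module.finrank ℝ V) (Module.finrank ℝ V - i + 1) (Finset.Icc 2 N) m ≤ T i) {Θ : ℝ}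
    (hΘ : ∀ N m, 1 ≤ m → SM (Module.finrank ℝ V) (Module.finrank ℝ V - j) (Finset.Icc 1 N) m ≤ Θ)
    (h1 : 2 * (lm (Module.finrank ℝ V) 1 * Dk (Module.finrank ℝ V) (Module.finrank ℝ V - j) * Θ) < th ρ j ^ 2)
    (h2 : (∑ i ∈ Finset.Icc 2 j, T i) * th ρ j +
      lm (Module.finrank ℝ V) 1 * Dk (Module.finrank ℝ V) (Module.finrank ℝ V - j) * Θ < th ρ j ^ 2)
    {u : V} (hu : ‖u‖ = 1) : hf ρ u = mm (Module.finrank ℝ V) := by
  obtain ⟨hd, hj3, hj1⟩ := B9_dim h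
  have hθ : 0 < th ρ j := B9_th_pos h
  have hθe : th ρ j = th ρ' j := th_eq h
  have hΘ0 : 0 ≤ Θ := by
    have := hΘ 0 1 le_rfl
    simpa [SM] using this
  have hlm : 0 < lm (Module.finrank ℝ V) 1 := lm_pos hd le_rfl
  -- the chain
  have hch := fun N => chain2 h N hT0 (hT N)
  have hΔ0 : 0 ≤ th ρ 1 + th ρ' 1 - 2 * th ρ j := by
    obtain ⟨c1, c2, _⟩ := hch 0
    linarith
  set Δ := th ρ 1 + th ρ' 1 - 2 * th ρ j with hΔdef
  set S := ∑ i ∈ Finset.Icc 2 j, T i with hSdef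
  set t := qf ρ ρ' 1 (-1) 2 with htdef
  have hWN : ∀ N, WN ρ ρ' N * th ρ j ≤ 2 * S * Δ := fun N => (hch N).2.2
  have hal0 : ∀ i, 0 ≤ al ρ ρ' i := fun i => al_nonneg h.us h.us' hd i
  have hmono : Monotone fun N => ∑ i ∈ Finset.range (N + 1), al ρ ρ' i := by
    refine monotone_nat_of_le_succ fun n => ?_
    show ∑ i ∈ Finset.range (n + 1), al ρ ρ' i ≤ ∑ i ∈ Finset.range (n + 1 + 1), al ρ ρ' i
    rw [Finset.sum_range_succ _ (n + 1)]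
    linarith [hal0 (n + 1)]
  -- a uniform upper bound
  have hub1 : ∀ B : ℝ, (lm (Module.finrank ℝ V) 1 * t / 2) * th ρ j + S * Δ ≤ B * th ρ j →
      ∀ N, ∑ i ∈ Finset.range (N + 1), al ρ ρ' i ≤ B := by
    intro B hB N
    refine le_trans (hmono (Nat.le_add_right N 1)) ?_
    show ∑ i ∈ Finset.range (N + 1 + 1), al ρ ρ' i ≤ B
    have hs := B9_split ρ ρ' (N := N + 1) (by omega)
    have hw := hWN (N + 1)
    refine le_of_mul_le_mul_right ?_ hθ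
    refine le_trans ?_ hB
    have : (∑ i ∈ Finset.range (N + 1 + 1), al ρ ρ' i) =
        (lm (Module.finrank ℝ V) 1 * t + WN ρ ρ' (N + 1)) / 2 := by
      rw [← hs]
      ring
    rw [this]
    nlinarith
  have hbdd : BddAbove (range fun N => ∑ i ∈ Finset.range (N + 1), al ρ ρ' i) := by
    refine ⟨((lm (Module.finrank ℝ V) 1 * t / 2) * th ρ j + S * Δ) / th ρ j, ?_⟩
    rintro _ ⟨N, rfl⟩
    exact hub1 _ (le_of_eq (div_mul_cancel₀ _ hθ.ne').symm) N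
  set A := ⨆ N, ∑ i ∈ Finset.range (N + 1), al ρ ρ' i with hAdef
  have hAN : ∀ N, ∑ i ∈ Finset.range (N + 1), al ρ ρ' i ≤ A := fun N => le_ciSup hbdd N
  have hBN : ∀ N, ∑ i ∈ Finset.range (N + 1), be ρ ρ' i ≤ A - Δ := fun N => be_sum h hAN N
  have hΔA : Δ ≤ A := by
    have h3 := hBN 0
    have h4 : 0 ≤ ∑ i ∈ Finset.range (0 + 1), be ρ ρ' i :=
      Finset.sum_nonneg fun i _ => be_nonneg h.us h.us' hd i
    linarith
  -- the defect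
  set D := (1 - th ρ (j + 1) / th ρ j) + (1 - th ρ' (j + 1) / th ρ' j) with hDdef
  have hdef : th ρ j ^ 2 * D ≤ Θ * (2 * A - Δ) := by
    refine le_of_forall_pos_le_add fun ε hε => ?_
    obtain ⟨N0, hN0⟩ := defect_le h.us hj3 hj1 (en_pos2 h) hΘ (half_pos hε)
    obtain ⟨N1, hN1⟩ := defect_le h.us' hj3 hj1 (en_pos2 h.symm) hΘ (half_pos hε)
    have e0 := hN0 (max N0 N1) (le_max_left _ _)
    have e1 := hN1 (max N0 N1) (le_max_right _ _)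
    have e2 := B9_AR h.us h.us' hd (max N0 N1)
    have e3 : AR ρ (max N0 N1) + AR ρ' (max N0 N1) ≤ 2 * A - Δ := by
      linarith [hAN (max N0 N1), hBN (max N0 N1)]
    have e4 := mul_le_mul_of_nonneg_left e3 hΘ0
    have e5 : th ρ j ^ 2 * D = th ρ j * (th ρ j - th ρ (j + 1)) + th ρ' j * (th ρ' j - th ρ' (j + 1)) := by
      rw [hDdef, ← hθe]
      field_simp
    rw [e5]
    nlinarith
  obtain ⟨t1, t2, t3, _⟩ := t_le h
  have hDk : 0 ≤ Dk (Module.finrank ℝ V) (Module.finrank ℝ V - j) := by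
    unfold Dk
    have hk : (1 : ℝ) ≤ ((Module.finrank ℝ V - j : ℕ) : ℝ) := by
      exact_mod_cast (by omega : 1 ≤ Module.finrank ℝ V - j)
    have : (0 : ℝ) ≤ ((Module.finrank ℝ V - j : ℕ) : ℝ) - 1 := by linarith
    positivity
  -- the inequality for the supremum
  have hsup : A * th ρ j ^ 2 ≤ lm (Module.finrank ℝ V) 1 *
      Dk (Module.finrank ℝ V) (Module.finrank ℝ V - j) * Θ * (2 * A - Δ) + S * th ρ j * Δ := by
    have f1 : A ≤ ((lm (Module.finrank ℝ V) 1 * t / 2) * th ρ j + S * Δ) / th ρ j :=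
      ciSup_le (hub1 _ (le_of_eq (div_mul_cancel₀ _ hθ.ne').symm))
    have f2 : A * th ρ j ≤ (lm (Module.finrank ℝ V) 1 * t / 2) * th ρ j + S * Δ :=
      (le_div_iff₀ hθ).1 f1
    have f3 : A * th ρ j ^ 2 ≤ (lm (Module.finrank ℝ V) 1 * t / 2) * th ρ j ^ 2 + S * th ρ j * Δ := by
      nlinarith [mul_le_mul_of_nonneg_right f2 hθ.le]
    have f4 : t * th ρ j ^ 2 ≤ 2 * Dk (Module.finrank ℝ V) (Module.finrank ℝ V - j) * (Θ * (2 * A - Δ)) := by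
      calc t * th ρ j ^ 2 ≤ (2 * Dk (Module.finrank ℝ V) (Module.finrank ℝ V - j) * D) * th ρ j ^ 2 :=
            mul_le_mul_of_nonneg_right t3 (sq_nonneg _)
        _ = 2 * Dk (Module.finrank ℝ V) (Module.finrank ℝ V - j) * (th ρ j ^ 2 * D) := by ring
        _ ≤ _ := mul_le_mul_of_nonneg_left hdef (by positivity)
    have f5 := mul_le_mul_of_nonneg_left f4 hlm.le
    nlinarith
  have hA0 : A ≤ 0 := B9_num hθ hΔ0 hΔA h1 h2 hsup
  exact all_zero h (fun N => (hAN N).trans hA0) hΔ0 hu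

end Pool.Agent.TWC
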