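import Pool.Agent.HRJ.C4
import Pool.Agent.PBL.C1
import Pool.Agent.TWC.A2
import Pool.Agent.TWC.B5a

/-!
# TWC-C1a: the defect of a quadratic form

PROOF PLAN.  `g = gg μ μ e1 0 1 = ff μ 2`, `ψ = ps μ μ e1 0 1 = T_1 ff μ 2`.  `av_pair`: polarise `av_four` (PBL-C1): `12 ⟪w,x⟫² ⟪w,y⟫² = ⟪w,x+y⟫⁴ + ⟪w,x-y⟫⁴ - 2 ⟪w,x⟫⁴ - 2 ⟪w,y⟫⁴`.  `q_sq`: with `q w = ∫ ⟪w, y⟫² dμ(y)`: `q² = ∫∫ ⟪w,x⟫² ⟪w,y⟫²` (Fubini), so
`p (p+2) av E (q²) = sW μ E ^ 2 + 2 ∫∫ ⟪P_E x, y⟫² dμ dμ`, and `∫ ⟪P_E x, y⟫² dμ(y) ≤ ‖P_E x‖²/p` (`hk`), so it is `≤ s² + 2 s/p`.  `DE_two`: `DE_eq` with `M = 1` (`ps_gg`, `ps_expand`): `DE = nn p 1 * pq E 1 ψ` and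
`pq E 1 ψ = ∫ ψ (ψ - ∫ ψ) = ∫ ψ² - (∫ ψ)²` (`ps_expand`, `pc_zero_deg`); on unit vectors `ψ w = T_1 ((d+2)/2) (d q w - 1)` (`gK_two`), so `pq = (T_1 (d+2) d/2)² (av E (q²) - (s/p)²)` and `av E (q²) - (s/p)² ≤ (s² + 2 s/p)/(p (p+2)) - s²/p² = 2 s (1 - s)/(p² (p+2))`.
-/

set_option autoImplicit false

namespace Pool.Agent.TWC

open MeasureTheory ProbabilityTheory Set Filter Topology Metric
open Pool.Agent.HP89 Pool.Agent.FI75 Pool.Agent.PBL Pool.Agent.HRJ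
open scoped RealInnerProductSpace ENNReal

variable {V : Type*} [NormedAddCommGroup V] [InnerProductSpace ℝ V] [FiniteDimensional ℝ V]
  [MeasurableSpace V] [BorelSpace V]

variable {μ : Measure V}

private theorem c1a_int4 (E : Submodule ℝ V) (hE : 1 ≤ Module.finrank ℝ E) (u : V) :
    Integrable (fun w => (⟪w, u⟫ : ℝ) ^ 4) (ms E) := by
  have := ms_prob E
  have hm : Measurable fun w : V => (⟪w, u⟫ : ℝ) ^ 4 := by fun_prop
  refine Integrable.of_bound hm.aestronglyMeasurable (‖u‖ ^ 4) ?_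
  filter_upwards [ms_unit E hE] with w hw
  rw [Real.norm_eq_abs, abs_pow]
  have h := abs_real_inner_le_norm w u
  rw [hw.1, one_mul] at h
  exact pow_le_pow_left₀ (abs_nonneg _) h 4

omit [MeasurableSpace V] [BorelSpace V] in
private theorem c1a_pp (E : Submodule ℝ V) (x y : V) :
    (⟪E.starProjection x, E.starProjection y⟫ : ℝ) = ⟪E.starProjection x, y⟫ := by
  rw [← Submodule.inner_starProjection_left_eq_right]
  congr 1
  exact Submodule.starProjection_eq_self_iff.2 (Submodule.starProjection_apply_mem _ _)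

theorem av_pair (E : Submodule ℝ V) (hE : 1 ≤ Module.finrank ℝ E) (x y : V) :
    (Module.finrank ℝ E : ℝ) * ((Module.finrank ℝ E : ℝ) + 2) * av E (fun w => ⟪w, x⟫ ^ 2 * ⟪w, y⟫ ^ 2) =
      ‖E.starProjection x‖ ^ 2 * ‖E.starProjection y‖ ^ 2 + 2 * ⟪E.starProjection x, y⟫ ^ 2 := by
  have h4 : ∀ u : V, (Module.finrank ℝ E : ℝ) * ((Module.finrank ℝ E : ℝ) + 2) *
      ∫ w, (⟪w, u⟫ : ℝ) ^ 4 ∂(ms E) = 3 * ‖E.starProjection u‖ ^ 4 := fun u => by
    rw [ms_integral E (by fun_prop)]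
    exact av_four E hE u
  rw [← ms_integral E (by fun_prop)]
  have e : ∀ w : V, (⟪w, x⟫ : ℝ) ^ 2 * ⟪w, y⟫ ^ 2 =
      (⟪w, x + y⟫ ^ 4 + ⟪w, x - y⟫ ^ 4 - (2 * ⟪w, x⟫ ^ 4 + 2 * ⟪w, y⟫ ^ 4)) / 12 := fun w => by
    rw [inner_add_right, inner_sub_right]
    ring
  simp only [e]
  have i1 := c1a_int4 E hE (x + y)
  have i2 := c1a_int4 E hE (x - y)
  have i3 := c1a_int4 E hE x
  have i5 := c1a_int4 E hE y
  have i12 : Integrable (fun w => (⟪w, x + y⟫ : ℝ) ^ 4 + ⟪w, x - y⟫ ^ 4) (ms E) := i1.add i2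
  have i35 : Integrable (fun w => 2 * (⟪w, x⟫ : ℝ) ^ 4 + 2 * ⟪w, y⟫ ^ 4) (ms E) :=
    (i3.const_mul 2).add (i5.const_mul 2)
  rw [integral_div, integral_sub i12 i35, integral_add i1 i2,
    integral_add (i3.const_mul 2) (i5.const_mul 2), integral_const_mul, integral_const_mul]
  have h1 := h4 (x + y)
  have h2 := h4 (x - y)
  have h3 := h4 x
  have h5 := h4 y
  have n1 : ‖E.starProjection (x + y)‖ ^ 4 = (‖E.starProjection x‖ ^ 2 +
      2 * ⟪E.starProjection x, y⟫ + ‖E.starProjection y‖ ^ 2) ^ 2 := by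
    rw [← c1a_pp E x y, ← norm_add_sq_real, map_add]
    ring
  have n2 : ‖E.starProjection (x - y)‖ ^ 4 = (‖E.starProjection x‖ ^ 2 -
      2 * ⟪E.starProjection x, y⟫ + ‖E.starProjection y‖ ^ 2) ^ 2 := by
    rw [← c1a_pp E x y, ← norm_sub_sq_real, map_sub]
    ring
  rw [n1] at h1
  rw [n2] at h2
  linear_combination (1 / 12 : ℝ) * h1 + (1 / 12 : ℝ) * h2 - (1 / 6 : ℝ) * h3 - (1 / 6 : ℝ) * h5

private theorem c1a_q_meas (hμ : US μ) : Measurable (fun w : V => ∫ y, (⟪w, y⟫ : ℝ) ^ 2 ∂μ) := by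
  have := hμ.prob
  have h : Continuous (Function.uncurry fun (w y : V) => (⟪w, y⟫ : ℝ) ^ 2) :=
    (continuous_fst.inner continuous_snd).pow 2
  exact (h.measurable.stronglyMeasurable.integral_prod_right).measurable

omit [FiniteDimensional ℝ V] [MeasurableSpace V] [BorelSpace V] in
private theorem c1a_sq {u y : V} (hu : ‖u‖ ≤ 1) (hy : ‖y‖ = 1) : (⟪u, y⟫ : ℝ) ^ 2 ≤ 1 := by
  have h := abs_real_inner_le_norm u y
  rw [hy, mul_one] at h
  rw [← sq_abs]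
  exact pow_le_one₀ (abs_nonneg _) (h.trans hu)

theorem q_sq (hμ : US μ) {E : Submodule ℝ V} (hE : 1 ≤ Module.finrank ℝ E)
    (hk : ∀ v : V, (Module.finrank ℝ E : ℝ) * ∫ x, ⟪x, v⟫ ^ 2 ∂μ ≤ ‖v‖ ^ 2) :
    (Module.finrank ℝ E : ℝ) * ((Module.finrank ℝ E : ℝ) + 2) * av E (fun w => (∫ y, ⟪w, y⟫ ^ 2 ∂μ) ^ 2) ≤
      sW μ E ^ 2 + 2 * (sW μ E / (Module.finrank ℝ E : ℝ)) := by
  have := hμ.prob
  have := ms_prob E
  have hPp : (0 : ℝ) < (Module.finrank ℝ E : ℝ) := by exact_mod_cast hE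
  rw [← ms_integral E ((c1a_q_meas hμ).pow_const 2)]
  have e1 : ∀ w : V, (∫ y, (⟪w, y⟫ : ℝ) ^ 2 ∂μ) ^ 2 =
      ∫ z, (⟪w, z.1⟫ : ℝ) ^ 2 * ⟪w, z.2⟫ ^ 2 ∂(μ.prod μ) := by
    intro w
    rw [sq]
    exact (integral_prod_mul (fun y : V => (⟪w, y⟫ : ℝ) ^ 2) (fun y : V => (⟪w, y⟫ : ℝ) ^ 2)).symm
  simp only [e1]
  have hz : ∀ᵐ z ∂(μ.prod μ), ‖z.1‖ = 1 ∧ ‖z.2‖ = 1 := by
    have a1 := Measure.quasiMeasurePreserving_fst (μ := μ) (ν := μ) |>.ae hμ.unit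
    have a2 := Measure.quasiMeasurePreserving_snd (μ := μ) (ν := μ) |>.ae hμ.unit
    filter_upwards [a1, a2] with z h1 h2
    exact ⟨h1, h2⟩
  have hw : ∀ᵐ q ∂((ms E).prod (μ.prod μ)), ‖q.1‖ = 1 ∧ ‖q.2.1‖ = 1 ∧ ‖q.2.2‖ = 1 := by
    have a1 := Measure.quasiMeasurePreserving_fst (μ := ms E) (ν := μ.prod μ) |>.ae (ms_unit E hE)
    have a2 := Measure.quasiMeasurePreserving_snd (μ := ms E) (ν := μ.prod μ) |>.ae hz
    filter_upwards [a1, a2] with q h1 h2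
    exact ⟨h1.1, h2⟩
  have hint : Integrable (Function.uncurry fun (w : V) (z : V × V) => (⟪w, z.1⟫ : ℝ) ^ 2 * ⟪w, z.2⟫ ^ 2)
      ((ms E).prod (μ.prod μ)) := by
    have hc : Continuous (Function.uncurry fun (w : V) (z : V × V) => (⟪w, z.1⟫ : ℝ) ^ 2 * ⟪w, z.2⟫ ^ 2) :=
      ((continuous_fst.inner (continuous_fst.comp continuous_snd)).pow 2).mul
        ((continuous_fst.inner (continuous_snd.comp continuous_snd)).pow 2)
    refine Integrable.of_bound hc.measurable.aestronglyMeasurable 1 ?_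
    filter_upwards [hw] with q hq
    simp only [Function.uncurry]
    rw [Real.norm_eq_abs, abs_of_nonneg (by positivity)]
    exact mul_le_one₀ (c1a_sq hq.1.le hq.2.1) (sq_nonneg _) (c1a_sq hq.1.le hq.2.2)
  rw [integral_integral_swap hint, ← integral_const_mul]
  have e2 : ∀ z : V × V, (Module.finrank ℝ E : ℝ) * ((Module.finrank ℝ E : ℝ) + 2) *
      ∫ w, (⟪w, z.1⟫ : ℝ) ^ 2 * ⟪w, z.2⟫ ^ 2 ∂(ms E) =
      ‖E.starProjection z.1‖ ^ 2 * ‖E.starProjection z.2‖ ^ 2 + 2 * ⟪E.starProjection z.1, z.2⟫ ^ 2 := by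
    intro z
    rw [ms_integral E (by fun_prop)]
    exact av_pair E hE z.1 z.2
  simp only [e2]
  have i1 : Integrable (fun z : V × V => ‖E.starProjection z.1‖ ^ 2 * ‖E.starProjection z.2‖ ^ 2) (μ.prod μ) := by
    have hm : Measurable (fun z : V × V => ‖E.starProjection z.1‖ ^ 2 * ‖E.starProjection z.2‖ ^ 2) := by
      fun_prop
    refine Integrable.of_bound hm.aestronglyMeasurable 1 ?_
    filter_upwards [hz] with z hz
    rw [Real.norm_eq_abs, abs_of_nonneg (by positivity)]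
    have h1 : ‖E.starProjection z.1‖ ^ 2 ≤ 1 :=
      pow_le_one₀ (norm_nonneg _) ((E.norm_starProjection_apply_le z.1).trans hz.1.le)
    have h2 : ‖E.starProjection z.2‖ ^ 2 ≤ 1 :=
      pow_le_one₀ (norm_nonneg _) ((E.norm_starProjection_apply_le z.2).trans hz.2.le)
    exact mul_le_one₀ h1 (by positivity) h2
  have i2 : Integrable (fun z : V × V => (⟪E.starProjection z.1, z.2⟫ : ℝ) ^ 2) (μ.prod μ) := by
    have hm : Measurable (fun z : V × V => (⟪E.starProjection z.1, z.2⟫ : ℝ) ^ 2) := by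
      have hc : Continuous (fun z : V × V => (⟪E.starProjection z.1, z.2⟫ : ℝ) ^ 2) :=
        ((E.starProjection.continuous.comp continuous_fst).inner continuous_snd).pow 2
      exact hc.measurable
    refine Integrable.of_bound hm.aestronglyMeasurable 1 ?_
    filter_upwards [hz] with z hz
    rw [Real.norm_eq_abs, abs_of_nonneg (by positivity)]
    exact c1a_sq ((E.norm_starProjection_apply_le z.1).trans hz.1.le) hz.2
  have e4 : ∫ z, ‖E.starProjection z.1‖ ^ 2 * ‖E.starProjection z.2‖ ^ 2 ∂(μ.prod μ) = sW μ E ^ 2 := by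
    rw [sq]
    exact integral_prod_mul (fun x : V => ‖E.starProjection x‖ ^ 2) (fun x : V => ‖E.starProjection x‖ ^ 2)
  have i3 : Integrable (fun x : V => ‖E.starProjection x‖ ^ 2) μ := by
    refine Integrable.of_bound (by fun_prop : Measurable (fun x : V => ‖E.starProjection x‖ ^ 2)).aestronglyMeasurable
      1 ?_
    filter_upwards [hμ.unit] with x hx
    rw [Real.norm_eq_abs, abs_of_nonneg (by positivity)]
    exact pow_le_one₀ (norm_nonneg _) ((E.norm_starProjection_apply_le x).trans hx.le)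
  have e5 : ∫ z, (⟪E.starProjection z.1, z.2⟫ : ℝ) ^ 2 ∂(μ.prod μ) ≤ sW μ E / (Module.finrank ℝ E : ℝ) := by
    rw [integral_prod _ i2]
    have e6 : sW μ E / (Module.finrank ℝ E : ℝ) = ∫ x, ‖E.starProjection x‖ ^ 2 / (Module.finrank ℝ E : ℝ) ∂μ := by
      rw [integral_div]
      rfl
    rw [e6]
    refine integral_mono i2.integral_prod_left (i3.div_const _) fun x => ?_
    show ∫ y, (⟪E.starProjection x, y⟫ : ℝ) ^ 2 ∂μ ≤ ‖E.starProjection x‖ ^ 2 / (Module.finrank ℝ E : ℝ)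
    rw [le_div_iff₀ hPp, mul_comm]
    have h := hk (E.starProjection x)
    have e7 : ∀ y : V, (⟪E.starProjection x, y⟫ : ℝ) ^ 2 = ⟪y, E.starProjection x⟫ ^ 2 := fun y => by
      rw [real_inner_comm]
    simp only [e7]
    exact h
  rw [integral_add i1 (i2.const_mul 2), integral_const_mul, e4]
  linarith

private theorem c1a_ff2 (hμ : US μ) (hV : 3 ≤ Module.finrank ℝ V) {w : V} (hw : ‖w‖ = 1) :
    ff μ 2 w = ((Module.finrank ℝ V : ℝ) + 2) / 2 * ((Module.finrank ℝ V : ℝ) * ∫ y, (⟪w, y⟫ : ℝ) ^ 2 ∂μ - 1) := by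
  have := hμ.prob
  have hi : Integrable (fun y : V => (⟪w, y⟫ : ℝ) ^ 2) μ := by
    refine Integrable.of_bound (by fun_prop : Measurable (fun y : V => (⟪w, y⟫ : ℝ) ^ 2)).aestronglyMeasurable 1 ?_
    filter_upwards [hμ.unit] with y hy
    rw [Real.norm_eq_abs, abs_of_nonneg (by positivity)]
    exact c1a_sq hw.le hy
  unfold ff
  rw [show nrm w = w by simp [nrm, hw]]
  simp only [gK_two hV]
  rw [integral_const_mul, integral_sub (hi.const_mul _) (integrable_const _), integral_const_mul]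
  simp

private theorem c1a_q_int (hμ : US μ) {E : Submodule ℝ V} (hE : 1 ≤ Module.finrank ℝ E) (n : ℕ) :
    Integrable (fun w : V => (∫ y, (⟪w, y⟫ : ℝ) ^ 2 ∂μ) ^ n) (ms E) := by
  have := hμ.prob
  have := ms_prob E
  refine Integrable.of_bound ((c1a_q_meas hμ).pow_const n).aestronglyMeasurable 1 ?_
  filter_upwards [ms_unit E hE] with w hw
  have h0 : 0 ≤ ∫ y, (⟪w, y⟫ : ℝ) ^ 2 ∂μ := integral_nonneg fun y => sq_nonneg _
  have h1 : ∫ y, (⟪w, y⟫ : ℝ) ^ 2 ∂μ ≤ 1 := by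
    have h := norm_integral_le_of_norm_le_const (μ := μ) (f := fun y : V => (⟪w, y⟫ : ℝ) ^ 2) (C := 1) (by
      filter_upwards [hμ.unit] with y hy
      rw [Real.norm_eq_abs, abs_of_nonneg (by positivity)]
      exact c1a_sq hw.1.le hy)
    rw [probReal_univ, mul_one, Real.norm_eq_abs, abs_of_nonneg h0] at h
    exact h
  rw [Real.norm_eq_abs, abs_of_nonneg (by positivity)]
  exact pow_le_one₀ h0 h1

private theorem c1a_mean (hμ : US μ) (hV : 3 ≤ Module.finrank ℝ V) {E : Submodule ℝ V}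
    (hE : 1 ≤ Module.finrank ℝ E) :
    ∫ w, ∫ y, (⟪w, y⟫ : ℝ) ^ 2 ∂μ ∂(ms E) = sW μ E / (Module.finrank ℝ E : ℝ) := by
  have := hμ.prob
  have := ms_prob E
  have hd : (3 : ℝ) ≤ (Module.finrank ℝ V : ℝ) := by exact_mod_cast hV
  have h := ff2_mean hμ hV hE
  have i1 : Integrable (fun w : V => ∫ y, (⟪w, y⟫ : ℝ) ^ 2 ∂μ) (ms E) := by
    simpa using c1a_q_int hμ hE 1
  have e : ∫ w, ff μ 2 w ∂(ms E) = ((Module.finrank ℝ V : ℝ) + 2) / 2 *
      ((Module.finrank ℝ V : ℝ) * (∫ w, ∫ y, (⟪w, y⟫ : ℝ) ^ 2 ∂μ ∂(ms E)) - 1) := by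
    rw [integral_congr_ae ((ms_unit E hE).mono fun w hw => c1a_ff2 hμ hV hw.1), integral_const_mul,
      integral_sub (i1.const_mul _) (integrable_const _), integral_const_mul, integral_const, probReal_univ, one_smul]
  rw [e] at h
  have h1 : ((Module.finrank ℝ V : ℝ) + 2) / 2 ≠ 0 := by positivity
  have h2 := mul_left_cancel₀ h1 h
  have h3 : (Module.finrank ℝ V : ℝ) ≠ 0 := by linarith
  have h4 : (Module.finrank ℝ V : ℝ) * (∫ w, ∫ y, (⟪w, y⟫ : ℝ) ^ 2 ∂μ ∂(ms E)) =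
      (Module.finrank ℝ V : ℝ) * (sW μ E / (Module.finrank ℝ E : ℝ)) := by
    rw [← mul_div_assoc]
    linarith
  exact mul_left_cancel₀ h3 h4

theorem DE_two (hμ : US μ) {E : Submodule ℝ V} (hE : 3 ≤ Module.finrank ℝ E)
    (hk : ∀ v : V, (Module.finrank ℝ E : ℝ) * ∫ x, ⟪x, v⟫ ^ 2 ∂μ ≤ ‖v‖ ^ 2) :
    DE E (gg μ μ e1 (fun _ => 0) 1) ≤ nn (Module.finrank ℝ E) 1 *
      (tT (Module.finrank ℝ V) 1 * ((Module.finrank ℝ V : ℝ) + 2) * (Module.finrank ℝ V : ℝ) / 2) ^ 2 *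
      (2 * sW μ E * (1 - sW μ E) / ((Module.finrank ℝ E : ℝ) ^ 2 * ((Module.finrank ℝ E : ℝ) + 2))) := by
  have hV : 3 ≤ Module.finrank ℝ V := hE.trans (Submodule.finrank_le E)
  have hE1 : 1 ≤ Module.finrank ℝ E := by omega
  have := hμ.prob
  have := ms_prob E
  obtain ⟨Cg, hCg⟩ := gg_bdd hμ hμ hV e1 (fun _ => 0) 1
  obtain ⟨C, hC⟩ := ps_bdd hμ hμ hV e1 (fun _ => 0) 1
  have hex : ∀ v ∈ E, ‖v‖ = 1 → ps μ μ e1 (fun _ => 0) 1 v =
      ∑ m ∈ Finset.range (1 + 1), pc E m (ps μ μ e1 (fun _ => 0) 1) v :=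
    fun v hv hv1 => ps_expand hμ hμ hE e1 (fun _ => 0) 1 hv hv1
  have hDE := DE_eq hE (gg_meas hμ hμ e1 (fun _ => 0) 1) hCg (ps_meas hμ hμ e1 (fun _ => 0) 1) hC
    (fun v _ hv1 => ps_gg hμ hμ hV e1 (fun _ => 0) 1 hv1) hex
  rw [hDE, Finset.Icc_self, Finset.sum_singleton, mul_assoc]
  refine mul_le_mul_of_nonneg_left ?_ (nn_pos hE le_rfl).le
  obtain ⟨ψ, hψ⟩ : ∃ ψ : V → ℝ, ψ = ps μ μ e1 (fun _ => 0) 1 := ⟨_, rfl⟩
  rw [← hψ] at hex hC
  rw [← hψ]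
  obtain ⟨d, hd⟩ : ∃ d : ℝ, d = (Module.finrank ℝ V : ℝ) := ⟨_, rfl⟩
  obtain ⟨p, hp⟩ : ∃ p : ℝ, p = (Module.finrank ℝ E : ℝ) := ⟨_, rfl⟩
  obtain ⟨T, hT⟩ : ∃ T : ℝ, T = tT (Module.finrank ℝ V) 1 := ⟨_, rfl⟩
  obtain ⟨q, hq⟩ : ∃ q : V → ℝ, q = fun w => ∫ y, (⟪w, y⟫ : ℝ) ^ 2 ∂μ := ⟨_, rfl⟩
  obtain ⟨s, hs⟩ : ∃ s : ℝ, s = sW μ E := ⟨_, rfl⟩
  have hp3 : (3 : ℝ) ≤ p := by rw [hp]; exact_mod_cast hE
  have hval : ∀ w : V, ‖w‖ = 1 → ψ w = T * (d + 2) / 2 * (d * q w - 1) := by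
    intro w hw
    rw [hψ, hT, hd, hq]
    unfold ps
    rw [Finset.sum_range_succ, Finset.sum_range_one]
    have e0 : e1 0 = 0 := by simp [e1]
    have e11 : e1 1 = 1 := by simp [e1]
    simp only [e0, e11, mul_one, zero_mul, mul_zero, add_zero, one_mul, zero_add]
    rw [c1a_ff2 hμ hV hw]
    ring
  have iq1 : Integrable q (ms E) := by
    have h := c1a_q_int hμ hE1 1
    simp only [pow_one] at h
    rw [hq]
    exact h
  have iq2 : Integrable (fun w => q w ^ 2) (ms E) := by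
    rw [hq]
    exact c1a_q_int hμ hE1 2
  have hψi : Integrable ψ (ms E) := by
    rw [hψ]
    refine Integrable.of_bound (ps_meas hμ hμ e1 (fun _ => 0) 1).aestronglyMeasurable C ?_
    filter_upwards with w
    rw [← hψ]
    exact hC w
  have m1 : ∫ w, q w ∂(ms E) = s / p := by
    rw [hq, hs, hp]
    exact c1a_mean hμ hV hE1
  have m2 : p * (p + 2) * ∫ w, q w ^ 2 ∂(ms E) ≤ s ^ 2 + 2 * (s / p) := by
    have h := q_sq hμ hE1 hk
    rw [← ms_integral E ((c1a_q_meas hμ).pow_const 2)] at h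
    rw [hq, hs, hp]
    exact h
  have I1 : ∫ w, ψ w ∂(ms E) = T * (d + 2) / 2 * (d * (s / p) - 1) := by
    rw [integral_congr_ae ((ms_unit E hE1).mono fun w hw => hval w hw.1), integral_const_mul,
      integral_sub (iq1.const_mul _) (integrable_const _), integral_const_mul, m1, integral_const, probReal_univ,
      one_smul]
  have hpq : pq E 1 ψ = (T * (d + 2) * d / 2) ^ 2 * (∫ w, q w ^ 2 ∂(ms E) - (s / p) ^ 2) := by
    unfold pq
    have e : ∀ᵐ w ∂(ms E), ψ w * pc E 1 ψ w = (T * (d + 2) / 2) ^ 2 * (d ^ 2 * q w ^ 2) -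
        (T * (d + 2) / 2) ^ 2 * (d * (1 + d * (s / p)) * q w) + (T * (d + 2) / 2) ^ 2 * (d * (s / p)) := by
      filter_upwards [ms_unit E hE1] with w hw
      have h := hex w hw.2 hw.1
      rw [Finset.sum_range_succ, Finset.sum_range_one, pc_zero_deg, I1] at h
      have h' : pc E 1 ψ w = ψ w - T * (d + 2) / 2 * (d * (s / p) - 1) := by linarith
      rw [h', hval w hw.1]
      ring
    have j1 : Integrable (fun w => (T * (d + 2) / 2) ^ 2 * (d ^ 2 * q w ^ 2)) (ms E) :=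
      (iq2.const_mul _).const_mul _
    have j2 : Integrable (fun w => (T * (d + 2) / 2) ^ 2 * (d * (1 + d * (s / p)) * q w)) (ms E) :=
      (iq1.const_mul _).const_mul _
    have j12 : Integrable (fun w => (T * (d + 2) / 2) ^ 2 * (d ^ 2 * q w ^ 2) -
        (T * (d + 2) / 2) ^ 2 * (d * (1 + d * (s / p)) * q w)) (ms E) := j1.sub j2
    rw [integral_congr_ae e, integral_add j12 (integrable_const _), integral_sub j1 j2, integral_const_mul,
      integral_const_mul, integral_const_mul, integral_const_mul, m1, integral_const, probReal_univ, one_smul]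
    ring
  rw [hpq, ← hT, ← hd, ← hp, ← hs]
  refine mul_le_mul_of_nonneg_left ?_ (sq_nonneg _)
  have hpp : 0 < p := by linarith
  have h3 : ∫ w, q w ^ 2 ∂(ms E) ≤ (s ^ 2 + 2 * (s / p)) / (p * (p + 2)) := by
    rw [le_div_iff₀ (by positivity)]
    linarith
  have h4 : 2 * s * (1 - s) / (p ^ 2 * (p + 2)) = (s ^ 2 + 2 * (s / p)) / (p * (p + 2)) - (s / p) ^ 2 := by
    field_simp
    ring
  rw [h4]
  linarith

end Pool.Agent.TWC
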