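import Pool.Agent.TWC.B6a
import Pool.Agent.TWC.C1a

/-!
# TWC-C1: the Poincare inequality of Alexandrov-Fenchel for quadratic forms

PROOF PLAN.  `d = finrank V`, `p = d - n`, `e = en n ρ > 0` (`en_pos_of_le`), `c = cc d n`, `c' = cc d (n+1)`, `g = gg μ μ e1 0 1 = ff μ 2`, `B = T_1 (d+2)/2`, `s X = sW μ (oc X)`.  For `wv X ≠ 0` (`finrank (oc X) = p`): `M X := (∫ ‖rv X a‖ g a dσ)/c = B (d s X/p - 1)`
(see the proof of `sn_two` in TWC-B5a: `(1/mm p) mm d T_1 ∫ ff μ 2 d(ms (oc X))`, `ff2_mean`) and `DE (oc X) g = M X ^ 2 - Q X`, `Q X = (∫∫ ‖rv X a‖ ‖ort (rv X a) (rv X b)‖ g a g b)/(c c')` (definition of `DE`, `rv_eq`).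
So `sN ρ n g = c iw (M)`, `tN ρ n g = c c' (iw (M²) - iw (DE))` and `af_sg`: `(iw (M²) - iw (DE)) e ≤ (iw M)²`.  `DE_two`: `DE (oc X) g ≤ nn p 1 (B d)² 2 s (1 - s)/(p² (p+2))`.  `iw (M²) e - (iw M)² = B² (d/p)² (iw (s²) e - (iw s)²)`
(the constant cancels; `iw_const`: `iw 1 = e`), so after division by `(B d/p)² > 0`: `iw (s²) e - (iw s)² ≤ e (2 nn p 1/(p+2)) iw (s - s²)`, and `2 nn p 1/(p+2) = kap p`.  Use `iw_add`, `iw_mul`, `iw_mono` (`meas_sW`, `0 ≤ sW ≤ 1`).
-/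

set_option autoImplicit false

namespace Pool.Agent.TWC

open MeasureTheory ProbabilityTheory Set Filter Topology Metric
open Pool.Agent.HP89 Pool.Agent.FI75 Pool.Agent.PBL Pool.Agent.HRJ
open scoped RealInnerProductSpace ENNReal

variable {V : Type*} [NormedAddCommGroup V] [InnerProductSpace ℝ V] [FiniteDimensional ℝ V]
  [MeasurableSpace V] [BorelSpace V]

variable {ρ μ : Measure V}

theorem sW_bd (hμ : US μ) (E : Submodule ℝ V) : 0 ≤ sW μ E ∧ sW μ E ≤ 1 := by
  have := hμ.prob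
  refine ⟨integral_nonneg fun x => sq_nonneg _, ?_⟩
  have h1 : sW μ E ≤ ∫ _x : V, (1 : ℝ) ∂μ := by
    unfold sW
    refine integral_mono_of_nonneg (Filter.Eventually.of_forall fun x => sq_nonneg _) (integrable_const _) ?_
    filter_upwards [hμ.unit] with x hx
    have h2 : ‖E.starProjection x‖ ≤ 1 := by
      rw [← hx]
      exact E.norm_starProjection_apply_le x
    exact pow_le_one₀ (norm_nonneg _) h2
  simpa using h1

private theorem c1_int {β : Type*} [MeasurableSpace β] {ν : Measure V} [SFinite ν] {f : β → V → ℝ}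
    (hf : Measurable (Function.uncurry f)) : Measurable (fun b => ∫ x, f b x ∂ν) :=
  (StronglyMeasurable.integral_prod_right hf.stronglyMeasurable).measurable

private theorem c1_rv_le {n : ℕ} (X : Fin n → V) (a : V) : ‖rv X a‖ ≤ ‖a‖ := by
  rw [rv_eq]
  exact (oc X).norm_starProjection_apply_le a

/-- the inner integral of `tN` -/
private noncomputable def c1T {n : ℕ} (g : V → ℝ) (X : Fin n → V) : ℝ :=
  ∫ a, ∫ b, ‖rv X a‖ * ‖ort (rv X a) (rv X b)‖ * (g a * g b)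
    ∂(ms (⊤ : Submodule ℝ V)) ∂(ms (⊤ : Submodule ℝ V))

private theorem c1_measT {n : ℕ} {g : V → ℝ} (hg : Measurable g) :
    Measurable (fun X : Fin n → V => c1T g X) := by
  have : IsProbabilityMeasure (ms (⊤ : Submodule ℝ V)) := ms_prob _
  unfold c1T
  refine c1_int ?_
  refine c1_int (β := (Fin n → V) × V)
    (f := fun p b => ‖rv p.1 p.2‖ * ‖ort (rv p.1 p.2) (rv p.1 b)‖ * (g p.2 * g b)) ?_
  have h1 : Measurable (fun q : ((Fin n → V) × V) × V => rv q.1.1 q.1.2) :=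
    meas_rv.comp measurable_fst
  have h2 : Measurable (fun q : ((Fin n → V) × V) × V => rv q.1.1 q.2) :=
    meas_rv.comp ((measurable_fst.comp measurable_fst).prodMk measurable_snd)
  exact (h1.norm.mul (measurable_ort.comp (h1.prodMk h2)).norm).mul
    ((hg.comp (measurable_snd.comp measurable_fst)).mul (hg.comp measurable_snd))

private theorem c1_bddT (hV : 1 ≤ Module.finrank ℝ V) {n : ℕ} {g : V → ℝ} {C : ℝ}
    (hC : ∀ x, |g x| ≤ C) (X : Fin n → V) : |c1T g X| ≤ C * C := by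
  have : IsProbabilityMeasure (ms (⊤ : Submodule ℝ V)) := ms_prob _
  have hu := ms_unit (⊤ : Submodule ℝ V) (by rw [finrank_top]; exact hV)
  have h := norm_integral_le_of_norm_le_const (μ := ms (⊤ : Submodule ℝ V))
    (f := fun a => ∫ b, ‖rv X a‖ * ‖ort (rv X a) (rv X b)‖ * (g a * g b) ∂(ms (⊤ : Submodule ℝ V)))
    (C := C * C) (by
      filter_upwards [hu] with a ha
      have h' := norm_integral_le_of_norm_le_const (μ := ms (⊤ : Submodule ℝ V))
        (f := fun b => ‖rv X a‖ * ‖ort (rv X a) (rv X b)‖ * (g a * g b)) (C := C * C) (by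
          filter_upwards [hu] with b hb
          rw [Real.norm_eq_abs, abs_mul, abs_mul, abs_mul, abs_of_nonneg (norm_nonneg _),
            abs_of_nonneg (norm_nonneg _)]
          have h1 := c1_rv_le X a
          rw [ha.1] at h1
          have h2 := (norm_ort_le (rv X a) (rv X b)).trans (c1_rv_le X b)
          rw [hb.1] at h2
          have h3 : ‖rv X a‖ * ‖ort (rv X a) (rv X b)‖ ≤ 1 * 1 :=
            mul_le_mul h1 h2 (norm_nonneg _) zero_le_one
          have h4 : |g a| * |g b| ≤ C * C :=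
            mul_le_mul (hC a) (hC b) (abs_nonneg _) ((abs_nonneg _).trans (hC a))
          calc ‖rv X a‖ * ‖ort (rv X a) (rv X b)‖ * (|g a| * |g b|)
              ≤ (1 * 1) * (|g a| * |g b|) :=
                mul_le_mul_of_nonneg_right h3 (mul_nonneg (abs_nonneg _) (abs_nonneg _))
            _ = |g a| * |g b| := by ring
            _ ≤ C * C := h4)
      rwa [probReal_univ, mul_one] at h')
  rwa [probReal_univ, mul_one, Real.norm_eq_abs] at h

private theorem c1_gg (μ : Measure V) : gg μ μ e1 (fun _ => 0) 1 = ff μ 2 := by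
  funext u
  unfold gg
  simp [e1]

private theorem c1_lin (hρ : US ρ) (hμ : US μ) (n : ℕ) (a2 a1 a0 : ℝ) :
    iw n ρ (fun X => a2 * sW μ (oc X) ^ 2 + a1 * sW μ (oc X) + a0) =
      a2 * iw n ρ (fun X => sW μ (oc X) ^ 2) + a1 * iw n ρ (fun X => sW μ (oc X)) + a0 * en n ρ := by
  have i1 := hμ.prob
  have hm : Measurable (fun X : Fin n → V => sW μ (oc X)) := meas_sW μ
  have hm2 : Measurable (fun X : Fin n → V => a2 * sW μ (oc X) ^ 2) := (hm.pow_const 2).const_mul a2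
  have hm1 : Measurable (fun X : Fin n → V => a1 * sW μ (oc X)) := hm.const_mul a1
  have hs : ∀ X : Fin n → V, |sW μ (oc X)| ≤ 1 := fun X => by
    rw [abs_of_nonneg (sW_bd hμ _).1]
    exact (sW_bd hμ _).2
  have b2 : ∀ X : Fin n → V, |a2 * sW μ (oc X) ^ 2| ≤ |a2| := fun X => by
    rw [abs_mul, abs_pow]
    exact mul_le_of_le_one_right (abs_nonneg _) (pow_le_one₀ (abs_nonneg _) (hs X))
  have b1 : ∀ X : Fin n → V, |a1 * sW μ (oc X)| ≤ |a1| := fun X => by
    rw [abs_mul]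
    exact mul_le_of_le_one_right (abs_nonneg _) (hs X)
  have p2 := abs_nonneg a2
  have p1 := abs_nonneg a1
  have p0 := abs_nonneg a0
  rw [iw_add hρ (Φ := fun X : Fin n → V => a2 * sW μ (oc X) ^ 2 + a1 * sW μ (oc X)) (Ψ := fun _ => a0)
      (hm2.add hm1) measurable_const (C := |a2| + |a1| + |a0|)
      (fun X => ((abs_add_le _ _).trans (add_le_add (b2 X) (b1 X))).trans (by linarith))
      (fun X => by show |a0| ≤ _; linarith),
    iw_add hρ (Φ := fun X : Fin n → V => a2 * sW μ (oc X) ^ 2) (Ψ := fun X => a1 * sW μ (oc X))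
      hm2 hm1 (C := |a2| + |a1|) (fun X => (b2 X).trans (by linarith)) (fun X => (b1 X).trans (by linarith)),
    iw_mul, iw_mul, iw_const]

/-- the normalised mean of the function of degree two -/
private theorem c1_pt (hμ : US μ) (hV : 3 ≤ Module.finrank ℝ V) {E : Submodule ℝ V}
    (hE : 1 ≤ Module.finrank ℝ E) :
    ∫ a, ‖E.starProjection a‖ * ff μ 2 a ∂(ms (⊤ : Submodule ℝ V)) =
      mG (Module.finrank ℝ E) / mG (Module.finrank ℝ V) * (tT (Module.finrank ℝ V) 1 *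
        (((Module.finrank ℝ V : ℝ) + 2) / 2) *
        ((Module.finrank ℝ V : ℝ) * sW μ E / (Module.finrank ℝ E : ℝ) - 1)) := by
  have i1 := ms_prob (⊤ : Submodule ℝ V)
  have i2 := ms_prob E
  have hmp := mm_pos hE
  have h1 : mm (Module.finrank ℝ E) * ∫ a, ‖E.starProjection a‖ * ff μ 2 a ∂(ms (⊤ : Submodule ℝ V)) =
      ∫ a, ∫ w, |⟪a, w⟫| * ff μ 2 a ∂(ms E) ∂(ms (⊤ : Submodule ℝ V)) := by
    rw [← integral_const_mul]
    congr 1
    funext a
    rw [integral_mul_const, ms_abs E hE a]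
    ring
  have h2 : ∫ a, ∫ w, |⟪a, w⟫| * ff μ 2 a ∂(ms E) ∂(ms (⊤ : Submodule ℝ V)) =
      ∫ w, ∫ a, |⟪a, w⟫| * ff μ 2 a ∂(ms (⊤ : Submodule ℝ V)) ∂(ms E) := by
    refine integral_integral_swap ?_
    refine Integrable.of_bound (C := nN (Module.finrank ℝ V) 2) ?_ ?_
    · have hm0 : Measurable (fun p : V × V => ⟪p.1, p.2⟫) :=
        measurable_fst.inner (𝕜 := ℝ) measurable_snd
      exact ((continuous_abs.measurable.comp hm0).mul
        ((ff_meas hμ 2).comp measurable_fst)).aestronglyMeasurable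
    · have w1 : ∀ᵐ w ∂(ms (⊤ : Submodule ℝ V)), ‖w‖ = 1 := by
        filter_upwards [ms_unit (⊤ : Submodule ℝ V) (by rw [finrank_top]; omega)] with w hw
        exact hw.1
      have w2 : ∀ᵐ w ∂(ms E), ‖w‖ = 1 := by
        filter_upwards [ms_unit E hE] with w hw
        exact hw.1
      have u1 : ∀ᵐ p ∂((ms (⊤ : Submodule ℝ V)).prod (ms E)), ‖p.1‖ = 1 :=
        Measure.quasiMeasurePreserving_fst.ae w1
      have u2 : ∀ᵐ p ∂((ms (⊤ : Submodule ℝ V)).prod (ms E)), ‖p.2‖ = 1 :=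
        Measure.quasiMeasurePreserving_snd.ae w2
      filter_upwards [u1, u2] with p hp1 hp2
      simp only [Function.uncurry]
      rw [Real.norm_eq_abs, abs_mul, abs_abs]
      have h3 : |⟪p.1, p.2⟫| ≤ 1 := by
        have := abs_real_inner_le_norm p.1 p.2
        rwa [hp1, hp2, mul_one] at this
      calc |⟪p.1, p.2⟫| * |ff μ 2 p.1| ≤ 1 * |ff μ 2 p.1| := mul_le_mul_of_nonneg_right h3 (abs_nonneg _)
        _ = |ff μ 2 p.1| := one_mul _
        _ ≤ _ := ff_bdd hμ hV 2 _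
  have h3 : ∫ w, ∫ a, |⟪a, w⟫| * ff μ 2 a ∂(ms (⊤ : Submodule ℝ V)) ∂(ms E) =
      ∫ w, mm (Module.finrank ℝ V) * tT (Module.finrank ℝ V) 1 * ff μ 2 w ∂(ms E) := by
    refine integral_congr_ae ?_
    filter_upwards [ms_unit E hE] with w hw
    exact ff_abs hμ hV hw.1 1
  rw [h2, h3, integral_const_mul, ff2_mean hμ hV hE] at h1
  have hG1 := mG_pos hE
  have hG2 : 0 < mG (Module.finrank ℝ V) := mG_pos (by omega)
  have h4 : mm (Module.finrank ℝ V) = mm (Module.finrank ℝ E) *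
      (mG (Module.finrank ℝ E) / mG (Module.finrank ℝ V)) := by
    unfold mm
    field_simp
  rw [h4] at h1
  refine mul_left_cancel₀ hmp.ne' ?_
  rw [h1]
  ring

private theorem c1_tT (d : ℕ) : tT d 1 = 1 / ((d : ℝ) + 1) := by
  unfold tT
  rw [Finset.prod_range_one]
  push_cast
  rw [mul_zero, zero_sub, zero_add, pow_one]
  ring

theorem poin (hρ : US ρ) (hμ : US μ) {n : ℕ} (hn : n + 3 ≤ Module.finrank ℝ V) (hpos : 0 < en (n + 2) ρ)
    (hk : ∀ v : V, ((Module.finrank ℝ V - n : ℕ) : ℝ) * ∫ x, ⟪x, v⟫ ^ 2 ∂μ ≤ ‖v‖ ^ 2) :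
    (1 + kap (Module.finrank ℝ V - n)) * iw n ρ (fun X => sW μ (oc X) ^ 2) * en n ρ ≤
      iw n ρ (fun X => sW μ (oc X)) ^ 2 + kap (Module.finrank ℝ V - n) * iw n ρ (fun X => sW μ (oc X)) * en n ρ := by
  have i0 := hρ.prob
  have i1 := hμ.prob
  have i2 := ms_prob (⊤ : Submodule ℝ V)
  have hV : 3 ≤ Module.finrank ℝ V := by omega
  have he : 0 < en n ρ := en_pos_of_le hρ (by omega) hpos
  have hc : 0 < cc (Module.finrank ℝ V) n := cc_pos (by omega)
  have hc' : 0 < cc (Module.finrank ℝ V) (n + 1) := cc_pos (by omega)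
  have hg : Measurable (ff μ 2) := ff_meas hμ 2
  have hC : ∀ x, |ff μ 2 x| ≤ nN (Module.finrank ℝ V) 2 := ff_bdd hμ hV 2
  have hsg := af_sg hρ (n := n) (by omega) hpos hg hC
  have hp3 : 3 ≤ Module.finrank ℝ V - n := by omega
  have hpR : (3 : ℝ) ≤ ((Module.finrank ℝ V - n : ℕ) : ℝ) := by exact_mod_cast hp3
  have hdR : (3 : ℝ) ≤ (Module.finrank ℝ V : ℝ) := by exact_mod_cast hV
  have hG0 : 0 < mG (Module.finrank ℝ V) := mG_pos (by omega)
  have hG1 : 0 < mG (Module.finrank ℝ V - n) := mG_pos (by omega)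
  have hG2 : 0 < mG (Module.finrank ℝ V - (n + 1)) := mG_pos (by omega)
  have ht := c1_tT (Module.finrank ℝ V)
  set d : ℝ := (Module.finrank ℝ V : ℝ) with hd
  set p : ℝ := ((Module.finrank ℝ V - n : ℕ) : ℝ) with hp
  set B : ℝ := tT (Module.finrank ℝ V) 1 * ((d + 2) / 2) with hB
  set α : ℝ := B * d / p with hα
  have hB0 : 0 < B := by
    rw [hB, ht]
    positivity
  have hα0 : 0 < α := by
    rw [hα]
    positivity
  set κ : ℝ := kap (Module.finrank ℝ V - n) with hκ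
  -- the pointwise facts
  have hM : ∀ X : Fin n → V, wv X ≠ 0 → ∫ a, ‖rv X a‖ * ff μ 2 a ∂(ms (⊤ : Submodule ℝ V)) =
      0 * sW μ (oc X) ^ 2 + cc (Module.finrank ℝ V) n * α * sW μ (oc X) + -(cc (Module.finrank ℝ V) n * B) := by
    intro X hX
    have hf1 := finrank_oc hX
    have hf2 : Module.finrank ℝ (oc X) = Module.finrank ℝ V - n := by omega
    have h1 := c1_pt hμ hV (E := oc X) (by omega)
    rw [hf2] at h1
    simp only [rv_eq]
    rw [h1]
    unfold cc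
    rw [← hd, ← hp, hα, ← hB]
    ring
  have hT : ∀ X : Fin n → V, wv X ≠ 0 →
      cc (Module.finrank ℝ V) n * cc (Module.finrank ℝ V) (n + 1) * (α ^ 2 + α ^ 2 * κ) * sW μ (oc X) ^ 2 +
        cc (Module.finrank ℝ V) n * cc (Module.finrank ℝ V) (n + 1) * (-(2 * α * B) - α ^ 2 * κ) * sW μ (oc X) +
        cc (Module.finrank ℝ V) n * cc (Module.finrank ℝ V) (n + 1) * B ^ 2 ≤
      ∫ a, ∫ b, ‖rv X a‖ * ‖ort (rv X a) (rv X b)‖ * (ff μ 2 a * ff μ 2 b)
        ∂(ms (⊤ : Submodule ℝ V)) ∂(ms (⊤ : Submodule ℝ V)) := by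
    intro X hX
    have hf1 := finrank_oc hX
    have hf2 : Module.finrank ℝ (oc X) = Module.finrank ℝ V - n := by omega
    have hk' : ∀ v : V, (Module.finrank ℝ (oc X) : ℝ) * ∫ x, ⟪x, v⟫ ^ 2 ∂μ ≤ ‖v‖ ^ 2 := by
      intro v
      rw [hf2]
      exact hk v
    have h1 := DE_two hμ (E := oc X) (by omega) hk'
    have h2 := c1_pt hμ hV (E := oc X) (by omega)
    rw [c1_gg] at h1
    unfold DE at h1
    rw [h2, hf2] at h1
    have e2 : Module.finrank ℝ V - n - 1 = Module.finrank ℝ V - (n + 1) := by omega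
    rw [e2, ← hd, ← hp, ← hB] at h1
    simp only [← rv_eq] at h1
    set T : ℝ := ∫ a, ∫ b, ‖rv X a‖ * ‖ort (rv X a) (rv X b)‖ * (ff μ 2 a * ff μ 2 b)
        ∂(ms (⊤ : Submodule ℝ V)) ∂(ms (⊤ : Submodule ℝ V)) with hTd
    set s : ℝ := sW μ (oc X) with hs
    have e3 : mG (Module.finrank ℝ V - n) / mG (Module.finrank ℝ V) * (B * (d * s / p - 1)) *
        mG (Module.finrank ℝ V) / mG (Module.finrank ℝ V - n) = α * s - B := by
      rw [hα]
      field_simp
    rw [e3] at h1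
    have e4 : nn (Module.finrank ℝ V - n) 1 * (tT (Module.finrank ℝ V) 1 * (d + 2) * d / 2) ^ 2 *
        (2 * s * (1 - s) / (p ^ 2 * (p + 2))) = α ^ 2 * κ * (s - s ^ 2) := by
      have hp1 : p - 1 ≠ 0 := by intro h0; linarith
      have hp2 : p + 2 ≠ 0 := by positivity
      have hp0 : p ≠ 0 := by intro h0; linarith
      rw [hα, hκ, hB]
      unfold nn kap
      rw [← hp]
      push_cast
      field_simp
      ring
    rw [e4] at h1
    have e5 : cc (Module.finrank ℝ V) n * cc (Module.finrank ℝ V) (n + 1) *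
        (T * (mG (Module.finrank ℝ V) ^ 2 / (mG (Module.finrank ℝ V - n) * mG (Module.finrank ℝ V - (n + 1))))) =
        T := by
      unfold cc
      field_simp
    have h3 := mul_le_mul_of_nonneg_left h1 (mul_pos hc hc').le
    rw [mul_sub, e5] at h3
    linarith [h3]
  have hsN : sN ρ n (ff μ 2) = cc (Module.finrank ℝ V) n *
      (α * iw n ρ (fun X => sW μ (oc X)) - B * en n ρ) := by
    have h1 : sN ρ n (ff μ 2) = iw n ρ (fun X => 0 * sW μ (oc X) ^ 2 +
        cc (Module.finrank ℝ V) n * α * sW μ (oc X) + -(cc (Module.finrank ℝ V) n * B)) := by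
      unfold sN
      exact iw_congr hρ fun X hX _ => hM X hX
    rw [h1, c1_lin hρ hμ]
    ring
  have hsm : Measurable (fun X : Fin n → V => sW μ (oc X)) := meas_sW μ
  have hs1 : ∀ X : Fin n → V, |sW μ (oc X)| ≤ 1 := fun X => by
    rw [abs_of_nonneg (sW_bd hμ _).1]
    exact (sW_bd hμ _).2
  have htN : iw n ρ (fun X : Fin n → V =>
        cc (Module.finrank ℝ V) n * cc (Module.finrank ℝ V) (n + 1) * (α ^ 2 + α ^ 2 * κ) * sW μ (oc X) ^ 2 +
        cc (Module.finrank ℝ V) n * cc (Module.finrank ℝ V) (n + 1) * (-(2 * α * B) - α ^ 2 * κ) * sW μ (oc X) +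
        cc (Module.finrank ℝ V) n * cc (Module.finrank ℝ V) (n + 1) * B ^ 2) ≤ tN ρ n (ff μ 2) := by
    have h0 : tN ρ n (ff μ 2) = iw n ρ (fun X => c1T (ff μ 2) X) := rfl
    rw [h0]
    set A2 : ℝ := cc (Module.finrank ℝ V) n * cc (Module.finrank ℝ V) (n + 1) * (α ^ 2 + α ^ 2 * κ)
    set A1 : ℝ := cc (Module.finrank ℝ V) n * cc (Module.finrank ℝ V) (n + 1) * (-(2 * α * B) - α ^ 2 * κ)
    set A0 : ℝ := cc (Module.finrank ℝ V) n * cc (Module.finrank ℝ V) (n + 1) * B ^ 2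
    have q0 := abs_nonneg A0
    have q1 := abs_nonneg A1
    have q2 := abs_nonneg A2
    have q3 : 0 ≤ nN (Module.finrank ℝ V) 2 * nN (Module.finrank ℝ V) 2 := mul_self_nonneg _
    refine iw_mono hρ (((((hsm.pow_const 2).const_mul A2).add (hsm.const_mul A1)).add measurable_const))
      (c1_measT hg) (C := |A2| + |A1| + |A0| + nN (Module.finrank ℝ V) 2 * nN (Module.finrank ℝ V) 2)
      (fun X => ?_) (fun X => (c1_bddT (by omega) hC X).trans (by linarith)) (fun X hX _ => hT X hX)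
    have r2 : |A2 * sW μ (oc X) ^ 2| ≤ |A2| := by
      rw [abs_mul, abs_pow]
      exact mul_le_of_le_one_right (abs_nonneg _) (pow_le_one₀ (abs_nonneg _) (hs1 X))
    have r1 : |A1 * sW μ (oc X)| ≤ |A1| := by
      rw [abs_mul]
      exact mul_le_of_le_one_right (abs_nonneg _) (hs1 X)
    have r3 : |A2 * sW μ (oc X) ^ 2 + A1 * sW μ (oc X)| ≤ |A2| + |A1| :=
      (abs_add_le _ _).trans (add_le_add r2 r1)
    have r4 : |A2 * sW μ (oc X) ^ 2 + A1 * sW μ (oc X) + A0| ≤ |A2| + |A1| + |A0| :=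
      (abs_add_le _ _).trans (add_le_add r3 le_rfl)
    linarith
  rw [c1_lin hρ hμ] at htN
  set S1 : ℝ := iw n ρ (fun X => sW μ (oc X)) with hS1
  set S2 : ℝ := iw n ρ (fun X => sW μ (oc X) ^ 2) with hS2
  set e : ℝ := en n ρ with hee
  set c : ℝ := cc (Module.finrank ℝ V) n with hcd
  set c' : ℝ := cc (Module.finrank ℝ V) (n + 1) with hcd'
  rw [hsN] at hsg
  have h1 : (c * c' * (α ^ 2 + α ^ 2 * κ) * S2 + c * c' * (-(2 * α * B) - α ^ 2 * κ) * S1 + c * c' * B ^ 2 * e) *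
      e * c ≤ tN ρ n (ff μ 2) * e * c :=
    mul_le_mul_of_nonneg_right (mul_le_mul_of_nonneg_right htN he.le) hc.le
  have h2 := h1.trans hsg
  have h3 : (c ^ 2 * c') * (((α ^ 2 + α ^ 2 * κ) * S2 + (-(2 * α * B) - α ^ 2 * κ) * S1 + B ^ 2 * e) * e) ≤
      (c ^ 2 * c') * (α * S1 - B * e) ^ 2 := by
    calc (c ^ 2 * c') * (((α ^ 2 + α ^ 2 * κ) * S2 + (-(2 * α * B) - α ^ 2 * κ) * S1 + B ^ 2 * e) * e)
        = (c * c' * (α ^ 2 + α ^ 2 * κ) * S2 + c * c' * (-(2 * α * B) - α ^ 2 * κ) * S1 + c * c' * B ^ 2 * e) *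
            e * c := by ring
      _ ≤ c' * (c * (α * S1 - B * e)) ^ 2 := h2
      _ = _ := by ring
  have h4 := le_of_mul_le_mul_left h3 (by positivity)
  have h5 : α ^ 2 * ((1 + κ) * S2 * e) ≤ α ^ 2 * (S1 ^ 2 + κ * S1 * e) := by nlinarith [h4]
  exact le_of_mul_le_mul_left h5 (by positivity)

end Pool.Agent.TWC
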