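import Pool.Agent.PBL.C1
import Pool.Agent.PBL.D0b
import Pool.Agent.TWC.Defs

/-!
# TWC-C2: the fourth moment on a sphere

PROOF PLAN.  `‖W x‖⁴ = ∑_i ‖W x‖² ⟪x, w_i⟫²` for an orthonormal basis `w_i` of `W` (`‖W.starProjection x‖² = ∑_i ⟪x, w_i⟫²`); `av_proj_mul` (PBL-C1) for `w = w_i`: `k (k+2) av E (‖W x‖² ⟪x, w_i⟫²) ≤ (tt E W + 2) ‖E w_i‖²`; sum over `i`:
`∑_i ‖E w_i‖² = tt W E = tt E W` (`tt_sum`, `tt_comm`).  `av` of a finite sum: `av_add` by induction (or unfold `av`, `integral_finsetSum`).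
-/

set_option autoImplicit false

namespace Pool.Agent.TWC

open MeasureTheory ProbabilityTheory Set Filter Topology Metric
open Pool.Agent.HP89 Pool.Agent.FI75 Pool.Agent.PBL Pool.Agent.HRJ
open scoped RealInnerProductSpace ENNReal

variable {V : Type*} [NormedAddCommGroup V] [InnerProductSpace ℝ V] [FiniteDimensional ℝ V]
  [MeasurableSpace V] [BorelSpace V]

omit [FiniteDimensional ℝ V] [MeasurableSpace V] [BorelSpace V] in
private theorem norm_nrm_le (x : V) : ‖nrm x‖ ≤ 1 := by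
  unfold nrm
  rw [norm_smul, norm_inv, norm_norm]
  exact inv_mul_le_one

omit [MeasurableSpace V] [BorelSpace V] in
private theorem proj_sq_sum (W : Submodule ℝ V) (x : V) :
    ‖W.starProjection x‖ ^ 2 = ∑ i, ⟪x, (stdOrthonormalBasis ℝ W i : V)⟫ ^ 2 := by
  have h2 : ‖W.starProjection x‖ = ‖W.orthogonalProjectionOnto x‖ := by
    rw [Submodule.starProjection_apply]
    rfl
  rw [h2, ← (stdOrthonormalBasis ℝ W).sum_sq_norm_inner_left]
  refine Finset.sum_congr rfl fun i _ => ?_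
  rw [Real.norm_eq_abs, sq_abs]
  congr 1
  rw [Submodule.coe_inner, ← Submodule.starProjection_apply,
    Submodule.inner_starProjection_left_eq_right,
    Submodule.starProjection_eq_self_iff.2 (stdOrthonormalBasis ℝ W i).2]

private theorem int_piece (E W : Submodule ℝ V) (w : V) :
    Integrable (fun g => ‖W.starProjection (nrm (E.starProjection g))‖ ^ 2 *
      ⟪nrm (E.starProjection g), w⟫ ^ 2) (stdGaussian V) := by
  refine Integrable.of_bound (C := ‖w‖ ^ 2) ?_ (Eventually.of_forall fun g => ?_)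
  · have h1 : Measurable (fun x : V => ‖W.starProjection x‖ ^ 2 * ⟪x, w⟫ ^ 2) := by fun_prop
    exact (h1.comp (measurable_nrm.comp E.starProjection.continuous.measurable)).aestronglyMeasurable
  · set x := nrm (E.starProjection g) with hx
    have hx1 : ‖x‖ ≤ 1 := norm_nrm_le _
    rw [Real.norm_eq_abs, abs_of_nonneg (by positivity)]
    have h2 : ‖W.starProjection x‖ ^ 2 ≤ 1 :=
      pow_le_one₀ (norm_nonneg _) ((Submodule.norm_starProjection_apply_le _ _).trans hx1)
    have h3 : |⟪x, w⟫| ≤ 1 * ‖w‖ := (abs_real_inner_le_norm x w).trans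
      (mul_le_mul_of_nonneg_right hx1 (norm_nonneg _))
    rw [one_mul] at h3
    have h4 : ⟪x, w⟫ ^ 2 ≤ ‖w‖ ^ 2 := by
      rw [← sq_abs]
      exact pow_le_pow_left₀ (abs_nonneg _) h3 2
    calc ‖W.starProjection x‖ ^ 2 * ⟪x, w⟫ ^ 2 ≤ 1 * ‖w‖ ^ 2 :=
          mul_le_mul h2 h4 (by positivity) (by norm_num)
      _ = ‖w‖ ^ 2 := one_mul _

theorem av_fourth (E W : Submodule ℝ V) (hE : 1 ≤ Module.finrank ℝ E) :
    (Module.finrank ℝ E : ℝ) * ((Module.finrank ℝ E : ℝ) + 2) * av E (fun x => ‖W.starProjection x‖ ^ 4) ≤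
      tt E W ^ 2 + 2 * tt E W := by
  have h1 : av E (fun x => ‖W.starProjection x‖ ^ 4) =
      ∑ i, av E (fun x => ‖W.starProjection x‖ ^ 2 * ⟪x, (stdOrthonormalBasis ℝ W i : V)⟫ ^ 2) := by
    unfold av
    rw [← integral_finsetSum _ fun i _ => int_piece E W _]
    refine integral_congr_ae (Eventually.of_forall fun g => ?_)
    simp only
    rw [← Finset.mul_sum, ← proj_sq_sum]
    ring
  rw [h1, Finset.mul_sum]
  refine (Finset.sum_le_sum fun i _ => av_proj_mul E W hE _).trans (le_of_eq ?_)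
  rw [← Finset.mul_sum, ← tt_sum W E (stdOrthonormalBasis ℝ W), tt_comm W E]
  ring

end Pool.Agent.TWC
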