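import Pool.Agent.PBL.E6
import Pool.Agent.PBL.D1
import Pool.Agent.TWC.B3
import Pool.Agent.TWC.C1
import Pool.Agent.TWC.C2

/-!
# TWC-C3a: second and fourth moments of `‖P_E z‖`, `z ~ Nop j ρ'`

PROOF PLAN.  `k = d - j`, `κ = kap k`.  `T_eq`: `T_det` for `fix'`.  `hk_cyc`: `∫ ⟪x,v⟫² dρ = ∫ ⟪x,v⟫² d(Nop j ρ')` and `nop_inner`: `k e' ∫ ⟪x,v⟫² d(Nop j ρ') = iw j ρ' ⟪rv X v, v⟫ ≤ e' ‖v‖²` (`⟪P v, v⟫ ≤ ‖v‖²`).  `sW_eq`: `‖P_E x‖² = ∑_i ⟪x, b_i⟫²` (orthonormal basis of `E`), so `sW` only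
depends on the second moments.  `gW_eq`: from the proof of `gW_low` (TWC-B3): `gW τ E = (mG p/√(2/π)) av E (hf τ)`.  `F4_le`: `e' ∫ ‖P_E z‖⁴ d(Nop j ρ') = iw j ρ' (av (oc Y) (‖P_E .‖⁴))` (`nop_int`) `≤ iw j ρ' ((t² + 2 t)/(k (k+2)))`, `t = tt (oc Y) E` (`av_fourth`), and with `τ = t/k = sW (ms E) (oc Y)`
(`av_proj`, `tt_comm`; `sW (ms E) W = av E (‖W .‖²)`, `ms_integral`): `(k/(k+2)) iw (τ²) + (2/(k+2)) iw τ`.  `iw j ρ' τ = e' sW (Nop j ρ') E = e' s`, `s = sW ρ E` (`nop_sW`, `sW_eq`).  `poin` for `ρ'`, `μ = ms E` (a probability measure on unit vectors; `k ∫ ⟪x,v⟫² d(ms E) = ‖P_E v‖² ≤ ‖v‖²`):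
`(1+κ) iw (τ²) e' ≤ (e' s)² + κ e' s e'`, so `(1+κ) iw (τ²) ≤ e' (s² + κ s)`.
-/

set_option autoImplicit false

namespace Pool.Agent.TWC

open MeasureTheory ProbabilityTheory Set Filter Topology Metric
open Pool.Agent.HP89 Pool.Agent.FI75 Pool.Agent.PBL Pool.Agent.HRJ
open scoped RealInnerProductSpace ENNReal

variable {V : Type*} [NormedAddCommGroup V] [InnerProductSpace ℝ V] [FiniteDimensional ℝ V]
  [MeasurableSpace V] [BorelSpace V]

variable {ρ ρ' : Measure V} {j : ℕ}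

omit [FiniteDimensional ℝ V] [MeasurableSpace V] [BorelSpace V] in
private theorem c3_nrm {x : V} (hx : x ≠ 0) : ‖nrm x‖ = 1 := by
  unfold nrm
  rw [norm_smul, norm_inv, norm_norm, inv_mul_cancel₀ (norm_ne_zero_iff.2 hx)]

omit [MeasurableSpace V] [BorelSpace V] in
private theorem c3_proj_sq (W : Submodule ℝ V) (x : V) :
    ‖W.starProjection x‖ ^ 2 = ∑ i, ⟪x, (stdOrthonormalBasis ℝ W i : V)⟫ ^ 2 := by
  have h2 : ‖W.starProjection x‖ = ‖W.orthogonalProjectionOnto x‖ := by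
    rw [Submodule.starProjection_apply]
    rfl
  rw [h2, ← (stdOrthonormalBasis ℝ W).sum_sq_norm_inner_left]
  refine Finset.sum_congr rfl fun i _ => ?_
  rw [Real.norm_eq_abs, sq_abs]
  congr 1
  rw [Submodule.coe_inner, ← Submodule.starProjection_apply,
    Submodule.inner_starProjection_left_eq_right,
    Submodule.starProjection_eq_self_iff.2 (stdOrthonormalBasis ℝ W i).2]

/-- the mean of the support function over the unit sphere of `E` -/
private theorem c3_gW_hf {τ : Measure V} (hτ : US τ) {E : Submodule ℝ V} (hE : 1 ≤ Module.finrank ℝ E) :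
    √(2 / Real.pi) * gW τ E = mG (Module.finrank ℝ E) * av E (hf τ) := by
  have := hτ.prob
  have h1 : √(2 / Real.pi) * gW τ E =
      ∫ u, mG (Module.finrank ℝ E) * av E (fun x => |⟪x, u⟫|) ∂τ := by
    unfold gW
    rw [← integral_const_mul]
    congr 1
    funext u
    rw [av_abs E hE u]
  rw [h1, integral_const_mul]
  congr 1
  unfold av hf
  rw [integral_integral_swap]
  · refine integral_congr_ae (Filter.Eventually.of_forall fun g => ?_)
    refine integral_congr_ae (Filter.Eventually.of_forall fun x => ?_)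
    simp only
    rw [real_inner_comm]
  · refine Integrable.of_bound (C := 1) ?_ ?_
    · have hn : Measurable (fun p : V × V => nrm (E.starProjection p.2)) :=
        (measurable_nrm.comp E.starProjection.continuous.measurable).comp measurable_snd
      have hm0 : Measurable (fun p : V × V => ⟪nrm (E.starProjection p.2), p.1⟫) :=
        hn.inner (𝕜 := ℝ) measurable_fst
      exact (continuous_abs.measurable.comp hm0).aestronglyMeasurable
    · have hu : ∀ᵐ p ∂(τ.prod (stdGaussian V)), ‖p.1‖ = 1 :=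
        Measure.quasiMeasurePreserving_fst.ae hτ.unit
      filter_upwards [hu] with p hp
      simp only [Function.uncurry]
      rw [Real.norm_eq_abs, abs_abs]
      calc |⟪nrm (E.starProjection p.2), p.1⟫| ≤ ‖nrm (E.starProjection p.2)‖ * ‖p.1‖ :=
            abs_real_inner_le_norm _ _
        _ ≤ 1 * 1 := by
            rw [hp]
            exact mul_le_mul_of_nonneg_right (norm_nrm_le _) zero_le_one
        _ = 1 := one_mul 1

private theorem c3_int_sq {τ : Measure V} (hτ : US τ) (v : V) : Integrable (fun x => ⟪x, v⟫ ^ 2) τ := by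
  have := hτ.prob
  refine Integrable.of_bound (C := ‖v‖ ^ 2) (by fun_prop) ?_
  filter_upwards [hτ.unit] with x hx
  rw [Real.norm_eq_abs, abs_of_nonneg (sq_nonneg _), ← sq_abs]
  have h1 := abs_real_inner_le_norm x v
  rw [hx, one_mul] at h1
  exact pow_le_pow_left₀ (abs_nonneg _) h1 2

private theorem c3_sW {τ : Measure V} (hτ : US τ) (E : Submodule ℝ V) :
    sW τ E = ∑ i, ∫ x, ⟪x, (stdOrthonormalBasis ℝ E i : V)⟫ ^ 2 ∂τ := by
  unfold sW
  simp_rw [c3_proj_sq]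
  exact integral_finsetSum _ fun i _ => c3_int_sq hτ _

private theorem c3_nop (h : Tx j ρ ρ') : US (Nop j ρ') := by
  have hj := h.hj
  have hjd := h.hjd
  exact nop_us h.us' h.pos' (by omega)

private theorem c3_Teq (h : Tx j ρ ρ') (v : V) : ∫ x, ⟪x, v⟫ ^ 2 ∂(Nop j ρ') = ∫ x, ⟪x, v⟫ ^ 2 ∂ρ :=
  T_det (c3_nop h) h.us h.fix' v

private theorem c3_rv_le {n : ℕ} (X : Fin n → V) (v : V) : ⟪rv X v, v⟫ ≤ ‖v‖ ^ 2 := by
  rw [rv_eq]
  refine (real_inner_le_norm _ _).trans ?_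
  rw [sq]
  exact mul_le_mul_of_nonneg_right ((oc X).norm_starProjection_apply_le v) (norm_nonneg _)

theorem hk_cyc (h : Tx j ρ ρ') (v : V) :
    ((Module.finrank ℝ V - j : ℕ) : ℝ) * ∫ x, ⟪x, v⟫ ^ 2 ∂ρ ≤ ‖v‖ ^ 2 := by
  have hj := h.hj
  have hjd := h.hjd
  have hpos := h.pos'
  have h1 := nop_inner h.us' hpos (by omega) v v
  have h2 : ∫ x, ⟪x, v⟫ * ⟪x, v⟫ ∂(Nop j ρ') = ∫ x, ⟪x, v⟫ ^ 2 ∂ρ := by
    rw [← c3_Teq h v]
    congr 1
    funext x
    ring
  rw [h2] at h1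
  have hm : Measurable (fun X : Fin j → V => ⟪rv X v, v⟫) :=
    (meas_rv.comp (measurable_id.prodMk measurable_const)).inner (𝕜 := ℝ) measurable_const
  have hb : ∀ X : Fin j → V, |⟪rv X v, v⟫| ≤ ‖v‖ ^ 2 := by
    intro X
    refine (abs_real_inner_le_norm _ _).trans ?_
    rw [sq, rv_eq]
    exact mul_le_mul_of_nonneg_right ((oc X).norm_starProjection_apply_le v) (norm_nonneg _)
  have h3 : iw j ρ' (fun X => ⟪rv X v, v⟫) ≤ iw j ρ' (fun _ => ‖v‖ ^ 2) := by
    refine iw_mono h.us' hm measurable_const (C := ‖v‖ ^ 2) hb (fun X => ?_) fun X _ _ => c3_rv_le X v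
    rw [abs_of_nonneg (sq_nonneg _)]
  rw [iw_const, ← h1] at h3
  have h4 : ((Module.finrank ℝ V - j : ℕ) : ℝ) = (Module.finrank ℝ V : ℝ) - j := by
    rw [Nat.cast_sub (by omega)]
  rw [h4]
  refine le_of_mul_le_mul_left ?_ hpos
  calc en j ρ' * (((Module.finrank ℝ V : ℝ) - j) * ∫ x, ⟪x, v⟫ ^ 2 ∂ρ)
      = ((Module.finrank ℝ V : ℝ) - j) * en j ρ' * ∫ x, ⟪x, v⟫ ^ 2 ∂ρ := by ring
    _ ≤ ‖v‖ ^ 2 * en j ρ' := h3
    _ = en j ρ' * ‖v‖ ^ 2 := mul_comm _ _

theorem sW_eq (h : Tx j ρ ρ') (E : Submodule ℝ V) : sW (Nop j ρ') E = sW ρ E := by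
  rw [c3_sW (c3_nop h), c3_sW h.us]
  exact Finset.sum_congr rfl fun i _ => c3_Teq h _

theorem gW_eq (h : Tx j ρ ρ') (E : Submodule ℝ V) (hE : 1 ≤ Module.finrank ℝ E) : gW (Nop j ρ') E = gW ρ E := by
  have hs : 0 < √(2 / Real.pi) := Real.sqrt_pos.2 (div_pos two_pos Real.pi_pos)
  have e1 := c3_gW_hf h.us hE
  have e2 := c3_gW_hf (c3_nop h) hE
  have e3 : av E (hf ρ) = av E (hf (Nop j ρ')) := by
    unfold av
    refine integral_congr_ae ?_
    filter_upwards [ae_proj_ne E hE] with g hg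
    exact (h.fix' _ (c3_nrm hg)).symm
  rw [e3, ← e2] at e1
  exact (mul_left_cancel₀ hs.ne' e1).symm

private theorem c3_ms (E : Submodule ℝ V) (hE : 1 ≤ Module.finrank ℝ E) : US (ms E) := by
  refine ⟨ms_prob E, ?_⟩
  filter_upwards [ms_unit E hE] with w hw
  exact hw.1

private theorem c3_tau (E W : Submodule ℝ V) (hE : 1 ≤ Module.finrank ℝ E) :
    tt W E = (Module.finrank ℝ E : ℝ) * sW (ms E) W := by
  rw [tt_comm, ← av_proj E W hE]
  congr 1
  exact (ms_integral E (by fun_prop)).symm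

private theorem c3_ms_hk (E : Submodule ℝ V) (hE : 1 ≤ Module.finrank ℝ E) (v : V) :
    (Module.finrank ℝ E : ℝ) * ∫ x, ⟪x, v⟫ ^ 2 ∂(ms E) ≤ ‖v‖ ^ 2 := by
  have h1 : ∫ x, ⟪x, v⟫ ^ 2 ∂(ms E) = av E (fun x => ⟪x, v⟫ * ⟪x, v⟫) := by
    rw [ms_integral E (by fun_prop)]
    congr 1
    funext x
    ring
  rw [h1, av_inner_mul E hE v v]
  refine (real_inner_le_norm _ _).trans ?_
  rw [sq]
  exact mul_le_mul_of_nonneg_right (E.norm_starProjection_apply_le v) (norm_nonneg _)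

private theorem c3_kap {k : ℕ} (hk : 2 ≤ k) : 0 ≤ kap k := by
  unfold kap
  have h1 : (2 : ℝ) ≤ k := by exact_mod_cast hk
  refine div_nonneg (by linarith) (mul_nonneg (by linarith) (by linarith))

theorem F4_le (h : Tx j ρ ρ') {E : Submodule ℝ V} (hE : Module.finrank ℝ E + j = Module.finrank ℝ V) :
    ∫ z, ‖E.starProjection z‖ ^ 4 ∂(Nop j ρ') ≤
      ((Module.finrank ℝ E : ℝ) / ((Module.finrank ℝ E : ℝ) + 2)) *
        ((sW ρ E ^ 2 + kap (Module.finrank ℝ E) * sW ρ E) / (1 + kap (Module.finrank ℝ E))) +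
      2 * sW ρ E / ((Module.finrank ℝ E : ℝ) + 2) := by
  have hj := h.hj
  have hjd := h.hjd
  have hpos := h.pos'
  have hE1 : 1 ≤ Module.finrank ℝ E := by omega
  have hκ := c3_kap (k := Module.finrank ℝ E) (by omega)
  have hms := c3_ms E hE1
  have i1 := hms.prob
  have hm4 : Measurable (fun x : V => ‖E.starProjection x‖ ^ 4) := by fun_prop
  have hb4 : ∀ x : V, ‖x‖ ≤ 1 → |‖E.starProjection x‖ ^ 4| ≤ 1 := by
    intro x hx
    rw [abs_of_nonneg (by positivity)]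
    exact pow_le_one₀ (norm_nonneg _) ((E.norm_starProjection_apply_le x).trans hx)
  have h1 := nop_int h.us' hpos hm4 hb4
  have hsub : (Module.finrank ℝ V : ℝ) - j = (Module.finrank ℝ E : ℝ) := by
    rw [← hE]
    push_cast
    ring
  have hnat : Module.finrank ℝ V - j = Module.finrank ℝ E := by omega
  have hfin : ∀ X : Fin j → V, wv X ≠ 0 → Module.finrank ℝ (oc X) = Module.finrank ℝ E := by
    intro X hX
    have := finrank_oc hX
    omega
  have h2 := nop_sW h.us' hpos (by omega) E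
  rw [hsub, sW_eq h E] at h2
  have hpo := poin (ρ := ρ') (μ := ms E) h.us' hms (n := j) (by omega) (en_pos2 h.symm) (by
    intro v
    rw [hnat]
    exact c3_ms_hk E hE1 v)
  rw [hnat] at hpo
  set k : ℝ := (Module.finrank ℝ E : ℝ) with hk
  set κ : ℝ := kap (Module.finrank ℝ E) with hκd
  set e : ℝ := en j ρ' with he
  set s : ℝ := sW ρ E with hs
  have hk1 : (1 : ℝ) ≤ k := by
    rw [hk]
    exact_mod_cast hE1
  have hk0 : 0 < k := by linarith
  have hsm : Measurable (fun X : Fin j → V => sW (ms E) (oc X)) := meas_sW (ms E)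
  have hs1 : ∀ X : Fin j → V, |sW (ms E) (oc X)| ≤ 1 := fun X => by
    rw [abs_of_nonneg (sW_bd hms _).1]
    exact (sW_bd hms _).2
  have hs2 : ∀ X : Fin j → V, |sW (ms E) (oc X) ^ 2| ≤ 1 := fun X => by
    rw [abs_pow]
    exact pow_le_one₀ (abs_nonneg _) (hs1 X)
  set S1 : ℝ := iw j ρ' (fun X => sW (ms E) (oc X)) with hS1
  set S2 : ℝ := iw j ρ' (fun X => sW (ms E) (oc X) ^ 2) with hS2
  -- the first moment
  have h3 : S1 = e * s := by
    have h4 : iw j ρ' (fun X => tt (oc X) E) = k * S1 := by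
      rw [hS1, ← iw_mul]
      congr 1
      funext X
      exact c3_tau E (oc X) hE1
    rw [h4] at h2
    refine mul_left_cancel₀ hk0.ne' ?_
    rw [← h2]
    ring
  -- the fourth moment
  have hma : Measurable (fun X : Fin j → V => av (oc X) (fun x => ‖E.starProjection x‖ ^ 4)) :=
    meas_av (β := Fin j → V) (f := fun X => X) measurable_id
      (Φ := fun _ x => ‖E.starProjection x‖ ^ 4) (hm4.comp measurable_snd)
  have hba : ∀ X : Fin j → V, |av (oc X) (fun x => ‖E.starProjection x‖ ^ 4)| ≤ 1 := by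
    intro X
    have hle : |av (oc X) (fun x => ‖E.starProjection x‖ ^ 4)| ≤ ∫ _g : V, (1 : ℝ) ∂(stdGaussian V) := by
      unfold av
      refine (abs_integral_le_integral_abs).trans ?_
      refine integral_mono_of_nonneg (Filter.Eventually.of_forall fun g => abs_nonneg _)
        (integrable_const _) (Filter.Eventually.of_forall fun g => ?_)
      exact hb4 _ (norm_nrm_le _)
    simpa using hle
  have hc0 : 0 ≤ k / (k + 2) := by positivity
  have hc1 : 0 ≤ 2 / (k + 2) := by positivity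
  have h5 : iw j ρ' (fun X => av (oc X) (fun x => ‖E.starProjection x‖ ^ 4)) ≤
      iw j ρ' (fun X => k / (k + 2) * sW (ms E) (oc X) ^ 2 + 2 / (k + 2) * sW (ms E) (oc X)) := by
    refine iw_mono h.us' hma (((hsm.pow_const 2).const_mul _).add (hsm.const_mul _))
      (C := 1 + (k / (k + 2) + 2 / (k + 2))) (fun X => (hba X).trans (by linarith)) (fun X => ?_) ?_
    · refine (abs_add_le _ _).trans ?_
      rw [abs_mul, abs_mul, abs_of_nonneg hc0, abs_of_nonneg hc1]
      have a1 := mul_le_mul_of_nonneg_left (hs2 X) hc0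
      have a2 := mul_le_mul_of_nonneg_left (hs1 X) hc1
      linarith
    · intro X hX _
      have hf := hfin X hX
      have h6 := av_fourth (oc X) E (by omega)
      rw [c3_tau E (oc X) hE1, hf, ← hk] at h6
      have h7 : 0 < k * (k + 2) := by positivity
      refine le_of_mul_le_mul_left (h6.trans (le_of_eq ?_)) h7
      field_simp
  have h8 : iw j ρ' (fun X => k / (k + 2) * sW (ms E) (oc X) ^ 2 + 2 / (k + 2) * sW (ms E) (oc X)) =
      k / (k + 2) * S2 + 2 / (k + 2) * S1 := by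
    rw [iw_add h.us' (Φ := fun X : Fin j → V => k / (k + 2) * sW (ms E) (oc X) ^ 2)
      (Ψ := fun X : Fin j → V => 2 / (k + 2) * sW (ms E) (oc X)) ((hsm.pow_const 2).const_mul _)
      (hsm.const_mul _) (C := k / (k + 2) + 2 / (k + 2)) (fun X => ?_) (fun X => ?_), iw_mul, iw_mul]
    · rw [abs_mul, abs_of_nonneg hc0]
      have a1 := mul_le_mul_of_nonneg_left (hs2 X) hc0
      linarith
    · rw [abs_mul, abs_of_nonneg hc1]
      have a2 := mul_le_mul_of_nonneg_left (hs1 X) hc1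
      linarith
  rw [← h1, h8] at h5
  rw [h3] at hpo h5
  have hepos : 0 < e := hpos
  have h9 : (1 + κ) * S2 ≤ e * (s ^ 2 + κ * s) := by
    refine le_of_mul_le_mul_right ?_ hepos
    calc (1 + κ) * S2 * e ≤ (e * s) ^ 2 + κ * (e * s) * e := hpo
      _ = e * (s ^ 2 + κ * s) * e := by ring
  have hκ1 : 0 < 1 + κ := by linarith
  have h10 : S2 ≤ e * ((s ^ 2 + κ * s) / (1 + κ)) := by
    rw [← mul_div_assoc, le_div_iff₀ hκ1]
    linarith
  have h11 := mul_le_mul_of_nonneg_left h10 hc0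
  refine le_of_mul_le_mul_left ?_ hepos
  calc e * ∫ z, ‖E.starProjection z‖ ^ 4 ∂(Nop j ρ') ≤ k / (k + 2) * S2 + 2 / (k + 2) * (e * s) := h5
    _ ≤ k / (k + 2) * (e * ((s ^ 2 + κ * s) / (1 + κ))) + 2 / (k + 2) * (e * s) := by linarith
    _ = e * (k / (k + 2) * ((s ^ 2 + κ * s) / (1 + κ)) + 2 * s / (k + 2)) := by ring

end Pool.Agent.TWC
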