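import Pool.Agent.TWC.Defs

/-!
# TWC-N6a: the term of degree four, `d ≥ 160`

`n = 2p - d`, `f = vt d p * rt2 d p`, `f² = (2d-1)(d+1)/((2p-1)(n+1)(p-1)²)`, `v4a d p = w f` with
`w = 3(d+4)/((p+1)(n+4)) ≤ 6/(n+4)`. `v4a_le` is the inequality `D2² ≤ f² ((n-2)/(n+4))²`, reduced to
`2 (n+1)(n+4)² ≤ (d+n-2.2)(n-2)²`. `v4a_small`: `w ≤ 13.5/d`, `f ≤ 3.25/d`.
-/

set_option autoImplicit false

namespace Pool.Agent.TWC

open MeasureTheory ProbabilityTheory Set Filter Topology Metric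
open Pool.Agent.HP89 Pool.Agent.FI75 Pool.Agent.PBL Pool.Agent.HRJ
open scoped RealInnerProductSpace ENNReal

private theorem N6a_f {d p : ℕ} (hp : 2 ≤ p) (hd : 1 ≤ d) (h2 : d ≤ 2 * p) :
    0 ≤ vt d p * rt2 d p ∧ (vt d p * rt2 d p) ^ 2 =
      ((2 * (d : ℝ) - 1) * ((d : ℝ) + 1)) /
        ((2 * (p : ℝ) - 1) * (2 * (p : ℝ) - d + 1) * ((p : ℝ) - 1) ^ 2) := by
  have hpR : (2 : ℝ) ≤ p := by exact_mod_cast hp
  have hdR : (1 : ℝ) ≤ d := by exact_mod_cast hd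
  have h2R : (d : ℝ) ≤ 2 * p := by exact_mod_cast h2
  have a1 : 0 < 2 * (p : ℝ) - 1 := by linarith
  have a2 : 0 < 2 * (p : ℝ) - d + 1 := by linarith
  have a3 : 0 < (p : ℝ) - 1 := by linarith
  have b1 : 0 ≤ (2 * (d : ℝ) - 1) / (2 * (p : ℝ) - 1) := div_nonneg (by linarith) a1.le
  have b2 : 0 ≤ ((d : ℝ) + 1) / (2 * (p : ℝ) - d + 1) := div_nonneg (by linarith) a2.le
  unfold vt rt2
  refine ⟨by positivity, ?_⟩
  rw [mul_pow, div_pow, Real.sq_sqrt b1, Real.sq_sqrt b2]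
  field_simp

private theorem N6a_w {d p : ℕ} :
    v4a d p = 3 * ((d : ℝ) + 4) / (((p : ℝ) + 1) * (2 * (p : ℝ) - d + 4)) * (vt d p * rt2 d p) := by
  unfold v4a
  rw [div_mul_div_comm, div_mul_eq_mul_div]
  ring

/-- the polynomial inequality -/
private theorem N6a_poly {D n : ℝ} (hD : 160 ≤ D) (hn : 4 ≤ n) (hn3 : 3 * n ≤ D) :
    2 * (n + 1) * (n + 4) ^ 2 ≤ (D + n - 2.2) * (n - 2) ^ 2 := by
  have s : 0 ≤ (n - 2) ^ 2 := sq_nonneg _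
  by_cases h : n ≤ 100
  · have h1 : (160 + n - 2.2) * (n - 2) ^ 2 ≤ (D + n - 2.2) * (n - 2) ^ 2 :=
      mul_le_mul_of_nonneg_right (by linarith) s
    have h2 : 0 ≤ n * ((n - 4) * (100 - n)) :=
      mul_nonneg (by linarith) (mul_nonneg (by linarith) (by linarith))
    nlinarith [sq_nonneg (n - 4.327)]
  · have h1 : (3 * n + n - 2.2) * (n - 2) ^ 2 ≤ (D + n - 2.2) * (n - 2) ^ 2 :=
      mul_le_mul_of_nonneg_right (by linarith) s
    have h100 : 100 ≤ n := by linarith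
    have h2 : 0 ≤ n * n * (n - 100) := mul_nonneg (by nlinarith) (by linarith)
    nlinarith [mul_nonneg (sub_nonneg.2 h100) (sub_nonneg.2 h100)]

private theorem N6a_red {D P n : ℝ} (hD : 160 ≤ D) (hn : 4 ≤ n) (hn3 : 3 * n ≤ D) (hP : 2 * P = D + n) :
    D * ((n + 1) * (n + 4) ^ 2) ≤ (D - 1.6) * (P * (n - 2) ^ 2) := by
  have h1 := N6a_poly hD hn hn3
  have h2 : D * (D + n - 2.2) ≤ (D - 1.6) * (D + n) := by nlinarith
  have h3 : D * (2 * (n + 1) * (n + 4) ^ 2) ≤ D * ((D + n - 2.2) * (n - 2) ^ 2) :=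
    mul_le_mul_of_nonneg_left h1 (by linarith)
  have h4 : D * (D + n - 2.2) * (n - 2) ^ 2 ≤ (D - 1.6) * (D + n) * (n - 2) ^ 2 :=
    mul_le_mul_of_nonneg_right h2 (sq_nonneg _)
  have h5 : (D - 1.6) * (D + n) * (n - 2) ^ 2 = 2 * ((D - 1.6) * (P * (n - 2) ^ 2)) := by
    rw [← hP]
    ring
  rw [h5] at h4
  linarith

private theorem N6a_main {D P n : ℝ} (hD : 160 ≤ D) (hn : 4 ≤ n) (hn3 : 3 * n ≤ D) (hP : 2 * P = D + n) :
    ((P + 1) * (D * (D + 2))) ^ 2 * ((2 * P - 1) * (n + 1)) * (n + 4) ^ 2 ≤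
      (2 * D - 1) * (D + 1) * (D + 1) ^ 2 * (P * (P + 2)) ^ 2 * (n - 2) ^ 2 := by
  have h1 := N6a_red hD hn hn3 hP
  have hP0 : 0 < P := by linarith
  have h2 : (2 * P - 1) * (P + 1) ^ 2 ≤ 2 * P * (P + 2) ^ 2 := by nlinarith [mul_pos hP0 hP0]
  have h3 : 2 * D * (D - 1.6) * (D + 2) ^ 2 ≤ (2 * D - 1) * (D + 1) * (D + 1) ^ 2 := by
    have hD0 : 0 < D := by linarith
    nlinarith [mul_pos hD0 hD0, mul_pos hD0 (mul_pos hD0 hD0)]
  have k1 : 0 ≤ D ^ 2 * (D + 2) ^ 2 * ((n + 1) * (n + 4) ^ 2) := by positivity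
  have k2 : 0 ≤ 2 * D * (D + 2) ^ 2 * (P * (P + 2) ^ 2) := by positivity
  have k3 : 0 ≤ (P * (P + 2)) ^ 2 * (n - 2) ^ 2 := by positivity
  have e1 := mul_le_mul_of_nonneg_left h2 k1
  have e2 := mul_le_mul_of_nonneg_left h1 k2
  have e3 := mul_le_mul_of_nonneg_right h3 k3
  calc ((P + 1) * (D * (D + 2))) ^ 2 * ((2 * P - 1) * (n + 1)) * (n + 4) ^ 2
      = D ^ 2 * (D + 2) ^ 2 * ((n + 1) * (n + 4) ^ 2) * ((2 * P - 1) * (P + 1) ^ 2) := by ring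
    _ ≤ D ^ 2 * (D + 2) ^ 2 * ((n + 1) * (n + 4) ^ 2) * (2 * P * (P + 2) ^ 2) := e1
    _ = 2 * D * (D + 2) ^ 2 * (P * (P + 2) ^ 2) * (D * ((n + 1) * (n + 4) ^ 2)) := by ring
    _ ≤ 2 * D * (D + 2) ^ 2 * (P * (P + 2) ^ 2) * ((D - 1.6) * (P * (n - 2) ^ 2)) := e2
    _ = 2 * D * (D - 1.6) * (D + 2) ^ 2 * ((P * (P + 2)) ^ 2 * (n - 2) ^ 2) := by ring
    _ ≤ (2 * D - 1) * (D + 1) * (D + 1) ^ 2 * ((P * (P + 2)) ^ 2 * (n - 2) ^ 2) := e3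
    _ = _ := by ring

theorem v4a_le {d p : ℕ} (hd : 160 ≤ d) (h2 : d + 4 ≤ 2 * p) (hp : 3 * p ≤ 2 * d) :
    v4a d p ≤ vt d p * rt2 d p - D2 d p := by
  have hdR : (160 : ℝ) ≤ d := by exact_mod_cast hd
  have h2R : (d : ℝ) + 4 ≤ 2 * p := by exact_mod_cast h2
  have hpR : 3 * (p : ℝ) ≤ 2 * d := by exact_mod_cast hp
  obtain ⟨n, hn⟩ : ∃ n : ℝ, n = 2 * (p : ℝ) - d := ⟨_, rfl⟩
  have hn4 : 4 ≤ n := by linarith
  have hn3 : 3 * n ≤ d := by linarith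
  obtain ⟨hf0, hf2⟩ := N6a_f (d := d) (p := p) (by omega) (by omega) (by omega)
  have hm := N6a_main hdR hn4 hn3 (P := p) (by linarith)
  have hP1 : 0 < (p : ℝ) - 1 := by linarith
  have hP21 : 0 < 2 * (p : ℝ) - 1 := by linarith
  rw [N6a_w]
  rw [← hn] at hf2 ⊢
  set f := vt d p * rt2 d p with hf
  have hw : 3 * ((d : ℝ) + 4) / (((p : ℝ) + 1) * (n + 4)) ≤ 6 / (n + 4) := by
    rw [div_le_div_iff₀ (by nlinarith) (by linarith)]
    have : (d : ℝ) + 4 ≤ 2 * ((p : ℝ) + 1) := by linarith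
    nlinarith
  have hD : D2 d p ≤ f * ((n - 2) / (n + 4)) := by
    have hq : 0 ≤ (n - 2) / (n + 4) := div_nonneg (by linarith) (by linarith)
    have hfq : 0 ≤ f * ((n - 2) / (n + 4)) := mul_nonneg hf0 hq
    have hD0 : D2 d p = ((p : ℝ) + 1) * ((d : ℝ) * ((d : ℝ) + 2)) /
        (((p : ℝ) - 1) * ((p : ℝ) * ((p : ℝ) + 2)) * ((d : ℝ) + 1)) := by
      unfold D2 Dk
      rw [div_mul_div_comm, div_div]
    have hDn : 0 ≤ D2 d p := by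
      rw [hD0]
      refine div_nonneg ?_ ?_
      · positivity
      · exact mul_nonneg (mul_nonneg hP1.le (by positivity)) (by positivity)
    refine (sq_le_sq₀ hDn hfq).1 ?_
    rw [mul_pow, hf2, hD0, div_pow, div_pow, div_mul_div_comm, div_le_div_iff₀]
    · have k : 0 ≤ ((p : ℝ) - 1) ^ 2 := sq_nonneg _
      have := mul_le_mul_of_nonneg_left hm k
      calc (((p : ℝ) + 1) * ((d : ℝ) * ((d : ℝ) + 2))) ^ 2 *
            ((2 * (p : ℝ) - 1) * (n + 1) * ((p : ℝ) - 1) ^ 2 * (n + 4) ^ 2)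
          = ((p : ℝ) - 1) ^ 2 * ((((p : ℝ) + 1) * ((d : ℝ) * ((d : ℝ) + 2))) ^ 2 *
            ((2 * (p : ℝ) - 1) * (n + 1)) * (n + 4) ^ 2) := by ring
        _ ≤ _ := this
        _ = _ := by ring
    · have : (0 : ℝ) < p := by linarith
      have : (0 : ℝ) < d := by linarith
      positivity
    · have : 0 < n + 1 := by linarith
      have : 0 < n + 4 := by linarith
      positivity
  have hw2 : 1 - 6 / (n + 4) = (n - 2) / (n + 4) := by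
    have : n + 4 ≠ 0 := by linarith
    field_simp
    ring
  have h3 : 3 * ((d : ℝ) + 4) / (((p : ℝ) + 1) * (n + 4)) * f ≤ 6 / (n + 4) * f :=
    mul_le_mul_of_nonneg_right hw hf0
  rw [← hw2] at hD
  linarith

theorem v4a_small {d p : ℕ} (hd : 160 ≤ d) (hp : 2 * d < 3 * p) (hpd : p < d) : v4a d p ≤ 44 / (d : ℝ) ^ 2 := by
  have hdR : (160 : ℝ) ≤ d := by exact_mod_cast hd
  have hpR : 2 * (d : ℝ) ≤ 3 * p := by exact_mod_cast hp.le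
  have hd0 : (0 : ℝ) < d := by linarith
  obtain ⟨hf0, hf2⟩ := N6a_f (d := d) (p := p) (by omega) (by omega) (by omega)
  rw [N6a_w]
  have hw : 3 * ((d : ℝ) + 4) / (((p : ℝ) + 1) * (2 * (p : ℝ) - d + 4)) ≤ 13.5 / d := by
    have a1 : (2 * (d : ℝ) + 3) / 3 ≤ (p : ℝ) + 1 := by linarith
    have a2 : ((d : ℝ) + 12) / 3 ≤ 2 * (p : ℝ) - d + 4 := by linarith
    have a3 : (2 * (d : ℝ) + 3) / 3 * (((d : ℝ) + 12) / 3) ≤ ((p : ℝ) + 1) * (2 * (p : ℝ) - d + 4) :=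
      mul_le_mul a1 a2 (by positivity) (by linarith)
    rw [div_le_div_iff₀ (by nlinarith) hd0]
    nlinarith
  have hf : vt d p * rt2 d p ≤ 3.25 / d := by
    refine (sq_le_sq₀ hf0 (by positivity)).1 ?_
    rw [hf2, div_pow]
    have a1 : (4 * (d : ℝ) - 3) / 3 ≤ 2 * (p : ℝ) - 1 := by linarith
    have a2 : ((d : ℝ) + 3) / 3 ≤ 2 * (p : ℝ) - d + 1 := by linarith
    have a3 : (2 * (d : ℝ) - 3) / 3 ≤ (p : ℝ) - 1 := by linarith
    have a30 : 0 ≤ (2 * (d : ℝ) - 3) / 3 := by linarith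
    have a10 : 0 ≤ (4 * (d : ℝ) - 3) / 3 := by linarith
    have a4 : ((2 * (d : ℝ) - 3) / 3) ^ 2 ≤ ((p : ℝ) - 1) ^ 2 := pow_le_pow_left₀ a30 a3 2
    have a5 : (4 * (d : ℝ) - 3) / 3 * (((d : ℝ) + 3) / 3) ≤ (2 * (p : ℝ) - 1) * (2 * (p : ℝ) - d + 1) :=
      mul_le_mul a1 a2 (by positivity) (by linarith)
    have a6 : (4 * (d : ℝ) - 3) / 3 * (((d : ℝ) + 3) / 3) * ((2 * (d : ℝ) - 3) / 3) ^ 2 ≤
        (2 * (p : ℝ) - 1) * (2 * (p : ℝ) - d + 1) * ((p : ℝ) - 1) ^ 2 :=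
      mul_le_mul a5 a4 (by positivity) (mul_nonneg (by linarith) (by linarith))
    have a7 : 0 < (4 * (d : ℝ) - 3) / 3 * (((d : ℝ) + 3) / 3) * ((2 * (d : ℝ) - 3) / 3) ^ 2 := by
      have : 0 < (2 * (d : ℝ) - 3) / 3 := by linarith
      have : 0 < (4 * (d : ℝ) - 3) / 3 := by linarith
      positivity
    refine (div_le_div_of_nonneg_left (mul_nonneg (by linarith) (by linarith)) a7 a6).trans ?_
    rw [div_le_div_iff₀ a7 (by positivity)]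
    obtain ⟨e, he, he0⟩ : ∃ e : ℝ, (d : ℝ) = 160 + e ∧ 0 ≤ e := ⟨(d : ℝ) - 160, by ring, by linarith⟩
    rw [he]
    have : 0 ≤ e ^ 2 := by positivity
    have : 0 ≤ e ^ 3 := by positivity
    have : 0 ≤ e ^ 4 := by positivity
    nlinarith
  have h3 := mul_le_mul hw hf hf0 (by positivity)
  refine h3.trans ?_
  rw [div_mul_div_comm, ← sq]
  exact div_le_div_of_nonneg_right (by norm_num) (by positivity)

end Pool.Agent.TWC
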