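import Pool.Agent.TWC.N6a

/-!
# TWC-N6b: the sum for `d ≥ 160`

PROOF PLAN.  `a p = √(2 - d/p)`, `f = vt d p * rt2 d p`, `U p = (1 + 1/(3d)) * 2 * (a p - a (p-1)) - (d + 1 - 1/(d+1)) (1/(p - 1/2) - 1/(p + 1/2))` for `d + 4 ≤ 2 p`, `p < d`.
(i) `f ≤ (1 + 1/(3d)) 2 (a p - a (p-1))`: `√((d+1)/(2p-d+1)) ≤ √(d/(2p-d)) = √(d/p)/a p`, `√((2d-1)/(2p-1)) ≤ (1 + 1/(3d)) √(d/p)` (`(2d-1)p/((2p-1)d) ≤ (2d-1)/(2d-2) ≤ 1 + 2/(3d)` as `2p ≥ d`), and `d/(p(p-1)) = a(p)² - a(p-1)² ≤ 2 a(p) (a(p) - a(p-1))`.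
(ii) `D2 d p ≥ (d + 1 - 1/(d+1))/(p² - 1/4)`: `d(d+2)/(d+1) = d + 1 - 1/(d+1)` and `(p+1)(p² - 1/4) ≥ (p-1) p (p+2)`.  So `f - D2 ≤ U p`.  (iii) `0 ≤ U p`: `a ≤ 1`, so `2 (a(p) - a(p-1)) ≥ d/(p(p-1))`, and `(d + 1/3)(p² - 1/4) ≥ (d+1) p (p-1)` for `p ≤ d - 1`.
(iv) `max (f - D2) (v4a) ≤ U p + e p`, `e p = 0` if `3p ≤ 2d`, `e p = 44/d²` otherwise (`v4a_le`, `v4a_small`); at most `d/3` values of `p < d` have `3p > 2d`, so `∑ e ≤ 44/(3d) ≤ 14.7/d`.
(v) the sum over `p = k+1, ..., d-1` (`k = d - j`, `p = d - i + 1`) telescopes: `∑ U = (1 + 1/(3d)) 2 (a(d-1) - a(k)) - (d+1-1/(d+1)) (1/(k+1/2) - 1/(d-1/2)) ≤ 2 (1 - q) + 2/(3d) - (2 - q²) + 1 + 1.52/d`, `q = a k`, `q² = 2 - d/k`: `(d+1-1/(d+1))/(k+1/2) ≥ d/k`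
(`k - k/(d+1) ≥ d/2`, as `k ≥ d/2 + 1`, `k < d + 1`), `(d+1)/(d-1/2) ≤ 1 + 1.52/d`.  So `∑ max ≤ (1-q)² + 16.9/d`, and dividing by `1 - 3/(d²-1)` (the sum is `≤ 1.2`) costs at most `.1/d`.  If `j = 1` or the sum is empty nothing is to prove.
-/

set_option autoImplicit false

namespace Pool.Agent.TWC

open MeasureTheory ProbabilityTheory Set Filter Topology Metric
open Pool.Agent.HP89 Pool.Agent.FI75 Pool.Agent.PBL Pool.Agent.HRJ
open scoped RealInnerProductSpace ENNReal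

private theorem n6b_f {D P : ℝ} (hD : 160 ≤ D) (h2 : D + 4 ≤ 2 * P) (hP : P + 1 ≤ D) :
    √((2 * D - 1) / (2 * P - 1)) / (P - 1) * √((D + 1) / (2 * P - D + 1)) ≤
      (1 + 1 / (3 * D)) * (D / (√(2 - D / P) * (P * (P - 1)))) := by
  have hD0 : 0 < D := by linarith
  have hP0 : 0 < P := by linarith
  have hP1 : 0 < P - 1 := by linarith
  have hn : 0 < 2 * P - D := by linarith
  have hS2 : 2 - D / P = (2 * P - D) / P := by field_simp
  have hS0 : 0 < 2 - D / P := by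
    rw [hS2]
    exact div_pos hn hP0
  have hS : 0 < √(2 - D / P) := Real.sqrt_pos.2 hS0
  have hSq : √(2 - D / P) ^ 2 = (2 * P - D) / P := by
    rw [Real.sq_sqrt hS0.le, hS2]
  have hX : (2 * D - 1) / (2 * P - 1) ≤ (1 + 1 / (3 * D)) ^ 2 * (D / P) := by
    have h1 : (2 * D - 1) / (2 * P - 1) ≤ (1 + 2 / (3 * D)) * (D / P) := by
      have h3 : (1 + 2 / (3 * D)) * (D / P) = (D + 2 / 3) / P := by
        field_simp
      rw [h3, div_le_div_iff₀ (by linarith) hP0]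
      nlinarith
    refine h1.trans (mul_le_mul_of_nonneg_right ?_ (div_pos hD0 hP0).le)
    have h4 : (1 + 1 / (3 * D)) ^ 2 = 1 + 2 / (3 * D) + (1 / (3 * D)) ^ 2 := by
      ring
    rw [h4]
    have := sq_nonneg (1 / (3 * D))
    linarith
  have hY : (D + 1) / (2 * P - D + 1) ≤ D / (2 * P - D) := by
    rw [div_le_div_iff₀ (by linarith) hn]
    nlinarith
  have hX0 : 0 ≤ (2 * D - 1) / (2 * P - 1) := div_nonneg (by linarith) (by linarith)
  have hY0 : 0 ≤ (D + 1) / (2 * P - D + 1) := div_nonneg (by linarith) (by linarith)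
  have hR : √((2 * D - 1) / (2 * P - 1)) * √((D + 1) / (2 * P - D + 1)) ≤
      (1 + 1 / (3 * D)) * (D / (√(2 - D / P) * P)) := by
    rw [← Real.sqrt_mul hX0]
    apply Real.sqrt_le_iff.2
    constructor
    · positivity
    · calc (2 * D - 1) / (2 * P - 1) * ((D + 1) / (2 * P - D + 1))
          ≤ ((1 + 1 / (3 * D)) ^ 2 * (D / P)) * (D / (2 * P - D)) :=
            mul_le_mul hX hY hY0 (by positivity)
        _ = ((1 + 1 / (3 * D)) * (D / (√(2 - D / P) * P))) ^ 2 := by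
            rw [mul_pow, div_pow, mul_pow, hSq]
            field_simp
  calc √((2 * D - 1) / (2 * P - 1)) / (P - 1) * √((D + 1) / (2 * P - D + 1))
      = (√((2 * D - 1) / (2 * P - 1)) * √((D + 1) / (2 * P - D + 1))) / (P - 1) := by ring
    _ ≤ ((1 + 1 / (3 * D)) * (D / (√(2 - D / P) * P))) / (P - 1) := div_le_div_of_nonneg_right hR hP1.le
    _ = (1 + 1 / (3 * D)) * (D / (√(2 - D / P) * (P * (P - 1)))) := by
        field_simp

private theorem n6b_diff {D P : ℝ} (hD : 160 ≤ D) (h2 : D + 4 ≤ 2 * P) :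
    D / (√(2 - D / P) * (P * (P - 1))) ≤ 2 * (√(2 - D / P) - √(2 - D / (P - 1))) := by
  have hD0 : 0 < D := by linarith
  have hP0 : 0 < P := by linarith
  have hP1 : 0 < P - 1 := by linarith
  have hA0 : 0 < 2 - D / P := by
    have : D / P < 2 := by
      rw [div_lt_iff₀ hP0]
      linarith
    linarith
  have hB0 : 0 ≤ 2 - D / (P - 1) := by
    have : D / (P - 1) ≤ 2 := by
      rw [div_le_iff₀ hP1]
      linarith
    linarith
  have hle : D / P ≤ D / (P - 1) := div_le_div_of_nonneg_left hD0.le hP1 (by linarith)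
  have hAB : √(2 - D / (P - 1)) ≤ √(2 - D / P) := Real.sqrt_le_sqrt (by linarith)
  have hA : 0 < √(2 - D / P) := Real.sqrt_pos.2 hA0
  have hB : 0 ≤ √(2 - D / (P - 1)) := Real.sqrt_nonneg _
  have hd : √(2 - D / P) ^ 2 - √(2 - D / (P - 1)) ^ 2 = D / (P * (P - 1)) := by
    rw [Real.sq_sqrt hA0.le, Real.sq_sqrt hB0]
    field_simp
    ring
  generalize √(2 - D / P) = A at hA hAB hd ⊢
  generalize √(2 - D / (P - 1)) = B at hB hAB hd ⊢
  have h1 : D / (A * (P * (P - 1))) = (D / (P * (P - 1))) / A := by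
    rw [div_div, mul_comm]
  rw [h1, ← hd, div_le_iff₀ hA]
  nlinarith

private theorem n6b_max {d p : ℕ} (hd : 160 ≤ d) (h2 : d + 4 ≤ 2 * p) (hpd : p < d) :
    max (vt d p * rt2 d p - D2 d p) (v4a d p) ≤
      (1 + 1 / (3 * (d : ℝ))) * (2 * (√(2 - (d : ℝ) / p) - √(2 - (d : ℝ) / ((p : ℝ) - 1)))) -
      ((d : ℝ) + 1 - 1 / ((d : ℝ) + 1)) * (1 / ((p : ℝ) - 1 / 2) - 1 / ((p : ℝ) + 1 / 2)) +
      (if 2 * d < 3 * p then 44 / (d : ℝ) ^ 2 else 0) := by
  have hD : (160 : ℝ) ≤ d := by exact_mod_cast hd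
  have h2' : (d : ℝ) + 4 ≤ 2 * p := by exact_mod_cast h2
  have hP : (p : ℝ) + 1 ≤ d := by exact_mod_cast hpd
  have hf := n6b_f hD h2' hP
  have hdf := n6b_diff hD h2'
  set D : ℝ := (d : ℝ) with hDd
  set P : ℝ := (p : ℝ) with hPp
  have hD0 : 0 < D := by linarith
  have hP0 : 0 < P := by linarith
  have hP1 : 0 < P - 1 := by linarith
  have hc : 0 < 1 + 1 / (3 * D) := by positivity
  -- step (i)
  have h3 : vt d p * rt2 d p ≤ (1 + 1 / (3 * D)) * (2 * (√(2 - D / P) - √(2 - D / (P - 1)))) := by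
    unfold vt rt2
    exact hf.trans (mul_le_mul_of_nonneg_left hdf hc.le)
  have hq : 1 / (P - 1 / 2) - 1 / (P + 1 / 2) = 1 / (P ^ 2 - 1 / 4) := by
    have h5 : P - 1 / 2 ≠ 0 := by
      have : 0 < P - 1 / 2 := by linarith
      exact this.ne'
    have h6 : P + 1 / 2 ≠ 0 := by positivity
    have h7 : P ^ 2 - 1 / 4 = (P - 1 / 2) * (P + 1 / 2) := by ring
    rw [h7, div_sub_div _ _ h5 h6]
    congr 1
    ring
  have hq0 : 0 < P ^ 2 - 1 / 4 := by nlinarith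
  have hg : D + 1 - 1 / (D + 1) = D * (D + 2) / (D + 1) := by
    field_simp
    ring
  -- step (ii)
  have h4 : (D + 1 - 1 / (D + 1)) * (1 / (P - 1 / 2) - 1 / (P + 1 / 2)) ≤ D2 d p := by
    rw [hq, hg]
    unfold D2 Dk
    rw [← hDd, ← hPp]
    have h8 : (P + 1) / (P - 1) * (D * (D + 2) / (P * (P + 2))) / (D + 1) =
        D * (D + 2) / (D + 1) * ((P + 1) / (P * (P - 1) * (P + 2))) := by
      field_simp
    rw [h8]
    refine mul_le_mul_of_nonneg_left ?_ (by positivity)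
    rw [div_le_div_iff₀ hq0 (by positivity)]
    nlinarith
  -- step (iii)
  have hA1 : √(2 - D / P) ≤ 1 := by
    rw [← Real.sqrt_one]
    apply Real.sqrt_le_sqrt
    have : 1 ≤ D / P := by
      rw [le_div_iff₀ hP0]
      linarith
    linarith
  have hA0 : 0 < √(2 - D / P) := by
    apply Real.sqrt_pos.2
    have : D / P < 2 := by
      rw [div_lt_iff₀ hP0]
      linarith
    linarith
  have h5 : (D + 1 - 1 / (D + 1)) * (1 / (P - 1 / 2) - 1 / (P + 1 / 2)) ≤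
      (1 + 1 / (3 * D)) * (2 * (√(2 - D / P) - √(2 - D / (P - 1)))) := by
    have h9 : D / (P * (P - 1)) ≤ 2 * (√(2 - D / P) - √(2 - D / (P - 1))) := by
      refine le_trans ?_ hdf
      apply div_le_div_of_nonneg_left hD0.le (by positivity)
      have : 0 < P * (P - 1) := by positivity
      nlinarith
    refine le_trans ?_ (mul_le_mul_of_nonneg_left h9 hc.le)
    have h10 : (1 + 1 / (3 * D)) * (D / (P * (P - 1))) = (D + 1 / 3) / (P * (P - 1)) := by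
      field_simp
    rw [h10, hq]
    have h11 : (D + 1 - 1 / (D + 1)) * (1 / (P ^ 2 - 1 / 4)) ≤ (D + 1) / (P ^ 2 - 1 / 4) := by
      rw [mul_one_div]
      apply div_le_div_of_nonneg_right _ hq0.le
      have : 0 < 1 / (D + 1) := by positivity
      linarith
    refine h11.trans ?_
    rw [div_le_div_iff₀ hq0 (by positivity)]
    nlinarith
  have h6 : vt d p * rt2 d p - D2 d p ≤
      (1 + 1 / (3 * D)) * (2 * (√(2 - D / P) - √(2 - D / (P - 1)))) -
      (D + 1 - 1 / (D + 1)) * (1 / (P - 1 / 2) - 1 / (P + 1 / 2)) := by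
    linarith
  by_cases h7 : 2 * d < 3 * p
  · rw [if_pos h7]
    have h8 := v4a_small hd h7 hpd
    rw [← hDd] at h8
    apply max_le
    · have : 0 ≤ 44 / D ^ 2 := by positivity
      linarith
    · linarith
  · rw [if_neg h7, add_zero]
    have h8 := v4a_le hd h2 (by omega)
    exact max_le h6 (h8.trans h6)

private theorem n6b_sum {d : ℕ} (hd : 160 ≤ d) (j : ℕ) (hj : 1 ≤ j) (hjd : 2 * j + 2 ≤ d) :
    ∑ i ∈ Finset.Icc 2 j, max (vt d (d - i + 1) * rt2 d (d - i + 1) - D2 d (d - i + 1)) (v4a d (d - i + 1)) ≤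
      (1 + 1 / (3 * (d : ℝ))) * (2 * (√(2 - (d : ℝ) / ((d : ℝ) - 1)) - √(2 - (d : ℝ) / ((d : ℝ) - j)))) -
      ((d : ℝ) + 1 - 1 / ((d : ℝ) + 1)) * (1 / ((d : ℝ) - j + 1 / 2) - 1 / ((d : ℝ) - 1 + 1 / 2)) +
      ∑ i ∈ Finset.Icc 2 j, (if 3 * i < d + 3 then 44 / (d : ℝ) ^ 2 else 0) := by
  induction j, hj using Nat.le_induction with
  | base => simp
  | succ j hj ih =>
    have h1 := ih (by omega)
    rw [Finset.sum_Icc_succ_top (by omega), Finset.sum_Icc_succ_top (by omega)]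
    have h2 := n6b_max (d := d) (p := d - (j + 1) + 1) hd (by omega) (by omega)
    have h3 : ((d - (j + 1) + 1 : ℕ) : ℝ) = (d : ℝ) - j := by
      have : d - (j + 1) + 1 = d - j := by omega
      rw [this, Nat.cast_sub (by omega)]
    rw [h3] at h2
    have h4 : (2 * d < 3 * (d - (j + 1) + 1)) ↔ (3 * (j + 1) < d + 3) := by omega
    simp only [h4] at h2
    have h5 : ((j + 1 : ℕ) : ℝ) = (j : ℝ) + 1 := by push_cast; ring
    rw [h5]
    have h6 : (d : ℝ) - ((j : ℝ) + 1) = (d : ℝ) - j - 1 := by ring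
    have h7 : (d : ℝ) - ((j : ℝ) + 1) + 1 / 2 = (d : ℝ) - j - 1 / 2 := by ring
    rw [h7, h6]
    have h8 : (d : ℝ) - j + 1 / 2 = (d : ℝ) - j + 1 / 2 := rfl
    linarith

private theorem n6b_e {d : ℕ} (hd : 160 ≤ d) (j : ℕ) :
    ∑ i ∈ Finset.Icc 2 j, (if 3 * i < d + 3 then 44 / (d : ℝ) ^ 2 else 0) ≤ 44 / (3 * (d : ℝ)) := by
  have hD : (160 : ℝ) ≤ d := by exact_mod_cast hd
  rw [← Finset.sum_filter, Finset.sum_const, nsmul_eq_mul]
  have h1 : ((Finset.Icc 2 j).filter fun i => 3 * i < d + 3).card ≤ (d + 2) / 3 + 1 - 2 := by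
    rw [← Nat.card_Icc]
    apply Finset.card_le_card
    intro i hi
    rw [Finset.mem_filter, Finset.mem_Icc] at hi
    rw [Finset.mem_Icc]
    omega
  have h2 : 3 * ((Finset.Icc 2 j).filter fun i => 3 * i < d + 3).card ≤ d := by omega
  have h3 : 3 * (((Finset.Icc 2 j).filter fun i => 3 * i < d + 3).card : ℝ) ≤ d := by exact_mod_cast h2
  have h4 : (44 : ℝ) / (3 * (d : ℝ)) = (d / 3) * (44 / (d : ℝ) ^ 2) := by
    field_simp
  rw [h4]
  apply mul_le_mul_of_nonneg_right _ (by positivity)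
  linarith

theorem Sa_le {d j : ℕ} (hd : 160 ≤ d) (hj : 2 ≤ j) (hjd : 2 * j + 2 ≤ d) :
    Sa d j ≤ (1 - √(2 - (d : ℝ) / ((d : ℝ) - j))) ^ 2 + 17 / (d : ℝ) := by
  have hD : (160 : ℝ) ≤ d := by exact_mod_cast hd
  have hjd' : 2 * (j : ℝ) + 2 ≤ d := by exact_mod_cast hjd
  have hj' : (2 : ℝ) ≤ j := by exact_mod_cast hj
  have hs := (n6b_sum hd j (by omega) hjd).trans (add_le_add_right (n6b_e hd j) _)
  unfold Sa Ta
  rw [← Finset.sum_div]
  set S := ∑ i ∈ Finset.Icc 2 j, max (vt d (d - i + 1) * rt2 d (d - i + 1) - D2 d (d - i + 1)) (v4a d (d - i + 1))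
  set D : ℝ := (d : ℝ) with hDd
  have hD0 : 0 < D := by linarith
  set k : ℝ := D - j with hk
  have hk0 : D / 2 + 1 ≤ k := by linarith
  have hkD : k ≤ D := by linarith
  have hkp : 0 < k := by linarith
  have hq0 : 0 ≤ 2 - D / k := by
    have : D / k ≤ 2 := by
      rw [div_le_iff₀ hkp]
      linarith
    linarith
  have hq1 : √(2 - D / k) ≤ 1 := by
    rw [← Real.sqrt_one]
    apply Real.sqrt_le_sqrt
    have : 1 ≤ D / k := by
      rw [le_div_iff₀ hkp]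
      linarith
    linarith
  have hqq : √(2 - D / k) ^ 2 = 2 - D / k := Real.sq_sqrt hq0
  have hqn : 0 ≤ √(2 - D / k) := Real.sqrt_nonneg _
  generalize √(2 - D / k) = q at hs hq1 hqq hqn ⊢
  have ha1 : √(2 - D / (D - 1)) ≤ 1 := by
    rw [← Real.sqrt_one]
    apply Real.sqrt_le_sqrt
    have : 1 ≤ D / (D - 1) := by
      rw [le_div_iff₀ (by linarith)]
      linarith
    linarith
  have h1 : (1 + 1 / (3 * D)) * (2 * (√(2 - D / (D - 1)) - q)) ≤ 2 * (1 - q) + 2 / (3 * D) := by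
    have h2 : (1 + 1 / (3 * D)) * (2 * (√(2 - D / (D - 1)) - q)) ≤ (1 + 1 / (3 * D)) * (2 * (1 - q)) :=
      mul_le_mul_of_nonneg_left (by linarith) (by positivity)
    refine h2.trans ?_
    have h3 : (1 + 1 / (3 * D)) * (2 * (1 - q)) = 2 * (1 - q) + 2 / (3 * D) * (1 - q) := by
      ring
    rw [h3]
    have h4 : 2 / (3 * D) * (1 - q) ≤ 2 / (3 * D) * 1 := mul_le_mul_of_nonneg_left (by linarith) (by positivity)
    linarith
  have hb : D / k ≤ (D + 1 - 1 / (D + 1)) * (1 / (k + 1 / 2)) := by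
    rw [mul_one_div, div_le_div_iff₀ hkp (by linarith)]
    have h5 : k / (D + 1) ≤ 1 := by
      rw [div_le_one (by linarith)]
      linarith
    have h6 : (D + 1 - 1 / (D + 1)) * k = D * k + k - k / (D + 1) := by ring
    rw [h6]
    nlinarith
  have hb1 : (D + 1 - 1 / (D + 1)) * (1 / (D - 1 + 1 / 2)) ≤ 1 + 1.52 / D := by
    have h5 : (D + 1 - 1 / (D + 1)) * (1 / (D - 1 + 1 / 2)) ≤ (D + 1) * (1 / (D - 1 + 1 / 2)) := by
      apply mul_le_mul_of_nonneg_right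
      · have : 0 < 1 / (D + 1) := by positivity
        linarith
      · have : 0 < D - 1 + 1 / 2 := by linarith
        positivity
    refine h5.trans ?_
    have h6 : 1 + 1.52 / D = (D + 1.52) / D := by
      field_simp
    rw [h6, mul_one_div, div_le_div_iff₀ (by linarith) hD0]
    nlinarith
  have hS : S ≤ (1 - q) ^ 2 + 16.86 / D := by
    have h7 : (1 - q) ^ 2 = 2 * (1 - q) - D / k + 1 := by
      have : D / k = 2 - q ^ 2 := by linarith
      rw [this]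
      ring
    have h8 : (16.86 : ℝ) / D ≥ 2 / (3 * D) + 1.52 / D + 44 / (3 * D) := by
      rw [ge_iff_le, ← sub_nonneg]
      have : 16.86 / D - (2 / (3 * D) + 1.52 / D + 44 / (3 * D)) = (16.86 - 2 / 3 - 1.52 - 44 / 3) / D := by
        ring
      rw [this]
      apply div_nonneg _ hD0.le
      norm_num
    have h9 : (D + 1 - 1 / (D + 1)) * (1 / (k + 1 / 2) - 1 / (D - 1 + 1 / 2)) =
        (D + 1 - 1 / (D + 1)) * (1 / (k + 1 / 2)) - (D + 1 - 1 / (D + 1)) * (1 / (D - 1 + 1 / 2)) := by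
      ring
    rw [h9] at hs
    linarith
  have hD2 : 0 < D ^ 2 - 1 := by nlinarith
  have hε : 3 / (D ^ 2 - 1) ≤ 0.11 / D := by
    rw [div_le_div_iff₀ hD2 hD0]
    nlinarith
  have hε0 : 0 < 1 - 3 / (D ^ 2 - 1) := by
    have : (0.11 : ℝ) / D ≤ 0.11 / 160 := div_le_div_of_nonneg_left (by norm_num) (by norm_num) hD
    have : (0.11 : ℝ) / 160 < 1 := by norm_num
    linarith
  rw [div_le_iff₀ hε0]
  have hT : (1 - q) ^ 2 + 17 / D ≤ 1.2 := by
    have h10 : (1 - q) ^ 2 ≤ 1 := by nlinarith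
    have h11 : (17 : ℝ) / D ≤ 17 / 160 := div_le_div_of_nonneg_left (by norm_num) (by norm_num) hD
    have h12 : (17 : ℝ) / 160 ≤ 0.2 := by norm_num
    linarith
  have hT0 : 0 ≤ (1 - q) ^ 2 + 17 / D := by positivity
  have h13 : ((1 - q) ^ 2 + 17 / D) * (3 / (D ^ 2 - 1)) ≤ 1.2 * (0.11 / D) := by
    apply mul_le_mul hT hε (by positivity) (by norm_num)
  have h14 : (1.2 : ℝ) * (0.11 / D) + 16.86 / D ≤ 17 / D := by
    have : 17 / D - (1.2 * (0.11 / D) + 16.86 / D) = (17 - 1.2 * 0.11 - 16.86) / D := by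
      ring
    have h15 : 0 ≤ (17 - 1.2 * 0.11 - 16.86) / D := by
      apply div_nonneg _ hD0.le
      norm_num
    linarith
  have h16 : ((1 - q) ^ 2 + 17 / D) * (1 - 3 / (D ^ 2 - 1)) =
      ((1 - q) ^ 2 + 17 / D) - ((1 - q) ^ 2 + 17 / D) * (3 / (D ^ 2 - 1)) := by ring
  rw [h16]
  linarith

theorem Sa_nonneg {d j : ℕ} (hj : 2 ≤ j) (hjd : 2 * j + 2 ≤ d) : 0 ≤ Sa d j := by
  have hD : (6 : ℝ) ≤ d := by
    have : 6 ≤ d := by omega
    exact_mod_cast this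
  unfold Sa
  refine Finset.sum_nonneg fun i hi => ?_
  rw [Finset.mem_Icc] at hi
  have h1 : d + 4 ≤ 2 * (d - i + 1) := by omega
  have h2 : (d : ℝ) + 4 ≤ 2 * ((d - i + 1 : ℕ) : ℝ) := by exact_mod_cast h1
  unfold Ta
  have hD2 : 0 < (d : ℝ) ^ 2 - 1 := by nlinarith
  have hε : 3 / ((d : ℝ) ^ 2 - 1) ≤ 1 := by
    rw [div_le_one hD2]
    nlinarith
  apply div_nonneg
  · apply le_max_of_le_right
    unfold v4a vt rt2
    generalize ((d - i + 1 : ℕ) : ℝ) = P at h2 ⊢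
    have hP1 : 0 ≤ P - 1 := by linarith
    have hP2 : 0 ≤ P + 1 := by linarith
    have hn : 0 ≤ 2 * P - d + 4 := by linarith
    positivity
  · linarith

end Pool.Agent.TWC
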